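import Pool.Agent.P.MP_d66c6d_pr.U.Defs
import Pool.Agent.P.MP_d66c6d_pr.C.Iface

/-!
Statements of the chapter on uniformity in the outside, path level.
-/

namespace Pool.Agent.P.MP_d66c6d_pr

open MeasureTheory ProbabilityTheory Set Metric Filter Topology
open scoped ENNReal

-- deps: CUT
/-- Paths in real time. -/
def S_EV : Prop :=
  (∀ p : TP, 0 < p.1 → ev p 0 = p.2 0 ∧ ev p p.1 = p.2 1 ∧ range p.2 = ev p '' Icc 0 p.1 ∧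
    (∀ s : unitInterval, ev p ((s : ℝ) * p.1) = p.2 s) ∧
    (∀ u ∈ Icc 0 p.1, ∃ s : unitInterval, (s : ℝ) * p.1 = u ∧ p.2 s = ev p u) ∧
    (∀ u, ev (trev p) u = ev p (p.1 - u)) ∧ trev (trev p) = p ∧
    range (trev p).2 = range p.2 ∧ (trev p).2 0 = p.2 1 ∧ (trev p).2 1 = p.2 0) ∧
  (∀ (p : TP) (a : ℝ), 0 < a → a < p.1 → (∀ u ∈ Icc 0 a, ev (hd a p) u = ev p u) ∧
    (∀ u ∈ Icc 0 (p.1 - a), ev (tl a p) u = ev p (a + u)) ∧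
    range (hd a p).2 = ev p '' Icc 0 a ∧ range (tl a p).2 = ev p '' Icc a p.1 ∧
    (hd a p).2 1 = (tl a p).2 0 ∧ tcat (hd a p) (tl a p) = p) ∧
  (∀ p q : TP, 0 < p.1 → 0 < q.1 → p.2 1 = q.2 0 →
    hd p.1 (tcat p q) = p ∧ tl p.1 (tcat p q) = q ∧
    (∀ u ∈ Icc 0 p.1, ev (tcat p q) u = ev p u) ∧
    (∀ u ∈ Icc 0 q.1, ev (tcat p q) (p.1 + u) = ev q u) ∧
    range (tcat p q).2 = range p.2 ∪ range q.2 ∧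
    (tcat p q).2 0 = p.2 0 ∧ (tcat p q).2 1 = q.2 1) ∧
  ∀ V : ℂ → ℝ≥0∞, Measurable V → ∀ p : TP, 0 < p.1 →
    occ V p = ∫⁻ u in Ioo (0 : ℝ) p.1, V (ev p u)

-- deps: FILL
-- imports: Pool.Agent.P.MP_d66c6d_pr.S.Surr
/-- Measurability of the cutting conditions. -/
def S_UM : Prop := ∀ (c : ℂ) (ρ : ℝ),
  MeasurableSet (Inn c ρ) ∧ IsOpen (NDs c ρ) ∧ MeasurableSet (An5 c ρ) ∧ MeasurableSet (An6 c ρ) ∧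
  MeasurableSet {γ : Br | AdmS c ρ γ} ∧
  (∀ δ, MeasurableSet (cutA c ρ δ) ∧ MeasurableSet (cutB c ρ δ) ∧ MeasurableSet (tri c ρ δ) ∧
    Measurable (wcut c ρ δ)) ∧
  (∀ k u, IsOpen {γ : Br | Cr c ρ γ k u}) ∧ (0 < ρ → ∀ γ : Br, ∃ k, ¬ Cr c ρ γ k 0) ∧
  (∀ γ k u, Cr c ρ γ (k + 1) u → Cr c ρ γ k u) ∧
  (∀ τ, IsClosed (fast ρ τ)) ∧ Measurable (Wt ρ) ∧
  ∀ r, MeasurableSet (rset c ρ r) ∧ Measurable (wr c ρ r)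

-- deps: MARK SPLIT REV
/-- Marking real times under the Green measure, and splitting at a fixed real time. -/
def S_MARKR : Prop := ∀ ν : Measure Br, IsBridge ν → ∀ x y : ℂ,
  (∀ Ψ : TP × TP → ℝ≥0∞, Measurable Ψ →
    ∫⁻ p, ∫⁻ a in Ioo (0 : ℝ) p.1, Ψ (hd a p, tl a p) ∂volume ∂grM ν x y =
      ∫⁻ z, ∫⁻ p, ∫⁻ q, Ψ (p, q) ∂grM ν z y ∂grM ν x z) ∧
  (∀ τ : ℝ, 0 < τ → ∀ Ψ : TP × TP → ℝ≥0∞, Measurable Ψ →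
    ∫⁻ p in {p : TP | τ < p.1}, Ψ (hd τ p, tl τ p) ∂grM ν x y =
      ∫⁻ z, ∫⁻ α, ∫⁻ q, Ψ ((τ, α), q) ∂grM ν z y ∂brM ν τ x z) ∧
  ∀ Ψ : TP × TP × TP → ℝ≥0∞, Measurable Ψ →
    ∫⁻ p, ∫⁻ a in Ioo (0 : ℝ) p.1, ∫⁻ a' in Ioo (0 : ℝ) (p.1 - a), Ψ (pcs a a' p)
        ∂volume ∂volume ∂grM ν x y =
      ∫⁻ z, ∫⁻ α, ∫⁻ z', ∫⁻ β, ∫⁻ ω, Ψ (α, β, ω) ∂grM ν z' y ∂grM ν z z' ∂volume ∂grM ν x z

-- deps: EV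
/-- The admissible cut times fill at most a square of side `δ`. -/
def S_WTA : Prop := ∀ (c : ℂ) (ρ : ℝ), 0 < ρ → ∀ p : TP, 0 < p.1 → ∀ δ : ℝ, 0 < δ →
  wcut c ρ δ p ≤ ENNReal.ofReal (δ ^ 2) ∧
  (Disjoint (range p.2) (ball c (3 * ρ)) → wcut c ρ δ p = 0)

-- deps: EV
/-- For small `δ` the admissible cut times fill a square of side `δ`. -/
def S_WTB : Prop := ∀ (c : ℂ) (ρ : ℝ), 0 < ρ → ∀ p : TP, 0 < p.1 → AdmS c ρ p.2 →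
  AdmS c ρ (rev p.2) → (range p.2 ∩ ball c (3 * ρ)).Nonempty →
  ∃ δ₀ > (0 : ℝ), ∀ δ ∈ Ioo 0 δ₀, ENNReal.ofReal (δ ^ 2) ≤ wcut c ρ δ p

-- deps: EV UM
/-- Cutting the first deep strand lowers the number of crossings. -/
def S_WTC : Prop := ∀ (c : ℂ) (ρ δ : ℝ), 0 < ρ → ∀ α β ω : TP, 0 < α.1 → 0 < β.1 → 0 < ω.1 →
  α.2 1 = β.2 0 → β.2 1 = ω.2 0 → (α, β, ω) ∈ tri c ρ δ →
  AdmS c ρ (rev (tcat α (tcat β ω)).2) →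
  AdmS c ρ (rev ω.2) ∧ ∀ k, Cr c ρ ω.2 k 0 → Cr c ρ (tcat α (tcat β ω)).2 (k + 1) 0

-- deps: EV
/-- Replacement of a deep strand. -/
def S_REL : Prop := ∀ (c : ℂ) (ρ : ℝ), 0 < ρ →
  (∀ p p', Rel c ρ p p' → Rel c ρ p' p) ∧
  (∀ p q q' : TP, 0 < p.1 → p.2 1 = q.2 0 → Rel c ρ q q' → Rel c ρ (tcat p q) (tcat p q')) ∧
  (∀ β β' ω : TP, 0 < β.1 → 0 < β'.1 → 0 < ω.1 → β ∈ Inn c ρ → β' ∈ Inn c ρ →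
    β.2 0 = β'.2 0 → β.2 1 = ω.2 0 → β'.2 1 = ω.2 0 → Rel c ρ (tcat β ω) (tcat β' ω)) ∧
  (∀ p p' δ, Rel c ρ p p' → p ∈ cutB c ρ δ → p' ∈ cutB c ρ δ) ∧
  (∀ p p', Rel c ρ p p' → p.2 0 = p'.2 0 ∧ p.2 1 = p'.2 1 ∧
    range p.2 \ ball c (10 * ρ) = range p'.2 \ ball c (10 * ρ) ∧
    occ ((closedBall c (9 * ρ))ᶜ.indicator 1) p = occ ((closedBall c (9 * ρ))ᶜ.indicator 1) p') ∧
  ∀ (p p' : TP) (c₀ : ℂ) (ρ₀ r₀ : ℝ), Rel c ρ p p' → 0 < ρ₀ → r₀ ≤ 3 * ρ₀ →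
    ball c (10 * ρ) ⊆ ball c₀ r₀ → wr c₀ ρ₀ r₀ p = wr c₀ ρ₀ r₀ p'

-- deps: EV UM MARKR WTA WTB WTC REL REV
/-- Peeling off the deep strands of one path. -/
def S_SINGLE : Prop := ∀ ν : Measure Br, IsBridge ν → ∀ (c : ℂ) (ρ : ℝ), 0 < ρ →
  ∀ H, SupH ν c ρ H → ∀ (x y : ℂ) (l : Set TP) (G : TP → ℝ≥0∞), Measurable G →
  (∀ p p', Rel c ρ p p' → G p = G p') →
  (∀ p, G p ≠ 0 → AdmS c ρ p.2 ∧ AdmS c ρ (rev p.2)) →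
  ∫⁻ p in NDs c ρ, H (insert p l) * G p ∂grM ν x y ≤ H l * ∫⁻ p, G p ∂grM ν x y

-- deps: EV UM MARKR REV
/-- A Harnack inequality in the starting point. -/
def S_HAR : Prop := ∃ C : ℝ≥0∞, C ≠ ∞ ∧ ∀ ν : Measure Br, IsBridge ν → ∀ ρ : ℝ, 0 < ρ →
  ∀ (x y : ℂ) (Ψ Ψ' : TP → ℝ≥0∞), Measurable Ψ → Measurable Ψ' →
  (∀ p, Ψ p ≠ 0 → ¬ range p.2 ⊆ ball x ρ) →
  (∀ (p : TP) (a : ℝ), 0 < a → a < p.1 → range (hd a p).2 ⊆ ball x ρ → Ψ p ≤ Ψ' (tl a p)) →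
  ∫⁻ p, Ψ p ∂grM ν x y ≤
    C * ENNReal.ofReal (ρ⁻¹ ^ 2) * ∫⁻ z in ball x ρ, ∫⁻ q, Wt ρ q * Ψ' q ∂grM ν z y

-- deps: EV UM HAR REV
/-- Domination of the deep strands by the reference measure. -/
def S_HART : Prop := ∃ C : ℝ≥0∞, C ≠ ∞ ∧ ∀ ν : Measure Br, IsBridge ν → ∀ (c : ℂ) (ρ r : ℝ),
  0 < ρ → r ≤ 3 * ρ → ∀ x ∈ An5 c ρ, ∀ y ∈ An5 c ρ, ∀ F : TP → ℝ≥0∞, Measurable F →
  (∀ p p' : TP, range p.2 ∩ ball c (3 * ρ) = range p'.2 ∩ ball c (3 * ρ) → F p = F p') →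
  ∫⁻ p in {p : TP | range p.2 ⊆ closedBall c (9 * ρ) ∧ (range p.2 ∩ ball c r).Nonempty}, F p
    ∂grM ν x y ≤ ∫⁻ p, F p ∂rho ν C c ρ r

-- deps: LOGA CUT
-- imports: Pool.Agent.P.MP_d66c6d_pr.S.Surr
/-- A path all of whose neighbours enclose the unit disc. -/
def S_CIRC : Prop := ∃ (g : Br) (η : ℝ), 0 < η ∧ η < 1 ∧ g 0 = 0 ∧ g 1 = 0 ∧
  range g ⊆ closedBall 0 3 ∧ ∀ γ : Br, dist γ g < η → closedBall 0 1 ⊆ fill (range γ)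

-- deps: UM
-- imports: Pool.Agent.P.MP_d66c6d_pr.S.Surr
/-- Invariance under similarities. -/
def S_SCAL : Prop := ∀ ν : Measure Br, IsBridge ν → ∀ a b : ℂ, a ≠ 0 →
  (∀ x y, (grM ν x y).map (sc a b) = grM ν (a * x + b) (a * y + b)) ∧
  (GR ν).map (sc a b) = ENNReal.ofReal (‖a‖⁻¹ ^ 4) • GR ν ∧
  (LM ν).map (sc a b) = LM ν ∧
  (∀ (c : ℂ) (ρ : ℝ), sc a b ⁻¹' Inn (a * c + b) (‖a‖ * ρ) = Inn c ρ ∧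
    sc a b ⁻¹' NDs (a * c + b) (‖a‖ * ρ) = NDs c ρ) ∧
  ∀ (A : ℝ≥0∞) (c : ℂ) (ρ r : ℝ), 0 < ρ →
    (rho ν A c ρ r).map (sc a b) = rho ν A (a * c + b) (‖a‖ * ρ) (‖a‖ * r)

-- deps: UM CIRC SCAL CUT
-- imports: Pool.Agent.P.MP_d66c6d_pr.S.Surr
/-- Deep strands enclose the disc of radius `ρ` with mass bounded below. -/
def S_KLOW : Prop := ∀ ν : Measure Br, IsBridge ν → ∃ κ : ℝ≥0∞, κ ≠ 0 ∧ ∀ (c : ℂ) (ρ : ℝ),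
  0 < ρ → ∀ x ∈ An5 c ρ, ∀ y ∈ An5 c ρ, κ ≤ grM ν x y (Inn c ρ \ NDs c ρ)

-- deps: KK FIN DYN GEN GM BM SPLIT REV CUT
/-- Planar Brownian paths miss a given point. -/
def S_HIT : Prop := ∀ ν : Measure Br, IsBridge ν → ∀ c : ℂ, GR ν {p | c ∈ range p.2} = 0

-- deps: EV UM MARKR SCAL HIT KK FIN BM REV
/-- The reference measure is finite, and small when the inner disc is small. -/
def S_RHO : Prop := ∀ ν : Measure Br, IsBridge ν → ∀ A : ℝ≥0∞, A ≠ ∞ →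
  (∀ (c : ℂ) (ρ r : ℝ), 0 < ρ → rho ν A c ρ r univ ≠ ∞) ∧
  ∀ η : ℝ≥0∞, η ≠ 0 → ∃ L : ℝ, 1 ≤ L ∧ ∀ (c : ℂ) (ρ r : ℝ), 0 < ρ → r ≤ ρ / L →
    rho ν A c ρ r univ ≤ η

-- deps: EV UM SINGLE REL LOOP OCC CUT REV
/-- Loops that leave the disc of radius `10ρ` are dominated. -/
def S_DLOOP : Prop := ∀ ν : Measure Br, IsBridge ν → ∀ (c : ℂ) (ρ : ℝ), 0 < ρ →
  Dom ν c ρ ((LM ν).restrict {p | ¬ range p.2 ⊆ ball c (10 * ρ)})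

-- deps: UM SINGLE REL
/-- The reference strands of a bigger disc are dominated. -/
def S_DRHO : Prop := ∀ ν : Measure Br, IsBridge ν → ∀ (c : ℂ) (ρ : ℝ), 0 < ρ →
  ∀ (A : ℝ≥0∞) (c₀ : ℂ) (ρ₀ r₀ : ℝ), 0 < ρ₀ → r₀ ≤ 3 * ρ₀ → ball c (10 * ρ) ⊆ ball c₀ r₀ →
  Dom ν c ρ (rho ν A c₀ ρ₀ r₀)

end Pool.Agent.P.MP_d66c6d_pr
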