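import Pool.Agent.P.MP_d66c6d_pr.U.Defs2
import Pool.Agent.P.MP_d66c6d_pr.U.Iface
import Pool.Agent.P.MP_d66c6d_pr.F.Iface

/-!
Statements of the chapter on uniformity in the outside, configuration level.
-/

namespace Pool.Agent.P.MP_d66c6d_pr

open MeasureTheory ProbabilityTheory Set Metric Filter Topology
open scoped ENNReal

-- deps:
-- imports: Pool.Agent.P.MP_d66c6d_pr.S.Surr
/-- Basic facts on the reference measures. -/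
def S_RJ : Prop :=
  (∀ (c : ℂ) (ρ : ℝ), IsOpen (NDK c ρ) ∧ MeasurableSet (allND c ρ)) ∧
  (∀ (c : ℂ) (ρ : ℝ) (K : KC) (P : Set ℂ), IsPreconnected P → Disjoint P K →
    (P ∩ closedBall c ρ).Nonempty → ¬ P ⊆ closedBall c (9 * ρ) → K ∈ NDK c ρ) ∧
  ∀ (E : Type) [MeasurableSpace E] (m : Measure E), SFinite m →
    (∀ j, RJ m j univ = m univ ^ j) ∧
    (∀ j, ∀ F : Cfg E → ℝ≥0∞, Measurable F →
      ∫⁻ T, F T ∂(RJ m (j + 1)) = ∫⁻ x, ∫⁻ T, F (insert x T) ∂(RJ m j) ∂m) ∧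
    (∀ F : Cfg E → ℝ≥0∞, Measurable F → ∫⁻ T, F T ∂Measure.sum (RJ m) =
      F ∅ + ∫⁻ x, ∫⁻ T, F (insert x T) ∂Measure.sum (RJ m) ∂m) ∧
    (m univ ≤ 2⁻¹ → Measure.sum (RJ m) univ ≤ 2 ∧ ∀ (n : ℕ) (B : Set (Cfg E)), MeasurableSet B →
      Measure.sum (RJ m) B ≤ ∑ j ∈ Finset.range n, RJ m j B + 2 * 2⁻¹ ^ n) ∧
    (IsFiniteMeasure m → ∀ j, RJ m j = (Measure.pi fun _ : Fin j => m).map Cfg.rng) ∧
    (∀ p : E → Prop, MeasurableSet {x | p x} → (∀ᵐ x ∂m, p x) →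
      ∀ j, ∀ᵐ T ∂(RJ m j), ∀ x ∈ T.pts, p x) ∧
    ∀ (F : Type) [MeasurableSpace F] (g : E → F), Measurable g →
      ∀ j, (RJ m j).map (Cfg.map g) = RJ (m.map g) j

-- deps: UM HART KLOW RJ
/-- The mean over the reference strands is superharmonic. -/
def S_SUPH : Prop := ∀ ν : Measure Br, IsBridge ν → ∃ A : ℝ≥0∞, A ≠ ∞ ∧ ∀ (c : ℂ) (ρ r : ℝ),
  0 < ρ → r ≤ 3 * ρ → ∀ F : Cfg KC → ℝ≥0∞, Measurable F → LocK (ball c r) F →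
  SupK ν c ρ fun l => ∫⁻ T, F (T ∪ l) ∂(RS ν A c ρ r)

-- deps: UM DRHO RJ
/-- The reference strands of a bigger disc are dominated. -/
def S_DQS : Prop := ∀ ν : Measure Br, IsBridge ν → ∀ (c : ℂ) (ρ : ℝ), 0 < ρ →
  DomK ν c ρ (Measure.dirac ∅) ∧
  ∀ (A : ℝ≥0∞) (c₀ : ℂ) (ρ₀ r₀ : ℝ), 0 < ρ₀ → r₀ ≤ 3 * ρ₀ → ball c (10 * ρ) ⊆ ball c₀ r₀ →
    (∀ j, DomK ν c ρ (RJ (rhoK ν A c₀ ρ₀ r₀) j)) ∧ DomK ν c ρ (RS ν A c₀ ρ₀ r₀)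

-- deps: UM SINGLE REL LOOP OCC CUT REV
-- imports: Pool.Agent.P.MP_d66c6d_pr.U.Dloop
/-- Loops that leave the disc of radius `10ρ` and enter the disc of radius `3ρ` are dominated. -/
def S_DLOOPH : Prop := ∀ ν : Measure Br, IsBridge ν → ∀ (c : ℂ) (ρ : ℝ), 0 < ρ →
  Dom ν c ρ ((LM ν).restrict
    {p | ¬ range p.2 ⊆ ball c (10 * ρ) ∧ (range p.2 ∩ ball c (3 * ρ)).Nonempty})

-- deps: UM DLOOPH RJ PPF PPE PPO MUK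
/-- The marked loops that leave the disc of radius `10ρ` are dominated. -/
def S_DQL : Prop := ∀ ν : Measure Br, IsBridge ν → ∀ (c : ℂ) (ρ : ℝ), 0 < ρ →
  ∀ (X : Type) [MeasurableSpace X] (τ : Measure X), IsFiniteMeasure τ →
  ∀ D : Set ℂ, IsOpen D → Bornology.IsBounded D → ball c (10 * ρ) ⊆ D →
  ∀ H, SupK ν c ρ H → ∀ (l : Cfg KC) (g : Cfg (KC × X) → ℝ≥0∞), Measurable g →
  OutM (ball c (10 * ρ)) g →
  ∫⁻ S in {S | S.map Prod.fst ∈ allND c ρ}, H (l ∪ S.map Prod.fst) * g S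
      ∂PP (((muK ν).restrict (inK D \ inK (ball c (10 * ρ)))).prod τ) ≤
    H l * ∫⁻ S, g S ∂PP (((muK ν).restrict (inK D \ inK (ball c (10 * ρ)))).prod τ)

-- deps: SUPH DQL RJ PPE PPO MUK
/-- Uniformity in the outside, for strands and a marked soup. -/
def S_DOMM : Prop := ∀ ν : Measure Br, IsBridge ν → ∃ A : ℝ≥0∞, A ≠ ∞ ∧ ∀ (c : ℂ) (ρ r : ℝ),
  0 < ρ → r ≤ 3 * ρ → ∀ Q : Measure (Cfg KC), SFinite Q → DomK ν c ρ Q →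
  ∀ (X : Type) [MeasurableSpace X] (τ : Measure X), IsFiniteMeasure τ →
  ∀ B : Set X, MeasurableSet B →
  ∀ D : Set ℂ, IsOpen D → Bornology.IsBounded D → ball c (10 * ρ) ⊆ D →
  ∀ f : Cfg KC → ℝ≥0∞, Measurable f → LocK (ball c r) f →
  ∀ g : Cfg KC × Cfg (KC × X) → ℝ≥0∞, Measurable g →
  (∀ S, OutK (ball c (10 * ρ)) fun T => g (T, S)) →
  (∀ T, OutM (ball c (10 * ρ)) fun S => g (T, S)) →
  ∫⁻ p in {p | p.1 ∪ vis B p.2 ∈ allND c ρ}, f (p.1 ∪ vis B p.2) * g p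
      ∂Q.prod (PP (((muK ν).restrict (inK D)).prod τ)) ≤
    (∫⁻ S, f S ∂MM ν (τ B) A c ρ r) *
      ∫⁻ p, g p ∂Q.prod (PP (((muK ν).restrict (inK D)).prod τ))

-- deps: DOMM DQS PPE PPO MUK RJ
/-- Uniformity in the outside: the same constant serves for marked and for plain soups. -/
def S_DOM : Prop := ∀ ν : Measure Br, IsBridge ν → ∃ A : ℝ≥0∞, A ≠ ∞ ∧ ∀ (c : ℂ) (ρ r : ℝ),
  0 < ρ → r ≤ 3 * ρ →
  (∀ Q : Measure (Cfg KC), SFinite Q → DomK ν c ρ Q →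
    ∀ (X : Type) [MeasurableSpace X] (τ : Measure X), IsFiniteMeasure τ →
    ∀ B : Set X, MeasurableSet B →
    ∀ D : Set ℂ, IsOpen D → Bornology.IsBounded D → ball c (10 * ρ) ⊆ D →
    ∀ f : Cfg KC → ℝ≥0∞, Measurable f → LocK (ball c r) f →
    ∀ g : Cfg KC × Cfg (KC × X) → ℝ≥0∞, Measurable g →
    (∀ S, OutK (ball c (10 * ρ)) fun T => g (T, S)) →
    (∀ T, OutM (ball c (10 * ρ)) fun S => g (T, S)) →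
    ∫⁻ p in {p | p.1 ∪ vis B p.2 ∈ allND c ρ}, f (p.1 ∪ vis B p.2) * g p
        ∂Q.prod (PP (((muK ν).restrict (inK D)).prod τ)) ≤
      (∫⁻ S, f S ∂MM ν (τ B) A c ρ r) *
        ∫⁻ p, g p ∂Q.prod (PP (((muK ν).restrict (inK D)).prod τ))) ∧
  ∀ lam : ℝ≥0∞, lam ≠ ∞ → ∀ f g : Cfg KC → ℝ≥0∞, Measurable f → LocK (ball c r) f →
    Measurable g → OutK (ball c (10 * ρ)) g →
    (∀ D : Set ℂ, IsOpen D → Bornology.IsBounded D → ball c (10 * ρ) ⊆ D →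
      ∫⁻ S in allND c ρ, f S * g S ∂soupE ν lam D ≤
        (∫⁻ S, f S ∂MM ν lam A c ρ r) * ∫⁻ S, g S ∂soupE ν lam D) ∧
    ∀ (A₀ : ℝ≥0∞) (c₀ : ℂ) (ρ₀ r₀ : ℝ), 0 < ρ₀ → r₀ ≤ 3 * ρ₀ → ball c (10 * ρ) ⊆ ball c₀ r₀ →
      ∫⁻ S in allND c ρ, f S * g S ∂MM ν lam A₀ c₀ ρ₀ r₀ ≤
        (∫⁻ S, f S ∂MM ν lam A c ρ r) * ∫⁻ S, g S ∂MM ν lam A₀ c₀ ρ₀ r₀

-- deps: SCAL RHO RJ PPO MUK
/-- Covariance and mass of the reference model. -/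
def S_MSC : Prop := ∀ ν : Measure Br, IsBridge ν → ∀ A : ℝ≥0∞,
  (∀ (a b c : ℂ) (ρ r : ℝ), a ≠ 0 → 0 < ρ →
    (rhoK ν A c ρ r).map (simK a b) = rhoK ν A (a * c + b) (‖a‖ * ρ) (‖a‖ * r) ∧
    (RS ν A c ρ r).map (Cfg.map (simK a b)) = RS ν A (a * c + b) (‖a‖ * ρ) (‖a‖ * r) ∧
    ∀ lam : ℝ≥0∞, (soupE ν lam (ball c ρ)).map (Cfg.map (simK a b)) =
        soupE ν lam (ball (a * c + b) (‖a‖ * ρ)) ∧
      (MM ν lam A c ρ r).map (Cfg.map (simK a b)) =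
        MM ν lam A (a * c + b) (‖a‖ * ρ) (‖a‖ * r)) ∧
  (A ≠ ∞ → ∀ η : ℝ≥0∞, η ≠ 0 → ∃ L : ℝ, 1 ≤ L ∧ ∀ (c : ℂ) (ρ r : ℝ), 0 < ρ → r ≤ ρ / L →
    rhoK ν A c ρ r univ ≤ η ∧ rhoK ν A c ρ r univ ≤ 2⁻¹ ∧ RS ν A c ρ r univ ≤ 2 ∧
    RS ν A c ρ r {T | T.pts.Nonempty} ≤ 2 * η ∧ ∀ lam, MM ν lam A c ρ r univ ≤ 2)

end Pool.Agent.P.MP_d66c6d_pr
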