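import Pool.Agent.P.MP_d66c6d_pr.C.Defs

/-!
Uniformity in the outside: cutting the deep excursions of big paths.
The unit of length is `ρ`; the radii `ρ, 3ρ, 5ρ, 9ρ, 10ρ` around the centre `c` are used.
-/

namespace Pool.Agent.P.MP_d66c6d_pr

open MeasureTheory ProbabilityTheory Set Metric Filter Topology
open scoped ENNReal

/-- The position of a timed path at the real time `u`. -/
noncomputable def ev (p : TP) (u : ℝ) : ℂ := p.2 (projIcc 0 1 zero_le_one (u / p.1))

/-- The part before the real time `a`. -/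
noncomputable def hd (a : ℝ) (p : TP) : TP := (a, sub 0 (a / p.1) p.2)

/-- The part after the real time `a`. -/
noncomputable def tl (a : ℝ) (p : TP) : TP := (p.1 - a, sub (a / p.1) 1 p.2)

/-- Concatenation of timed paths. -/
noncomputable def tcat (p q : TP) : TP := (p.1 + q.1, cat (p.1 / (p.1 + q.1)) p.2 q.2)

/-- Time reversal of a timed path. -/
noncomputable def trev (p : TP) : TP := (p.1, rev p.2)

/-- The three pieces cut at the times `a` and `a + a'`. -/
noncomputable def pcs (a a' : ℝ) (p : TP) : TP × TP × TP :=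
  (hd a p, hd a' (tl a p), tl a' (tl a p))

/-- The image of a timed path under the similarity `z ↦ a z + b`, with Brownian scaling. -/
noncomputable def sc (a b : ℂ) (p : TP) : TP :=
  (‖a‖ ^ 2 * p.1, ⟨fun s => a * p.2 s + b, by fun_prop⟩)

/-- The Green measures integrated over both end points. -/
noncomputable def GR (ν : Measure Br) : Measure TP :=
  (((((volume : Measure ℂ).prod (volume : Measure ℂ)).prod
    ((volume : Measure ℝ).restrict (Ioi 0))).withDensity
      fun q => hk q.2 (q.1.2 - q.1.1)).prod ν).map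
    fun q => (q.1.2, seg q.1.1.1 q.1.1.2 q.1.2 q.2)

/-- The loop measure on timed paths. -/
noncomputable def LM (ν : Measure Br) : Measure TP := (loopMeasure ν).map lp

/-- Deep strands: they stay in the disc of radius `9ρ` and enter the disc of radius `3ρ`. -/
def Inn (c : ℂ) (ρ : ℝ) : Set TP :=
  {p | range p.2 ⊆ closedBall c (9 * ρ) ∧ (range p.2 ∩ ball c (3 * ρ)).Nonempty}

/-- Paths whose part in the disc of radius `9ρ` does not enclose the disc of radius `ρ`. -/
def NDs (c : ℂ) (ρ : ℝ) : Set TP :=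
  {p | ¬ closedBall c ρ ⊆ fill (range p.2 ∩ closedBall c (9 * ρ))}

/-- The annulus of the cut points. -/
def An5 (c : ℂ) (ρ : ℝ) : Set ℂ := {z | 9 / 2 * ρ ≤ dist z c ∧ dist z c ≤ 11 / 2 * ρ}

/-- The annulus of the end points of the reference strands. -/
def An6 (c : ℂ) (ρ : ℝ) : Set ℂ := {z | 7 / 2 * ρ < dist z c ∧ dist z c < 13 / 2 * ρ}

/-- Before the time `τ` the path visits the disc of radius `5ρ` and then never leaves the disc of
radius `9ρ`. -/
def Vis (c : ℂ) (ρ τ : ℝ) (p : TP) : Prop :=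
  ∃ s : unitInterval, (s : ℝ) * p.1 ≤ τ ∧ p.2 s ∈ closedBall c (5 * ρ) ∧
    ∀ s', s ≤ s' → p.2 s' ∈ closedBall c (9 * ρ)

/-- The path leaves the disc of radius `9ρ` before it meets the disc of radius `3ρ`. -/
def AdmS (c : ℂ) (ρ : ℝ) (γ : Br) : Prop :=
  ∀ s : unitInterval, (∀ s', s' ≤ s → γ s' ∈ closedBall c (9 * ρ)) → γ s ∉ closedBall c (3 * ρ)

/-- Admissible parts before the first deep strand. -/
def cutA (c : ℂ) (ρ δ : ℝ) : Set TP :=
  {p | Disjoint (range p.2) (ball c (3 * ρ)) ∧ Vis c ρ p.1 p ∧ ¬ Vis c ρ (p.1 - δ) p ∧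
    p.2 1 ∈ An5 c ρ}

/-- Admissible parts after the first deep strand. -/
def cutB (c : ℂ) (ρ δ : ℝ) : Set TP :=
  {p | AdmS c ρ p.2 ∧ Vis c ρ p.1 (trev p) ∧ ¬ Vis c ρ (p.1 - δ) (trev p) ∧ p.2 0 ∈ An5 c ρ}

/-- Admissible triples of pieces. -/
def tri (c : ℂ) (ρ δ : ℝ) : Set (TP × TP × TP) :=
  {q | q.1 ∈ cutA c ρ δ ∧ q.2.1 ∈ Inn c ρ ∧ q.2.2 ∈ cutB c ρ δ}

/-- The measure of the set of admissible pairs of cut times. -/
noncomputable def wcut (c : ℂ) (ρ δ : ℝ) (p : TP) : ℝ≥0∞ :=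
  ∫⁻ a in Ioo (0 : ℝ) p.1, ∫⁻ a' in Ioo (0 : ℝ) (p.1 - a), (tri c ρ δ).indicator 1 (pcs a a' p)

/-- After the time `u` the path goes `k` times from the disc of radius `3ρ` out of the disc of
radius `9ρ`. -/
def Cr (c : ℂ) (ρ : ℝ) (γ : Br) : ℕ → unitInterval → Prop
  | 0, _ => True
  | k + 1, u => ∃ s, u ≤ s ∧ γ s ∈ ball c (3 * ρ) ∧
      ∃ s', s ≤ s' ∧ γ s' ∉ closedBall c (9 * ρ) ∧ Cr c ρ γ k s'

/-- `p'` arises from `p` by the replacement of a deep strand by another one. -/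
def Rel (c : ℂ) (ρ : ℝ) (p p' : TP) : Prop :=
  0 < p.1 ∧ 0 < p'.1 ∧ ∃ a b : ℝ, 0 ≤ a ∧ 0 ≤ b ∧ a + b ≤ p.1 ∧ a + b ≤ p'.1 ∧
    (∀ u ∈ Icc 0 a, ev p u = ev p' u) ∧ (∀ u ∈ Icc 0 b, ev p (p.1 - u) = ev p' (p'.1 - u)) ∧
    (∀ u ∈ Icc a (p.1 - b), ev p u ∈ closedBall c (9 * ρ)) ∧
    (∀ u ∈ Icc a (p'.1 - b), ev p' u ∈ closedBall c (9 * ρ)) ∧
    (∃ u ∈ Icc a (p.1 - b), ev p u ∈ ball c (3 * ρ)) ∧
    ∃ u ∈ Icc a (p'.1 - b), ev p' u ∈ ball c (3 * ρ)

/-- A functional of a family of paths that depends only on the traces in `U`. -/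
structure Loc (U : Set ℂ) (f : Set TP → ℝ≥0∞) : Prop where
  drop : ∀ s s' : Set TP, (∀ p ∈ s', Disjoint (range p.2) U) → f (s ∪ s') = f s
  split : ∀ (p q q' : TP) (s : Set TP), range p.2 ∩ U = (range q.2 ∪ range q'.2) ∩ U →
    f (insert p s) = f (insert q (insert q' s))

/-- A local functional that decreases in the mean when a deep strand is added. -/
structure SupH (ν : Measure Br) (c : ℂ) (ρ : ℝ) (H : Set TP → ℝ≥0∞) : Prop where
  meas : ∀ l, Measurable fun p => H (insert p l)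
  loc : Loc (ball c (3 * ρ)) H
  sup : ∀ l, ∀ x ∈ An5 c ρ, ∀ y ∈ An5 c ρ,
    ∫⁻ p in Inn c ρ ∩ NDs c ρ, H (insert p l) ∂grM ν x y ≤ H l * grM ν x y (Inn c ρ)

/-- The measure `ϖ` on paths is dominated uniformly in the outside of the disc of radius `10ρ`. -/
def Dom (ν : Measure Br) (c : ℂ) (ρ : ℝ) (ϖ : Measure TP) : Prop :=
  ∀ H, SupH ν c ρ H → ∀ (l : Set TP) (G : TP → ℝ≥0∞), Measurable G →
    (∀ p p' : TP, range p.2 \ ball c (10 * ρ) = range p'.2 \ ball c (10 * ρ) → G p = G p') →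
    ∫⁻ p in NDs c ρ, H (insert p l) * G p ∂ϖ ≤ H l * ∫⁻ p, G p ∂ϖ

/-- Paths that move by `ρ / 2` before the time `τ`. -/
def fast (ρ τ : ℝ) : Set TP :=
  {p | ∃ s : unitInterval, (s : ℝ) * p.1 ≤ τ ∧ ρ / 2 ≤ dist (p.2 s) (p.2 0)}

/-- The weight of a fast start. -/
noncomputable def Wt (ρ : ℝ) (p : TP) : ℝ≥0∞ :=
  1 + ∑' k : ℕ, 2 ^ k * (fast ρ (ρ ^ 2 / 2 ^ k)).indicator 1 p

/-- The support of the reference measure. -/
def rset (c : ℂ) (ρ r : ℝ) : Set TP :=
  {p | p.2 0 ∈ An6 c ρ ∧ p.2 1 ∈ An6 c ρ ∧ range p.2 ⊆ closedBall c (9 * ρ) ∧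
    (range p.2 ∩ ball c r).Nonempty}

/-- The density of the reference measure. -/
noncomputable def wr (c : ℂ) (ρ r : ℝ) (p : TP) : ℝ≥0∞ :=
  (rset c ρ r).indicator (fun p => ENNReal.ofReal (ρ⁻¹ ^ 4) * (Wt ρ p * Wt ρ (trev p))) p

/-- The reference measure of the strands that reach the disc of radius `r`. -/
noncomputable def rho (ν : Measure Br) (A : ℝ≥0∞) (c : ℂ) (ρ r : ℝ) : Measure TP :=
  A • (GR ν).withDensity (wr c ρ r)

@[fun_prop] theorem Measurable.ev' {α : Type*} [MeasurableSpace α] {p : α → TP} {u : α → ℝ}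
    (hp : Measurable p) (hu : Measurable u) : Measurable fun a => ev (p a) (u a) :=
  Measurable.evalBr hp.snd
    ((continuous_projIcc (h := zero_le_one)).measurable.comp (hu.div hp.fst))

@[fun_prop] theorem Measurable.hd' {α : Type*} [MeasurableSpace α] {p : α → TP} {u : α → ℝ}
    (hu : Measurable u) (hp : Measurable p) : Measurable fun a => hd (u a) (p a) :=
  hu.prodMk (Measurable.sub' measurable_const (hu.div hp.fst) hp.snd)

@[fun_prop] theorem Measurable.tl' {α : Type*} [MeasurableSpace α] {p : α → TP} {u : α → ℝ}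
    (hu : Measurable u) (hp : Measurable p) : Measurable fun a => tl (u a) (p a) :=
  (hp.fst.sub hu).prodMk (Measurable.sub' (hu.div hp.fst) measurable_const hp.snd)

@[fun_prop] theorem Measurable.tcat' {α : Type*} [MeasurableSpace α] {p q : α → TP}
    (hp : Measurable p) (hq : Measurable q) : Measurable fun a => tcat (p a) (q a) :=
  (hp.fst.add hq.fst).prodMk (Measurable.cat' (hp.fst.div (hp.fst.add hq.fst)) hp.snd hq.snd)

@[fun_prop] theorem Measurable.trev' {α : Type*} [MeasurableSpace α] {p : α → TP}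
    (hp : Measurable p) : Measurable fun a => trev (p a) :=
  hp.fst.prodMk (Measurable.rev' hp.snd)

@[fun_prop] theorem Measurable.pcs' {α : Type*} [MeasurableSpace α] {p : α → TP} {u v : α → ℝ}
    (hu : Measurable u) (hv : Measurable v) (hp : Measurable p) :
    Measurable fun a => pcs (u a) (v a) (p a) :=
  (Measurable.hd' hu hp).prodMk ((Measurable.hd' hv (Measurable.tl' hu hp)).prodMk
    (Measurable.tl' hv (Measurable.tl' hu hp)))

theorem continuous_sc (a b : ℂ) : Continuous (sc a b) := by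
  refine Continuous.prodMk (by fun_prop) ?_
  refine ContinuousMap.continuous_of_continuous_uncurry _ ?_
  change Continuous fun q : TP × unitInterval => a * q.1.2 q.2 + b
  fun_prop

@[fun_prop] theorem measurable_sc (a b : ℂ) : Measurable (sc a b) := (continuous_sc a b).measurable

theorem range_sc (a b : ℂ) (p : TP) : range (sc a b p).2 = (fun z => a * z + b) '' range p.2 := by
  rw [← range_comp]
  rfl

theorem continuous_ev (p : TP) : Continuous (ev p) :=
  p.2.continuous.comp (continuous_projIcc.comp (by fun_prop))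

theorem lintegral_GR (ν : Measure Br) [SFinite ν] {Φ : TP → ℝ≥0∞} (hΦ : Measurable Φ) :
    ∫⁻ p, Φ p ∂GR ν = ∫⁻ x, ∫⁻ y, ∫⁻ p, Φ p ∂grM ν x y := by
  have h1 : Measurable fun q : ((ℂ × ℂ) × ℝ) × Br =>
      ((q.1.2, seg q.1.1.1 q.1.1.2 q.1.2 q.2) : TP) := by fun_prop
  have h0 : Measurable fun q : ((ℂ × ℂ) × ℝ) × Br =>
      Φ (q.1.2, seg q.1.1.1 q.1.1.2 q.1.2 q.2) := hΦ.comp h1
  have h2 : Measurable fun q : (ℂ × ℂ) × ℝ => hk q.2 (q.1.2 - q.1.1) := by fun_prop
  have h3 := h2.mul (h0.lintegral_prod_right' (ν := ν))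
  rw [GR, lintegral_map hΦ h1, lintegral_prod _ h0.aemeasurable,
    lintegral_withDensity_eq_lintegral_mul _ h2 h0.lintegral_prod_right',
    lintegral_prod _ (by exact h3.aemeasurable),
    lintegral_prod _ (by exact h3.lintegral_prod_right'.aemeasurable)]
  refine lintegral_congr fun x => lintegral_congr fun y => ?_
  rw [lintegral_grM ν x y hΦ]
  refine lintegral_congr fun t => ?_
  rw [lintegral_brM ν t x y (F := fun γ => Φ (t, γ)) (by fun_prop)]
  rfl

instance instSFiniteGR (ν : Measure Br) [SFinite ν] : SFinite (GR ν) := by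
  unfold GR
  infer_instance

instance instSFiniteRho (ν : Measure Br) [SFinite ν] (A : ℝ≥0∞) (c : ℂ) (ρ r : ℝ) :
    SFinite (rho ν A c ρ r) := by
  unfold rho
  infer_instance

theorem Loc.mono {U V : Set ℂ} {f : Set TP → ℝ≥0∞} (h : Loc U f) (hUV : U ⊆ V) : Loc V f := by
  refine ⟨fun s s' hs => h.drop s s' fun p hp => (hs p hp).mono_right hUV, fun p q q' s e => ?_⟩
  refine h.split p q q' s ?_
  rw [← inter_eq_right.2 hUV, ← inter_assoc, ← inter_assoc, e]

theorem Loc.congr {U : Set ℂ} {f : Set TP → ℝ≥0∞} (h : Loc U f) {p q : TP}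
    (e : range p.2 ∩ U = range q.2 ∩ U) (s : Set TP) : f (insert p s) = f (insert q s) := by
  rw [h.split p q q s (by rw [union_self, e]), insert_idem]

theorem Loc.drop_one {U : Set ℂ} {f : Set TP → ℝ≥0∞} (h : Loc U f) {p : TP}
    (e : Disjoint (range p.2) U) (s : Set TP) : f (insert p s) = f s := by
  rw [insert_eq, union_comm]
  exact h.drop s {p} fun q hq => by rwa [mem_singleton_iff.1 hq]

theorem Loc.union {U : Set ℂ} {f : Set TP → ℝ≥0∞} (h : Loc U f) (l : Set TP) :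
    Loc U fun s => f (s ∪ l) := by
  refine ⟨fun s s' hs => ?_, fun p q q' s e => ?_⟩
  · rw [union_right_comm, h.drop _ _ hs]
  · simpa only [insert_union] using h.split p q q' (s ∪ l) e

end Pool.Agent.P.MP_d66c6d_pr
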