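import Pool.Agent.P.MP_d66c6d_pr.U.Dql

/-!
Statements of the chapter on uniformity in the outside, soups with a density.
-/

namespace Pool.Agent.P.MP_d66c6d_pr

open MeasureTheory ProbabilityTheory Set Metric Filter Topology
open scoped ENNReal

-- deps: UM HART KLOW RHO RJ
-- imports: Pool.Agent.P.MP_d66c6d_pr.U.Suph
/-- The mean over the reference strands is strictly superharmonic. -/
def S_SUPT : Prop := ∀ ν : Measure Br, IsBridge ν → ∃ A : ℝ≥0∞, A ≠ ∞ ∧ ∀ (c : ℂ) (ρ : ℝ),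
  0 < ρ → ∃ κ : ℝ, 1 < κ ∧ ∀ r ≤ 3 * ρ, ∀ F : Cfg KC → ℝ≥0∞, Measurable F → LocK (ball c r) F →
  ∀ H : Cfg KC → ℝ≥0∞, (H = fun l => ∫⁻ T, F (T ∪ l) ∂(RS ν A c ρ r)) →
  Measurable H ∧ LocK (ball c (3 * ρ)) H ∧ (∀ l, F l ≤ H l) ∧ ∀ l, ∀ x ∈ An5 c ρ, ∀ y ∈ An5 c ρ,
    ENNReal.ofReal κ * ∫⁻ p in Inn c ρ ∩ NDs c ρ, H (insert (trB p.2) l) ∂grM ν x y ≤
      H l * grM ν x y (Inn c ρ)

-- deps: RJ DLOOPH MUK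
/-- One more crossing loop, for a density between `a` and `κ a`. -/
def S_ONEK : Prop := ∀ ν : Measure Br, IsBridge ν → ∀ (c : ℂ) (ρ κ : ℝ), 0 < ρ → 1 < κ →
  ∀ H : Cfg KC → ℝ≥0∞, Measurable H → LocK (ball c (3 * ρ)) H →
  (∀ l, ∀ x ∈ An5 c ρ, ∀ y ∈ An5 c ρ,
    ENNReal.ofReal κ * ∫⁻ p in Inn c ρ ∩ NDs c ρ, H (insert (trB p.2) l) ∂grM ν x y ≤
      H l * grM ν x y (Inn c ρ)) →
  ∀ D : Set ℂ, IsOpen D → ball c (10 * ρ) ⊆ D → ∀ (a : ℝ≥0∞) (f : KC → ℝ≥0∞), a ≠ ∞ →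
  Measurable f → (∀ K, a ≤ f K ∧ f K ≤ ENNReal.ofReal κ * a) →
  DqlA.One c ρ H (((muK ν).restrict
    ((inK D \ inK (ball c (10 * ρ))) ∩ hitK (ball c (3 * ρ)))).withDensity f)

-- deps: RJ PPF PPE PPO
/-- From one loop to the soup. -/
def S_DQF : Prop := ∀ (c : ℂ) (ρ : ℝ) (H : Cfg KC → ℝ≥0∞), Measurable H →
  LocK (ball c (3 * ρ)) H → ∀ m m' m'' : Measure KC, IsFiniteMeasure m → SFinite m' → SFinite m'' →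
  DqlA.One c ρ H m → (∀ᵐ K ∂m', K ∉ hitK (ball c (3 * ρ))) →
  (∀ᵐ K ∂m'', K ∈ inK (ball c (10 * ρ))) →
  ∀ (f g : Cfg KC → ℝ≥0∞), Measurable f → Measurable g → OutK (ball c (10 * ρ)) g →
  (∀ᵐ l ∂PP (m + m'), ∫⁻ S, f (l ∪ S) ∂PP m'' ≤ H l) →
  ∫⁻ S in allND c ρ, f S * g S ∂PP (m + m' + m'') ≤ H ∅ * ∫⁻ S, g S ∂PP (m + m' + m'')

-- deps: RJ PPF PPE PPO
/-- Uniform absolute continuity of Poisson laws with comparable finite intensities. -/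
def S_PAC : Prop := ∀ κ M p : ℝ≥0∞, κ ≠ ∞ → M ≠ ∞ → p ≠ 0 → ∃ δ : ℝ≥0∞, δ ≠ 0 ∧
  ∀ (E : Type) [MeasurableSpace E] (m₀ m₁ m' : Measure E), SFinite m' → m₀ ≤ m₁ → m₁ ≤ κ • m₀ →
  m₀ univ ≤ M → ∀ Φ : Cfg E → ℝ≥0∞, Measurable Φ → (∀ S, Φ S ≤ 2) →
  ∫⁻ S, Φ S ∂PP (m₀ + m') ≤ δ → ∫⁻ S, Φ S ∂PP (m₁ + m') ≤ p

end Pool.Agent.P.MP_d66c6d_pr
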