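import Pool.Agent.P.MP_d66c6d_pr.U.Defs
import Pool.Agent.P.MP_d66c6d_pr.F.Defs

/-!
Uniformity in the outside: configurations of traces, the reference measure.
-/

namespace Pool.Agent.P.MP_d66c6d_pr

open MeasureTheory ProbabilityTheory Set Metric Filter Topology
open scoped ENNReal

/-- Traces whose part in the disc of radius `9ρ` does not enclose the disc of radius `ρ`. -/
def NDK (c : ℂ) (ρ : ℝ) : Set KC :=
  {K | ¬ closedBall c ρ ⊆ fill ((K : Set ℂ) ∩ closedBall c (9 * ρ))}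

/-- Configurations all of whose traces are in `NDK`. -/
def allND (c : ℂ) (ρ : ℝ) : Set (Cfg KC) := {S | ∀ K ∈ S.pts, K ∈ NDK c ρ}

/-- A functional that depends only on the traces in `U`. -/
structure LocK (U : Set ℂ) (f : Cfg KC → ℝ≥0∞) : Prop where
  drop : ∀ S T : Cfg KC, (∀ K ∈ T.pts, Disjoint (K : Set ℂ) U) → f (S ∪ T) = f S
  split : ∀ (K L L' : KC) (S : Cfg KC), IsPreconnected (K : Set ℂ) → IsPreconnected (L : Set ℂ) →
    IsPreconnected (L' : Set ℂ) → (K : Set ℂ) ∩ U = ((L : Set ℂ) ∪ L') ∩ U →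
    f (insert K S) = f (insert L (insert L' S))

/-- A functional that depends only on the traces outside `W`. -/
structure OutK (W : Set ℂ) (g : Cfg KC → ℝ≥0∞) : Prop where
  drop : ∀ S T : Cfg KC, (∀ K ∈ T.pts, (K : Set ℂ) ⊆ W) → g (S ∪ T) = g S
  swap : ∀ (K L : KC) (S : Cfg KC), IsPreconnected (K : Set ℂ) → IsPreconnected (L : Set ℂ) →
    (K : Set ℂ) \ W = (L : Set ℂ) \ W → g (insert K S) = g (insert L S)

/-- A functional of marked traces that depends only on the marks and the traces outside `W`. -/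
structure OutM {X : Type} (W : Set ℂ) (g : Cfg (KC × X) → ℝ≥0∞) : Prop where
  drop : ∀ S T : Cfg (KC × X), (∀ p ∈ T.pts, (p.1 : Set ℂ) ⊆ W) → g (S ∪ T) = g S
  swap : ∀ (K L : KC) (x : X) (S : Cfg (KC × X)), IsPreconnected (K : Set ℂ) →
    IsPreconnected (L : Set ℂ) → (K : Set ℂ) \ W = (L : Set ℂ) \ W →
    g (insert (K, x) S) = g (insert (L, x) S)

/-- The traces whose mark is in `B`. -/
def vis {X : Type} (B : Set X) (S : Cfg (KC × X)) : Cfg KC :=
  (S.res {p | p.2 ∈ B}).map Prod.fst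

/-- A local functional that decreases in the mean when a deep strand is added. -/
structure SupK (ν : Measure Br) (c : ℂ) (ρ : ℝ) (H : Cfg KC → ℝ≥0∞) : Prop where
  meas : Measurable H
  loc : LocK (ball c (3 * ρ)) H
  sup : ∀ l, ∀ x ∈ An5 c ρ, ∀ y ∈ An5 c ρ,
    ∫⁻ p in Inn c ρ ∩ NDs c ρ, H (insert (trB p.2) l) ∂grM ν x y ≤ H l * grM ν x y (Inn c ρ)

/-- The measure `Q` on configurations is dominated uniformly in the outside. -/
def DomK (ν : Measure Br) (c : ℂ) (ρ : ℝ) (Q : Measure (Cfg KC)) : Prop :=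
  ∀ H, SupK ν c ρ H → ∀ (l : Cfg KC) (g : Cfg KC → ℝ≥0∞), Measurable g →
    OutK (ball c (10 * ρ)) g →
    ∫⁻ T in allND c ρ, H (l ∪ T) * g T ∂Q ≤ H l * ∫⁻ T, g T ∂Q

/-- The reference measure on traces. -/
noncomputable def rhoK (ν : Measure Br) (A : ℝ≥0∞) (c : ℂ) (ρ r : ℝ) : Measure KC :=
  (rho ν A c ρ r).map fun p => trB p.2

/-- `j` independent points of `m`. -/
noncomputable def RJ {E : Type} [MeasurableSpace E] (m : Measure E) : ℕ → Measure (Cfg E)
  | 0 => Measure.dirac ∅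
  | j + 1 => (m.prod (RJ m j)).map fun p => insert p.1 p.2

/-- The reference measure of the families of strands. -/
noncomputable def RS (ν : Measure Br) (A : ℝ≥0∞) (c : ℂ) (ρ r : ℝ) : Measure (Cfg KC) :=
  Measure.sum (RJ (rhoK ν A c ρ r))

/-- The loop soup of intensity `lam` in `D`. -/
noncomputable def soupE (ν : Measure Br) (lam : ℝ≥0∞) (D : Set ℂ) : Measure (Cfg KC) :=
  PP (lam • (muK ν).restrict (inK D))

/-- The reference model: strands and the soup in the disc of radius `10ρ`. -/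
noncomputable def MM (ν : Measure Br) (lam A : ℝ≥0∞) (c : ℂ) (ρ r : ℝ) : Measure (Cfg KC) :=
  ((RS ν A c ρ r).prod (soupE ν lam (ball c (10 * ρ)))).map fun p => p.1 ∪ p.2

instance instSFiniteRJ {E : Type} [MeasurableSpace E] (m : Measure E) [SFinite m] :
    ∀ j, SFinite (RJ m j)
  | 0 => by unfold RJ; infer_instance
  | j + 1 => by
    have := instSFiniteRJ m j
    unfold RJ
    infer_instance

instance instSFiniteRhoK (ν : Measure Br) [SFinite ν] (A : ℝ≥0∞) (c : ℂ) (ρ r : ℝ) :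
    SFinite (rhoK ν A c ρ r) := by
  unfold rhoK
  infer_instance

instance instSFiniteRS (ν : Measure Br) [SFinite ν] (A : ℝ≥0∞) (c : ℂ) (ρ r : ℝ) :
    SFinite (RS ν A c ρ r) := by
  unfold RS
  infer_instance

instance instProbSoupE (ν : Measure Br) (lam : ℝ≥0∞) (D : Set ℂ) :
    IsProbabilityMeasure (soupE ν lam D) := by
  unfold soupE
  infer_instance

instance instSFiniteMM (ν : Measure Br) [SFinite ν] (lam A : ℝ≥0∞) (c : ℂ) (ρ r : ℝ) :
    SFinite (MM ν lam A c ρ r) := by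
  unfold MM
  infer_instance

theorem Cfg.union_comm {E : Type} (S T : Cfg E) : S ∪ T = T ∪ S :=
  Cfg.ext (Set.union_comm _ _)

theorem Cfg.union_assoc {E : Type} (S T R : Cfg E) : S ∪ T ∪ R = S ∪ (T ∪ R) :=
  Cfg.ext (Set.union_assoc _ _ _)

@[simp] theorem Cfg.union_empty {E : Type} (S : Cfg E) : S ∪ ∅ = S :=
  Cfg.ext (Set.union_empty _)

@[simp] theorem Cfg.empty_union {E : Type} (S : Cfg E) : ∅ ∪ S = S :=
  Cfg.ext (Set.empty_union _)

theorem Cfg.insert_union {E : Type} (x : E) (S T : Cfg E) : insert x S ∪ T = insert x (S ∪ T) :=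
  Cfg.ext Set.insert_union

theorem Cfg.union_insert {E : Type} (x : E) (S T : Cfg E) : S ∪ insert x T = insert x (S ∪ T) :=
  Cfg.ext Set.union_insert

theorem Cfg.insert_idem {E : Type} (x : E) (S : Cfg E) : insert x (insert x S) = insert x S :=
  Cfg.ext (Set.insert_eq_of_mem (mem_insert _ _))

theorem Cfg.res_union_res {E : Type} (A : Set E) (S : Cfg E) : S.res A ∪ S.res Aᶜ = S :=
  Cfg.ext (inter_union_compl _ _)

theorem vis_Iic (c : ℝ) (S : Cfg (KC × ℝ)) : vis (Iic c) S = lev c S := rfl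

theorem measurable_vis {X : Type} [MeasurableSpace X] {B : Set X} (hB : MeasurableSet B) :
    Measurable (vis B) :=
  (measurable_cfgMap measurable_fst).comp (measurable_res (measurable_snd hB))

theorem trB_mem_NDK {c : ℂ} {ρ : ℝ} {p : TP} : trB p.2 ∈ NDK c ρ ↔ p ∈ NDs c ρ := Iff.rfl

theorem isPreconnected_trB (γ : Br) : IsPreconnected (trB γ : Set ℂ) :=
  isPreconnected_range γ.continuous

theorem LocK.mono {U V : Set ℂ} {f : Cfg KC → ℝ≥0∞} (h : LocK U f) (hUV : U ⊆ V) : LocK V f := by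
  refine ⟨fun S T hs => h.drop S T fun p hp => (hs p hp).mono_right hUV,
    fun K L L' S h1 h2 h3 e => h.split K L L' S h1 h2 h3 ?_⟩
  rw [← inter_eq_right.2 hUV, ← inter_assoc, ← inter_assoc, e]

theorem LocK.congr {U : Set ℂ} {f : Cfg KC → ℝ≥0∞} (h : LocK U f) {K L : KC}
    (hK : IsPreconnected (K : Set ℂ)) (hL : IsPreconnected (L : Set ℂ))
    (e : (K : Set ℂ) ∩ U = (L : Set ℂ) ∩ U) (S : Cfg KC) : f (insert K S) = f (insert L S) := by
  rw [h.split K L L S hK hL hL (by rw [union_self, e]), Cfg.insert_idem]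

theorem LocK.union {U : Set ℂ} {f : Cfg KC → ℝ≥0∞} (h : LocK U f) (l : Cfg KC) :
    LocK U fun S => f (S ∪ l) := by
  refine ⟨fun S T hs => ?_, fun K L L' S h1 h2 h3 e => ?_⟩
  · rw [Cfg.union_assoc, Cfg.union_comm T l, ← Cfg.union_assoc, h.drop _ _ hs]
  · simpa only [Cfg.insert_union] using h.split K L L' (S ∪ l) h1 h2 h3 e

theorem LocK.out {U W : Set ℂ} {g : Cfg KC → ℝ≥0∞} (h : LocK U g) (hd : Disjoint U W) :
    OutK W g := by
  refine ⟨fun S T hT => h.drop S T fun K hK => (hd.symm.mono_left (hT K hK)),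
    fun K L S hK hL e => h.congr hK hL ?_ S⟩
  ext z
  have := Set.ext_iff.1 e z
  have h2 : z ∈ U → z ∉ W := fun hz => Set.disjoint_left.1 hd hz
  simp only [Set.mem_sdiff, mem_inter_iff] at this ⊢
  tauto

theorem LocK.comp {U : Set ℂ} {f : Cfg KC → ℝ≥0∞} (h : LocK U f) (φ : ℝ≥0∞ → ℝ≥0∞) :
    LocK U fun S => φ (f S) :=
  ⟨fun S T hT => by rw [h.drop S T hT], fun K L L' S h1 h2 h3 e => by
    rw [h.split K L L' S h1 h2 h3 e]⟩

theorem LocK.comp₂ {U : Set ℂ} {f g : Cfg KC → ℝ≥0∞} (h : LocK U f) (h' : LocK U g)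
    (φ : ℝ≥0∞ → ℝ≥0∞ → ℝ≥0∞) : LocK U fun S => φ (f S) (g S) :=
  ⟨fun S T hT => by rw [h.drop S T hT, h'.drop S T hT], fun K L L' S h1 h2 h3 e => by
    rw [h.split K L L' S h1 h2 h3 e, h'.split K L L' S h1 h2 h3 e]⟩

theorem OutK.union {W : Set ℂ} {g : Cfg KC → ℝ≥0∞} (h : OutK W g) (l : Cfg KC) :
    OutK W fun S => g (S ∪ l) := by
  refine ⟨fun S T hs => ?_, fun K L S h1 h2 e => ?_⟩
  · rw [Cfg.union_assoc, Cfg.union_comm T l, ← Cfg.union_assoc, h.drop _ _ hs]
  · simpa only [Cfg.insert_union] using h.swap K L (S ∪ l) h1 h2 e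

theorem OutK.mul {W : Set ℂ} {f g : Cfg KC → ℝ≥0∞} (h : OutK W f) (h' : OutK W g) :
    OutK W fun S => f S * g S :=
  ⟨fun S T hT => by rw [h.drop S T hT, h'.drop S T hT], fun K L S h1 h2 e => by
    rw [h.swap K L S h1 h2 e, h'.swap K L S h1 h2 e]⟩

/-- The path level form of a superharmonic functional. -/
theorem SupK.supH {ν : Measure Br} {c : ℂ} {ρ : ℝ} {H : Cfg KC → ℝ≥0∞} (h : SupK ν c ρ H)
    (l : Cfg KC) : SupH ν c ρ fun s => H (⟨(fun p : TP => trB p.2) '' s⟩ ∪ l) := by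
  have e : ∀ (p : TP) (s : Set TP), (⟨(fun p : TP => trB p.2) '' insert p s⟩ ∪ l : Cfg KC) =
      insert (trB p.2) (⟨(fun p : TP => trB p.2) '' s⟩ ∪ l) := fun p s =>
    Cfg.ext (by simp [image_insert_eq, Set.insert_union])
  refine ⟨fun s => ?_, ⟨fun s s' hs => ?_, fun p q q' s he => ?_⟩, fun s x hx y hy => ?_⟩
  · simp only [e]
    exact h.meas.comp (Measurable.cfgInsert (by fun_prop) measurable_const)
  · have : (⟨(fun p : TP => trB p.2) '' (s ∪ s')⟩ ∪ l : Cfg KC) =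
        (⟨(fun p : TP => trB p.2) '' s⟩ ∪ l) ∪ ⟨(fun p : TP => trB p.2) '' s'⟩ :=
      Cfg.ext (by simp [image_union, union_right_comm])
    rw [this]
    refine h.loc.drop _ _ ?_
    rintro _ ⟨p, hp, rfl⟩
    exact hs p hp
  · simp only [e]
    exact h.loc.split _ _ _ _ (isPreconnected_trB _) (isPreconnected_trB _)
      (isPreconnected_trB _) he
  · simp only [e]
    exact h.sup _ x hx y hy

/-- The trace form of domination. -/
theorem Dom.trace {ν : Measure Br} {c : ℂ} {ρ : ℝ} {ϖ : Measure TP} (h : Dom ν c ρ ϖ)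
    {H : Cfg KC → ℝ≥0∞} (hH : SupK ν c ρ H) (l : Cfg KC) {G : KC → ℝ≥0∞} (hG : Measurable G)
    (hG' : ∀ K L : KC, IsPreconnected (K : Set ℂ) → IsPreconnected (L : Set ℂ) →
      (K : Set ℂ) \ ball c (10 * ρ) = (L : Set ℂ) \ ball c (10 * ρ) → G K = G L) :
    ∫⁻ p in NDs c ρ, H (insert (trB p.2) l) * G (trB p.2) ∂ϖ ≤ H l * ∫⁻ p, G (trB p.2) ∂ϖ := by
  have := h _ (hH.supH l) ∅ (fun p => G (trB p.2)) (hG.comp (by fun_prop))
    fun p p' e => hG' _ _ (isPreconnected_trB _) (isPreconnected_trB _) e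
  have e1 : (⟨(fun p : TP => trB p.2) '' ∅⟩ ∪ l : Cfg KC) = l := Cfg.ext (by simp)
  have e2 : ∀ p : TP, (⟨(fun p : TP => trB p.2) '' insert p ∅⟩ ∪ l : Cfg KC) =
      insert (trB p.2) l := fun p => Cfg.ext (by simp)
  simpa only [e1, e2] using this

end Pool.Agent.P.MP_d66c6d_pr
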