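import Pool.Agent.P.MP_d66c6d_pr.U.Iface
import Pool.Agent.P.MP_d66c6d_pr.T.Iface
import Pool.Agent.P.MP_d66c6d_pr.B.Iface
import Pool.Agent.P.MP_d66c6d_pr.S.Surr

/-! Step CIRC of the carpet project. -/

namespace Pool.Agent.P.MP_d66c6d_pr

open MeasureTheory ProbabilityTheory Set Metric Filter Topology
open scoped ENNReal

namespace CircA

/-- The angle, as a fraction of a full turn. -/
noncomputable def ps (t : ℝ) : ℝ := max 0 (min 1 (2 * t - 1 / 2))

/-- The cut-off near the two ends. -/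
noncomputable def mm (t : ℝ) : ℝ := min 1 (min (5 * t) (5 * (1 - t)))

/-- The small correction that produces a transversal self-crossing. -/
noncomputable def Bc (t : ℝ) : ℂ :=
  (((1 - ps t) * (t - 6 / 25) / 4 : ℝ) : ℂ) + ((ps t * (t - 19 / 25) / 4 : ℝ) : ℂ) * Complex.I

/-- The model path. -/
noncomputable def Gc (t : ℝ) : ℂ :=
  (mm t : ℂ) * ((2 : ℝ) * Complex.exp (2 * Real.pi * (ps t : ℝ) * Complex.I) + Bc t)

theorem cont_Gc : Continuous Gc := by
  unfold Gc Bc mm ps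
  fun_prop

theorem ps_mem (t : ℝ) : 0 ≤ ps t ∧ ps t ≤ 1 :=
  ⟨le_max_left _ _, max_le zero_le_one (min_le_left _ _)⟩

theorem norm_Bc {t : ℝ} (h0 : 0 ≤ t) (h1 : t ≤ 1) : ‖Bc t‖ ≤ 1 / 4 := by
  obtain ⟨p0, p1⟩ := ps_mem t
  unfold Bc
  refine (norm_add_le _ _).trans ?_
  rw [norm_mul, Complex.norm_I, mul_one, Complex.norm_real, Complex.norm_real, Real.norm_eq_abs,
    Real.norm_eq_abs]
  have a1 : |(1 - ps t) * (t - 6 / 25) / 4| ≤ (1 - ps t) / 4 := by
    rw [abs_le]; constructor <;> nlinarith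
  have a2 : |ps t * (t - 19 / 25) / 4| ≤ ps t / 4 := by
    rw [abs_le]; constructor <;> nlinarith
  linarith

theorem norm_ex (x : ℝ) : ‖Complex.exp (2 * Real.pi * x * Complex.I)‖ = 1 := by
  rw [show (2 * Real.pi * x * Complex.I : ℂ) = (2 * Real.pi * x : ℝ) * Complex.I by
    push_cast; ring, Complex.norm_exp_ofReal_mul_I]

theorem norm_ex_sub (x y : ℝ) : ‖Complex.exp (2 * Real.pi * x * Complex.I) -
    Complex.exp (2 * Real.pi * y * Complex.I)‖ ≤ 8 * |x - y| := by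
  have e : Complex.exp (2 * Real.pi * x * Complex.I) - Complex.exp (2 * Real.pi * y * Complex.I) =
      Complex.exp (2 * Real.pi * y * Complex.I) *
        (Complex.exp (Complex.I * (2 * Real.pi * (x - y) : ℝ)) - 1) := by
    rw [mul_sub, ← Complex.exp_add, mul_one]
    congr 2
    push_cast
    ring
  rw [e, norm_mul, norm_ex, one_mul]
  refine Real.norm_exp_I_mul_ofReal_sub_one_le.trans ?_
  rw [Real.norm_eq_abs, abs_mul, abs_of_pos Real.two_pi_pos]
  have := Real.pi_le_four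
  nlinarith [abs_nonneg (x - y)]

theorem norm_Gc {t : ℝ} (h0 : 0 ≤ t) (h1 : t ≤ 1) : ‖Gc t‖ ≤ 3 := by
  have m0 : 0 ≤ mm t := le_min zero_le_one (le_min (by linarith) (by linarith))
  have m1 : mm t ≤ 1 := min_le_left _ _
  have hb := norm_Bc h0 h1
  have h2 := norm_add_le (((2 : ℝ) : ℂ) * Complex.exp (2 * Real.pi * (ps t : ℝ) * Complex.I)) (Bc t)
  rw [norm_mul, norm_ex, Complex.norm_real, Real.norm_of_nonneg (by norm_num)] at h2
  unfold Gc
  rw [norm_mul, Complex.norm_real, Real.norm_of_nonneg m0]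
  nlinarith [norm_nonneg
    (((2 : ℝ) : ℂ) * Complex.exp (2 * Real.pi * (ps t : ℝ) * Complex.I) + Bc t)]

theorem mm_one {t : ℝ} (h0 : 1 / 5 ≤ t) (h1 : t ≤ 4 / 5) : mm t = 1 :=
  min_eq_left (le_min (by linarith) (by linarith))

theorem Gc_left {t : ℝ} (h0 : 1 / 5 ≤ t) (h1 : t ≤ 1 / 4) :
    Gc t = 2 + (((t - 6 / 25) / 4 : ℝ) : ℂ) := by
  have hp : ps t = 0 := max_eq_left ((min_le_right _ _).trans (by linarith))
  unfold Gc Bc
  rw [mm_one h0 (by linarith), hp]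
  simp

theorem Gc_right {t : ℝ} (h0 : 3 / 4 ≤ t) (h1 : t ≤ 4 / 5) :
    Gc t = 2 + (((t - 19 / 25) / 4 : ℝ) : ℂ) * Complex.I := by
  have hp : ps t = 1 := by
    unfold ps
    rw [min_eq_left (by linarith), max_eq_right zero_le_one]
  unfold Gc Bc
  rw [mm_one (by linarith) h1, hp]
  simp [Complex.exp_two_pi_mul_I]

theorem ps_near {t u : ℝ} (h0 : 0 ≤ u) (h1 : u ≤ 1) (h : |2 * t - 1 / 2 - u| ≤ 1 / 25) :
    |ps t - u| ≤ 1 / 25 := by
  rw [abs_le] at h ⊢
  unfold ps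
  rcases le_total 1 (2 * t - 1 / 2) with a | a
  · rw [min_eq_left a, max_eq_right zero_le_one]
    constructor <;> linarith [h.1, h.2]
  · rw [min_eq_right a]
    rcases le_total 0 (2 * t - 1 / 2) with b | b
    · rw [max_eq_right b]
      exact h
    · rw [max_eq_left b]
      constructor <;> linarith [h.1, h.2]

/-- A map of the closed disc that is close to the identity on the circle has a zero. -/
theorem exists_zero (hLOGA : S_LOGA) {F : ℂ → ℂ} (hF : Continuous F)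
    (h : ∀ w ∈ closedBall (0 : ℂ) 1, ‖F w - w‖ < 1 / 2) : ∃ w ∈ closedBall (0 : ℂ) 1, F w = 0 := by
  by_contra hn
  obtain ⟨-, h2, h3, -, -, h6⟩ := hLOGA
  obtain ⟨L, hL, hE⟩ := h6 (closedBall 0 1) F (convex_closedBall _ _) hF.continuousOn
    (fun z hz h0 => hn ⟨z, hz, h0⟩)
  refine h2 0 1 one_pos (h3 _ F _ ⟨L, hL.mono sphere_subset_closedBall,
    fun z hz => hE z (sphere_subset_closedBall hz)⟩ (by fun_prop) fun z hz => ?_)
  have a1 := h z (sphere_subset_closedBall hz)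
  have a2 : ‖z‖ = 1 := by simpa using hz
  have a3 := norm_le_norm_add_norm_sub' z (F z)
  rw [norm_sub_rev] at a1
  rw [sub_zero]
  linarith

end CircA

open CircA in
theorem p_CIRC (hLOGA : S_LOGA) (hCUT : S_CUT) :
    S_CIRC := by
  refine ⟨⟨fun t => Gc t, cont_Gc.comp continuous_subtype_val⟩, 1 / 1600, by norm_num, by norm_num,
    ?_, ?_, ?_, fun γ hγ z hz => ?_⟩
  · simp [Gc, mm]
  · simp [Gc, mm]
  · rintro _ ⟨t, rfl⟩
    rw [mem_closedBall_zero_iff]
    exact norm_Gc t.2.1 t.2.2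
  let Γ : ℝ → ℂ := fun s => γ (projIcc 0 1 zero_le_one s)
  have hΓ : Continuous Γ := γ.continuous.comp continuous_projIcc
  have hd : ∀ s : ℝ, 0 ≤ s → s ≤ 1 → ‖Γ s - Gc s‖ < 1 / 1600 := fun s h0 h1 => by
    have := (ContinuousMap.dist_apply_le_dist (projIcc 0 1 zero_le_one s)).trans_lt hγ
    rw [dist_eq_norm] at this
    simpa [Γ, projIcc_of_mem zero_le_one ⟨h0, h1⟩] using this
  have hre : ∀ w ∈ closedBall (0 : ℂ) 1, (-1 ≤ w.re ∧ w.re ≤ 1) ∧ (-1 ≤ w.im ∧ w.im ≤ 1) :=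
    fun w hw => by
      rw [mem_closedBall_zero_iff] at hw
      exact ⟨abs_le.1 ((Complex.abs_re_le_norm w).trans hw),
        abs_le.1 ((Complex.abs_im_le_norm w).trans hw)⟩
  obtain ⟨w, hw, hw0⟩ := exists_zero hLOGA
    (F := fun w => 400 * (Γ (19 / 25 + w.im / 100) - Γ (6 / 25 - w.re / 100))) (by fun_prop)
    (fun w hw => by
      obtain ⟨⟨r0, r1⟩, i0, i1⟩ := hre w hw
      have a1 := hd (19 / 25 + w.im / 100) (by linarith) (by linarith)
      have a2 := hd (6 / 25 - w.re / 100) (by linarith) (by linarith)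
      rw [Gc_right (by linarith) (by linarith)] at a1
      rw [Gc_left (by linarith) (by linarith)] at a2
      have e : 400 * (Γ (19 / 25 + w.im / 100) - Γ (6 / 25 - w.re / 100)) - w =
          400 * ((Γ (19 / 25 + w.im / 100) -
            (2 + (((19 / 25 + w.im / 100 - 19 / 25) / 4 : ℝ) : ℂ) * Complex.I)) -
            (Γ (6 / 25 - w.re / 100) - (2 + (((6 / 25 - w.re / 100 - 6 / 25) / 4 : ℝ) : ℂ)))) := by
        have := Complex.re_add_im w
        push_cast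
        linear_combination this
      have a3 := norm_sub_le (Γ (19 / 25 + w.im / 100) -
            (2 + (((19 / 25 + w.im / 100 - 19 / 25) / 4 : ℝ) : ℂ) * Complex.I))
            (Γ (6 / 25 - w.re / 100) - (2 + (((6 / 25 - w.re / 100 - 6 / 25) / 4 : ℝ) : ℂ)))
      rw [e, norm_mul, show ‖(400 : ℂ)‖ = 400 by simp]
      linarith)
  obtain ⟨⟨r0, r1⟩, i0, i1⟩ := hre w hw
  obtain ⟨s, hs⟩ : ∃ s : ℝ, s = 6 / 25 - w.re / 100 := ⟨_, rfl⟩
  obtain ⟨s', hs'⟩ : ∃ s' : ℝ, s' = 19 / 25 + w.im / 100 := ⟨_, rfl⟩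
  rw [← hs, ← hs'] at hw0
  have he : Γ s' = Γ s := sub_eq_zero.1 ((mul_eq_zero.1 hw0).resolve_left (by norm_num))
  refine fill_mono (hCUT.2.2.1 s s' γ) (mem_fill_of_near (R := 2) ?_ fun u => ?_)
  · change Γ (s + ((0 : unitInterval) : ℝ) * (s' - s)) = Γ (s + ((1 : unitInterval) : ℝ) * (s' - s))
    simp [he]
  · change ‖Γ (s + (u : ℝ) * (s' - s)) - z - _‖ < 2
    have u0 : 0 ≤ (u : ℝ) := u.2.1
    have u1 : (u : ℝ) ≤ 1 := u.2.2
    obtain ⟨t, ht⟩ : ∃ t : ℝ, t = s + (u : ℝ) * (s' - s) := ⟨_, rfl⟩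
    rw [← ht]
    have t0 : 1 / 5 ≤ t := by nlinarith
    have t1 : t ≤ 4 / 5 := by nlinarith
    have a1 := hd t (by linarith) (by linarith)
    have a2 := norm_Bc (t := t) (by linarith) (by linarith)
    have a3 := norm_ex_sub (ps t) u
    have a4 := ps_near (t := t) u0 u1 (by rw [abs_le]; constructor <;> nlinarith)
    rw [mem_closedBall_zero_iff] at hz
    have e : Γ t - z - ((2 : ℝ) : ℂ) * Complex.exp (2 * Real.pi * (u : ℝ) * Complex.I) =
        (Γ t - Gc t) + Bc t + ((2 : ℝ) : ℂ) * (Complex.exp (2 * Real.pi * (ps t : ℝ) * Complex.I) -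
          Complex.exp (2 * Real.pi * (u : ℝ) * Complex.I)) - z := by
      unfold Gc
      rw [mm_one t0 t1]
      push_cast
      ring
    rw [e]
    have a5 := norm_sub_le ((Γ t - Gc t) + Bc t + ((2 : ℝ) : ℂ) *
      (Complex.exp (2 * Real.pi * (ps t : ℝ) * Complex.I) -
          Complex.exp (2 * Real.pi * (u : ℝ) * Complex.I))) z
    have a6 := norm_add₃_le (a := Γ t - Gc t) (b := Bc t) (c := ((2 : ℝ) : ℂ) *
      (Complex.exp (2 * Real.pi * (ps t : ℝ) * Complex.I) -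
          Complex.exp (2 * Real.pi * (u : ℝ) * Complex.I)))
    rw [norm_mul, Complex.norm_real, Real.norm_of_nonneg (by norm_num)] at a6
    linarith

end Pool.Agent.P.MP_d66c6d_pr
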