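import Pool.Agent.P.MP_d66c6d_pr.U.Iface
import Pool.Agent.P.MP_d66c6d_pr.B.Iface
import Pool.Agent.P.MP_d66c6d_pr.C.Iface

/-! Step DLOOP of the carpet project. -/

namespace Pool.Agent.P.MP_d66c6d_pr

open MeasureTheory ProbabilityTheory Set Metric Filter Topology
open scoped ENNReal

namespace DloopA

/-- The indicator of the outside of the disc of radius `9ρ`. -/
noncomputable def V (c : ℂ) (ρ : ℝ) : ℂ → ℝ≥0∞ := (closedBall c (9 * ρ))ᶜ.indicator 1

/-- Paths that leave the disc of radius `10ρ`. -/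
def Big (c : ℂ) (ρ : ℝ) : Set TP := {p | ¬ range p.2 ⊆ ball c (10 * ρ)}

/-- The weight of a root outside the disc of radius `9ρ`. -/
noncomputable def w (c : ℂ) (ρ : ℝ) (p : TP) : ℝ≥0∞ :=
  V c ρ (p.2 0) * V c ρ (p.2 1) * (occ (V c ρ) p)⁻¹

variable {c : ℂ} {ρ : ℝ}

theorem measurable_V : Measurable (V c ρ) :=
  measurable_one.indicator isClosed_closedBall.measurableSet.compl

theorem measurableSet_Big : MeasurableSet (Big c ρ) := (measurableSet_rangeSub isOpen_ball).compl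

theorem measurable_w : Measurable (w c ρ) :=
  ((measurable_V.comp (Measurable.evalBr measurable_snd measurable_const)).mul
    (measurable_V.comp (Measurable.evalBr measurable_snd measurable_const))).mul
    (measurable_occ measurable_V).inv

theorem V_mul_self (z : ℂ) : V c ρ z * V c ρ z = V c ρ z := by
  unfold V
  by_cases h : z ∈ (closedBall c (9 * ρ))ᶜ
  · simp [indicator_of_mem h]
  · simp [indicator_of_notMem h]

theorem V_le_one (z : ℂ) : V c ρ z ≤ 1 := indicator_apply_le' (fun _ => le_rfl) fun _ => zero_le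

theorem out_of_V {z : ℂ} (h : V c ρ z ≠ 0) : z ∉ closedBall c (9 * ρ) :=
  mem_of_indicator_ne_zero h

theorem occ_ne_top (p : TP) : occ (V c ρ) p ≠ ∞ := by
  refine ne_top_of_le_ne_top (b := occ 1 p) (by rw [occ_one]; exact ENNReal.ofReal_ne_top) ?_
  unfold occ
  gcongr with s
  exact V_le_one _

theorem continuous_pos (γ : Br) : Continuous fun s : ℝ => sub 0 s γ 1 := by
  simp only [sub_zero_one_apply]
  exact γ.continuous.comp continuous_projIcc

theorem occ_ne_zero (hρ : 0 < ρ) {p : TP} (hp : 0 < p.1) (hB : p ∈ Big c ρ) :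
    occ (V c ρ) p ≠ 0 := by
  have hW : IsOpen ((fun s : ℝ => sub 0 s p.2 1) ⁻¹' (closedBall c (9 * ρ))ᶜ) :=
    isClosed_closedBall.isOpen_compl.preimage (continuous_pos p.2)
  obtain ⟨z, ⟨s, rfl⟩, hz⟩ := not_subset.1 hB
  have hs : (s : ℝ) ∈ (fun s : ℝ => sub 0 s p.2 1) ⁻¹' (closedBall c (9 * ρ))ᶜ := by
    rw [mem_preimage, sub_zero_one_apply, projIcc_val]
    exact fun h => hz (closedBall_subset_ball (by linarith) h)
  have hc : (s : ℝ) ∈ closure (Ioo (0 : ℝ) 1) := by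
    rw [closure_Ioo zero_ne_one]
    exact s.2
  have hne := mem_closure_iff.1 hc _ hW hs
  have hpos := (hW.inter isOpen_Ioo).measure_pos volume hne
  refine mul_ne_zero (ENNReal.ofReal_pos.2 hp).ne' ?_
  have e : ∫⁻ s in Ioo (0 : ℝ) 1, V c ρ (sub 0 s p.2 1) =
      volume ((fun s : ℝ => sub 0 s p.2 1) ⁻¹' (closedBall c (9 * ρ))ᶜ ∩ Ioo 0 1) := by
    rw [← Measure.restrict_apply hW.measurableSet, ← lintegral_indicator_one hW.measurableSet]
    rfl
  rw [e]
  exact hpos.ne'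

theorem root (hOCC : S_OCC) (hCUT : S_CUT) (hρ : 0 < ρ) {Φ : TP → ℝ≥0∞}
    (h1 : ∀ p p' : TP, range p.2 = range p'.2 → Φ p = Φ p') (h2 : ∀ p, Φ p ≠ 0 → p ∈ Big c ρ)
    {p : TP} (hp : 0 < p.1) (hcl : p.2 1 = p.2 0) :
    ENNReal.ofReal p.1 * ∫⁻ s in Ioo (0 : ℝ) 1, Φ (p.1, rot s p.2) * w c ρ (p.1, rot s p.2) =
      Φ p := by
  have e : ∫⁻ s in Ioo (0 : ℝ) 1, Φ (p.1, rot s p.2) * w c ρ (p.1, rot s p.2) =
      ∫⁻ s in Ioo (0 : ℝ) 1, Φ p * (occ (V c ρ) p)⁻¹ * V c ρ (sub 0 s p.2 1) := by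
    refine setLIntegral_congr_fun measurableSet_Ioo fun s hs => ?_
    obtain ⟨-, -, a1, a2, a3⟩ := hCUT.2.2.2.2.2.2.2.2 s hs p.2 hcl
    have a4 := ((hOCC p.1 hp.le s hs p.2).1 _ (measurable_V (c := c) (ρ := ρ))).2 hcl
    simp only [w]
    rw [h1 (p.1, rot s p.2) p a1, a3, a2, a4, V_mul_self, mul_assoc, mul_comm (V c ρ _)]
  have hm : Measurable fun s : ℝ => V c ρ (sub 0 s p.2 1) :=
    measurable_V.comp (continuous_pos p.2).measurable
  rw [e, lintegral_const_mul _ hm, mul_left_comm]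
  change Φ p * (occ (V c ρ) p)⁻¹ * occ (V c ρ) p = Φ p
  by_cases h : Φ p = 0
  · simp [h]
  · rw [mul_assoc, ENNReal.inv_mul_cancel (occ_ne_zero hρ hp (h2 p h)) (occ_ne_top p), mul_one]

theorem key (hLOOP : S_LOOP) (hOCC : S_OCC) (hCUT : S_CUT) (hREV : S_REV) {ν : Measure Br}
    (hν : IsBridge ν) (hρ : 0 < ρ) {Φ : TP → ℝ≥0∞} (hΦ : Measurable Φ)
    (h1 : ∀ p p' : TP, range p.2 = range p'.2 → Φ p = Φ p') (h2 : ∀ p, Φ p ≠ 0 → p ∈ Big c ρ) :
    ∫⁻ p, Φ p ∂LM ν = ∫⁻ x, ∫⁻ p, Φ p * w c ρ p ∂grM ν x x := by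
  rw [← (hLOOP ν hν (fun p => Φ p * w c ρ p) (hΦ.mul measurable_w)).2, LM,
    lintegral_map hΦ measurable_lp]
  refine lintegral_congr_ae ?_
  filter_upwards [(hREV.2 ν hν).2.2.2.2.2.2.2] with l hl
  exact (root hOCC hCUT hρ h1 h2 (p := lp l) hl.1 (hl.2.2.trans hl.2.1.symm)).symm

theorem big_congr {p p' : TP}
    (e : range p.2 \ ball c (10 * ρ) = range p'.2 \ ball c (10 * ρ)) :
    p ∈ Big c ρ ↔ p' ∈ Big c ρ := by
  simp only [Big, mem_setOf_eq, ← diff_eq_empty, e]

theorem ind_congr {G : TP → ℝ≥0∞}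
    (hG : ∀ p p' : TP, range p.2 \ ball c (10 * ρ) = range p'.2 \ ball c (10 * ρ) → G p = G p')
    {p p' : TP} (e : range p.2 \ ball c (10 * ρ) = range p'.2 \ ball c (10 * ρ)) :
    (Big c ρ).indicator G p = (Big c ρ).indicator G p' := by
  by_cases h : p ∈ Big c ρ
  · rw [indicator_of_mem h, indicator_of_mem ((big_congr e).1 h), hG p p' e]
  · rw [indicator_of_notMem h, indicator_of_notMem fun h' => h ((big_congr e).2 h')]

theorem adm_of_out {γ : Br} (h : γ 0 ∉ closedBall c (9 * ρ)) : AdmS c ρ γ :=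
  fun s hs => absurd (hs 0 s.2.1) h

theorem rev_zero (γ : Br) : rev γ 0 = γ 1 := by simp [rev, sub_apply]

end DloopA

open DloopA in
theorem p_DLOOP (hEV : S_EV) (hUM : S_UM) (hSINGLE : S_SINGLE) (hREL : S_REL) (hLOOP : S_LOOP) (hOCC : S_OCC) (hCUT : S_CUT) (hREV : S_REV) :
    S_DLOOP := by
  intro ν hν c ρ hρ H hH l G hG hinv
  have := hν.prob
  have hN : MeasurableSet (NDs c ρ) := (hUM c ρ).2.1.measurableSet
  have hG1 : Measurable ((Big c ρ).indicator G) := hG.indicator measurableSet_Big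
  have hG2 : Measurable fun p => (Big c ρ).indicator G p * w c ρ p := hG1.mul measurable_w
  have hG3 : Measurable fun x : ℂ => ∫⁻ p, (Big c ρ).indicator G p * w c ρ p ∂grM ν x x :=
    measurable_grM ν measurable_id measurable_id
      (Φ := fun _ p => (Big c ρ).indicator G p * w c ρ p) (hG2.comp measurable_snd)
  have hΦ : Measurable ((NDs c ρ).indicator fun p => H (insert p l) * (Big c ρ).indicator G p) :=
    ((hH.meas l).mul hG1).indicator hN
  have e1 : ∫⁻ p in NDs c ρ, H (insert p l) * G p ∂(LM ν).restrict (Big c ρ) =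
      ∫⁻ p, (NDs c ρ).indicator (fun p => H (insert p l) * (Big c ρ).indicator G p) p ∂LM ν := by
    rw [lintegral_indicator hN, Measure.restrict_comm hN, ← lintegral_indicator measurableSet_Big]
    refine lintegral_congr fun p => ?_
    rw [indicator_mul_right]
  change ∫⁻ p in NDs c ρ, H (insert p l) * G p ∂(LM ν).restrict (Big c ρ) ≤
    H l * ∫⁻ p, G p ∂(LM ν).restrict (Big c ρ)
  rw [e1, ← lintegral_indicator measurableSet_Big,
    key hLOOP hOCC hCUT hREV hν hρ hΦ (c := c) ?_ ?_,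
    key hLOOP hOCC hCUT hREV hν hρ hG1 (c := c) (fun p p' e => ind_congr hinv (by rw [e]))
      fun p h => mem_of_indicator_ne_zero h,
    ← lintegral_const_mul _ hG3]
  · refine lintegral_mono fun x => ?_
    refine le_of_eq_of_le ?_ (hSINGLE ν hν c ρ hρ H hH x x l _ hG2 (fun p p' h => ?_) fun p h => ?_)
    · rw [← lintegral_indicator hN]
      refine lintegral_congr fun p => ?_
      by_cases h : p ∈ NDs c ρ
      · rw [indicator_of_mem h, indicator_of_mem h, mul_assoc]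
      · rw [indicator_of_notMem h, indicator_of_notMem h, zero_mul]
    · obtain ⟨a1, a2, a3, a4⟩ := (hREL c ρ hρ).2.2.2.2.1 p p' h
      have a5 : occ (V c ρ) p = occ (V c ρ) p' := a4
      simp only [w]
      rw [ind_congr hinv a3, a1, a2, a5]
    · have h' := left_ne_zero_of_mul (right_ne_zero_of_mul h)
      refine ⟨adm_of_out (out_of_V (left_ne_zero_of_mul h')), adm_of_out ?_⟩
      rw [rev_zero]
      exact out_of_V (right_ne_zero_of_mul h')
  · intro p p' e
    have a1 : p ∈ NDs c ρ ↔ p' ∈ NDs c ρ := by simp only [NDs, mem_setOf_eq, e]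
    by_cases h : p ∈ NDs c ρ
    · rw [indicator_of_mem h, indicator_of_mem (a1.1 h), ind_congr hinv (p' := p') (by rw [e]),
        hH.loc.congr (p := p) (q := p') (by rw [e])]
    · rw [indicator_of_notMem h, indicator_of_notMem fun h' => h (a1.2 h')]
  · intro p h
    by_contra hb
    refine h ?_
    by_cases h' : p ∈ NDs c ρ
    · rw [indicator_of_mem h', indicator_of_notMem hb, mul_zero]
    · rw [indicator_of_notMem h']

end Pool.Agent.P.MP_d66c6d_pr
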