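import Pool.Agent.P.MP_d66c6d_pr.U.Iface2
import Pool.Agent.P.MP_d66c6d_pr.U.Dloop

/-! Step DLOOPH of the carpet project. -/

namespace Pool.Agent.P.MP_d66c6d_pr

open MeasureTheory ProbabilityTheory Set Metric Filter Topology
open scoped ENNReal

namespace DloophA

/-- Paths that leave the disc of radius `10ρ` and enter the disc of radius `3ρ`. -/
def BH (c : ℂ) (ρ : ℝ) : Set TP :=
  {p | ¬ range p.2 ⊆ ball c (10 * ρ) ∧ (range p.2 ∩ ball c (3 * ρ)).Nonempty}

variable {c : ℂ} {ρ : ℝ}

theorem measurableSet_BH : MeasurableSet (BH c ρ) :=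
  DloopA.measurableSet_Big.inter
    ((continuous_trB.measurable.comp measurable_snd) (isOpen_hitK isOpen_ball).measurableSet)

theorem ind_congr {G : TP → ℝ≥0∞} {p p' : TP} (e : p ∈ BH c ρ ↔ p' ∈ BH c ρ) (e' : G p = G p') :
    (BH c ρ).indicator G p = (BH c ρ).indicator G p' := by
  by_cases h : p ∈ BH c ρ
  · rw [indicator_of_mem h, indicator_of_mem (e.1 h), e']
  · rw [indicator_of_notMem h, indicator_of_notMem fun h' => h (e.2 h')]

end DloophA

open DloopA DloophA in
theorem p_DLOOPH (hUM : S_UM) (hSINGLE : S_SINGLE) (hREL : S_REL) (hLOOP : S_LOOP) (hOCC : S_OCC)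
    (hCUT : S_CUT) (hREV : S_REV) : S_DLOOPH := by
  intro ν hν c ρ hρ H hH l G hG hinv
  have := hν.prob
  have hN : MeasurableSet (NDs c ρ) := (hUM c ρ).2.1.measurableSet
  have hG1 : Measurable ((BH c ρ).indicator G) := hG.indicator measurableSet_BH
  have hG2 : Measurable fun p => (BH c ρ).indicator G p * w c ρ p := hG1.mul measurable_w
  have hG3 : Measurable fun x : ℂ => ∫⁻ p, (BH c ρ).indicator G p * w c ρ p ∂grM ν x x :=
    measurable_grM ν measurable_id measurable_id
      (Φ := fun _ p => (BH c ρ).indicator G p * w c ρ p) (hG2.comp measurable_snd)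
  have hΦ : Measurable ((NDs c ρ).indicator fun p => H (insert p l) * (BH c ρ).indicator G p) :=
    ((hH.meas l).mul hG1).indicator hN
  have hr : ∀ p p' : TP, range p.2 = range p'.2 →
      (BH c ρ).indicator G p = (BH c ρ).indicator G p' := fun p p' e =>
    DloophA.ind_congr (by simp only [BH, mem_setOf_eq, e]) (hinv p p' (by rw [e]))
  have e1 : ∫⁻ p in NDs c ρ, H (insert p l) * G p ∂(LM ν).restrict (BH c ρ) =
      ∫⁻ p, (NDs c ρ).indicator (fun p => H (insert p l) * (BH c ρ).indicator G p) p ∂LM ν := by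
    rw [lintegral_indicator hN, Measure.restrict_comm hN, ← lintegral_indicator measurableSet_BH]
    refine lintegral_congr fun p => ?_
    rw [indicator_mul_right]
  change ∫⁻ p in NDs c ρ, H (insert p l) * G p ∂(LM ν).restrict (BH c ρ) ≤
    H l * ∫⁻ p, G p ∂(LM ν).restrict (BH c ρ)
  rw [e1, ← lintegral_indicator measurableSet_BH,
    key hLOOP hOCC hCUT hREV hν hρ hΦ (c := c) ?_ ?_,
    key hLOOP hOCC hCUT hREV hν hρ hG1 (c := c) hr fun p h => (mem_of_indicator_ne_zero h).1,
    ← lintegral_const_mul _ hG3]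
  · refine lintegral_mono fun x => ?_
    refine le_of_eq_of_le ?_ (hSINGLE ν hν c ρ hρ H hH x x l _ hG2 (fun p p' h => ?_) fun p h => ?_)
    · rw [← lintegral_indicator hN]
      refine lintegral_congr fun p => ?_
      by_cases h : p ∈ NDs c ρ
      · rw [indicator_of_mem h, indicator_of_mem h, mul_assoc]
      · rw [indicator_of_notMem h, indicator_of_notMem h, zero_mul]
    · obtain ⟨a1, a2, a3, a4⟩ := (hREL c ρ hρ).2.2.2.2.1 p p' h
      have a5 : occ (V c ρ) p = occ (V c ρ) p' := a4
      obtain ⟨-, -, a, b, -, -, -, -, -, -, -, -, ⟨u, -, hu⟩, u', -, hu'⟩ := h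
      have a6 : p ∈ BH c ρ ↔ p' ∈ BH c ρ :=
        ⟨fun h => ⟨(big_congr a3).1 h.1, _, mem_range_self _, hu'⟩,
          fun h => ⟨(big_congr a3).2 h.1, _, mem_range_self _, hu⟩⟩
      simp only [w]
      rw [DloophA.ind_congr a6 (hinv p p' a3), a1, a2, a5]
    · have h' := left_ne_zero_of_mul (right_ne_zero_of_mul h)
      refine ⟨adm_of_out (out_of_V (left_ne_zero_of_mul h')), adm_of_out ?_⟩
      rw [rev_zero]
      exact out_of_V (right_ne_zero_of_mul h')
  · intro p p' e
    have a1 : p ∈ NDs c ρ ↔ p' ∈ NDs c ρ := by simp only [NDs, mem_setOf_eq, e]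
    by_cases h : p ∈ NDs c ρ
    · rw [indicator_of_mem h, indicator_of_mem (a1.1 h), hr p p' e,
        hH.loc.congr (p := p) (q := p') (by rw [e])]
    · rw [indicator_of_notMem h, indicator_of_notMem fun h' => h (a1.2 h')]
  · intro p h
    by_contra hb
    refine h ?_
    by_cases h' : p ∈ NDs c ρ
    · rw [indicator_of_mem h', indicator_of_notMem fun hb' => hb hb'.1, mul_zero]
    · rw [indicator_of_notMem h']

end Pool.Agent.P.MP_d66c6d_pr
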