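import Pool.Agent.P.MP_d66c6d_pr.U.Iface2
import Pool.Agent.P.MP_d66c6d_pr.F.Iface

/-! Step DOM of the carpet project. -/

namespace Pool.Agent.P.MP_d66c6d_pr

open MeasureTheory ProbabilityTheory Set Metric Filter Topology
open scoped ENNReal

namespace DomA

theorem vis_univ {X : Type} (S : Cfg (KC × X)) : vis univ S = S.map Prod.fst :=
  Cfg.ext (by simp [vis])

theorem outM {X : Type} {W : Set ℂ} {g : Cfg KC → ℝ≥0∞} (h : OutK W g) (T : Cfg KC) :
    OutM W fun S : Cfg (KC × X) => g (T ∪ vis univ S) := by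
  refine ⟨fun S S' hs => ?_, fun K L x S h1 h2 e => ?_⟩
  · have : T ∪ vis univ (S ∪ S') = T ∪ vis univ S ∪ vis univ S' :=
      Cfg.ext (by simp [vis_univ, image_union, Set.union_assoc])
    rw [this]
    refine h.drop _ _ ?_
    rw [vis_univ]
    rintro _ ⟨p, hp, rfl⟩
    exact hs p hp
  · have : ∀ K : KC, T ∪ vis univ (insert (K, x) S) = insert K (T ∪ vis univ S) := fun K =>
      Cfg.ext (by simp [vis_univ, image_insert_eq, Set.union_insert])
    simp only [this]
    exact h.swap K L _ h1 h2 e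

theorem law (hPPO : S_PPO) (Q : Measure (Cfg KC)) [SFinite Q] (m : Measure KC) [SFinite m]
    {X : Type} [MeasurableSpace X] (τ : Measure X) [SFinite τ] :
    (Q.prod (PP (m.prod τ))).map (fun p => p.1 ∪ vis univ p.2) =
      (Q.prod (PP (τ univ • m))).map fun p => p.1 ∪ p.2 := by
  have h1 : (PP (m.prod τ)).map (vis univ) = PP (τ univ • m) := by
    rw [funext (vis_univ (X := X)), (hPPO _ (m.prod τ) inferInstance).2.2.1 _ _ measurable_fst,
      Measure.map_fst_prod]
  have h2 := measurable_vis (X := X) MeasurableSet.univ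
  conv_rhs => rw [← h1, ← Measure.map_id (μ := Q), Measure.map_prod_map _ _ measurable_id h2,
    Measure.map_map (by fun_prop) (measurable_id.prodMap h2)]
  rfl

end DomA

theorem p_DOM (hDOMM : S_DOMM) (hDQS : S_DQS) (hPPE : S_PPE) (hPPO : S_PPO) (hMUK : S_MUK) (hRJ : S_RJ) :
    S_DOM := by
  intro ν hν
  obtain ⟨A, hA, h⟩ := hDOMM ν hν
  refine ⟨A, hA, fun c ρ r hρ hr => ⟨h c ρ r hρ hr, fun lam hl f g hf hf' hg hg' => ?_⟩⟩
  have := hν.prob
  have := (hMUK ν hν).2.1
  have key : ∀ Q : Measure (Cfg KC), SFinite Q → DomK ν c ρ Q → ∀ D : Set ℂ, IsOpen D →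
      Bornology.IsBounded D → ball c (10 * ρ) ⊆ D →
      ∫⁻ S in allND c ρ, f S * g S ∂(Q.prod (soupE ν lam D)).map (fun p => p.1 ∪ p.2) ≤
        (∫⁻ S, f S ∂MM ν lam A c ρ r) *
          ∫⁻ S, g S ∂(Q.prod (soupE ν lam D)).map fun p => p.1 ∪ p.2 := by
    intro Q hQ hD D h1 h2 h3
    have hτ : IsFiniteMeasure (lam • Measure.dirac ()) := Measure.smul_finite _ hl
    have hu : (lam • Measure.dirac ()) (univ : Set Unit) = lam := by simp
    have hm : Measurable fun p : Cfg KC × Cfg (KC × Unit) => p.1 ∪ vis univ p.2 :=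
      Measurable.cfgUnion measurable_fst ((measurable_vis MeasurableSet.univ).comp measurable_snd)
    have h4 := h c ρ r hρ hr Q hQ hD Unit _ hτ univ MeasurableSet.univ D h1 h2 h3 f hf hf'
      (fun p => g (p.1 ∪ vis univ p.2)) (hg.comp hm) (fun S => hg'.union (vis univ S))
      fun T => DomA.outM hg' T
    have h5 := DomA.law hPPO Q ((muK ν).restrict (inK D)) (lam • Measure.dirac ())
    rw [hu] at h4 h5
    rw [soupE, ← h5, lintegral_map hg hm,
      setLIntegral_map (f := fun S => f S * g S) (hRJ.1 c ρ).2 (hf.mul hg) hm]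
    exact h4
  obtain ⟨h1, h2⟩ := hDQS ν hν c ρ hρ
  refine ⟨fun D a b d => ?_, fun A₀ c₀ ρ₀ r₀ a b d => ?_⟩
  · have h3 := key _ inferInstance h1 D a b d
    rwa [Measure.dirac_prod, Measure.map_map (by fun_prop) measurable_prodMk_left,
      show ((fun p : Cfg KC × Cfg KC => p.1 ∪ p.2) ∘ Prod.mk ∅) = id from
        funext fun S => Cfg.empty_union S, Measure.map_id] at h3
  · exact key _ inferInstance (h2 A₀ c₀ ρ₀ r₀ a b d).2 _ isOpen_ball isBounded_ball
      (d.trans (ball_subset_ball (by linarith)))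

end Pool.Agent.P.MP_d66c6d_pr
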