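import Pool.Agent.P.MP_d66c6d_pr.U.Iface2
import Pool.Agent.P.MP_d66c6d_pr.F.Iface

/-! Step DOMM of the carpet project. -/

namespace Pool.Agent.P.MP_d66c6d_pr

open MeasureTheory ProbabilityTheory Set Metric Filter Topology
open scoped ENNReal

namespace DommA

theorem lint_add (hPPO : S_PPO) {E : Type} [MeasurableSpace E] (μ μ' : Measure E) [SFinite μ]
    [SFinite μ'] {Φ : Cfg E → ℝ≥0∞} (hΦ : Measurable Φ) :
    ∫⁻ S, Φ S ∂PP (μ + μ') = ∫⁻ S, ∫⁻ S', Φ (S ∪ S') ∂PP μ' ∂PP μ := by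
  have hm : Measurable fun p : Cfg E × Cfg E => p.1 ∪ p.2 := by fun_prop
  rw [← (hPPO E μ inferInstance).1 μ' inferInstance, lintegral_map hΦ hm,
    lintegral_prod (fun p : Cfg E × Cfg E => Φ (p.1 ∪ p.2)) (hΦ.comp hm).aemeasurable]

theorem lint_add3 (hPPO : S_PPO) {E : Type} [MeasurableSpace E] (μ3 μ2 μ1 : Measure E)
    [SFinite μ3] [SFinite μ2] [SFinite μ1] {Φ : Cfg E → ℝ≥0∞} (hΦ : Measurable Φ) :
    ∫⁻ S, Φ S ∂PP (μ3 + (μ2 + μ1)) =
      ∫⁻ S3, ∫⁻ S2, ∫⁻ S1, Φ (S3 ∪ (S2 ∪ S1)) ∂PP μ1 ∂PP μ2 ∂PP μ3 := by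
  rw [lint_add hPPO μ3 (μ2 + μ1) hΦ]
  refine lintegral_congr fun S3 => ?_
  exact lint_add hPPO μ2 μ1 (Φ := fun S => Φ (S3 ∪ S)) (hΦ.comp (by fun_prop))

theorem vis_eq {X : Type} {B : Set X} {S3 S2 S1 : Cfg (KC × X)} (h3 : ∀ p ∈ S3.pts, p.2 ∉ B)
    (h2 : ∀ p ∈ S2.pts, p.2 ∈ B) (h1 : ∀ p ∈ S1.pts, p.2 ∈ B) :
    vis B (S3 ∪ (S2 ∪ S1)) = S2.map Prod.fst ∪ S1.map Prod.fst := by
  refine Cfg.ext ?_
  simp only [vis, Cfg.pts_map, Cfg.pts_res, Cfg.pts_union, ← image_union]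
  congr 1
  ext p
  simp only [mem_inter_iff, mem_union, mem_ofPred_eq]
  constructor
  · rintro ⟨h | h, hb⟩
    · exact absurd hb (h3 p h)
    · exact h
  · rintro (h | h)
    · exact ⟨Or.inr (Or.inl h), h2 p h⟩
    · exact ⟨Or.inr (Or.inr h), h1 p h⟩

theorem outM_left {X : Type} {W : Set ℂ} {g : Cfg (KC × X) → ℝ≥0∞} (h : OutM W g)
    (R : Cfg (KC × X)) : OutM W fun S => g (R ∪ S) := by
  refine ⟨fun S T hs => ?_, fun K L x S h1 h2 e => ?_⟩
  · rw [← Cfg.union_assoc, h.drop _ _ hs]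
  · simpa only [Cfg.union_insert] using h.swap K L x (R ∪ S) h1 h2 e

theorem locK_lint {U : Set ℂ} {f : Cfg KC → ℝ≥0∞} (h : LocK U f) (P : Measure (Cfg KC)) :
    LocK U fun l => ∫⁻ S, f (l ∪ S) ∂P :=
  ⟨fun S T hs => lintegral_congr fun R => (h.union R).drop S T hs,
    fun K L L' S h1 h2 h3 e => lintegral_congr fun R => (h.union R).split K L L' S h1 h2 h3 e⟩

theorem split_int {X : Type} [MeasurableSpace X] (μ : Measure KC) [SFinite μ] (τ : Measure X)
    [SFinite τ] {B : Set X} (hB : MeasurableSet B) {U V : Set KC} (hV : MeasurableSet V)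
    (hVU : V ⊆ U) :
    (μ.restrict U).prod τ = (μ.restrict U).prod (τ.restrict Bᶜ) +
      ((μ.restrict (U \ V)).prod (τ.restrict B) + (μ.restrict V).prod (τ.restrict B)) := by
  have h1 : μ.restrict U = μ.restrict (U \ V) + μ.restrict V := by
    rw [← Measure.restrict_union disjoint_sdiff_left hV, Set.sdiff_union_of_subset hVU]
  rw [← Measure.add_prod, ← h1, ← Measure.prod_add, add_comm,
    Measure.restrict_add_restrict_compl hB]

/-- The estimate for a fixed family of strands. -/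
theorem fixed (hPPO : S_PPO) {X : Type} [MeasurableSpace X] {B : Set X} (hB : MeasurableSet B)
    {W : Set ℂ} {c : ℂ} {ρ : ℝ} (hND : MeasurableSet (allND c ρ))
    (μ3 μ2 μ1 : Measure (KC × X)) [SFinite μ3] [SFinite μ2] [SFinite μ1]
    (h3 : ∀ᵐ p ∂μ3, p.2 ∉ B) (h2 : ∀ᵐ p ∂μ2, p.2 ∈ B)
    (h1 : ∀ᵐ p ∂μ1, p.2 ∈ B ∧ (p.1 : Set ℂ) ⊆ W)
    {f H : Cfg KC → ℝ≥0∞} (hf : Measurable f)
    (hfH : ∀ l, ∫⁻ S, f (l ∪ S) ∂PP (μ1.map Prod.fst) ≤ H l) (T : Cfg KC)
    (hD : ∀ g : Cfg (KC × X) → ℝ≥0∞, Measurable g → OutM W g →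
      ∫⁻ S in {S | S.map Prod.fst ∈ allND c ρ}, H (T ∪ S.map Prod.fst) * g S ∂PP μ2 ≤
        H T * ∫⁻ S, g S ∂PP μ2)
    {g : Cfg (KC × X) → ℝ≥0∞} (hg : Measurable g) (hg' : OutM W g) :
    ∫⁻ S, (allND c ρ).indicator f (T ∪ vis B S) * g S ∂PP (μ3 + (μ2 + μ1)) ≤
      (allND c ρ).indicator (fun R => H R * ∫⁻ S, g S ∂PP (μ3 + (μ2 + μ1))) T := by
  have a3 := (hPPO _ μ3 inferInstance).2.2.2.2.2.1 _ h3
  have a2 := (hPPO _ μ2 inferInstance).2.2.2.2.2.1 _ h2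
  have a1 := (hPPO _ μ1 inferInstance).2.2.2.2.2.1 _ h1
  have hv := measurable_vis hB
  have hmap : Measurable (Cfg.map (Prod.fst : KC × X → KC)) := measurable_cfgMap measurable_fst
  by_cases hT : T ∈ allND c ρ
  swap
  · have : ∀ S, (allND c ρ).indicator f (T ∪ vis B S) = 0 := fun S =>
      indicator_of_notMem (fun (h : T ∪ vis B S ∈ allND c ρ) => hT fun K hK => h K (Or.inl hK)) _
    simp [this]
  rw [indicator_of_mem hT]
  have hΦ : Measurable fun S => (allND c ρ).indicator f (T ∪ vis B S) * g S :=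
    ((hf.indicator hND).comp (Measurable.cfgUnion measurable_const hv)).mul hg
  have e : ∫⁻ S, g S ∂PP (μ3 + (μ2 + μ1)) = ∫⁻ S3, ∫⁻ S2, g (S3 ∪ S2) ∂PP μ2 ∂PP μ3 := by
    rw [lint_add3 hPPO μ3 μ2 μ1 hg]
    refine lintegral_congr fun S3 => lintegral_congr fun S2 => ?_
    have : ∀ᵐ S1 ∂PP μ1, g (S3 ∪ (S2 ∪ S1)) = g (S3 ∪ S2) := by
      filter_upwards [a1] with S1 h
      rw [← Cfg.union_assoc, hg'.drop _ _ fun p hp => (h p hp).2]
    rw [lintegral_congr_ae this]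
    simp
  have hG : Measurable fun S3 => ∫⁻ S2, g (S3 ∪ S2) ∂PP μ2 :=
    Measurable.lintegral_prod_right' (f := fun p : Cfg (KC × X) × Cfg (KC × X) => g (p.1 ∪ p.2))
      (hg.comp (by fun_prop))
  rw [lint_add3 hPPO μ3 μ2 μ1 hΦ, e, ← lintegral_const_mul _ hG]
  refine lintegral_mono_ae ?_
  filter_upwards [a3] with S3 b3
  refine le_trans ?_ (hD (fun S => g (S3 ∪ S)) (hg.comp (by fun_prop)) (outM_left hg' S3))
  rw [← lintegral_indicator (show MeasurableSet {S : Cfg (KC × X) | S.map Prod.fst ∈ allND c ρ}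
    from hmap hND)]
  refine lintegral_mono_ae ?_
  filter_upwards [a2] with S2 b2
  by_cases hS : S2.map Prod.fst ∈ allND c ρ
  swap
  · have : ∀ᵐ S1 ∂PP μ1, (allND c ρ).indicator f (T ∪ vis B (S3 ∪ (S2 ∪ S1))) *
        g (S3 ∪ (S2 ∪ S1)) = 0 := by
      filter_upwards [a1] with S1 h
      rw [vis_eq b3 b2 fun p hp => (h p hp).1, indicator_of_notMem, zero_mul]
      exact fun h' => hS fun K hK => h' K (Or.inr (Or.inl hK))
    rw [lintegral_congr_ae this]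
    simp
  rw [indicator_of_mem (show S2 ∈ {S : Cfg (KC × X) | S.map Prod.fst ∈ allND c ρ} from hS)]
  have hf2 : Measurable fun S => f ((T ∪ S2.map Prod.fst) ∪ S) := hf.comp (by fun_prop)
  calc _ ≤ ∫⁻ S1, f ((T ∪ S2.map Prod.fst) ∪ S1.map Prod.fst) * g (S3 ∪ S2) ∂PP μ1 := by
        refine lintegral_mono_ae ?_
        filter_upwards [a1] with S1 h
        rw [vis_eq b3 b2 fun p hp => (h p hp).1, ← Cfg.union_assoc, ← Cfg.union_assoc,
          hg'.drop _ _ fun p hp => (h p hp).2]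
        exact mul_le_mul_left (indicator_le_self _ _ _) _
    _ = (∫⁻ S, f ((T ∪ S2.map Prod.fst) ∪ S) ∂PP (μ1.map Prod.fst)) * g (S3 ∪ S2) := by
        rw [lintegral_mul_const _
            (f := fun S1 : Cfg (KC × X) => f ((T ∪ S2.map Prod.fst) ∪ S1.map Prod.fst))
            (hf2.comp hmap),
          ← (hPPO _ μ1 inferInstance).2.2.1 KC Prod.fst measurable_fst, lintegral_map hf2 hmap]
    _ ≤ _ := mul_le_mul_left (hfH _) _

end DommA

theorem p_DOMM (hSUPH : S_SUPH) (hDQL : S_DQL) (hRJ : S_RJ) (hPPE : S_PPE) (hPPO : S_PPO) (hMUK : S_MUK) :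
    S_DOMM := by
  intro ν hν
  obtain ⟨A, hA, hS⟩ := hSUPH ν hν
  refine ⟨A, hA, ?_⟩
  intro c ρ r hρ hr Q hQ hDQ X _ τ hτ B hB D hD hDb hWD f hf hfl g hg hg1 hg2
  have := hν.prob
  have := (hMUK ν hν).2.1
  have hND := (hRJ.1 c ρ).2
  have hW : MeasurableSet (inK (ball c (10 * ρ))) := (isOpen_inK isOpen_ball).measurableSet
  have hWD' : inK (ball c (10 * ρ)) ⊆ inK D := fun K hK => Subset.trans hK hWD
  set P := PP (((muK ν).restrict (inK D)).prod τ) with hP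
  let F : Cfg KC → ℝ≥0∞ := fun l => ∫⁻ S, f (l ∪ S) ∂soupE ν (τ B) (ball c (10 * ρ))
  have hF : Measurable F :=
    Measurable.lintegral_prod_right' (f := fun p : Cfg KC × Cfg KC => f (p.1 ∪ p.2))
      (hf.comp (by fun_prop))
  have hH := hS c ρ r hρ hr F hF (DommA.locK_lint hfl _)
  set H : Cfg KC → ℝ≥0∞ := fun l => ∫⁻ T, F (T ∪ l) ∂(RS ν A c ρ r) with hHd
  have hFH : ∀ l, F l ≤ H l := fun l => by
    have := (hRJ.2.2 KC (rhoK ν A c ρ r) inferInstance).2.2.1 (fun T => F (T ∪ l))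
      (hF.comp (by fun_prop))
    simp only [Cfg.empty_union] at this
    exact le_of_le_of_eq le_self_add this.symm
  have hH0 : H ∅ = ∫⁻ S, f S ∂MM ν (τ B) A c ρ r := by
    have hm : Measurable fun p : Cfg KC × Cfg KC => p.1 ∪ p.2 := by fun_prop
    rw [MM, lintegral_map hf hm,
      lintegral_prod (fun p : Cfg KC × Cfg KC => f (p.1 ∪ p.2)) (hf.comp hm).aemeasurable]
    simp only [hHd, Cfg.union_empty, F]
  let G : Cfg KC → ℝ≥0∞ := fun T => ∫⁻ S, g (T, S) ∂P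
  have hG : Measurable G := hg.lintegral_prod_right'
  have hG' : OutK (ball c (10 * ρ)) G :=
    ⟨fun S T hs => lintegral_congr fun R => (hg1 R).drop S T hs,
      fun K L S h1 h2 e => lintegral_congr fun R => (hg1 R).swap K L S h1 h2 e⟩
  have hu : Measurable fun p : Cfg KC × Cfg (KC × X) => p.1 ∪ vis B p.2 :=
    Measurable.cfgUnion measurable_fst ((measurable_vis hB).comp measurable_snd)
  have key : ∀ T, ∫⁻ S, (allND c ρ).indicator f (T ∪ vis B S) * g (T, S) ∂P ≤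
      (allND c ρ).indicator (fun R => H R * G T) T := by
    intro T
    simp only [G]
    rw [hP, DommA.split_int (muK ν) τ hB hW hWD']
    refine DommA.fixed hPPO hB hND _ _ _ ?_ ?_ ?_ hf (fun l => ?_) T (fun g' h1 h2 => ?_)
      (g := fun S => g (T, S)) (hg.comp (by fun_prop)) (hg2 T)
    · exact Measure.quasiMeasurePreserving_snd.ae (ae_restrict_mem hB.compl)
    · exact Measure.quasiMeasurePreserving_snd.ae (ae_restrict_mem hB)
    · exact (Measure.quasiMeasurePreserving_snd.ae (ae_restrict_mem hB)).and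
        (Measure.quasiMeasurePreserving_fst.ae (ae_restrict_mem hW))
    · rw [Measure.map_fst_prod, Measure.restrict_apply_univ]
      exact hFH l
    · exact hDQL ν hν c ρ hρ X (τ.restrict B) inferInstance D hD hDb hWD H hH T g' h1 h2
  calc _ = ∫⁻ p, (allND c ρ).indicator f (p.1 ∪ vis B p.2) * g p ∂Q.prod P := by
        rw [← lintegral_indicator (show MeasurableSet
          {p : Cfg KC × Cfg (KC × X) | p.1 ∪ vis B p.2 ∈ allND c ρ} from hu hND)]
        refine lintegral_congr fun p => ?_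
        by_cases hp : p.1 ∪ vis B p.2 ∈ allND c ρ
        · rw [indicator_of_mem hp, indicator_of_mem (show p ∈ {p : Cfg KC × Cfg (KC × X) |
            p.1 ∪ vis B p.2 ∈ allND c ρ} from hp)]
        · rw [indicator_of_notMem hp, indicator_of_notMem (show p ∉ {p : Cfg KC × Cfg (KC × X) |
            p.1 ∪ vis B p.2 ∈ allND c ρ} from hp), zero_mul]
    _ = ∫⁻ T, ∫⁻ S, (allND c ρ).indicator f (T ∪ vis B S) * g (T, S) ∂P ∂Q :=
        lintegral_prod _ (((hf.indicator hND).comp hu).mul hg).aemeasurable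
    _ ≤ ∫⁻ T in allND c ρ, H (∅ ∪ T) * G T ∂Q := by
        rw [← lintegral_indicator hND]
        refine lintegral_mono fun T => (key T).trans (le_of_eq ?_)
        by_cases hT : T ∈ allND c ρ
        · rw [indicator_of_mem hT, indicator_of_mem hT, Cfg.empty_union]
        · rw [indicator_of_notMem hT, indicator_of_notMem hT]
    _ ≤ H ∅ * ∫⁻ T, G T ∂Q := hDQ H hH ∅ G hG hG'
    _ = _ := by rw [hH0, lintegral_prod _ hg.aemeasurable]

end Pool.Agent.P.MP_d66c6d_pr
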