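import Pool.Agent.P.MP_d66c6d_pr.U.Iface3
import Pool.Agent.P.MP_d66c6d_pr.U.Iface2
import Pool.Agent.P.MP_d66c6d_pr.F.Iface

/-! Step DQF of the carpet project. -/

namespace Pool.Agent.P.MP_d66c6d_pr

open MeasureTheory ProbabilityTheory Set Metric Filter Topology
open scoped ENNReal

namespace DqfA

theorem lint_add (hPPO : S_PPO) {E : Type} [MeasurableSpace E] (μ μ' : Measure E) [SFinite μ]
    [SFinite μ'] {Φ : Cfg E → ℝ≥0∞} (hΦ : Measurable Φ) :
    ∫⁻ S, Φ S ∂PP (μ + μ') = ∫⁻ S, ∫⁻ S', Φ (S ∪ S') ∂PP μ' ∂PP μ := by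
  have hm : Measurable fun p : Cfg E × Cfg E => p.1 ∪ p.2 := by fun_prop
  rw [← (hPPO E μ inferInstance).1 μ' inferInstance, lintegral_map hΦ hm,
    lintegral_prod (fun p : Cfg E × Cfg E => Φ (p.1 ∪ p.2)) (hΦ.comp hm).aemeasurable]

theorem outK_insert {W : Set ℂ} {g : Cfg KC → ℝ≥0∞} (h : OutK W g) (y : KC) :
    OutK W fun S => g (insert y S) := by
  simpa only [Cfg.union_insert, Cfg.union_empty] using h.union (insert y ∅)

/-- The integrand. -/
noncomputable def Psi (c : ℂ) (ρ : ℝ) (H : Cfg KC → ℝ≥0∞) (l : Cfg KC)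
    (g : Cfg KC → ℝ≥0∞) (S : Cfg KC) : ℝ≥0∞ :=
  (allND c ρ).indicator (fun T => H (l ∪ T)) S * g S

variable {c : ℂ} {ρ : ℝ} {H : Cfg KC → ℝ≥0∞}

theorem psi_insert (l : Cfg KC) (g : Cfg KC → ℝ≥0∞) (y : KC) (T : Cfg KC) :
    Psi c ρ H l g (insert y T) =
      (NDK c ρ).indicator 1 y * Psi c ρ H (insert y l) (fun S => g (insert y S)) T := by
  have e2 : insert y T ∈ allND c ρ ↔ y ∈ NDK c ρ ∧ T ∈ allND c ρ := forall_mem_insert
  unfold Psi
  by_cases h1 : y ∈ NDK c ρ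
  · by_cases h2 : T ∈ allND c ρ
    · rw [indicator_of_mem (e2.2 ⟨h1, h2⟩), indicator_of_mem h1, indicator_of_mem h2,
        Cfg.union_insert, Cfg.insert_union, Pi.one_apply, one_mul]
    · rw [indicator_of_notMem fun h => h2 (e2.1 h).2, indicator_of_notMem h2]
      simp
  · rw [indicator_of_notMem fun h => h1 (e2.1 h).1, indicator_of_notMem h1]
    simp

theorem psi_union (hH : LocK (ball c (3 * ρ)) H) (l : Cfg KC) (g : Cfg KC → ℝ≥0∞)
    (S R : Cfg KC) (hR : ∀ y ∈ R.pts, y ∉ hitK (ball c (3 * ρ))) :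
    Psi c ρ H l g (S ∪ R) ≤ Psi c ρ H l (fun S => g (S ∪ R)) S := by
  unfold Psi
  refine mul_le_mul_left ?_ _
  by_cases h : S ∪ R ∈ allND c ρ
  · have h' : S ∈ allND c ρ := fun K hK => h K (Or.inl hK)
    rw [indicator_of_mem h, indicator_of_mem h', ← Cfg.union_assoc, hH.drop]
    intro y hy
    exact Set.disjoint_iff_inter_eq_empty.2 (not_nonempty_iff_eq_empty.1 (hR y hy))
  · rw [indicator_of_notMem h]
    exact zero_le

theorem meas_psi (hRJ : S_RJ) (hH : Measurable H) (l : Cfg KC) {g : Cfg KC → ℝ≥0∞}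
    (hg : Measurable g) : Measurable (Psi c ρ H l g) :=
  ((hH.comp (Measurable.cfgUnion measurable_const measurable_id)).indicator
    (hRJ.1 c ρ).2).mul hg

theorem rj (hRJ : S_RJ) (hH : Measurable H) {m : Measure KC} [SFinite m]
    (h1 : DqlA.One c ρ H m) : ∀ (k : ℕ) (l : Cfg KC) (g : Cfg KC → ℝ≥0∞),
    Measurable g → OutK (ball c (10 * ρ)) g →
    ∫⁻ S, Psi c ρ H l g S ∂(RJ m k) ≤ H l * ∫⁻ S, g S ∂(RJ m k) := by
  intro k
  induction k with
  | zero =>
    intro l g hg _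
    rw [RJ, lintegral_dirac' _ (meas_psi hRJ hH l hg), lintegral_dirac' _ hg]
    refine mul_le_mul_left ((indicator_le_self _ _ _).trans_eq ?_) _
    rw [Cfg.union_empty]
  | succ k ih =>
    intro l g hg ho
    have r := (hRJ.2.2 _ m inferInstance).2.1 k
    have m0 : Measurable fun q : KC × Cfg KC => g (insert q.1 q.2) :=
      hg.comp (Measurable.cfgInsert measurable_fst measurable_snd)
    have mG : Measurable fun y : KC => ∫⁻ T, g (insert y T) ∂(RJ m k) :=
      m0.lintegral_prod_right'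
    rw [r _ (meas_psi hRJ hH l hg), r _ hg]
    refine le_trans (lintegral_mono fun y => ?_) (h1 l _ mG
      fun K L a b e => lintegral_congr fun T => ho.swap K L T a b e)
    have mg : Measurable fun S => g (insert y S) := m0.comp measurable_prodMk_left
    simp only [psi_insert]
    rw [lintegral_const_mul _ (meas_psi hRJ hH _ mg)]
    exact mul_le_mul_right (ih _ _ mg (outK_insert ho y)) _

theorem pp (hRJ : S_RJ) (hPPF : S_PPF) (hH : Measurable H) {m : Measure KC} [IsFiniteMeasure m]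
    (h1 : DqlA.One c ρ H m) (l : Cfg KC)
    {g : Cfg KC → ℝ≥0∞} (hg : Measurable g) (ho : OutK (ball c (10 * ρ)) g) :
    ∫⁻ S, Psi c ρ H l g S ∂PP m ≤ H l * ∫⁻ S, g S ∂PP m := by
  have r := (hRJ.2.2 _ m inferInstance).2.2.2.2.1 inferInstance
  rw [← (hPPF _ m inferInstance).eq_PP, ppFin, lintegral_sum_measure,
    lintegral_sum_measure, ← ENNReal.tsum_mul_left]
  refine ENNReal.tsum_le_tsum fun k => ?_
  rw [lintegral_smul_measure, lintegral_smul_measure, ← r, smul_eq_mul, smul_eq_mul, mul_left_comm]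
  exact mul_le_mul_right (rj hRJ hH h1 k l g hg ho) _

theorem two (hRJ : S_RJ) (hPPF : S_PPF) (hPPO : S_PPO) (hH : Measurable H)
    (hl : LocK (ball c (3 * ρ)) H) {m m' : Measure KC} [IsFiniteMeasure m] [SFinite m']
    (h1 : DqlA.One c ρ H m) (h2 : ∀ᵐ K ∂m', K ∉ hitK (ball c (3 * ρ))) (l : Cfg KC)
    {g : Cfg KC → ℝ≥0∞} (hg : Measurable g) (ho : OutK (ball c (10 * ρ)) g) :
    ∫⁻ S, Psi c ρ H l g S ∂PP (m + m') ≤ H l * ∫⁻ S, g S ∂PP (m + m') := by
  have ae := (hPPO _ m' inferInstance).2.2.2.2.2.1 _ h2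
  have mU : Measurable fun p : Cfg KC × Cfg KC => p.1 ∪ p.2 := by fun_prop
  have mg : Measurable fun p : Cfg KC × Cfg KC => g (p.1 ∪ p.2) := hg.comp mU
  rw [add_comm, lint_add hPPO _ _ (meas_psi hRJ hH l hg), lint_add hPPO _ _ hg,
    ← lintegral_const_mul _ mg.lintegral_prod_right']
  refine lintegral_mono_ae (ae.mono fun R hR => ?_)
  simp only [Cfg.union_comm R]
  exact (lintegral_mono fun S => psi_union hl l g S R hR).trans
    (pp hRJ hPPF hH h1 l (hg.comp (by fun_prop)) (ho.union R))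

end DqfA

open DqfA in
theorem p_DQF (hRJ : S_RJ) (hPPF : S_PPF) (hPPE : S_PPE) (hPPO : S_PPO) :
    S_DQF := by
  intro c ρ H hH hl m m' m'' _ _ _ h1 h2 h3 f g hf hg ho hfH
  have hND := (hRJ.1 c ρ).2
  have a3 := (hPPO _ m'' inferInstance).2.2.2.2.2.1 _ h3
  have e : ∫⁻ S, g S ∂PP (m + m' + m'') = ∫⁻ S, g S ∂PP (m + m') := by
    rw [lint_add hPPO _ _ hg]
    refine lintegral_congr fun S => ?_
    have : ∀ᵐ T ∂PP m'', g (S ∪ T) = g S := a3.mono fun T h => ho.drop _ _ h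
    rw [lintegral_congr_ae this]
    simp
  have hfg : Measurable fun S => f S * g S := hf.mul hg
  rw [e, ← lintegral_indicator hND, lint_add hPPO _ _ (hfg.indicator hND)]
  refine le_trans (lintegral_mono_ae (hfH.mono fun l hl' => ?_))
    (two hRJ hPPF hPPO hH hl h1 h2 ∅ hg ho)
  unfold Psi
  by_cases hS : l ∈ allND c ρ
  · rw [indicator_of_mem hS, Cfg.empty_union]
    have hf2 : Measurable fun S => f (l ∪ S) := hf.comp (by fun_prop)
    calc _ ≤ ∫⁻ S, f (l ∪ S) * g l ∂PP m'' := by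
          refine lintegral_mono_ae (a3.mono fun T h => ?_)
          refine (indicator_le_self _ _ _).trans_eq ?_
          rw [ho.drop _ _ h]
      _ = (∫⁻ S, f (l ∪ S) ∂PP m'') * g l := lintegral_mul_const _ hf2
      _ ≤ _ := mul_le_mul_left hl' _
  · have : ∀ T, (allND c ρ).indicator (fun S => f S * g S) (l ∪ T) = 0 := fun T =>
      indicator_of_notMem (fun (h : l ∪ T ∈ allND c ρ) => hS fun K hK => h K (Or.inl hK)) _
    simp [this]

end Pool.Agent.P.MP_d66c6d_pr
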