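import Pool.Agent.P.MP_d66c6d_pr.U.Iface2
import Pool.Agent.P.MP_d66c6d_pr.U.Iface
import Pool.Agent.P.MP_d66c6d_pr.F.Iface

/-! Step DQL of the carpet project. -/

namespace Pool.Agent.P.MP_d66c6d_pr

open MeasureTheory ProbabilityTheory Set Metric Filter Topology
open scoped ENNReal

namespace DqlA

variable {X : Type}

theorem outM_union {W : Set ℂ} {g : Cfg (KC × X) → ℝ≥0∞} (h : OutM W g) (R : Cfg (KC × X)) :
    OutM W fun S => g (S ∪ R) := by
  refine ⟨fun S T hs => ?_, fun K L x S h1 h2 e => ?_⟩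
  · rw [Cfg.union_assoc, Cfg.union_comm T R, ← Cfg.union_assoc, h.drop _ _ hs]
  · simpa only [Cfg.insert_union] using h.swap K L x (S ∪ R) h1 h2 e

theorem outM_insert {W : Set ℂ} {g : Cfg (KC × X) → ℝ≥0∞} (h : OutM W g) (y : KC × X) :
    OutM W fun S => g (insert y S) := by
  simpa only [Cfg.union_insert, Cfg.union_empty] using outM_union h (insert y ∅)

/-- The integrand. -/
noncomputable def Phi (c : ℂ) (ρ : ℝ) (H : Cfg KC → ℝ≥0∞) (l : Cfg KC)
    (g : Cfg (KC × X) → ℝ≥0∞) (S : Cfg (KC × X)) : ℝ≥0∞ :=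
  (allND c ρ).indicator (fun T => H (l ∪ T)) (S.map Prod.fst) * g S

variable {c : ℂ} {ρ : ℝ} {H : Cfg KC → ℝ≥0∞} {ν : Measure Br}

theorem phi_insert (l : Cfg KC) (g : Cfg (KC × X) → ℝ≥0∞) (y : KC × X) (T : Cfg (KC × X)) :
    Phi c ρ H l g (insert y T) =
      (NDK c ρ).indicator 1 y.1 * Phi c ρ H (insert y.1 l) (fun S => g (insert y S)) T := by
  have e : (insert y T).map Prod.fst = insert y.1 (T.map Prod.fst) := Cfg.ext image_insert_eq
  have e2 : insert y.1 (T.map Prod.fst) ∈ allND c ρ ↔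
      y.1 ∈ NDK c ρ ∧ T.map Prod.fst ∈ allND c ρ := forall_mem_insert
  unfold Phi
  rw [e]
  by_cases h1 : y.1 ∈ NDK c ρ
  · by_cases h2 : T.map Prod.fst ∈ allND c ρ
    · rw [indicator_of_mem (e2.2 ⟨h1, h2⟩), indicator_of_mem h1, indicator_of_mem h2,
        Cfg.union_insert, Cfg.insert_union, Pi.one_apply, one_mul]
    · rw [indicator_of_notMem fun h => h2 (e2.1 h).2, indicator_of_notMem h2]
      simp
  · rw [indicator_of_notMem fun h => h1 (e2.1 h).1, indicator_of_notMem h1]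
    simp

theorem phi_union (hH : LocK (ball c (3 * ρ)) H) (l : Cfg KC) (g : Cfg (KC × X) → ℝ≥0∞)
    (S R : Cfg (KC × X)) (hR : ∀ y ∈ R.pts, y.1 ∉ hitK (ball c (3 * ρ))) :
    Phi c ρ H l g (S ∪ R) ≤ Phi c ρ H l (fun S => g (S ∪ R)) S := by
  have e : (S ∪ R).map Prod.fst = S.map Prod.fst ∪ R.map Prod.fst := Cfg.ext (image_union _ _ _)
  unfold Phi
  refine mul_le_mul_left ?_ _
  by_cases h : (S ∪ R).map Prod.fst ∈ allND c ρ
  · have h' : S.map Prod.fst ∈ allND c ρ := fun K hK => h K (by rw [e]; exact Or.inl hK)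
    rw [indicator_of_mem h, e, indicator_of_mem h', ← Cfg.union_assoc, hH.drop]
    rintro _ ⟨y, hy, rfl⟩
    exact Set.disjoint_iff_inter_eq_empty.2 (not_nonempty_iff_eq_empty.1 (hR y hy))
  · rw [indicator_of_notMem h]
    exact zero_le

variable [MeasurableSpace X]

theorem meas_phi (hRJ : S_RJ) (hH : Measurable H) (l : Cfg KC) {g : Cfg (KC × X) → ℝ≥0∞}
    (hg : Measurable g) : Measurable (Phi c ρ H l g) :=
  (((hH.comp (Measurable.cfgUnion measurable_const measurable_id)).indicator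
    (hRJ.1 c ρ).2).comp (measurable_cfgMap measurable_fst)).mul hg

/-- One more point. -/
def One (c : ℂ) (ρ : ℝ) (H : Cfg KC → ℝ≥0∞) (m : Measure KC) : Prop :=
  ∀ (l : Cfg KC) (G : KC → ℝ≥0∞), Measurable G →
    (∀ K L : KC, IsPreconnected (K : Set ℂ) → IsPreconnected (L : Set ℂ) →
      (K : Set ℂ) \ ball c (10 * ρ) = (L : Set ℂ) \ ball c (10 * ρ) → G K = G L) →
    ∫⁻ K, (NDK c ρ).indicator 1 K * (H (insert K l) * G K) ∂m ≤ H l * ∫⁻ K, G K ∂m

theorem one (hRJ : S_RJ) (hD : S_DLOOPH) (hν : IsBridge ν) (hρ : 0 < ρ) (hH : SupK ν c ρ H)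
    {D : Set ℂ} (hO : IsOpen D) (hW : ball c (10 * ρ) ⊆ D) :
    One c ρ H ((muK ν).restrict ((inK D \ inK (ball c (10 * ρ))) ∩ hitK (ball c (3 * ρ)))) := by
  intro l G hG hG'
  have t : Measurable fun p : TP => trB p.2 := by fun_prop
  have mD := (isOpen_inK hO).measurableSet
  have mN := (hRJ.1 c ρ).1.measurableSet
  have mB : MeasurableSet ((inK (ball c (10 * ρ)))ᶜ ∩ hitK (ball c (3 * ρ))) :=
    (isOpen_inK isOpen_ball).measurableSet.compl.inter (isOpen_hitK isOpen_ball).measurableSet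
  have e : ∀ f : KC → ℝ≥0∞, Measurable f →
      ∫⁻ K, f K ∂(muK ν).restrict ((inK D \ inK (ball c (10 * ρ))) ∩ hitK (ball c (3 * ρ))) =
      ∫⁻ p, (inK D).indicator f (trB p.2) ∂(LM ν).restrict
        {p | ¬ range p.2 ⊆ ball c (10 * ρ) ∧ (range p.2 ∩ ball c (3 * ρ)).Nonempty} := by
    intro f hf
    have e1 : muK ν = (LM ν).map fun p => trB p.2 := by
      rw [LM, Measure.map_map t measurable_lp]
      rfl
    rw [Set.sdiff_eq, inter_assoc, ← Measure.restrict_restrict mD, ← lintegral_indicator mD, e1,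
      Measure.restrict_map t mB, lintegral_map (hf.indicator mD) t]
    rfl
  have m1 : Measurable fun K : KC => H (insert K l) :=
    hH.meas.comp (Measurable.cfgInsert measurable_id measurable_const)
  have m2 : Measurable fun K : KC => (NDK c ρ).indicator 1 K * (H (insert K l) * G K) :=
    (measurable_one.indicator mN).mul (m1.mul hG)
  rw [e _ m2, e _ hG]
  refine le_trans (le_of_eq ?_) ((hD ν hν c ρ hρ).trace hH l (hG.indicator mD) fun K L h1 h2 h => ?_)
  · rw [← lintegral_indicator (show MeasurableSet (NDs c ρ) from t mN)]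
    refine lintegral_congr fun p => ?_
    by_cases h1 : trB p.2 ∈ inK D <;> by_cases h2 : p ∈ NDs c ρ <;>
      simp [indicator, h1, h2, trB_mem_NDK]
  · have key : ∀ K L : KC, (K : Set ℂ) \ ball c (10 * ρ) = (L : Set ℂ) \ ball c (10 * ρ) →
        K ∈ inK D → L ∈ inK D := fun K L h hK z hz => by
      by_cases hb : z ∈ ball c (10 * ρ)
      · exact hW hb
      · exact hK (h.ge ⟨hz, hb⟩).1
    by_cases hK : K ∈ inK D
    · rw [indicator_of_mem hK, indicator_of_mem (key K L h hK), hG' K L h1 h2 h]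
    · rw [indicator_of_notMem hK, indicator_of_notMem fun hL => hK (key L K h.symm hL)]

theorem rj (hRJ : S_RJ) (hH : Measurable H) {m : Measure KC} [SFinite m] (h1 : One c ρ H m)
    (τ : Measure X) [SFinite τ] : ∀ (k : ℕ) (l : Cfg KC) (g : Cfg (KC × X) → ℝ≥0∞),
    Measurable g → OutM (ball c (10 * ρ)) g →
    ∫⁻ S, Phi c ρ H l g S ∂(RJ (m.prod τ) k) ≤ H l * ∫⁻ S, g S ∂(RJ (m.prod τ) k) := by
  intro k
  induction k with
  | zero =>
    intro l g hg _
    rw [RJ, lintegral_dirac' _ (meas_phi hRJ hH l hg), lintegral_dirac' _ hg]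
    refine mul_le_mul_left ((indicator_le_self _ _ _).trans_eq ?_) _
    rw [show (∅ : Cfg (KC × X)).map Prod.fst = ∅ from Cfg.ext (image_empty _), Cfg.union_empty]
  | succ k ih =>
    intro l g hg ho
    have r := (hRJ.2.2 _ (m.prod τ) inferInstance).2.1 k
    have mN := (hRJ.1 c ρ).1.measurableSet
    have m0 : Measurable fun q : (KC × X) × Cfg (KC × X) => g (insert q.1 q.2) :=
      hg.comp (Measurable.cfgInsert measurable_fst measurable_snd)
    have mG : Measurable fun y : KC × X => ∫⁻ T, g (insert y T) ∂(RJ (m.prod τ) k) :=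
      m0.lintegral_prod_right'
    have m1 : Measurable fun K : KC => H (insert K l) :=
      hH.comp (Measurable.cfgInsert measurable_id measurable_const)
    rw [r _ (meas_phi hRJ hH l hg), r _ hg]
    calc _ ≤ ∫⁻ y, (NDK c ρ).indicator 1 y.1 * (H (insert y.1 l) *
          ∫⁻ T, g (insert y T) ∂(RJ (m.prod τ) k)) ∂m.prod τ := by
          refine lintegral_mono fun y => ?_
          have mg : Measurable fun S => g (insert y S) := m0.comp measurable_prodMk_left
          simp only [phi_insert]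
          rw [lintegral_const_mul _ (meas_phi hRJ hH _ mg)]
          exact mul_le_mul_right (ih _ _ mg (outM_insert ho y)) _
      _ ≤ ∫⁻ x, H l * ∫⁻ K, ∫⁻ T, g (insert (K, x) T) ∂(RJ (m.prod τ) k) ∂m ∂τ := by
          rw [lintegral_prod_symm _ (by
            exact (((measurable_one.indicator mN).comp measurable_fst).mul
              ((m1.comp measurable_fst).mul mG)).aemeasurable)]
          exact lintegral_mono fun x => h1 l _ (mG.comp measurable_prodMk_right)
            fun K L a b e => lintegral_congr fun T => ho.swap K L x T a b e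
      _ = _ := by
          rw [lintegral_const_mul _ mG.lintegral_prod_left', lintegral_prod_symm _ mG.aemeasurable]

theorem pp (hRJ : S_RJ) (hPPF : S_PPF) (hH : Measurable H) {m : Measure KC} [IsFiniteMeasure m]
    (h1 : One c ρ H m) (τ : Measure X) [IsFiniteMeasure τ] (l : Cfg KC)
    {g : Cfg (KC × X) → ℝ≥0∞} (hg : Measurable g) (ho : OutM (ball c (10 * ρ)) g) :
    ∫⁻ S, Phi c ρ H l g S ∂PP (m.prod τ) ≤ H l * ∫⁻ S, g S ∂PP (m.prod τ) := by
  have r := (hRJ.2.2 _ (m.prod τ) inferInstance).2.2.2.2.1 inferInstance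
  rw [← (hPPF _ (m.prod τ) inferInstance).eq_PP, ppFin, lintegral_sum_measure,
    lintegral_sum_measure, ← ENNReal.tsum_mul_left]
  refine ENNReal.tsum_le_tsum fun k => ?_
  rw [lintegral_smul_measure, lintegral_smul_measure, ← r, smul_eq_mul, smul_eq_mul, mul_left_comm]
  exact mul_le_mul_right (rj hRJ hH h1 τ k l g hg ho) _

theorem fin (hMUK : S_MUK) (hν : IsBridge ν) (hρ : 0 < ρ) {D : Set ℂ}
    (hD : Bornology.IsBounded D) : IsFiniteMeasure
      ((muK ν).restrict ((inK D \ inK (ball c (10 * ρ))) ∩ hitK (ball c (3 * ρ)))) := by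
  obtain ⟨C, -, hC⟩ := (hMUK ν hν).2.2.2.1
  obtain ⟨R, hR, hDR⟩ := hD.subset_ball_lt 0 0
  refine isFiniteMeasure_restrict.2 (ne_top_of_le_ne_top ENNReal.ofReal_ne_top
    ((measure_mono ?_).trans (hC 0 R (7 * ρ) hR (by positivity))))
  rintro K ⟨⟨h1, h2⟩, a, a1, a2⟩
  obtain ⟨b, b1, b2⟩ := not_subset.1 h2
  refine ⟨subset_trans h1 hDR, le_trans ?_ (dist_le_diam_of_mem K.isCompact.isBounded b1 a1)⟩
  rw [mem_ball, not_lt] at b2
  rw [mem_ball] at a2
  linarith [dist_triangle b a c]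

end DqlA

open DqlA in
theorem p_DQL (hUM : S_UM) (hDLOOPH : S_DLOOPH) (hRJ : S_RJ) (hPPF : S_PPF) (hPPE : S_PPE) (hPPO : S_PPO) (hMUK : S_MUK) :
    S_DQL := by
  intro ν hν c ρ hρ X _ τ hτ D hO hD hW H hH l g hg ho
  have := (hMUK ν hν).2.1
  have := fin (c := c) hMUK hν hρ hD
  have h1 := one hRJ hDLOOPH hν hρ hH hO hW
  have mV := (isOpen_hitK (isOpen_ball (x := c) (ε := 3 * ρ))).measurableSet
  have mA : MeasurableSet (inK D \ inK (ball c (10 * ρ))) :=
    (isOpen_inK hO).measurableSet.diff (isOpen_inK isOpen_ball).measurableSet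
  generalize inK D \ inK (ball c (10 * ρ)) = A at *
  have mP := meas_phi (c := c) (ρ := ρ) hRJ hH.meas l hg
  have mU : Measurable fun p : Cfg (KC × X) × Cfg (KC × X) => p.1 ∪ p.2 := by fun_prop
  have mg : Measurable fun p : Cfg (KC × X) × Cfg (KC × X) => g (p.1 ∪ p.2) := hg.comp mU
  have mS : MeasurableSet {S : Cfg (KC × X) | S.map Prod.fst ∈ allND c ρ} :=
    measurable_cfgMap measurable_fst (hRJ.1 c ρ).2
  have e0 : ∀ P : Measure (Cfg (KC × X)),
      ∫⁻ S in {S | S.map Prod.fst ∈ allND c ρ}, H (l ∪ S.map Prod.fst) * g S ∂P =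
        ∫⁻ S, Phi c ρ H l g S ∂P := fun P => by
    rw [← lintegral_indicator mS]
    refine lintegral_congr fun S => ?_
    by_cases h : S.map Prod.fst ∈ allND c ρ <;> simp [Phi, indicator, h]
  have ae : ∀ᵐ R ∂PP (((muK ν).restrict (A \ hitK (ball c (3 * ρ)))).prod τ),
      ∀ y ∈ R.pts, y.1 ∉ hitK (ball c (3 * ρ)) :=
    (hPPO _ _ inferInstance).2.2.2.2.2.1 _ (Measure.quasiMeasurePreserving_fst.ae
      ((ae_restrict_mem (mA.diff mV)).mono fun K hK => hK.2))
  rw [e0, ← Measure.restrict_inter_add_sdiff A mV, Measure.add_prod,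
    ← (hPPO _ _ inferInstance).1 _ inferInstance, lintegral_map mP mU, lintegral_map hg mU,
    lintegral_prod_symm _ (by exact (mP.comp mU).aemeasurable),
    lintegral_prod_symm _ mg.aemeasurable, ← lintegral_const_mul _ mg.lintegral_prod_left']
  refine lintegral_mono_ae (ae.mono fun R hR => ?_)
  exact (lintegral_mono fun S => phi_union hH.loc l g S R hR).trans
    (pp hRJ hPPF hH.meas h1 τ l (hg.comp (by fun_prop)) (outM_union ho R))

end Pool.Agent.P.MP_d66c6d_pr
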