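import Pool.Agent.P.MP_d66c6d_pr.U.Iface2
import Pool.Agent.P.MP_d66c6d_pr.U.Iface

/-! Step DQS of the carpet project. -/

namespace Pool.Agent.P.MP_d66c6d_pr

open MeasureTheory ProbabilityTheory Set Metric Filter Topology
open scoped ENNReal

namespace DqsA

theorem dom_dirac {ν : Measure Br} {c : ℂ} {ρ : ℝ} : DomK ν c ρ (Measure.dirac ∅) := by
  intro H hH l g hg _
  have hm : Measurable fun T => H (l ∪ T) * g T :=
    (hH.meas.comp (Measurable.cfgUnion measurable_const measurable_id)).mul hg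
  refine (setLIntegral_le_lintegral _ _).trans_eq ?_
  rw [lintegral_dirac' _ hm, lintegral_dirac' _ hg, Cfg.union_empty]

theorem out_insert {W : Set ℂ} {g : Cfg KC → ℝ≥0∞} (h : OutK W g) (K : KC) :
    OutK W fun T => g (insert K T) := by
  have e : ∀ T : Cfg KC, insert K T = T ∪ insert K ∅ := fun T => by
    rw [Cfg.union_insert, Cfg.union_empty]
  simpa only [← e] using h.union (insert K ∅)

theorem dom_succ (hRJ : S_RJ) {ν : Measure Br} {c : ℂ} {ρ : ℝ} {ϖ : Measure TP} [SFinite ϖ]
    (hϖ : Dom ν c ρ ϖ) {j : ℕ} (ih : DomK ν c ρ (RJ (ϖ.map fun p => trB p.2) j)) :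
    DomK ν c ρ (RJ (ϖ.map fun p => trB p.2) (j + 1)) := by
  intro H hH l g hg ho
  obtain ⟨h1, -, h3⟩ := hRJ
  obtain ⟨hO, hA⟩ := h1 c ρ
  set m : Measure KC := ϖ.map fun p => trB p.2 with hm
  obtain ⟨-, h4, -⟩ := h3 KC m inferInstance
  have ht : Measurable fun p : TP => trB p.2 := by fun_prop
  have hF : Measurable fun T => H (l ∪ T) * g T :=
    (hH.meas.comp (Measurable.cfgUnion measurable_const measurable_id)).mul hg
  have hG : Measurable fun K : KC => ∫⁻ T, g (insert K T) ∂(RJ m j) :=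
    (hg.comp (Measurable.cfgInsert measurable_fst measurable_snd)).lintegral_prod_right'
  have hI : Measurable fun K : KC => H (insert K l) :=
    hH.meas.comp (Measurable.cfgInsert measurable_id measurable_const)
  rw [← lintegral_indicator hA, h4 j _ (hF.indicator hA), h4 j _ hg]
  calc ∫⁻ K, ∫⁻ T, (allND c ρ).indicator (fun T => H (l ∪ T) * g T) (insert K T) ∂(RJ m j) ∂m
      ≤ ∫⁻ K, (NDK c ρ).indicator
          (fun K => H (insert K l) * ∫⁻ T, g (insert K T) ∂(RJ m j)) K ∂m := by
        refine lintegral_mono fun K => ?_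
        by_cases hK : K ∈ NDK c ρ
        · rw [indicator_of_mem hK]
          refine le_trans ?_ (ih H hH (insert K l) (fun T => g (insert K T))
            (hg.comp (Measurable.cfgInsert measurable_const measurable_id)) (out_insert ho K))
          rw [← lintegral_indicator hA]
          refine lintegral_mono fun T => ?_
          by_cases hT : insert K T ∈ allND c ρ
          · have hT' : T ∈ allND c ρ := fun L hL => hT L (mem_insert_of_mem _ hL)
            rw [indicator_of_mem hT, indicator_of_mem hT', Cfg.union_insert, Cfg.insert_union]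
          · rw [indicator_of_notMem hT]
            exact zero_le
        · rw [indicator_of_notMem hK]
          refine le_of_eq (lintegral_eq_zero_of_ae_eq_zero (ae_of_all _ fun T => ?_))
          exact indicator_of_notMem (fun hT : insert K T ∈ allND c ρ =>
            hK (hT K (mem_insert _ _))) _
    _ = ∫⁻ p in NDs c ρ, H (insert (trB p.2) l) * ∫⁻ T, g (insert (trB p.2) T) ∂(RJ m j) ∂ϖ := by
        have hN : MeasurableSet (NDs c ρ) := ht hO.measurableSet
        rw [← lintegral_indicator hN]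
        refine (lintegral_map ((hI.mul hG).indicator hO.measurableSet) ht).trans ?_
        rfl
    _ ≤ H l * ∫⁻ p, ∫⁻ T, g (insert (trB p.2) T) ∂(RJ m j) ∂ϖ :=
        hϖ.trace hH l hG fun K L hK hL e => lintegral_congr fun T => ho.swap K L T hK hL e
    _ = H l * ∫⁻ K, ∫⁻ T, g (insert K T) ∂(RJ m j) ∂m :=
        congrArg _ (lintegral_map hG ht).symm

theorem dom_sum {ν : Measure Br} {c : ℂ} {ρ : ℝ} {Q : ℕ → Measure (Cfg KC)}
    (hA : MeasurableSet (allND c ρ)) (h : ∀ j, DomK ν c ρ (Q j)) :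
    DomK ν c ρ (Measure.sum Q) := by
  intro H hH l g hg ho
  rw [Measure.restrict_sum _ hA, lintegral_sum_measure, lintegral_sum_measure,
    ← ENNReal.tsum_mul_left]
  exact ENNReal.tsum_le_tsum fun j => h j H hH l g hg ho

end DqsA

theorem p_DQS (hUM : S_UM) (hDRHO : S_DRHO) (hRJ : S_RJ) :
    S_DQS := by
  intro ν hν c ρ hρ
  have := hν.gauss
  refine ⟨DqsA.dom_dirac, fun A c₀ ρ₀ r₀ h0 h1 h2 => ?_⟩
  have h3 : ∀ j, DomK ν c ρ (RJ (rhoK ν A c₀ ρ₀ r₀) j) := fun j => by
    induction j with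
    | zero => exact DqsA.dom_dirac
    | succ j ih => exact DqsA.dom_succ hRJ (hDRHO ν hν c ρ hρ A c₀ ρ₀ r₀ h0 h1 h2) ih
  exact ⟨h3, DqsA.dom_sum (hRJ.1 c ρ).2 h3⟩

end Pool.Agent.P.MP_d66c6d_pr
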