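import Pool.Agent.P.MP_d66c6d_pr.U.Iface

/-! Step DRHO of the carpet project. -/

namespace Pool.Agent.P.MP_d66c6d_pr

open MeasureTheory ProbabilityTheory Set Metric Filter Topology
open scoped ENNReal

namespace DrhoA

theorem adm_of_start {c : ℂ} {ρ : ℝ} {γ : Br} (h : γ 0 ∉ closedBall c (9 * ρ)) : AdmS c ρ γ :=
  fun s hs => (h (hs 0 s.2.1)).elim

theorem out {c c₀ z : ℂ} {ρ ρ₀ r₀ : ℝ} (hρ : 0 < ρ) (hρ₀ : 0 < ρ₀) (hr : r₀ ≤ 3 * ρ₀)
    (hsub : ball c (10 * ρ) ⊆ ball c₀ r₀) (hz : z ∈ An6 c₀ ρ₀) : z ∉ closedBall c (9 * ρ) := by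
  intro h
  have h1 : dist z c₀ < r₀ := hsub (closedBall_subset_ball (by linarith) h)
  have h2 := hz.1
  linarith

theorem lintegral_rho (ν : Measure Br) [SFinite ν] (A : ℝ≥0∞) {c : ℂ} {ρ r : ℝ}
    (hw : Measurable (wr c ρ r)) {F : TP → ℝ≥0∞} (hF : Measurable F) :
    ∫⁻ p, F p ∂rho ν A c ρ r = A * ∫⁻ x, ∫⁻ y, ∫⁻ p, wr c ρ r p * F p ∂grM ν x y := by
  rw [rho, lintegral_smul_measure, lintegral_withDensity_eq_lintegral_mul _ hw hF, smul_eq_mul,
    lintegral_GR ν (hw.mul hF)]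
  rfl

end DrhoA

open DrhoA in
theorem p_DRHO (hUM : S_UM) (hSINGLE : S_SINGLE) (hREL : S_REL) :
    S_DRHO := by
  intro ν hν c ρ hρ A c₀ ρ₀ r₀ hρ₀ hr hsub H hH l G hG hGinv
  have := hν.prob
  have hw : Measurable (wr c₀ ρ₀ r₀) := ((hUM c₀ ρ₀).2.2.2.2.2.2.2.2.2.2.2 r₀).2
  have hN : MeasurableSet (NDs c ρ) := (hUM c ρ).2.1.measurableSet
  have hF : Measurable fun p => H (insert p l) * G p := (hH.meas l).mul hG
  have hwG : Measurable fun p => wr c₀ ρ₀ r₀ p * G p := hw.mul hG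
  obtain ⟨-, -, -, -, h5, h6⟩ := hREL c ρ hρ
  have key : ∀ x y, ∫⁻ p, wr c₀ ρ₀ r₀ p * (NDs c ρ).indicator (fun p => H (insert p l) * G p) p
      ∂grM ν x y ≤ H l * ∫⁻ p, wr c₀ ρ₀ r₀ p * G p ∂grM ν x y := by
    intro x y
    refine le_trans (le_of_eq ?_) (hSINGLE ν hν c ρ hρ H hH x y l _ hwG ?_ ?_)
    · rw [← lintegral_indicator hN]
      refine lintegral_congr fun p => ?_
      by_cases hp : p ∈ NDs c ρ
      · rw [indicator_of_mem hp, indicator_of_mem hp, mul_left_comm]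
      · rw [indicator_of_notMem hp, indicator_of_notMem hp, mul_zero]
    · intro p p' h
      rw [h6 p p' c₀ ρ₀ r₀ h hρ₀ hr hsub, hGinv p p' (h5 p p' h).2.2.1]
    · intro p hp
      have hp' : p ∈ rset c₀ ρ₀ r₀ := by
        by_contra hn
        exact hp (by rw [wr, indicator_of_notMem hn, zero_mul])
      refine ⟨adm_of_start (out hρ hρ₀ hr hsub hp'.1), adm_of_start ?_⟩
      have e : rev p.2 0 = p.2 1 := by simp [rev, sub_apply]
      rw [e]
      exact out hρ hρ₀ hr hsub hp'.2.1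
  have m1 : Measurable fun q : ℂ × ℂ => ∫⁻ p, wr c₀ ρ₀ r₀ p * G p ∂grM ν q.1 q.2 :=
    measurable_grM ν (Φ := fun _ p => wr c₀ ρ₀ r₀ p * G p) measurable_fst measurable_snd
      (hwG.comp measurable_snd)
  rw [← lintegral_indicator hN, lintegral_rho ν A hw (hF.indicator hN), lintegral_rho ν A hw hG,
    mul_left_comm, ← lintegral_const_mul _ m1.lintegral_prod_right']
  refine mul_le_mul_right (lintegral_mono fun x => ?_) A
  rw [← lintegral_const_mul _ (by exact m1.comp (measurable_const.prodMk measurable_id))]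
  exact lintegral_mono fun y => key x y

end Pool.Agent.P.MP_d66c6d_pr
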