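import Pool.Agent.P.MP_d66c6d_pr.U.Iface
import Pool.Agent.P.MP_d66c6d_pr.B.Iface

/-! Step EV of the carpet project. -/

namespace Pool.Agent.P.MP_d66c6d_pr

open MeasureTheory ProbabilityTheory Set Metric Filter Topology
open scoped ENNReal

namespace EvA

variable {p : TP} {u a : ℝ}

theorem mem (hp : 0 < p.1) (hu : u ∈ Icc 0 p.1) : u / p.1 ∈ Icc (0 : ℝ) 1 :=
  ⟨div_nonneg hu.1 hp.le, (div_le_one hp).2 hu.2⟩

theorem ev_mul (hp : 0 < p.1) (s : unitInterval) : ev p ((s : ℝ) * p.1) = p.2 s := by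
  rw [ev, mul_div_cancel_right₀ _ hp.ne', projIcc_val]

theorem ev_zero (p : TP) : ev p 0 = p.2 0 := by
  rw [ev, zero_div, projIcc_left]
  rfl

theorem ev_end (hp : 0 < p.1) : ev p p.1 = p.2 1 := by
  simpa using ev_mul hp 1

theorem range_ev (hp : 0 < p.1) : range p.2 = ev p '' Icc 0 p.1 :=
  Subset.antisymm (by
    rintro _ ⟨s, rfl⟩
    exact ⟨_, ⟨mul_nonneg s.2.1 hp.le, mul_le_of_le_one_left hp.le s.2.2⟩, ev_mul hp s⟩)
    (by rintro _ ⟨u, -, rfl⟩; exact mem_range_self _)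

theorem proj_rev (x : ℝ) : projIcc (0 : ℝ) 1 zero_le_one
    (1 + (projIcc (0 : ℝ) 1 zero_le_one x : ℝ) * (0 - 1)) = projIcc (0 : ℝ) 1 zero_le_one (1 - x) := by
  rcases le_total x 0 with h | h
  · rw [projIcc_of_le_left _ h, projIcc_of_right_le _ (by simp),
      projIcc_of_right_le _ (by linarith)]
  rcases le_total 1 x with h' | h'
  · rw [projIcc_of_right_le _ h', projIcc_of_le_left _ (by simp),
      projIcc_of_le_left _ (by linarith)]
  · rw [projIcc_of_mem _ ⟨h, h'⟩]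
    congr 1
    ring

theorem ev_trev (hp : 0 < p.1) (u : ℝ) : ev (trev p) u = ev p (p.1 - u) := by
  rw [ev, ev, sub_div, div_self hp.ne', ← proj_rev]
  rfl

theorem ev_hd (ha : 0 < a) (hu : u ∈ Icc 0 a) : ev (hd a p) u = ev p u := by
  have h := mem (p := hd a p) ha hu
  rw [ev, projIcc_of_mem _ h, ev]
  refine congrArg (fun x => p.2 (projIcc 0 1 zero_le_one x)) ?_
  show 0 + u / a * (a / p.1 - 0) = u / p.1
  rw [zero_add, sub_zero, div_mul_div_cancel₀ ha.ne']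

theorem ev_tl (hp : 0 < p.1) (ha : a < p.1) (hu : u ∈ Icc 0 (p.1 - a)) :
    ev (tl a p) u = ev p (a + u) := by
  have h0 : 0 < p.1 - a := sub_pos.2 ha
  have h := mem (p := tl a p) h0 hu
  rw [ev, projIcc_of_mem _ h, ev]
  refine congrArg (fun x => p.2 (projIcc 0 1 zero_le_one x)) ?_
  show a / p.1 + u / (p.1 - a) * (1 - a / p.1) = (a + u) / p.1
  field_simp

theorem occ_eq {V : ℂ → ℝ≥0∞} (hV : Measurable V) (hp : 0 < p.1) :
    occ V p = ∫⁻ u in Ioo (0 : ℝ) p.1, V (ev p u) := by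
  have hm : Measurable fun u => V (ev p u) := hV.comp (continuous_ev p).measurable
  have h1 : (volume : Measure ℝ) = ENNReal.ofReal p.1 • Measure.map (p.1 * ·) volume := by
    rw [Real.map_volume_mul_left hp.ne', smul_smul, ← ENNReal.ofReal_mul hp.le,
      abs_of_pos (inv_pos.2 hp), mul_inv_cancel₀ hp.ne', ENNReal.ofReal_one, one_smul]
  have h2 : (p.1 * ·) ⁻¹' Ioo (0 : ℝ) p.1 = Ioo 0 1 := by
    rw [preimage_const_mul_Ioo₀ _ _ hp, zero_div, div_self hp.ne']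
  conv_rhs => rw [h1]
  rw [Measure.restrict_smul, lintegral_smul_measure,
    setLIntegral_map measurableSet_Ioo hm (measurable_const_mul _), h2, occ, smul_eq_mul]
  congr 1
  refine lintegral_congr fun s => ?_
  rw [sub_zero_one_apply, ev, mul_div_cancel_left₀ _ hp.ne']

end EvA

open EvA in
theorem p_EV (hCUT : S_CUT) :
    S_EV := by
  obtain ⟨-, -, -, -, -, h6, h7, h8, -⟩ := hCUT
  refine ⟨fun p hp => ⟨ev_zero p, ev_end hp, range_ev hp, ev_mul hp, fun u hu => ?_, ev_trev hp,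
    Prod.ext rfl (h6 p.2).2, (h6 p.2).1, ?_, ?_⟩, fun p a ha ha' => ?_, fun p q hp hq e => ?_,
    fun V hV p hp => occ_eq hV hp⟩
  · exact ⟨⟨_, mem hp hu⟩, div_mul_cancel₀ _ hp.ne', by rw [ev, projIcc_of_mem _ (mem hp hu)]⟩
  · rw [← ev_zero, ev_trev hp, sub_zero, ev_end hp]
  · rw [← ev_end (p := trev p) hp, ev_trev hp, ← ev_zero]
    exact congrArg _ (sub_self _)
  · have hp := ha.trans ha'
    have h0 : 0 < p.1 - a := sub_pos.2 ha'
    refine ⟨fun u => ev_hd ha, fun u => ev_tl hp ha', ?_, ?_, ?_, Prod.ext (add_sub_cancel _ _) ?_⟩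
    · rw [range_ev (p := hd a p) ha]
      exact image_congr fun u => ev_hd ha
    · rw [range_ev (p := tl a p) h0, image_congr fun u (hu : u ∈ Icc 0 (tl a p).1) => ev_tl hp ha' hu,
        ← image_image (ev p) (a + ·), image_const_add_Icc, add_zero]
      exact congrArg (fun x => ev p '' Icc a x) (add_sub_cancel _ _)
    · rw [← ev_end (p := hd a p) ha, ← ev_zero, ev_tl hp ha' ⟨le_rfl, h0.le⟩, add_zero]
      exact ev_hd ha ⟨ha.le, le_rfl⟩
    · show cat (a / (a + (p.1 - a))) (sub 0 (a / p.1) p.2) (sub (a / p.1) 1 p.2) = p.2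
      rw [add_sub_cancel]
      exact h8 _ ⟨div_pos ha hp, (div_lt_one hp).2 ha'⟩ _
  · have h0 : 0 < (tcat p q).1 := add_pos hp hq
    have h1 : p.1 < (tcat p q).1 := lt_add_of_pos_right _ hq
    obtain ⟨k1, k2, k3⟩ := h7 _ ⟨div_pos hp h0, (div_lt_one h0).2 h1⟩ _ _ e
    have e1 : hd p.1 (tcat p q) = p := Prod.ext rfl k1
    have e2 : tl p.1 (tcat p q) = q := Prod.ext (add_sub_cancel_left _ _) k2
    have e3 : ∀ u ∈ Icc 0 p.1, ev (tcat p q) u = ev p u := fun u hu => by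
      rw [← ev_hd hp hu, e1]
    have e4 : ∀ u ∈ Icc 0 q.1, ev (tcat p q) (p.1 + u) = ev q u := fun u hu => by
      rw [← ev_tl h0 h1 (by rwa [show (tcat p q).1 - p.1 = q.1 from add_sub_cancel_left _ _]), e2]
    refine ⟨e1, e2, e3, e4, k3, ?_, ?_⟩
    · rw [← ev_zero, e3 0 ⟨le_rfl, hp.le⟩, ev_zero]
    · rw [← ev_end h0, ← ev_end hq]
      exact e4 _ ⟨hq.le, le_rfl⟩

end Pool.Agent.P.MP_d66c6d_pr
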