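import Pool.Agent.P.MP_d66c6d_pr.U.Iface
import Pool.Agent.P.MP_d66c6d_pr.B.Iface

/-! Step HAR of the carpet project. -/

namespace Pool.Agent.P.MP_d66c6d_pr

open MeasureTheory ProbabilityTheory Set Metric Filter Topology
open scoped ENNReal

namespace HarA

theorem hk_le_exp {t : ℝ} (ht : 0 < t) (w : ℂ) :
    hk t w ≤ ENNReal.ofReal (Real.exp (-‖w‖ ^ 2 / (2 * t)) / t) := by
  unfold hk
  refine ENNReal.ofReal_le_ofReal (div_le_div_of_nonneg_left (Real.exp_pos _).le ht ?_)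
  nlinarith [Real.pi_gt_three]

theorem hk_le_one {ρ : ℝ} (hρ : 0 < ρ) (k : ℕ) (w : ℂ) :
    hk (ρ ^ 2 / 2 ^ k) w ≤ ENNReal.ofReal (ρ⁻¹ ^ 2) * 2 ^ k := by
  have ht : 0 < ρ ^ 2 / 2 ^ k := by positivity
  refine (hk_le_exp ht w).trans ?_
  have e : ENNReal.ofReal (ρ⁻¹ ^ 2) * 2 ^ k = ENNReal.ofReal (1 / (ρ ^ 2 / 2 ^ k)) := by
    have : (1 : ℝ) / (ρ ^ 2 / 2 ^ k) = ρ⁻¹ ^ 2 * 2 ^ k := by field_simp
    rw [this, ENNReal.ofReal_mul (by positivity), ENNReal.ofReal_pow (by norm_num : (0 : ℝ) ≤ 2)]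
    simp
  rw [e]
  refine ENNReal.ofReal_le_ofReal (div_le_div_of_nonneg_right ?_ ht.le)
  refine Real.exp_le_one_iff.2 ?_
  rw [neg_div]
  exact neg_nonpos.2 (by positivity)

theorem exp_le {m : ℝ} (hm : 0 < m) : Real.exp (-(m / 8)) ≤ 128 / m ^ 2 := by
  have h := Real.pow_div_factorial_le_exp (m / 8) (by positivity) 2
  rw [Real.exp_neg, inv_eq_one_div, div_le_div_iff₀ (Real.exp_pos _) (by positivity)]
  simp only [Nat.factorial] at h
  norm_num at h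
  nlinarith

theorem hk_le_far {ρ : ℝ} (hρ : 0 < ρ) (k : ℕ) (w : ℂ) (h : k = 0 ∨ ρ / 2 ≤ ‖w‖) :
    hk (ρ ^ 2 / 2 ^ k) w ≤ ENNReal.ofReal (ρ⁻¹ ^ 2) * (128 * 2⁻¹ ^ k) := by
  rcases h with rfl | h
  · refine (hk_le_one hρ 0 w).trans ?_
    gcongr
    norm_num
  have ht : 0 < ρ ^ 2 / 2 ^ k := by positivity
  have hm : (0 : ℝ) < 2 ^ k := by positivity
  refine (hk_le_exp ht w).trans ?_
  have e : ENNReal.ofReal (ρ⁻¹ ^ 2) * (128 * 2⁻¹ ^ k) =
      ENNReal.ofReal (128 / (2 ^ k) ^ 2 / (ρ ^ 2 / 2 ^ k)) := by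
    have : (128 : ℝ) / (2 ^ k) ^ 2 / (ρ ^ 2 / 2 ^ k) = ρ⁻¹ ^ 2 * (128 * 2⁻¹ ^ k) := by
      rw [inv_pow (2 : ℝ)]
      field_simp
    rw [this, ENNReal.ofReal_mul (by positivity), ENNReal.ofReal_mul (by norm_num),
      ENNReal.ofReal_pow (by norm_num : (0 : ℝ) ≤ 2⁻¹), ENNReal.ofReal_inv_of_pos (by norm_num)]
    simp
  rw [e]
  refine ENNReal.ofReal_le_ofReal (div_le_div_of_nonneg_right ?_ ht.le)
  refine le_trans (Real.exp_le_exp.2 ?_) (exp_le hm)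
  rw [neg_div, neg_le_neg_iff, le_div_iff₀ (by positivity)]
  have h2 : (ρ / 2) ^ 2 ≤ ‖w‖ ^ 2 := pow_le_pow_left₀ (by positivity) h 2
  have h3 : (2 : ℝ) ^ k / 8 * (2 * (ρ ^ 2 / 2 ^ k)) = (ρ / 2) ^ 2 := by
    field_simp
    ring
  rw [h3]
  exact h2

/-- The remaining parts that occur at the step `k`. -/
def S (x : ℂ) (ρ : ℝ) (k : ℕ) : Set TP :=
  {q | q.2 0 ∈ ball x ρ ∧ ((k = 0 ∨ ρ / 2 ≤ ‖q.2 0 - x‖) ∨ q ∈ fast ρ (ρ ^ 2 / 2 ^ k))}

theorem measurableSet_S (hUM : S_UM) (x : ℂ) (ρ : ℝ) (k : ℕ) : MeasurableSet (S x ρ k) := by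
  have h0 : Measurable fun q : TP => q.2 0 := Measurable.evalBr measurable_snd measurable_const
  have hf := ((hUM x ρ).2.2.2.2.2.2.2.2.2.1 (ρ ^ 2 / 2 ^ k)).measurableSet
  refine (h0 measurableSet_ball).inter (MeasurableSet.union (MeasurableSet.union ?_ ?_) hf)
  · exact MeasurableSet.const _
  · exact measurableSet_le measurable_const (h0.sub measurable_const).norm

theorem exists_step (hEV : S_EV) {x : ℂ} {ρ : ℝ} (hρ : 0 < ρ) {p : TP} (hp : 0 < p.1)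
    (h0 : p.2 0 = x) (hout : ¬ range p.2 ⊆ ball x ρ) :
    ∃ k : ℕ, ρ ^ 2 / 2 ^ k < p.1 ∧ range (hd (ρ ^ 2 / 2 ^ k) p).2 ⊆ ball x ρ ∧
      tl (ρ ^ 2 / 2 ^ k) p ∈ S x ρ k := by
  classical
  obtain ⟨e0, -, erange, -⟩ := hEV.1 p hp
  have hτ : ∀ k : ℕ, 0 < ρ ^ 2 / 2 ^ k := fun k => by positivity
  have hex : ∃ k : ℕ, ρ ^ 2 / 2 ^ k < p.1 ∧ range (hd (ρ ^ 2 / 2 ^ k) p).2 ⊆ ball x ρ := by
    have h1 : ev p ⁻¹' ball x ρ ∈ 𝓝 (0 : ℝ) := by
      refine (continuous_ev p).continuousAt.preimage_mem_nhds ?_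
      rw [e0, h0]
      exact ball_mem_nhds x hρ
    obtain ⟨δ, hδ, hb⟩ := Metric.mem_nhds_iff.1 h1
    have h2 : Tendsto (fun k : ℕ => ρ ^ 2 / 2 ^ k) atTop (𝓝 0) :=
      tendsto_const_nhds.div_atTop (tendsto_pow_atTop_atTop_of_one_lt one_lt_two)
    obtain ⟨k, hk⟩ := (h2.eventually (gt_mem_nhds (lt_min hδ hp))).exists
    refine ⟨k, hk.trans_le (min_le_right _ _), ?_⟩
    rw [(hEV.2.1 p _ (hτ k) (hk.trans_le (min_le_right _ _))).2.2.1]
    rintro _ ⟨u, hu, rfl⟩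
    refine hb ?_
    rw [mem_ball, Real.dist_eq, sub_zero, abs_of_nonneg hu.1]
    exact hu.2.trans_lt (hk.trans_le (min_le_left _ _))
  obtain ⟨hk1, hk2⟩ := Nat.find_spec hex
  refine ⟨Nat.find hex, hk1, hk2, ?_⟩
  have hmin := fun j => Nat.find_min hex (m := j)
  generalize Nat.find hex = k at hk1 hk2 hmin
  obtain ⟨-, etl, ehd, -, eend, -⟩ := hEV.2.1 p _ (hτ k) hk1
  have hz : (tl (ρ ^ 2 / 2 ^ k) p).2 0 ∈ ball x ρ := by
    rw [← eend]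
    exact hk2 (mem_range_self _)
  refine ⟨hz, ?_⟩
  rcases k with _ | j
  · exact Or.inl (Or.inl rfl)
  by_cases hfar : ρ / 2 ≤ ‖(tl (ρ ^ 2 / 2 ^ (j + 1)) p).2 0 - x‖
  · exact Or.inl (Or.inr hfar)
  refine Or.inr ?_
  have hu : ∃ u ∈ Icc 0 p.1, u ≤ ρ ^ 2 / 2 ^ j ∧ ev p u ∉ ball x ρ := by
    by_cases hj : ρ ^ 2 / 2 ^ j < p.1
    · have h3 := fun h => hmin j (Nat.lt_succ_self j) ⟨hj, h⟩
      rw [(hEV.2.1 p _ (hτ j) hj).2.2.1] at h3
      obtain ⟨_, ⟨u, hu, rfl⟩, hn⟩ := not_subset.1 h3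
      exact ⟨u, ⟨hu.1, hu.2.trans hj.le⟩, hu.2, hn⟩
    · rw [erange] at hout
      obtain ⟨_, ⟨u, hu, rfl⟩, hn⟩ := not_subset.1 hout
      exact ⟨u, hu, hu.2.trans (not_lt.1 hj), hn⟩
  obtain ⟨u, hu, hu2, hn⟩ := hu
  have hlt : ρ ^ 2 / 2 ^ (j + 1) ≤ u := by
    by_contra hc
    refine hn (hk2 ?_)
    rw [ehd]
    exact ⟨u, ⟨hu.1, (not_le.1 hc).le⟩, rfl⟩
  have hmem : u - ρ ^ 2 / 2 ^ (j + 1) ∈ Icc 0 (p.1 - ρ ^ 2 / 2 ^ (j + 1)) :=
    ⟨sub_nonneg.2 hlt, sub_le_sub_right hu.2 _⟩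
  obtain ⟨s, hs1, hs2⟩ := (hEV.1 (tl (ρ ^ 2 / 2 ^ (j + 1)) p) (sub_pos.2 hk1)).2.2.2.2.1 _ hmem
  refine ⟨s, ?_, ?_⟩
  · rw [hs1]
    have : ρ ^ 2 / 2 ^ j = ρ ^ 2 / 2 ^ (j + 1) + ρ ^ 2 / 2 ^ (j + 1) := by
      field_simp
      ring
    linarith
  · rw [hs2, etl _ hmem, add_sub_cancel]
    rw [mem_ball, not_lt] at hn
    rw [← dist_eq_norm, not_le] at hfar
    linarith [dist_triangle (ev p u) ((tl (ρ ^ 2 / 2 ^ (j + 1)) p).2 0) x]

theorem sum_le {x : ℂ} {ρ : ℝ} (hρ : 0 < ρ) (Ψ' : TP → ℝ≥0∞) (q : TP) :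
    ∑' k : ℕ, (S x ρ k).indicator Ψ' q * hk (ρ ^ 2 / 2 ^ k) (q.2 0 - x) ≤
      256 * ENNReal.ofReal (ρ⁻¹ ^ 2) * (Wt ρ q * Ψ' q) := by
  have h1 : ∀ k : ℕ, (S x ρ k).indicator Ψ' q * hk (ρ ^ 2 / 2 ^ k) (q.2 0 - x) ≤
      ENNReal.ofReal (ρ⁻¹ ^ 2) * Ψ' q *
        (128 * 2⁻¹ ^ k + 2 ^ k * (fast ρ (ρ ^ 2 / 2 ^ k)).indicator 1 q) := by
    intro k
    by_cases hq : q ∈ S x ρ k
    · rw [indicator_of_mem hq, mul_comm _ (Ψ' q), mul_assoc]
      gcongr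
      rcases hq.2 with h | h
      · exact (hk_le_far hρ k _ h).trans (by gcongr; exact le_self_add)
      · rw [indicator_of_mem h, Pi.one_apply, mul_one]
        exact (hk_le_one hρ k _).trans (by gcongr; exact le_add_self)
    · rw [indicator_of_notMem hq, zero_mul]
      exact zero_le
  refine (ENNReal.tsum_le_tsum h1).trans ?_
  rw [ENNReal.tsum_mul_left, ENNReal.tsum_add, ENNReal.tsum_mul_left, ENNReal.tsum_geometric_two,
    Wt]
  set T := ∑' k : ℕ, (2 : ℝ≥0∞) ^ k * (fast ρ (ρ ^ 2 / 2 ^ k)).indicator 1 q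
  have h2 : 128 * 2 + T ≤ 256 * (1 + T) := by
    rw [mul_add]
    exact add_le_add (by norm_num) (le_mul_of_one_le_left zero_le (by norm_num))
  calc ENNReal.ofReal (ρ⁻¹ ^ 2) * Ψ' q * (128 * 2 + T)
      ≤ ENNReal.ofReal (ρ⁻¹ ^ 2) * Ψ' q * (256 * (1 + T)) := by gcongr
    _ = _ := by ring

end HarA

open HarA in
theorem p_HAR (hEV : S_EV) (hUM : S_UM) (hMARKR : S_MARKR) (hREV : S_REV) :
    S_HAR := by
  refine ⟨256, by norm_num, fun ν hν ρ hρ x y Ψ Ψ' hΨ hΨ' hout hle => ?_⟩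
  have := hν.prob
  have hae := (hREV.2 ν hν).2.2.2.2.2.1
  have hτ : ∀ k : ℕ, 0 < ρ ^ 2 / 2 ^ k := fun k => by positivity
  have mΦ : ∀ k, Measurable ((S x ρ k).indicator Ψ') := fun k =>
    hΨ'.indicator (measurableSet_S hUM x ρ k)
  have mE : ∀ k : ℕ, MeasurableSet {p : TP | ρ ^ 2 / 2 ^ k < p.1} := fun k =>
    measurableSet_lt measurable_const measurable_fst
  have mtl : ∀ k : ℕ, Measurable fun p : TP =>
      (S x ρ k).indicator Ψ' (tl (ρ ^ 2 / 2 ^ k) p) := fun k =>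
    (mΦ k).comp (Measurable.tl' measurable_const measurable_id)
  have mW : Measurable fun q => Wt ρ q * Ψ' q := (hUM x ρ).2.2.2.2.2.2.2.2.2.2.1.mul hΨ'
  have mI : ∀ k : ℕ, Measurable fun z : ℂ =>
      ∫⁻ q, (S x ρ k).indicator Ψ' q * hk (ρ ^ 2 / 2 ^ k) (z - x) ∂grM ν z y := fun k =>
    measurable_grM ν measurable_id measurable_const
      (Φ := fun z q => (S x ρ k).indicator Ψ' q * hk (ρ ^ 2 / 2 ^ k) (z - x))
      (((mΦ k).comp measurable_snd).mul (by fun_prop))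
  calc ∫⁻ p, Ψ p ∂grM ν x y
      ≤ ∫⁻ p, ∑' k : ℕ, {p : TP | ρ ^ 2 / 2 ^ k < p.1}.indicator
          (fun p => (S x ρ k).indicator Ψ' (tl (ρ ^ 2 / 2 ^ k) p)) p ∂grM ν x y := by
        refine lintegral_mono_ae ?_
        filter_upwards [hae x y] with p hp
        by_cases h0 : Ψ p = 0
        · rw [h0]
          exact zero_le
        obtain ⟨k, hk1, hk2, hk3⟩ := exists_step hEV hρ hp.1 hp.2.1 (hout p h0)
        refine le_trans ?_ (ENNReal.le_tsum k)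
        rw [indicator_of_mem (by exact hk1), indicator_of_mem hk3]
        exact hle p _ (hτ k) hk1 hk2
    _ = ∑' k : ℕ, ∫⁻ z, ∫⁻ q, (S x ρ k).indicator Ψ' q * hk (ρ ^ 2 / 2 ^ k) (z - x)
          ∂grM ν z y := by
        rw [lintegral_tsum fun k => ((mtl k).indicator (mE k)).aemeasurable]
        refine tsum_congr fun k => ?_
        rw [lintegral_indicator (mE k)]
        refine ((hMARKR ν hν x y).2.1 _ (hτ k) (fun pq => (S x ρ k).indicator Ψ' pq.2)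
          ((mΦ k).comp measurable_snd)).trans (lintegral_congr fun z => ?_)
        dsimp only
        rw [lintegral_brM ν _ x z measurable_const, lintegral_const, measure_univ, mul_one,
          lintegral_mul_const _ (mΦ k), mul_comm]
    _ = ∫⁻ z, ∫⁻ q, ∑' k : ℕ, (S x ρ k).indicator Ψ' q * hk (ρ ^ 2 / 2 ^ k) (z - x)
          ∂grM ν z y := by
        rw [← lintegral_tsum fun k => (mI k).aemeasurable]
        refine lintegral_congr fun z => ?_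
        rw [lintegral_tsum fun k => ((mΦ k).mul_const _).aemeasurable]
    _ ≤ ∫⁻ z, (ball x ρ).indicator (fun z => 256 * ENNReal.ofReal (ρ⁻¹ ^ 2) *
          ∫⁻ q, Wt ρ q * Ψ' q ∂grM ν z y) z := by
        refine lintegral_mono fun z => ?_
        by_cases hz : z ∈ ball x ρ
        · rw [indicator_of_mem hz, ← lintegral_const_mul _ mW]
          refine lintegral_mono_ae ?_
          filter_upwards [hae z y] with q hq
          rw [← hq.2.1]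
          exact sum_le hρ Ψ' q
        · rw [indicator_of_notMem hz]
          refine le_of_eq ((lintegral_congr_ae ?_).trans lintegral_zero)
          filter_upwards [hae z y] with q hq
          refine ENNReal.tsum_eq_zero.2 fun k => ?_
          rw [indicator_of_notMem, zero_mul]
          exact fun h => hz (hq.2.1 ▸ h.1)
    _ = _ := by
        rw [lintegral_indicator measurableSet_ball, lintegral_const_mul]
        exact measurable_grM ν measurable_id measurable_const (Φ := fun _ q => Wt ρ q * Ψ' q)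
          (mW.comp measurable_snd)

end Pool.Agent.P.MP_d66c6d_pr
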