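import Pool.Agent.P.MP_d66c6d_pr.U.Iface
import Pool.Agent.P.MP_d66c6d_pr.B.Iface

/-! Step HART of the carpet project. -/

namespace Pool.Agent.P.MP_d66c6d_pr

open MeasureTheory ProbabilityTheory Set Metric Filter Topology
open scoped ENNReal

namespace HartA

variable {c x z : ℂ} {ρ r a τ : ℝ} {p : TP} {F : TP → ℝ≥0∞}

/-- The strands that reach the disc of radius `r`. -/
def St (c : ℂ) (ρ r : ℝ) : Set TP :=
  {p | range p.2 ⊆ closedBall c (9 * ρ) ∧ (range p.2 ∩ ball c r).Nonempty}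

theorem meas (c : ℂ) (ρ r : ℝ) : MeasurableSet (St c ρ r) := by
  have h1 : IsClosed {p : TP | range p.2 ⊆ closedBall c (9 * ρ)} := by
    simp only [range_subset_iff, ofPred_forall]
    exact isClosed_iInter fun s => isClosed_closedBall.preimage (f := fun p : TP => p.2 s)
      (by fun_prop)
  have h2 : IsOpen {p : TP | (range p.2 ∩ ball c r).Nonempty} := by
    have : {p : TP | (range p.2 ∩ ball c r).Nonempty} = ⋃ s, {p : TP | p.2 s ∈ ball c r} := by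
      ext p
      simp [Set.Nonempty]
    rw [this]
    exact isOpen_iUnion fun s => isOpen_ball.preimage (f := fun p : TP => p.2 s) (by fun_prop)
  exact h1.measurableSet.inter h2.measurableSet

theorem an6 (hx : x ∈ An5 c ρ) (hz : z ∈ ball x ρ) : z ∈ An6 c ρ := by
  have h1 := dist_triangle z x c
  have h2 := dist_triangle_left x c z
  have h3 := mem_ball.1 hz
  exact ⟨by linarith [hx.1], by linarith [hx.2]⟩

theorem far (hρ : 0 < ρ) (hz : z ∈ An6 c ρ) : z ∉ ball c (3 * ρ) := fun h => by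
  linarith [hz.1, mem_ball.1 h]

theorem not_sub (hρ : 0 < ρ) (hr : r ≤ 3 * ρ) (hx : x ∈ An5 c ρ) (hp : p ∈ St c ρ r) :
    ¬ range p.2 ⊆ ball x ρ := fun h =>
  let ⟨_, h1, h2⟩ := hp.2; far hρ (an6 hx (h h1)) (ball_subset_ball hr h2)

theorem tail (hEV : S_EV) (hρ : 0 < ρ) (hr : r ≤ 3 * ρ) (hx : x ∈ An5 c ρ) (h0 : 0 < a)
    (h1 : a < p.1) (h : range (hd a p).2 ⊆ ball x ρ) (hp : p ∈ St c ρ r) :
    tl a p ∈ St c ρ r ∧ range p.2 ∩ ball c (3 * ρ) = range (tl a p).2 ∩ ball c (3 * ρ) := by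
  obtain ⟨-, -, e1, e2, -⟩ := hEV.2.1 p a h0 h1
  have e : range p.2 = range (hd a p).2 ∪ range (tl a p).2 := by
    rw [e1, e2, ← image_union, Icc_union_Icc_eq_Icc h0.le h1.le, (hEV.1 p (h0.trans h1)).2.2.1]
  have k : ∀ w ∈ range p.2, w ∈ ball c (3 * ρ) → w ∈ range (tl a p).2 := fun w hw hw' =>
    ((mem_union _ _ _).1 (e.le hw)).resolve_left fun h2 => far hρ (an6 hx (h h2)) hw'
  have k' : range (tl a p).2 ⊆ range p.2 := e ▸ subset_union_right
  obtain ⟨w, h2, h3⟩ := hp.2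
  exact ⟨⟨k'.trans hp.1, w, k w h2 (ball_subset_ball hr h3), h3⟩,
    Subset.antisymm (fun w hw => ⟨k w hw.1 hw.2, hw.2⟩) (inter_subset_inter_left _ k')⟩

theorem fast_iff (hEV : S_EV) (h : 0 < p.1) : trev p ∈ fast ρ τ ↔
    ∃ u ∈ Icc 0 p.1, u ≤ τ ∧ ρ / 2 ≤ dist (ev p (p.1 - u)) (p.2 1) := by
  obtain ⟨-, -, -, -, -, e1, -, -, e2, -⟩ := hEV.1 p h
  obtain ⟨-, -, -, e3, e4, -⟩ := hEV.1 (trev p) h
  constructor
  · rintro ⟨s, h1, h2⟩
    refine ⟨s * p.1, ⟨mul_nonneg s.2.1 h.le, mul_le_of_le_one_left h.le s.2.2⟩, h1, ?_⟩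
    rwa [← e3, e1, e2] at h2
  · rintro ⟨u, hu, h1, h2⟩
    obtain ⟨s, h3, h4⟩ := e4 u hu
    exact ⟨s, h3.trans_le h1, by rwa [h4, e1, e2]⟩

theorem tl_one (hEV : S_EV) (h0 : 0 < a) (h1 : a < p.1) : (tl a p).2 1 = p.2 1 := by
  have h2 : 0 < (tl a p).1 := sub_pos.2 h1
  rw [← (hEV.1 _ h2).2.1, ← (hEV.1 p (h0.trans h1)).2.1,
    (hEV.2.1 p a h0 h1).2.1 _ ⟨h2.le, le_rfl⟩]
  exact congrArg _ (add_sub_cancel _ _)

theorem fast_tl (hEV : S_EV) (hr : r ≤ 3 * ρ) (h0 : 0 < a) (h1 : a < p.1)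
    (hp : tl a p ∈ St c ρ r) (hz : p.2 1 ∈ An6 c ρ) (h : trev p ∈ fast ρ τ) :
    trev (tl a p) ∈ fast ρ τ := by
  obtain ⟨u, hu, h2, h3⟩ := (fast_iff hEV (h0.trans h1)).1 h
  obtain ⟨-, e1, -, e2, -⟩ := hEV.2.1 p a h0 h1
  have k : ∀ v ∈ Icc 0 (p.1 - a), ev (tl a p) ((tl a p).1 - v) = ev p (p.1 - v) := fun v hv => by
    rw [show (tl a p).1 = p.1 - a from rfl, e1 _ ⟨by linarith [hv.2], by linarith [hv.1]⟩]
    congr 1
    ring
  rw [fast_iff hEV (sub_pos.2 h1), tl_one hEV h0 h1]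
  rcases le_total u (p.1 - a) with h4 | h4
  · exact ⟨u, ⟨hu.1, h4⟩, h2, by rwa [k u ⟨hu.1, h4⟩]⟩
  · obtain ⟨w, h5, h6⟩ := hp.2
    obtain ⟨v, hv, rfl⟩ := e2 ▸ h5
    have h7 : p.1 - v ∈ Icc 0 (p.1 - a) := ⟨by linarith [hv.2], by linarith [hv.1]⟩
    refine ⟨p.1 - v, h7, h7.2.trans (h4.trans h2), ?_⟩
    rw [k _ h7, sub_sub_cancel]
    linarith [hz.1, mem_ball.1 h6, dist_triangle_left (p.2 1) c (ev p v)]

theorem wt_tl (hEV : S_EV) (hr : r ≤ 3 * ρ) (h0 : 0 < a) (h1 : a < p.1)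
    (hp : tl a p ∈ St c ρ r) (hz : p.2 1 ∈ An6 c ρ) : Wt ρ (trev p) ≤ Wt ρ (trev (tl a p)) := by
  refine add_le_add_right (ENNReal.tsum_le_tsum fun k => mul_le_mul_right ?_ _) _
  by_cases h : trev p ∈ fast ρ (ρ ^ 2 / 2 ^ k)
  · rw [indicator_of_mem h, indicator_of_mem (fast_tl hEV hr h0 h1 hp hz h)]
    rfl
  · simp [h]

end HartA

theorem p_HART (hEV : S_EV) (hUM : S_UM) (hHAR : S_HAR) (hREV : S_REV) :
    S_HART := by
  obtain ⟨C, hC, H⟩ := hHAR
  refine ⟨C * C, ENNReal.mul_ne_top hC hC, fun ν hν c ρ r hρ hr x hx y hy F hF hl => ?_⟩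
  have := hν.prob
  obtain ⟨-, -, -, R1, -, R2, -⟩ := hREV.2 ν hν
  obtain ⟨-, -, -, -, -, -, -, -, -, -, mW, mr⟩ := hUM c ρ
  set Ψ := (HartA.St c ρ r).indicator F with hΨ
  have mΨ : Measurable Ψ := hF.indicator (HartA.meas c ρ r)
  have mt : Measurable trev := Measurable.trev' measurable_id
  have mJ : Measurable fun q => wr c ρ r q * F q := (mr r).2.mul hF
  have t1 : ∀ x ∈ An5 c ρ, ∀ (p : TP) (a : ℝ), 0 < a → a < p.1 → range (hd a p).2 ⊆ ball x ρ →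
      Ψ p ≤ Ψ (tl a p) := fun x hx p a h0 h1 h => by
    by_cases hp : p ∈ HartA.St c ρ r
    · obtain ⟨h2, h3⟩ := HartA.tail hEV hρ hr hx h0 h1 h hp
      rw [hΨ, indicator_of_mem hp, indicator_of_mem h2, hl _ _ h3]
    · simp [hΨ, hp]
  set K := ENNReal.ofReal (ρ⁻¹ ^ 2) with hK
  have K0 : K ≠ ∞ := ENNReal.ofReal_ne_top
  have key : ∀ z ∈ ball x ρ, K * ∫⁻ q, Wt ρ q * Ψ q ∂grM ν z y ≤
      C * ∫⁻ z', ∫⁻ q, wr c ρ r q * F q ∂grM ν z' z := fun z hz => by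
    let Ψ2 := {p : TP | p.2 1 = z}.indicator fun p => Wt ρ (trev p) * Ψ p
    have m2 : Measurable Ψ2 := ((mW.comp mt).mul mΨ).indicator
      (measurableSet_eq_fun (by fun_prop) measurable_const)
    have z2 : ∀ p ∉ HartA.St c ρ r, Ψ2 p = 0 := fun p h => by
      simp only [Ψ2, hΨ, indicator_apply_eq_zero, indicator_of_notMem h, mul_zero, implies_true]
    have e1 : ∫⁻ q, Wt ρ q * Ψ q ∂grM ν z y = ∫⁻ q, Ψ2 q ∂grM ν y z := by
      rw [← R1 y z]
      refine (lintegral_map (mW.mul mΨ) mt).trans (lintegral_congr_ae ?_)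
      filter_upwards [R2 y z] with p hp
      have e := (hEV.1 p hp.1).2.2.2.2.2.2.2.1
      have e0 : trev p ∈ HartA.St c ρ r ↔ p ∈ HartA.St c ρ r := by
        simp only [HartA.St, mem_ofPred_eq, e]
      have e' : Ψ (trev p) = Ψ p := by
        by_cases h : p ∈ HartA.St c ρ r
        · rw [hΨ, indicator_of_mem h, indicator_of_mem (e0.2 h), hl (trev p) p (by rw [e])]
        · rw [hΨ, indicator_of_notMem h, indicator_of_notMem (fun k => h (e0.1 k))]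
      simp only [Ψ2, indicator_of_mem (show p ∈ {p : TP | p.2 1 = z} from hp.2.2), e',
        Pi.mul_apply]
    have e2 := H ν hν ρ hρ y z Ψ2 Ψ2 m2 m2 (fun p hp => HartA.not_sub hρ hr hy
      (not_not.1 fun h => hp (z2 p h))) fun p a h0 h1 h => by
        by_cases h2 : p.2 1 = z
        · by_cases hp : p ∈ HartA.St c ρ r
          · simp only [Ψ2, indicator, mem_ofPred_eq, HartA.tl_one hEV h0 h1, h2, if_true]
            exact mul_le_mul' (HartA.wt_tl hEV hr h0 h1 (HartA.tail hEV hρ hr hy h0 h1 h hp).1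
              (h2 ▸ HartA.an6 hx hz)) (t1 y hy p a h0 h1 h)
          · simp [z2 p hp]
        · simp [Ψ2, h2]
    rw [e1]
    refine (mul_le_mul_right e2 K).trans ?_
    rw [← hK, mul_assoc C, mul_left_comm, ← mul_assoc K,
      ← lintegral_const_mul' _ _ (ENNReal.mul_ne_top K0 K0)]
    refine mul_le_mul_right ((setLIntegral_mono' measurableSet_ball fun z' hz' => ?_).trans
      (setLIntegral_le_lintegral _ _)) C
    rw [← lintegral_const_mul' _ _ (ENNReal.mul_ne_top K0 K0)]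
    refine lintegral_mono_ae ?_
    filter_upwards [R2 z' z] with p hp
    by_cases h : p ∈ HartA.St c ρ r
    · have h2 : p ∈ rset c ρ r :=
        ⟨hp.2.1 ▸ HartA.an6 hy hz', hp.2.2 ▸ HartA.an6 hx hz, h⟩
      simp only [Ψ2, indicator_of_mem (show p ∈ {p : TP | p.2 1 = z} from hp.2.2), hΨ,
        indicator_of_mem h, wr, indicator_of_mem h2]
      rw [hK, ← ENNReal.ofReal_mul (by positivity), ← pow_add]
      exact le_of_eq (by ring)
    · simp [z2 p h]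
  have s1 := H ν hν ρ hρ x y Ψ Ψ mΨ mΨ (fun p hp => HartA.not_sub hρ hr hx (by
    by_contra h
    simp [hΨ, h] at hp)) (t1 x hx)
  refine (lintegral_indicator (HartA.meas c ρ r) F).ge.trans (s1.trans ?_)
  rw [rho, lintegral_smul_measure, lintegral_withDensity_eq_lintegral_mul _ (mr r).2 hF,
    smul_eq_mul, ← hK, mul_assoc, mul_assoc, ← lintegral_const_mul' _ _ K0]
  refine mul_le_mul_right ((setLIntegral_mono' measurableSet_ball key).trans
    ((setLIntegral_le_lintegral _ _).trans_eq ?_)) C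
  rw [lintegral_const_mul' _ _ hC, lintegral_lintegral_swap (measurable_grM ν measurable_snd
    measurable_fst (mJ.comp measurable_snd)).aemeasurable, ← lintegral_GR ν mJ]
  rfl

end Pool.Agent.P.MP_d66c6d_pr
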