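import Pool.Agent.P.MP_d66c6d_pr.U.Iface
import Pool.Agent.P.MP_d66c6d_pr.C.Iface
import Pool.Agent.P.MP_d66c6d_pr.B.Iface

/-! Step HIT of the carpet project. -/

namespace Pool.Agent.P.MP_d66c6d_pr

open MeasureTheory ProbabilityTheory Set Metric Filter Topology
open scoped ENNReal

namespace HitA

/-- Paths through the point `c`. -/
def H (c : ℂ) : Set Br := {γ | c ∈ range γ}

theorem mH (c : ℂ) : MeasurableSet (H c) := by
  have h : H c = {γ : Br | range γ ⊆ ({c} : Set ℂ)ᶜ}ᶜ := by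
    ext γ
    change c ∈ range γ ↔ ¬ range γ ⊆ ({c} : Set ℂ)ᶜ
    rw [subset_compl_singleton_iff, not_not]
  rw [h]
  exact (isOpen_rangeSub isOpen_compl_singleton).measurableSet.compl

/-- The indicator of `H c`. -/
noncomputable def J (c : ℂ) (γ : Br) : ℝ≥0∞ := (H c).indicator 1 γ

theorem mJ (c : ℂ) : Measurable (J c) := measurable_one.indicator (mH c)

/-- The bridge mass of the paths through `c`. -/
noncomputable def K (ν : Measure Br) (c : ℂ) (t : ℝ) (x y : ℂ) : ℝ≥0∞ :=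
  ∫⁻ γ, J c γ ∂brM ν t x y

theorem mK (ν : Measure Br) [SFinite ν] (c : ℂ) {α : Type*} [MeasurableSpace α] {t : α → ℝ}
    {x y : α → ℂ} (ht : Measurable t) (hx : Measurable x) (hy : Measurable y) :
    Measurable fun a => K ν c (t a) (x a) (y a) :=
  measurable_brM ν ht hx hy (F := fun _ γ => J c γ) ((mJ c).comp measurable_snd)

theorem mass (ν : Measure Br) [IsProbabilityMeasure ν] (t : ℝ) (x y : ℂ) :
    brM ν t x y univ = hk t (y - x) := by
  rw [← lintegral_one, lintegral_brM ν t x y measurable_const]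
  simp

theorem tri {f g : ℂ → ℂ → ℝ≥0∞} (hf : Measurable fun p : ℂ × ℂ => f p.1 p.2)
    (hg : Measurable fun p : ℂ × ℂ => g p.1 p.2) :
    ∫⁻ x, ∫⁻ y, ∫⁻ z, f x z * g z y = ∫⁻ z, (∫⁻ x, f x z) * ∫⁻ y, g z y := by
  have hG : Measurable fun z => ∫⁻ y, g z y := hg.lintegral_prod_right'
  have h1 : ∀ x, ∫⁻ y, ∫⁻ z, f x z * g z y = ∫⁻ z, f x z * ∫⁻ y, g z y := by
    intro x
    rw [lintegral_lintegral_swap]
    · refine lintegral_congr fun z => ?_
      exact lintegral_const_mul _ (hg.comp (measurable_const.prodMk measurable_id))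
    · exact ((hf.comp (measurable_const.prodMk measurable_snd)).mul
        (hg.comp (measurable_snd.prodMk measurable_fst))).aemeasurable
  simp_rw [h1]
  rw [lintegral_lintegral_swap]
  · refine lintegral_congr fun z => ?_
    exact lintegral_mul_const _ (hf.comp (measurable_id.prodMk measurable_const))
  · exact (hf.mul (hG.comp measurable_snd)).aemeasurable

theorem K_symm (hREV : S_REV) (hCUT : S_CUT) {ν : Measure Br} (hν : IsBridge ν) (c : ℂ) (t : ℝ)
    (x y : ℂ) : K ν c t x y = K ν c t y x := by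
  have h := (hREV.2 ν hν).2.2.1 t y x
  have hr : Measurable (rev : Br → Br) := Measurable.rev' measurable_id
  rw [K, ← h, lintegral_map (mJ c) hr, K]
  refine lintegral_congr fun γ => ?_
  have h2 := (hCUT.2.2.2.2.2.1 γ).1
  by_cases a : c ∈ range γ
  · have b : c ∈ range (rev γ) := h2.symm ▸ a
    exact (indicator_of_mem (s := H c) b 1).trans (indicator_of_mem (s := H c) a 1).symm
  · have b : c ∉ range (rev γ) := h2.symm ▸ a
    exact (indicator_of_notMem (s := H c) b _).trans (indicator_of_notMem (s := H c) a _).symm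

theorem J_split (hCUT : S_CUT) (c : ℂ) (γ : Br) :
    J c γ + J c (sub 0 (1 / 2) γ) * J c (sub (1 / 2) 1 γ) =
      J c (sub 0 (1 / 2) γ) + J c (sub (1 / 2) 1 γ) := by
  have h := hCUT.2.2.2.2.1 (1 / 2) ⟨by norm_num, by norm_num⟩ γ
  have h2 : c ∈ range γ ↔ c ∈ range (sub 0 (1 / 2) γ) ∨ c ∈ range (sub (1 / 2) 1 γ) := by
    conv_lhs => rw [h]
    rfl
  have y : ∀ β : Br, c ∈ range β → J c β = 1 := fun β hb => indicator_of_mem (s := H c) hb _
  have n : ∀ β : Br, c ∉ range β → J c β = 0 := fun β hb => indicator_of_notMem (s := H c) hb _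
  by_cases a : c ∈ range (sub 0 (1 / 2) γ) <;> by_cases b : c ∈ range (sub (1 / 2) 1 γ)
  · rw [y _ a, y _ b, y _ (h2.2 (Or.inl a)), mul_one]
  · rw [y _ a, n _ b, y _ (h2.2 (Or.inl a)), mul_zero]
  · rw [n _ a, y _ b, y _ (h2.2 (Or.inr b)), zero_mul, add_zero, zero_add]
  · rw [n _ a, n _ b, n _ fun h => (h2.1 h).elim a b, mul_zero]

theorem split (hSPLIT : S_SPLIT) (hCUT : S_CUT) {ν : Measure Br} (hν : IsBridge ν) (c x y : ℂ) :
    K ν c 1 x y + ∫⁻ z, K ν c (1 / 2) x z * K ν c (1 / 2) z y =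
      (∫⁻ z, K ν c (1 / 2) x z * hk (1 / 2) (y - z)) +
        ∫⁻ z, hk (1 / 2) (z - x) * K ν c (1 / 2) z y := by
  have := hν.prob
  have hs := hSPLIT ν hν 1 one_pos (1 / 2) ⟨by norm_num, by norm_num⟩ x y
  have e1 : (1 - 1 / 2 : ℝ) * 1 = 1 / 2 := by norm_num
  have e2 : (1 / 2 : ℝ) * 1 = 1 / 2 := by norm_num
  rw [e1, e2] at hs
  have m1 : Measurable fun p : Br × Br => J c p.1 := (mJ c).comp measurable_fst
  have m2 : Measurable fun p : Br × Br => J c p.2 := (mJ c).comp measurable_snd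
  have a1 := hs _ m1
  have a2 := hs _ m2
  have a3 := hs _ (m1.mul m2)
  have b1 : ∀ z, ∫⁻ α, ∫⁻ _β, J c α ∂brM ν (1 / 2) z y ∂brM ν (1 / 2) x z =
      K ν c (1 / 2) x z * hk (1 / 2) (y - z) := by
    intro z
    simp_rw [lintegral_const, mass]
    exact lintegral_mul_const _ (mJ c)
  have b2 : ∀ z, ∫⁻ _α, ∫⁻ β, J c β ∂brM ν (1 / 2) z y ∂brM ν (1 / 2) x z =
      hk (1 / 2) (z - x) * K ν c (1 / 2) z y := by
    intro z
    rw [lintegral_const, mass, mul_comm, K]
  have b3 : ∀ z, ∫⁻ α, ∫⁻ β, J c α * J c β ∂brM ν (1 / 2) z y ∂brM ν (1 / 2) x z =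
      K ν c (1 / 2) x z * K ν c (1 / 2) z y := by
    intro z
    simp_rw [lintegral_const_mul _ (mJ c)]
    exact lintegral_mul_const _ (mJ c)
  simp only [b1] at a1
  simp only [b2] at a2
  simp only [Pi.mul_apply, b3] at a3
  have s1 : Measurable fun γ : Br => J c (sub 0 (1 / 2) γ) := (mJ c).comp (by fun_prop)
  rw [← a1, ← a2, ← a3, K, ← lintegral_add_left (mJ c), ← lintegral_add_left s1]
  exact lintegral_congr fun γ => J_split hCUT c γ

/-- The expected area of the range. -/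
noncomputable def ar (ν : Measure Br) (c : ℂ) (t : ℝ) : ℝ≥0∞ := ∫⁻ x, ∫⁻ y, K ν c t x y

theorem ar_split (hGM : S_GM) (hSPLIT : S_SPLIT) (hREV : S_REV) (hCUT : S_CUT) {ν : Measure Br}
    (hν : IsBridge ν) (c : ℂ) :
    ar ν c 1 + ∫⁻ z, (∫⁻ y, K ν c (1 / 2) z y) * ∫⁻ y, K ν c (1 / 2) z y =
      ar ν c (1 / 2) + ar ν c (1 / 2) := by
  have := hν.prob
  have hk1 := (hGM (1 / 2) (by norm_num)).2.1
  have mk : Measurable fun p : ℂ × ℂ => K ν c (1 / 2) p.1 p.2 :=
    mK ν c measurable_const measurable_fst measurable_snd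
  have mk1 : Measurable fun p : ℂ × ℂ => K ν c 1 p.1 p.2 :=
    mK ν c measurable_const measurable_fst measurable_snd
  have mh : Measurable fun p : ℂ × ℂ => hk (1 / 2) (p.2 - p.1) := by fun_prop
  have t1 := tri (f := K ν c (1 / 2)) (g := fun z y => hk (1 / 2) (y - z)) mk mh
  have t2 := tri (f := fun x z => hk (1 / 2) (z - x)) (g := K ν c (1 / 2)) mh mk
  have t3 := tri (f := K ν c (1 / 2)) (g := K ν c (1 / 2)) mk mk
  have u1 : ∀ z : ℂ, ∫⁻ y, hk (1 / 2) (y - z) = 1 := fun z => by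
    rw [lintegral_sub_right_eq_self (hk (1 / 2)) z, hk1]
  have u2 : ∀ z : ℂ, ∫⁻ x, hk (1 / 2) (z - x) = 1 := fun z => by
    rw [lintegral_sub_left_eq_self (hk (1 / 2)) z, hk1]
  have u3 : ∀ z : ℂ, ∫⁻ x, K ν c (1 / 2) x z = ∫⁻ x, K ν c (1 / 2) z x := fun z =>
    lintegral_congr fun x => K_symm hREV hCUT hν c _ x z
  simp only [u1, u3, mul_one] at t1
  simp only [u2, one_mul] at t2
  simp only [u3] at t3
  have q : ∀ {f g : ℂ → ℂ → ℝ≥0∞}, (Measurable fun p : ℂ × ℂ => f p.1 p.2) →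
      (Measurable fun p : ℂ × ℂ => g p.1 p.2) →
      Measurable fun p : ℂ × ℂ => ∫⁻ z, f p.1 z * g z p.2 := fun hf hg =>
    Measurable.lintegral_prod_right' (f := fun q : (ℂ × ℂ) × ℂ => _)
      ((hf.comp (measurable_fst.fst.prodMk measurable_snd)).mul
        (hg.comp (measurable_snd.prodMk measurable_fst.snd)))
  have add : ∀ {f g : ℂ → ℂ → ℝ≥0∞}, (Measurable fun p : ℂ × ℂ => f p.1 p.2) →
      (∫⁻ x, ∫⁻ y, f x y) + ∫⁻ x, ∫⁻ y, g x y = ∫⁻ x, ∫⁻ y, (f x y + g x y) := by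
    intro f g hf
    rw [← lintegral_add_left hf.lintegral_prod_right']
    refine lintegral_congr fun x => ?_
    exact (lintegral_add_left (hf.comp (measurable_const.prodMk measurable_id)) _).symm
  unfold ar
  conv_rhs => rw [← t1]
  conv_rhs => enter [2]; rw [t1, ← t2]
  rw [← t3, add mk1, add (q (f := K ν c (1 / 2)) (g := fun z y => hk (1 / 2) (y - z)) mk mh)]
  exact lintegral_congr fun x => lintegral_congr fun y => split hSPLIT hCUT hν c x y

theorem bm_scale (hGM : S_GM) (ν : Measure Br) [SFinite ν] (c : ℂ) {t : ℝ} (ht : 0 < t) (x : ℂ) :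
    bmM ν t x (H c) = bmM ν 1 (c + (√t)⁻¹ • (x - c)) (H c) := by
  have h1 := (hGM t ht).2.2.2.2.2.2.2.1
  have hs : (√t : ℂ) ≠ 0 := by exact_mod_cast (Real.sqrt_pos.2 ht).ne'
  have h2 : (gm t).prod ν = ((gm 1).prod ν).map (Prod.map (fun z => (√t : ℂ) * z) id) := by
    have : SFinite (gm 1) := by unfold gm; infer_instance
    rw [← Measure.map_prod_map _ _ (by fun_prop) measurable_id, h1, Measure.map_id]
  rw [bmM, bmM, h2, Measure.map_map (by fun_prop) (by fun_prop),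
    Measure.map_apply (by fun_prop) (mH c), Measure.map_apply (by fun_prop) (mH c)]
  congr 1
  ext p
  simp only [H, mem_preimage, Function.comp_apply, mem_ofPred_eq, mem_range, seg_apply,
    Prod.map_fst, Prod.map_snd, id, Real.sqrt_one, Complex.ofReal_one, Complex.real_smul,
    Complex.ofReal_inv]
  refine exists_congr fun s => ⟨fun h => ?_, fun h => ?_⟩
  · field_simp
    linear_combination h
  · field_simp at h
    linear_combination h

theorem ar_eq (hBM : S_BM) {ν : Measure Br} (hν : IsBridge ν) (c : ℂ) {t : ℝ} (ht : 0 < t) :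
    ar ν c t = ∫⁻ x, bmM ν t x (H c) := by
  refine lintegral_congr fun x => ?_
  rw [← lintegral_indicator_one (mH c)]
  exact (((hBM ν hν).1 t ht x).2 _ (mJ c)).symm

theorem ar_scale (hGM : S_GM) (hBM : S_BM) {ν : Measure Br} (hν : IsBridge ν) (c : ℂ) {t : ℝ}
    (ht : 0 < t) : ar ν c t = ENNReal.ofReal t * ar ν c 1 := by
  have := hν.prob
  have hm : Measurable fun x => bmM ν 1 x (H c) := by
    have h : ∀ x, bmM ν 1 x (H c) = ∫⁻ y, K ν c 1 x y := fun x => by
      rw [← lintegral_indicator_one (mH c)]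
      exact ((hBM ν hν).1 1 one_pos x).2 _ (mJ c)
    simp_rw [h]
    exact (mK ν c measurable_const measurable_fst measurable_snd).lintegral_prod_right'
  have hs : (√t)⁻¹ ≠ 0 := inv_ne_zero (Real.sqrt_pos.2 ht).ne'
  rw [ar_eq hBM hν c ht, ar_eq hBM hν c one_pos]
  simp_rw [bm_scale hGM ν c ht]
  rw [lintegral_sub_right_eq_self (fun u : ℂ => bmM ν 1 (c + (√t)⁻¹ • u) (H c)) c,
    ← lintegral_add_left_eq_self (fun x => bmM ν 1 x (H c)) c,
    ← lintegral_map (f := fun u : ℂ => bmM ν 1 (c + u) (H c)) (g := fun u : ℂ => (√t)⁻¹ • u)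
      (hm.comp (by fun_prop)) (by fun_prop),
    Measure.map_addHaar_smul _ hs, lintegral_smul_measure, smul_eq_mul]
  congr 2
  rw [Complex.finrank_real_complex, inv_pow, inv_inv, Real.sq_sqrt ht.le, abs_of_pos ht]

theorem ar_fin (hGM : S_GM) (hBM : S_BM) {ν : Measure Br} (hν : IsBridge ν) (c : ℂ) :
    ar ν c 1 ≠ ∞ := by
  obtain ⟨k, C, hk0, hC, -, hb⟩ := (hBM ν hν).2
  have ht : 0 < 1 / (2 * k) := by positivity
  have h1 := (hGM _ ht).2.1
  rw [ar_eq hBM hν c one_pos]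
  have h2 : ∀ᵐ x, bmM ν 1 x (H c) ≤
      ENNReal.ofReal (C * (2 * Real.pi * (1 / (2 * k)))) * hk (1 / (2 * k)) (c - x) := by
    filter_upwards [compl_mem_ae_iff.2 (measure_singleton c)] with x hx
    have hd : 0 < ‖c - x‖ := norm_pos_iff.2 (sub_ne_zero.2 (Ne.symm hx))
    refine (measure_mono (t := {γ : Br | ¬ range γ ⊆ ball x ‖c - x‖}) ?_).trans
      ((hb 1 one_pos _ hd x).trans (le_of_eq ?_))
    · intro γ hγ hsub
      have := hsub hγ
      simp [dist_eq_norm] at this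
    · rw [hk, ← ENNReal.ofReal_mul (by positivity)]
      congr 1
      have e : -‖c - x‖ ^ 2 / (2 * (1 / (2 * k))) = -k * ‖c - x‖ ^ 2 / 1 := by
        field_simp
      rw [e]
      have := Real.pi_pos
      field_simp
  refine ne_top_of_le_ne_top ?_ (lintegral_mono_ae h2)
  rw [lintegral_const_mul _ (by fun_prop), lintegral_sub_left_eq_self (hk (1 / (2 * k))) c, h1,
    mul_one]
  exact ENNReal.ofReal_ne_top

theorem ar_zero (hGM : S_GM) (hBM : S_BM) (hSPLIT : S_SPLIT) (hREV : S_REV) (hCUT : S_CUT)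
    {ν : Measure Br} (hν : IsBridge ν) (c : ℂ) {t : ℝ} (ht : 0 < t) : ar ν c t = 0 := by
  have := hν.prob
  have h1 := ar_split hGM hSPLIT hREV hCUT hν c
  have h2 := ar_scale hGM hBM hν c (t := 1 / 2) (by norm_num)
  have h3 : ar ν c (1 / 2) + ar ν c (1 / 2) = ar ν c 1 := by
    rw [h2, ← add_mul, ← ENNReal.ofReal_add (by norm_num) (by norm_num)]
    norm_num
  have hm : Measurable fun z => ∫⁻ y, K ν c (1 / 2) z y :=
    (mK ν c measurable_const measurable_fst measurable_snd).lintegral_prod_right'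
  rw [h3] at h1
  have h4 : ∫⁻ z, (∫⁻ y, K ν c (1 / 2) z y) * ∫⁻ y, K ν c (1 / 2) z y = 0 :=
    (ENNReal.add_right_inj (ar_fin hGM hBM hν c)).1 (by rw [h1, add_zero])
  have h5 : ar ν c (1 / 2) = 0 := by
    refine (lintegral_eq_zero_iff hm).2 ?_
    filter_upwards [(lintegral_eq_zero_iff (hm.mul hm)).1 h4] with z hz
    simpa using hz
  rw [ar_scale hGM hBM hν c ht, ← h3, h5, add_zero, mul_zero]

end HitA

open HitA in
theorem p_HIT (hKK : S_KK) (hFIN : S_FIN) (hDYN : S_DYN) (hGEN : S_GEN) (hGM : S_GM) (hBM : S_BM) (hSPLIT : S_SPLIT) (hREV : S_REV) (hCUT : S_CUT) :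
    S_HIT := by
  intro ν hν c
  have := hν.prob
  have hs : MeasurableSet {p : TP | c ∈ range p.2} := measurable_snd (mH c)
  have hΦ : Measurable fun p : TP => J c p.2 := (mJ c).comp measurable_snd
  have h0 : GR ν {p | c ∈ range p.2} = ∫⁻ p, J c p.2 ∂GR ν := by
    rw [← lintegral_indicator_one hs]
    rfl
  have h1 : ∀ x, ∫⁻ y, ∫⁻ p, J c p.2 ∂grM ν x y = ∫⁻ t in Ioi (0 : ℝ), ∫⁻ y, K ν c t x y := by
    intro x
    simp_rw [lintegral_grM ν x _ hΦ]
    exact lintegral_lintegral_swap (f := fun y t => K ν c t x y)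
      (mK ν c measurable_snd measurable_const measurable_fst).aemeasurable
  have h2 : Measurable fun q : ℂ × ℝ => ∫⁻ y, K ν c q.2 q.1 y :=
    Measurable.lintegral_prod_right' (f := fun q : (ℂ × ℝ) × ℂ => K ν c q.1.2 q.1.1 q.2)
      (mK ν c measurable_fst.snd measurable_fst.fst measurable_snd)
  rw [h0, lintegral_GR ν hΦ]
  simp_rw [h1]
  rw [lintegral_lintegral_swap (f := fun x t => ∫⁻ y, K ν c t x y) h2.aemeasurable]
  refine (setLIntegral_congr_fun measurableSet_Ioi (f := ar ν c) (g := fun _ => 0)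
      fun t ht => ar_zero hGM hBM hSPLIT hREV hCUT hν c ht).trans ?_
  simp

end Pool.Agent.P.MP_d66c6d_pr
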