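import Pool.Agent.P.MP_d66c6d_pr.U.Iface
import Pool.Agent.P.MP_d66c6d_pr.B.Iface
import Pool.Agent.P.MP_d66c6d_pr.S.Surr

/-! Step KLOW of the carpet project. -/

namespace Pool.Agent.P.MP_d66c6d_pr

open MeasureTheory ProbabilityTheory Set Metric Filter Topology
open scoped ENNReal

namespace KlowA

theorem unif {ν : Measure Br} (h : IsBridge ν) {K : Set Br} (hK : IsCompact K)
    (h0 : ∀ b ∈ K, b 0 = 0 ∧ b 1 = 0) {r : ℝ} (hr : 0 < r) :
    ∃ κ : ℝ≥0∞, κ ≠ 0 ∧ ∀ b ∈ K, κ ≤ ν (ball b r) := by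
  obtain ⟨T, hTK, hT, hc⟩ := finite_cover_balls_of_compact hK (half_pos hr)
  refine ⟨hT.toFinset.inf fun c => ν (ball c (r / 2)), ?_, fun b hb => ?_⟩
  · refine ne_of_gt ((Finset.lt_inf_iff (by simp)).2 fun c hc => ?_)
    have hc' := hTK (hT.mem_toFinset.1 hc)
    exact pos_iff_ne_zero.2 (h.tube (h0 c hc').1 (h0 c hc').2 (half_pos hr))
  · obtain ⟨c, hcT, hbc⟩ := mem_iUnion₂.1 (hc hb)
    refine (Finset.inf_le (hT.mem_toFinset.2 hcT)).trans (measure_mono fun z hz => ?_)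
    rw [mem_ball] at *
    have := dist_triangle_right z b c
    linarith

theorem dist_sub (u v : ℝ) (γ γ' : Br) : dist (sub u v γ) (sub u v γ') ≤ dist γ γ' :=
  (ContinuousMap.dist_le dist_nonneg).2 fun s => by
    rw [sub_apply, sub_apply]
    exact ContinuousMap.dist_apply_le_dist (f := γ) (g := γ') _

theorem fill_mono {A B : Set ℂ} (h : A ⊆ B) : fill A ⊆ fill B := fun z hz =>
  mem_fill.2 ((mem_fill.1 hz).subset (connectedComponentIn_mono z (compl_subset_compl.2 h)))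

theorem sub_zero' (r : ℝ) (γ : Br) : sub 0 r γ 0 = γ 0 := by
  rw [sub_apply]
  simp

theorem sub_one' (r : ℝ) (γ : Br) : sub r 1 γ 1 = γ 1 := by
  rw [sub_apply]
  simp

/-- The target path. -/
noncomputable def tg (g : Br) (x y : ℂ) : Br :=
  cat (1 / 2) (cat (1 / 2) (seg x 0 0 0) g) (seg 0 y 0 0)

theorem continuous_tg (g : Br) : Continuous fun p : ℂ × ℂ => tg g p.1 p.2 := by
  have h1 : Continuous fun p : ℂ × ℂ => seg p.1 0 0 0 :=
    continuous_seg.comp (f := fun p : ℂ × ℂ => (p.1, (0 : ℂ), (0 : ℝ), (0 : Br))) (by fun_prop)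
  have h2 : Continuous fun p : ℂ × ℂ => seg 0 p.2 0 0 :=
    continuous_seg.comp (f := fun p : ℂ × ℂ => ((0 : ℂ), p.2, (0 : ℝ), (0 : Br))) (by fun_prop)
  exact (continuous_cat _).comp
    (((continuous_cat _).comp (h1.prodMk (continuous_const (y := g)))).prodMk h2)

theorem tg_spec (hCUT : S_CUT) {g : Br} (g0 : g 0 = 0) (g1 : g 1 = 0)
    (hg : range g ⊆ closedBall 0 3) {x y : ℂ} (hx : ‖x‖ ≤ 11 / 2) (hy : ‖y‖ ≤ 11 / 2) :
    tg g x y 0 = x ∧ tg g x y 1 = y ∧ sub (1 / 2) 1 (sub 0 (1 / 2) (tg g x y)) = g ∧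
      ∀ s, ‖tg g x y s‖ ≤ 11 / 2 := by
  have hc := hCUT.2.2.2.2.2.2.1 (1 / 2) ⟨by norm_num, by norm_num⟩
  obtain ⟨a1, a2, a3⟩ := hc (seg x 0 0 0) g (by simp [seg_apply, g0])
  have e1 : cat (1 / 2) (seg x 0 0 0) g 1 = 0 := by rw [← sub_one' (1 / 2), a2, g1]
  obtain ⟨b1, b2, b3⟩ := hc (cat (1 / 2) (seg x 0 0 0) g) (seg 0 y 0 0)
    (by rw [e1]; simp [seg_apply])
  refine ⟨?_, ?_, ?_, fun s => ?_⟩
  · rw [tg, ← sub_zero' (1 / 2), b1, ← sub_zero' (1 / 2), a1]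
    simp [seg_apply]
  · rw [tg, ← sub_one' (1 / 2), b2]
    simp [seg_apply]
  · rw [tg, b1, a2]
  · have hs : tg g x y s ∈ range (tg g x y) := mem_range_self s
    rw [tg, b3, a3] at hs
    rw [tg]
    rcases hs with (⟨u, hu⟩ | hs) | ⟨u, hu⟩
    · rw [← hu, seg_apply]
      have e : x + ((u : ℝ) : ℂ) * (0 - x) + ((√0 : ℝ) : ℂ) * (0 : Br) u =
          ((1 - u : ℝ) : ℂ) * x := by
        simp
        ring
      rw [e, norm_mul, Complex.norm_real, Real.norm_of_nonneg (sub_nonneg.2 u.2.2)]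
      nlinarith [u.2.1, u.2.2, norm_nonneg x]
    · have := mem_closedBall_zero_iff.1 (hg hs)
      linarith
    · rw [← hu, seg_apply]
      have e : 0 + ((u : ℝ) : ℂ) * (y - 0) + ((√0 : ℝ) : ℂ) * (0 : Br) u = ((u : ℝ) : ℂ) * y := by
        simp
      rw [e, norm_mul, Complex.norm_real, Real.norm_of_nonneg u.2.1]
      nlinarith [u.2.1, u.2.2, norm_nonneg y]

theorem mem_good (hCUT : S_CUT) {g G γ : Br} {η : ℝ} (hη : η < 1) (g0 : g 0 = 0)
    (hg : ∀ γ : Br, dist γ g < η → closedBall 0 1 ⊆ fill (range γ))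
    (hG : sub (1 / 2) 1 (sub 0 (1 / 2) G) = g) (hn : ∀ s, ‖G s‖ ≤ 11 / 2) (hd : dist γ G < η)
    (t : ℝ) : ((t, γ) : TP) ∈ Inn 0 1 \ NDs 0 1 := by
  have h1 : range γ ⊆ closedBall 0 (9 * 1) := by
    rintro _ ⟨s, rfl⟩
    have a := ContinuousMap.dist_apply_le_dist (f := γ) (g := G) s
    have b := dist_triangle (γ s) (G s) 0
    have c := hn s
    rw [mem_closedBall]
    rw [dist_zero_right (G s)] at b
    linarith
  have h2 : dist (sub (1 / 2) 1 (sub 0 (1 / 2) γ)) g < η := by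
    rw [← hG]
    exact ((dist_sub _ _ _ _).trans (dist_sub _ _ _ _)).trans_lt hd
  have h3 : range (sub (1 / 2) 1 (sub 0 (1 / 2) γ)) ⊆ range γ :=
    (hCUT.2.2.1 _ _ _).trans (hCUT.2.2.1 _ _ _)
  refine ⟨⟨h1, _, h3 (mem_range_self 0), ?_⟩, fun h => h ?_⟩
  · have a := ContinuousMap.dist_apply_le_dist (f := sub (1 / 2) 1 (sub 0 (1 / 2) γ)) (g := g) 0
    rw [g0] at a
    rw [mem_ball]
    linarith
  · rw [inter_eq_left.2 h1]
    exact (hg _ h2).trans (fill_mono h3)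

/-- The normalised bridge of the target path. -/
noncomputable def nb (g : Br) (q : (ℂ × ℂ) × ℝ) : Br :=
  (√(max q.2 1))⁻¹ • (tg g q.1.1 q.1.2 - seg q.1.1 q.1.2 0 0)

theorem continuous_nb (g : Br) : Continuous (nb g) := by
  have h1 : Continuous fun q : (ℂ × ℂ) × ℝ => seg q.1.1 q.1.2 0 0 :=
    continuous_seg.comp (f := fun q : (ℂ × ℂ) × ℝ => (q.1.1, q.1.2, (0 : ℝ), (0 : Br)))
      (by fun_prop)
  have h2 : Continuous fun q : (ℂ × ℂ) × ℝ => (√(max q.2 1))⁻¹ :=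
    Continuous.inv₀ (by fun_prop) fun q => (Real.sqrt_pos.2 (lt_max_of_lt_right one_pos)).ne'
  exact h2.smul (((continuous_tg g).comp continuous_fst).sub h1)

theorem dist_seg (g : Br) (x y : ℂ) {t : ℝ} (ht : t ∈ Icc (1 : ℝ) 2) (b : Br) :
    dist (seg x y t b) (tg g x y) ≤ 2 * dist b (nb g ((x, y), t)) := by
  refine (ContinuousMap.dist_le (by positivity)).2 fun s => ?_
  have h0 : 0 < √t := Real.sqrt_pos.2 (by linarith [ht.1])
  have h0' : ((√t : ℝ) : ℂ) ≠ 0 := by exact_mod_cast h0.ne'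
  have h2 : √t ≤ 2 := Real.sqrt_le_iff.2 ⟨by norm_num, by linarith [ht.2]⟩
  have e : seg x y t b s - tg g x y s = ((√t : ℝ) : ℂ) * (b s - nb g ((x, y), t) s) := by
    simp only [nb, max_eq_left ht.1, seg_apply, ContinuousMap.smul_apply, ContinuousMap.sub_apply,
      Complex.real_smul, Complex.ofReal_inv, ContinuousMap.zero_apply]
    field_simp
    ring
  have a := ContinuousMap.dist_apply_le_dist (f := b) (g := nb g ((x, y), t)) s
  rw [dist_eq_norm, e, norm_mul, Complex.norm_real, Real.norm_of_nonneg h0.le, ← dist_eq_norm]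
  gcongr

theorem hk_low {t : ℝ} (ht : t ∈ Icc (1 : ℝ) 2) {z : ℂ} (hz : ‖z‖ ≤ 11) :
    ENNReal.ofReal (Real.exp (-61) / (4 * Real.pi)) ≤ hk t z := by
  have h1 := ht.1
  have h2 := ht.2
  have hp := Real.pi_pos
  refine ENNReal.ofReal_le_ofReal (div_le_div₀ (by positivity) (Real.exp_le_exp.2 ?_)
    (by positivity) (by nlinarith))
  rw [le_div_iff₀ (by positivity)]
  nlinarith [norm_nonneg z]

theorem base (hUM : S_UM) (hCIRC : S_CIRC) (hCUT : S_CUT) {ν : Measure Br} (h : IsBridge ν) :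
    ∃ κ : ℝ≥0∞, κ ≠ 0 ∧ ∀ x y : ℂ, ‖x‖ ≤ 11 / 2 → ‖y‖ ≤ 11 / 2 →
      κ ≤ grM ν x y (Inn 0 1 \ NDs 0 1) := by
  have := h.prob
  obtain ⟨g, η, hη, hη1, g0, g1, hg, hf⟩ := hCIRC
  have hK : IsCompact (nb g '' ((closedBall 0 (11 / 2) ×ˢ closedBall 0 (11 / 2)) ×ˢ Icc 1 2)) :=
    (((isCompact_closedBall _ _).prod (isCompact_closedBall _ _)).prod isCompact_Icc).image
      (continuous_nb g)
  obtain ⟨κ, hκ, hb⟩ := unif h hK (by
    rintro _ ⟨q, hq, rfl⟩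
    obtain ⟨a1, a2, -⟩ := tg_spec hCUT g0 g1 hg (mem_closedBall_zero_iff.1 hq.1.1)
      (mem_closedBall_zero_iff.1 hq.1.2)
    simp [nb, a1, a2, seg_apply]) (half_pos hη)
  have hS : MeasurableSet (Inn 0 1 \ NDs 0 1) :=
    (hUM 0 1).1.diff (hUM 0 1).2.1.measurableSet
  refine ⟨ENNReal.ofReal (Real.exp (-61) / (4 * Real.pi)) * κ,
    mul_ne_zero (by simpa using by positivity) hκ, fun x y hx hy => ?_⟩
  obtain ⟨-, -, a3, a4⟩ := tg_spec hCUT g0 g1 hg hx hy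
  have hm : Measurable ((Inn 0 1 \ NDs 0 1).indicator (1 : TP → ℝ≥0∞)) :=
    measurable_one.indicator hS
  rw [← lintegral_indicator_one hS, lintegral_grM ν x y hm]
  refine le_trans ?_ (lintegral_mono_set (s := Icc 1 2) fun t ht => lt_of_lt_of_le one_pos ht.1)
  refine le_trans ?_ (setLIntegral_mono' (f := fun _ =>
    ENNReal.ofReal (Real.exp (-61) / (4 * Real.pi)) * κ) measurableSet_Icc fun t ht => ?_)
  · rw [setLIntegral_const, Real.volume_Icc]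
    norm_num
  · rw [lintegral_brM ν t x y (F := fun γ => (Inn 0 1 \ NDs 0 1).indicator 1 (t, γ))
      (hm.comp (by fun_prop))]
    refine mul_le_mul' (hk_low ht ((norm_sub_le _ _).trans (by linarith))) ?_
    refine (hb _ ⟨((x, y), t), ⟨⟨mem_closedBall_zero_iff.2 hx, mem_closedBall_zero_iff.2 hy⟩, ht⟩,
      rfl⟩).trans ?_
    rw [← lintegral_indicator_one measurableSet_ball]
    refine lintegral_mono fun b => ?_
    by_cases hb' : b ∈ ball (nb g ((x, y), t)) (η / 2)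
    · have hd := dist_seg g x y ht b
      have := mem_ball.1 hb'
      rw [indicator_of_mem hb',
        indicator_of_mem (mem_good hCUT hη1 g0 hf a3 a4 (by linarith) t)]
      rfl
    · rw [indicator_of_notMem hb']
      exact zero_le

end KlowA

theorem p_KLOW (hUM : S_UM) (hCIRC : S_CIRC) (hSCAL : S_SCAL) (hCUT : S_CUT) :
    S_KLOW := by
  intro ν h
  obtain ⟨κ, hκ, hb⟩ := KlowA.base hUM hCIRC hCUT h
  refine ⟨κ, hκ, fun c ρ hρ x hx y hy => ?_⟩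
  have hρ' : (ρ : ℂ) ≠ 0 := by exact_mod_cast hρ.ne'
  obtain ⟨s1, -, -, s2, -⟩ := hSCAL ν h ρ c hρ'
  obtain ⟨s3, s4⟩ := s2 0 1
  have hn : ‖(ρ : ℂ)‖ = ρ := by rw [Complex.norm_real, Real.norm_of_nonneg hρ.le]
  rw [mul_zero, zero_add, mul_one, hn] at s3 s4
  have e : ∀ z : ℂ, (ρ : ℂ) * ((z - c) / ρ) + c = z := fun z => by
    field_simp
    ring
  have hz : ∀ z ∈ An5 c ρ, ‖(z - c) / ρ‖ ≤ 11 / 2 := fun z hz => by
    rw [norm_div, hn, div_le_iff₀ hρ, ← dist_eq_norm]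
    exact hz.2
  have := s1 ((x - c) / ρ) ((y - c) / ρ)
  rw [e, e] at this
  rw [← this, Measure.map_apply (measurable_sc _ _)
    ((hUM c ρ).1.diff (hUM c ρ).2.1.measurableSet), preimage_sdiff, s3, s4]
  exact hb _ _ (hz x hx) (hz y hy)

end Pool.Agent.P.MP_d66c6d_pr
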