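import Pool.Agent.P.MP_d66c6d_pr.U.Iface
import Pool.Agent.P.MP_d66c6d_pr.B.Iface

/-! Step MARKR of the carpet project. -/

namespace Pool.Agent.P.MP_d66c6d_pr

open MeasureTheory ProbabilityTheory Set Metric Filter Topology
open scoped ENNReal

namespace MarkrA

theorem scale {t : ℝ} (ht : 0 < t) (F : ℝ → ℝ≥0∞) :
    ∫⁻ a in Ioo (0 : ℝ) t, F a = ENNReal.ofReal t * ∫⁻ s in Ioo (0 : ℝ) 1, F (s * t) := by
  have h := lintegral_image_eq_lintegral_abs_deriv_mul (s := Ioo (0 : ℝ) 1)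
    (f := fun s => s * t) (f' := fun _ => t) measurableSet_Ioo
    (fun s _ => by simpa using ((hasDerivAt_id s).mul_const t).hasDerivWithinAt)
    (fun a _ b _ e => mul_right_cancel₀ ht.ne' e) F
  rw [image_mul_right_Ioo _ _ ht, zero_mul, one_mul, abs_of_pos ht] at h
  rw [h, lintegral_const_mul' _ _ ENNReal.ofReal_ne_top]

theorem shift (τ : ℝ) (F : ℝ → ℝ≥0∞) :
    ∫⁻ t in Ioi τ, F (t - τ) = ∫⁻ t in Ioi (0 : ℝ), F t := by
  rw [← lintegral_indicator measurableSet_Ioi, ← lintegral_indicator measurableSet_Ioi,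
    ← lintegral_sub_right_eq_self ((Ioi (0 : ℝ)).indicator F) τ]
  refine lintegral_congr fun t => ?_
  simp only [indicator, mem_Ioi, sub_pos]

theorem meas_Ioo {α : Type} [MeasurableSpace α] {u : α → ℝ} (hu : Measurable u)
    {F : α × ℝ → ℝ≥0∞} (hF : Measurable F) :
    Measurable fun w => ∫⁻ a in Ioo (0 : ℝ) (u w), F (w, a) := by
  have hs : MeasurableSet {q : α × ℝ | 0 < q.2 ∧ q.2 < u q.1} :=
    (measurableSet_lt measurable_const measurable_snd).inter
      (measurableSet_lt measurable_snd (hu.comp measurable_fst))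
  have h := (hF.indicator hs).lintegral_prod_right' (ν := volume)
  have e : (fun w => ∫⁻ a in Ioo (0 : ℝ) (u w), F (w, a)) =
      fun w => ∫⁻ a, {q : α × ℝ | 0 < q.2 ∧ q.2 < u q.1}.indicator F (w, a) := by
    funext w
    rw [← lintegral_indicator measurableSet_Ioo]
    rfl
  rw [e]
  exact h

theorem one (hMARK : S_MARK) (hREV : S_REV) {ν : Measure Br} (hν : IsBridge ν) (x y : ℂ)
    (Ψ : TP × TP → ℝ≥0∞) (hΨ : Measurable Ψ) :
    ∫⁻ p, ∫⁻ a in Ioo (0 : ℝ) p.1, Ψ (hd a p, tl a p) ∂volume ∂grM ν x y =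
      ∫⁻ z, ∫⁻ p, ∫⁻ q, Ψ (p, q) ∂grM ν z y ∂grM ν x z := by
  rw [← hMARK ν hν x y Ψ hΨ]
  refine lintegral_congr_ae ?_
  filter_upwards [(hREV.2 ν hν).2.2.2.2.2.1 x y] with p hp
  rw [scale hp.1]
  congr 1
  refine lintegral_congr fun s => ?_
  rw [hd, tl, mul_div_cancel_right₀ _ hp.1.ne', sub_mul, one_mul]

theorem two (hSPLIT : S_SPLIT) {ν : Measure Br} (hν : IsBridge ν) (x y : ℂ) (τ : ℝ) (hτ : 0 < τ)
    (Ψ : TP × TP → ℝ≥0∞) (hΨ : Measurable Ψ) :
    ∫⁻ p in {p : TP | τ < p.1}, Ψ (hd τ p, tl τ p) ∂grM ν x y =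
      ∫⁻ z, ∫⁻ α, ∫⁻ q, Ψ ((τ, α), q) ∂grM ν z y ∂brM ν τ x z := by
  have := hν.prob
  have hs : MeasurableSet {p : TP | τ < p.1} := measurableSet_lt measurable_const measurable_fst
  have h0 : Measurable fun p : TP => Ψ (hd τ p, tl τ p) := by fun_prop
  let K : (ℝ × ℂ) × Br → ℝ≥0∞ := fun w => ∫⁻ β, Ψ ((τ, w.2), (w.1.1, β)) ∂brM ν w.1.1 w.1.2 y
  have hK : Measurable K := measurable_brM ν (by fun_prop) (by fun_prop) measurable_const
    (F := fun (w : (ℝ × ℂ) × Br) β => Ψ ((τ, w.2), (w.1.1, β))) (by fun_prop)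
  let L : ℝ × ℂ → ℝ≥0∞ := fun w => ∫⁻ α, K (w, α) ∂brM ν τ x w.2
  have hL : Measurable L := measurable_brM ν measurable_const measurable_const measurable_snd
    (F := fun (w : ℝ × ℂ) α => K (w, α)) hK
  have e1 : ∀ t ∈ Ioi (0 : ℝ), ∫⁻ γ, {p : TP | τ < p.1}.indicator (fun p => Ψ (hd τ p, tl τ p)) (t, γ)
      ∂brM ν t x y = (Ioi τ).indicator (fun t => ∫⁻ z, L (t - τ, z)) t := fun t ht => by
    have ht' : (0 : ℝ) < t := ht
    by_cases h : τ < t
    · have := hSPLIT ν hν t ht' (τ / t) ⟨div_pos hτ ht', (div_lt_one ht').2 h⟩ x y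
        (fun w => Ψ ((τ, w.1), (t - τ, w.2))) (by fun_prop)
      rw [sub_mul, one_mul, div_mul_cancel₀ _ ht'.ne'] at this
      rw [indicator_of_mem (by exact h)]
      refine Eq.trans (lintegral_congr fun γ => ?_) this
      rw [indicator_of_mem (by exact h)]
      rfl
    · rw [indicator_of_notMem (by exact h)]
      refine Eq.trans (lintegral_congr fun γ => ?_) lintegral_zero
      rw [indicator_of_notMem (by exact h)]
  rw [← lintegral_indicator hs, lintegral_grM ν x y (h0.indicator hs),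
    setLIntegral_congr_fun measurableSet_Ioi e1, lintegral_indicator measurableSet_Ioi,
    Measure.restrict_restrict measurableSet_Ioi, inter_eq_left.2 (Ioi_subset_Ioi hτ.le),
    shift τ fun t => ∫⁻ z, L (t, z), lintegral_lintegral_swap (f := fun t z => L (t, z))
      hL.aemeasurable]
  refine lintegral_congr fun z => ?_
  have hK' : Measurable fun w : ℝ × Br => K ((w.1, z), w.2) := hK.comp (by fun_prop)
  refine (lintegral_lintegral_swap (μ := volume.restrict (Ioi (0 : ℝ))) (ν := brM ν τ x z)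
    (f := fun t α => K ((t, z), α)) hK'.aemeasurable).trans ?_
  refine lintegral_congr fun α => ?_
  rw [lintegral_grM ν z y (Φ := fun q => Ψ ((τ, α), q)) (by fun_prop)]

end MarkrA

open MarkrA in
theorem p_MARKR (hMARK : S_MARK) (hSPLIT : S_SPLIT) (hREV : S_REV) :
    S_MARKR := by
  intro ν hν x y
  have := hν.prob
  refine ⟨one hMARK hREV hν x y, two hSPLIT hν x y, fun Ψ hΨ => ?_⟩
  have h1 : Measurable fun w : TP × TP =>
      ∫⁻ a' in Ioo (0 : ℝ) w.2.1, Ψ (w.1, hd a' w.2, tl a' w.2) :=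
    meas_Ioo (u := fun w : TP × TP => w.2.1) (by fun_prop)
      (F := fun q => Ψ (q.1.1, hd q.2 q.1.2, tl q.2 q.1.2)) (by fun_prop)
  refine (one hMARK hREV hν x y _ h1).trans ?_
  refine lintegral_congr fun z => lintegral_congr fun α => ?_
  exact one hMARK hREV hν z y (fun w => Ψ (α, w)) (by fun_prop)

end Pool.Agent.P.MP_d66c6d_pr
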