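import Pool.Agent.P.MP_d66c6d_pr.U.Iface2
import Pool.Agent.P.MP_d66c6d_pr.U.Iface
import Pool.Agent.P.MP_d66c6d_pr.F.Iface

/-! Step MSC of the carpet project. -/

namespace Pool.Agent.P.MP_d66c6d_pr

open MeasureTheory ProbabilityTheory Set Metric Filter Topology
open scoped ENNReal

namespace MscA

theorem pre {a : ℂ} (ha : a ≠ 0) (b c : ℂ) (ρ : ℝ) :
    simK a b ⁻¹' inK (ball (a * c + b) (‖a‖ * ρ)) = inK (ball c ρ) := by
  ext K
  simp only [mem_preimage, inK, mem_ofPred_eq, coe_simK, image_subset_iff]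
  refine forall₂_congr fun z _ => ?_
  rw [mem_preimage, mem_ball, mem_ball, dist_eq_norm, dist_eq_norm,
    show a * z + b - (a * c + b) = a * (z - c) by ring, norm_mul]
  exact mul_lt_mul_iff_right₀ (norm_pos_iff.2 ha)

theorem sim_tr (a b : ℂ) (p : TP) : simK a b (trB p.2) = trB (sc a b p).2 :=
  TopologicalSpace.NonemptyCompacts.ext (by rw [coe_simK, coe_trB, coe_trB, range_sc])

end MscA

theorem p_MSC (hSCAL : S_SCAL) (hRHO : S_RHO) (hRJ : S_RJ) (hPPO : S_PPO) (hMUK : S_MUK) :
    S_MSC := by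
  intro ν hν A
  have := hν.prob
  obtain ⟨-, hσ, hinv, -⟩ := hMUK ν hν
  have htr : Measurable fun p : TP => trB p.2 := by fun_prop
  refine ⟨fun a b c ρ r ha hρ => ?_, fun hA η hη => ?_⟩
  · have hs := (continuous_simK a b).measurable
    have hm := measurable_cfgMap hs
    have h1 : (rhoK ν A c ρ r).map (simK a b) = rhoK ν A (a * c + b) (‖a‖ * ρ) (‖a‖ * r) := by
      rw [rhoK, rhoK, ← (hSCAL ν hν a b ha).2.2.2.2 A c ρ r hρ, Measure.map_map hs htr,
        Measure.map_map htr (measurable_sc a b)]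
      exact congrArg (fun f => Measure.map f _) (funext fun p => MscA.sim_tr a b p)
    have h2 : (RS ν A c ρ r).map (Cfg.map (simK a b)) =
        RS ν A (a * c + b) (‖a‖ * ρ) (‖a‖ * r) := by
      rw [RS, RS, Measure.map_sum hm.aemeasurable, ← h1]
      exact congrArg Measure.sum (funext fun j =>
        (hRJ.2.2 KC _ inferInstance).2.2.2.2.2.2 KC _ hs j)
    have h3 : ∀ (lam : ℝ≥0∞) (ρ : ℝ), (soupE ν lam (ball c ρ)).map (Cfg.map (simK a b)) =
        soupE ν lam (ball (a * c + b) (‖a‖ * ρ)) := fun lam ρ => by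
      rw [soupE, soupE, (hPPO KC _ inferInstance).2.2.1 KC _ hs, Measure.map_smul,
        ← MscA.pre ha b c ρ, ← Measure.restrict_map hs (isOpen_inK isOpen_ball).measurableSet,
        (hinv a b ha).map_eq]
    refine ⟨h1, h2, fun lam => ⟨h3 lam ρ, ?_⟩⟩
    have hu : Measurable fun p : Cfg KC × Cfg KC => p.1 ∪ p.2 := by fun_prop
    rw [MM, MM, ← h2, mul_left_comm, ← h3, Measure.map_prod_map _ _ hm hm, Measure.map_map hm hu,
      Measure.map_map hu (hm.prodMap hm)]
    exact congrArg (fun f => Measure.map f _) (funext fun p => Cfg.ext (image_union _ _ _))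
  · obtain ⟨L, hL, h⟩ := (hRHO ν hν A hA).2 (min η 2⁻¹) (by simp [hη])
    refine ⟨L, hL, fun c ρ r hρ hr => ?_⟩
    have h0 : rhoK ν A c ρ r univ ≤ min η 2⁻¹ := by
      rw [rhoK, Measure.map_apply htr MeasurableSet.univ, preimage_univ]
      exact h c ρ r hρ hr
    obtain ⟨-, -, hF, hS, -⟩ := hRJ.2.2 KC (rhoK ν A c ρ r) inferInstance
    have h1 : RS ν A c ρ r univ ≤ 2 := (hS (h0.trans (min_le_right _ _))).1
    refine ⟨h0.trans (min_le_left _ _), h0.trans (min_le_right _ _), h1, ?_, fun lam => ?_⟩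
    · have hB : MeasurableSet {T : Cfg KC | T.pts.Nonempty} :=
        (measurableSet_hit MeasurableSet.univ).congr (by ext T; simp [Set.Nonempty])
      rw [← lintegral_indicator_one hB, RS, hF _ (measurable_one.indicator hB),
        indicator_of_notMem (by simp), zero_add]
      refine (lintegral_mono (g := fun _ => 2) fun x => ?_).trans ?_
      · refine (lintegral_mono (g := fun _ => 1) fun T => ?_).trans ?_
        · exact indicator_apply_le' (fun _ => le_rfl) fun _ => zero_le
        · rw [lintegral_one]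
          exact h1
      · rw [lintegral_const]
        exact mul_le_mul_right (h0.trans (min_le_left _ _)) _
    · rw [MM, Measure.map_apply (by fun_prop) MeasurableSet.univ, preimage_univ, ← univ_prod_univ,
        Measure.prod_prod, measure_univ (μ := soupE _ _ _), mul_one]
      exact h1

end Pool.Agent.P.MP_d66c6d_pr
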