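import Pool.Agent.P.MP_d66c6d_pr.U.Iface3
import Pool.Agent.P.MP_d66c6d_pr.U.Iface2
import Pool.Agent.P.MP_d66c6d_pr.F.Iface

/-! Step ONEK of the carpet project. -/

namespace Pool.Agent.P.MP_d66c6d_pr

open MeasureTheory ProbabilityTheory Set Metric Filter Topology
open scoped ENNReal

namespace OnekA

open Classical in
/-- The factor `k` if some trace meets `U`, and one otherwise. -/
noncomputable def fac (U : Set ℂ) (k : ℝ≥0∞) (S : Cfg KC) : ℝ≥0∞ :=
  if ∃ K ∈ S.pts, K ∈ hitK U then k else 1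

variable {U : Set ℂ} {k : ℝ≥0∞}

theorem meas_fac (hU : IsOpen U) : Measurable (fac U k) :=
  Measurable.ite (measurableSet_hit (isOpen_hitK hU).measurableSet) measurable_const
    measurable_const

theorem fac_le (hk : 1 ≤ k) (S : Cfg KC) : fac U k S ≤ k := by
  unfold fac
  split_ifs
  exacts [le_rfl, hk]

theorem le_fac (hk : 1 ≤ k) (S : Cfg KC) : 1 ≤ fac U k S := by
  unfold fac
  split_ifs
  exacts [hk, le_rfl]

theorem fac_congr {S T : Cfg KC}
    (h : (∃ K ∈ S.pts, K ∈ hitK U) ↔ ∃ K ∈ T.pts, K ∈ hitK U) : fac U k S = fac U k T := by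
  unfold fac
  by_cases h1 : ∃ K ∈ T.pts, K ∈ hitK U
  · rw [if_pos h1, if_pos (h.2 h1)]
  · rw [if_neg h1, if_neg fun h2 => h1 (h.1 h2)]

theorem loc_fac : LocK U (fac U k) := by
  refine ⟨fun S T hT => fac_congr ⟨?_, ?_⟩, fun K L L' S _ _ _ e => fac_congr ?_⟩
  · rintro ⟨K, hK | hK, h⟩
    · exact ⟨K, hK, h⟩
    · exact absurd h (not_nonempty_iff_eq_empty.2 (hT K hK).inter_eq)
  · rintro ⟨K, hK, h⟩
    exact ⟨K, Or.inl hK, h⟩
  · have h : K ∈ hitK U ↔ L ∈ hitK U ∨ L' ∈ hitK U := by
      simp only [hitK, mem_ofPred_eq]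
      rw [e, union_inter_distrib_right, union_nonempty]
    simp only [Cfg.pts_insert, mem_insert_iff, or_and_right, exists_or, exists_eq_left, h,
      or_assoc]

theorem fac_empty : fac U k ∅ = 1 := by
  simp [fac]

theorem fac_insert {K : KC} (hK : K ∈ hitK U) (S : Cfg KC) : fac U k (insert K S) = k :=
  if_pos ⟨K, mem_insert _ _, hK⟩

end OnekA

open OnekA in
theorem p_ONEK (hRJ : S_RJ) (hDLOOPH : S_DLOOPH) (hMUK : S_MUK) :
    S_ONEK := by
  intro ν hν c ρ κ hρ hκ H hH hL hs D hO hW a f ha hf hb l G hG hG'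
  have hk : (1 : ℝ≥0∞) ≤ ENNReal.ofReal κ := ENNReal.one_le_ofReal.2 hκ.le
  have hsup : SupK ν c ρ fun S => fac (ball c (3 * ρ)) (ENNReal.ofReal κ) S * H (S ∪ l) := by
    refine ⟨(meas_fac isOpen_ball).mul
      (hH.comp (Measurable.cfgUnion measurable_id measurable_const)),
      loc_fac.comp₂ (hL.union l) (· * ·), fun l' x hx y hy => ?_⟩
    calc _ ≤ ∫⁻ p in Inn c ρ ∩ NDs c ρ,
            ENNReal.ofReal κ * H (insert (trB p.2) (l' ∪ l)) ∂grM ν x y :=
          lintegral_mono fun p => by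
            rw [Cfg.insert_union]
            exact mul_le_mul_left (fac_le hk _) _
      _ ≤ H (l' ∪ l) * grM ν x y (Inn c ρ) := by
          rw [lintegral_const_mul' _ _ ENNReal.ofReal_ne_top]
          exact hs _ x hx y hy
      _ ≤ _ := mul_le_mul_left (le_mul_of_one_le_left zero_le (le_fac hk _)) _
  have h1 := DqlA.one hRJ hDLOOPH hν hρ hsup hO hW ∅ G hG hG'
  have mV := (isOpen_hitK (isOpen_ball (x := c) (ε := 3 * ρ))).measurableSet
  have mA : MeasurableSet (inK D \ inK (ball c (10 * ρ))) :=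
    (isOpen_inK hO).measurableSet.diff (isOpen_inK isOpen_ball).measurableSet
  have hae := ae_restrict_mem (μ := muK ν) (mA.inter mV)
  generalize (muK ν).restrict ((inK D \ inK (ball c (10 * ρ))) ∩ hitK (ball c (3 * ρ))) = m at *
  have mN := (hRJ.1 c ρ).1.measurableSet
  have m1 : Measurable fun K : KC => H (insert K l) :=
    hH.comp (Measurable.cfgInsert measurable_id measurable_const)
  have m2 : Measurable fun K : KC => (NDK c ρ).indicator 1 K * (H (insert K l) * G K) :=
    (measurable_one.indicator mN).mul (m1.mul hG)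
  rw [lintegral_withDensity_eq_lintegral_mul _ hf m2, lintegral_withDensity_eq_lintegral_mul _ hf hG]
  simp only [fac_empty, one_mul, Cfg.empty_union, Cfg.insert_union] at h1
  calc _ ≤ ∫⁻ K, a * ((NDK c ρ).indicator 1 K *
          (fac (ball c (3 * ρ)) (ENNReal.ofReal κ) (insert K ∅) * H (insert K l) * G K)) ∂m := by
        refine lintegral_mono_ae (hae.mono fun K hK => ?_)
        rw [fac_insert hK.2, Pi.mul_apply]
        refine (mul_le_mul_left (hb K).2 _).trans_eq ?_
        ring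
    _ ≤ a * (H l * ∫⁻ K, G K ∂m) := by
        rw [lintegral_const_mul' _ _ ha]
        exact mul_le_mul_right h1 _
    _ ≤ _ := by
        rw [mul_left_comm, ← lintegral_const_mul' _ _ ha]
        exact mul_le_mul_right (lintegral_mono fun K => mul_le_mul_left (hb K).1 _) _

end Pool.Agent.P.MP_d66c6d_pr
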