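import Pool.Agent.P.MP_d66c6d_pr.U.Iface3
import Pool.Agent.P.MP_d66c6d_pr.U.Iface2
import Pool.Agent.P.MP_d66c6d_pr.F.Iface

/-! Step PAC of the carpet project. -/

namespace Pool.Agent.P.MP_d66c6d_pr

open MeasureTheory ProbabilityTheory Set Metric Filter Topology
open scoped ENNReal

namespace PacA

variable {E : Type} [MeasurableSpace E]

theorem lint_PP (hRJ : S_RJ) (hPPF : S_PPF) (m : Measure E) [hm : IsFiniteMeasure m]
    (Ψ : Cfg E → ℝ≥0∞) : ∫⁻ S, Ψ S ∂PP m =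
      ∑' k : ℕ, en (m univ) / (k.factorial : ℝ≥0∞) * ∫⁻ S, Ψ S ∂(RJ m k) := by
  rw [← (hPPF E m hm).eq_PP, ppFin, lintegral_sum_measure]
  refine tsum_congr fun k => ?_
  rw [lintegral_smul_measure, (hRJ.2.2 E m inferInstance).2.2.2.2.1 hm k, smul_eq_mul]

theorem rj_le (hRJ : S_RJ) {m₀ m₁ : Measure E} [IsFiniteMeasure m₀] [IsFiniteMeasure m₁]
    {κ : ℝ≥0∞} (hκ : κ ≠ ∞) (h : m₁ ≤ κ • m₀) (k : ℕ) : ∀ Ψ : Cfg E → ℝ≥0∞, Measurable Ψ →
    ∫⁻ S, Ψ S ∂(RJ m₁ k) ≤ κ ^ k * ∫⁻ S, Ψ S ∂(RJ m₀ k) := by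
  induction k with
  | zero => intro Ψ _; simp [RJ]
  | succ k ih =>
    intro Ψ hΨ
    rw [(hRJ.2.2 E m₁ inferInstance).2.1 k Ψ hΨ, (hRJ.2.2 E m₀ inferInstance).2.1 k Ψ hΨ]
    refine (lintegral_mono' h fun x => ih (fun T => Ψ (insert x T))
      (hΨ.comp (Measurable.cfgInsert measurable_const measurable_id))).trans (le_of_eq ?_)
    rw [lintegral_smul_measure, lintegral_const_mul' _ _ (ENNReal.pow_ne_top hκ), smul_eq_mul,
      pow_succ']
    ring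

theorem sum_ne_top {a : ℝ≥0∞} (ha : a ≠ ∞) :
    ∑' k : ℕ, a ^ k / (k.factorial : ℝ≥0∞) ≠ ∞ := by
  have h : ∀ k : ℕ, a ^ k / (k.factorial : ℝ≥0∞) =
      ENNReal.ofReal (a.toReal ^ k / k.factorial) := fun k => by
    rw [ENNReal.ofReal_div_of_pos (by exact_mod_cast k.factorial_pos),
      ENNReal.ofReal_pow ENNReal.toReal_nonneg, ENNReal.ofReal_toReal ha, ENNReal.ofReal_natCast]
  simp_rw [h]
  rw [← ENNReal.ofReal_tsum_of_nonneg (fun k => by positivity)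
    (Real.summable_pow_div_factorial _)]
  exact ENNReal.ofReal_ne_top

theorem lint_add (hPPO : S_PPO) (m m' : Measure E) (hm : SFinite m) (hm' : SFinite m')
    {Φ : Cfg E → ℝ≥0∞} (hΦ : Measurable Φ) :
    ∫⁻ S, Φ S ∂PP (m + m') = ∫⁻ S, ∫⁻ T, Φ (S ∪ T) ∂PP m' ∂PP m := by
  have hu : Measurable fun p : Cfg E × Cfg E => p.1 ∪ p.2 :=
    Measurable.cfgUnion measurable_fst measurable_snd
  rw [← (hPPO E m hm).1 m' hm', lintegral_map hΦ hu]
  exact lintegral_prod _ (hΦ.comp hu).aemeasurable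

end PacA

open PacA in
theorem p_PAC (hRJ : S_RJ) (hPPF : S_PPF) (hPPE : S_PPE) (hPPO : S_PPO) :
    S_PAC := by
  intro κ M p hκ hM hp
  have hp2 : p / 2 / 2 ≠ 0 := by simp [hp]
  obtain ⟨n, hn⟩ := ((ENNReal.tendsto_sum_nat_add _ (sum_ne_top (ENNReal.mul_ne_top hκ hM))).eventually
    (ge_mem_nhds (pos_iff_ne_zero.2 hp2))).exists
  have hK : max κ 1 ^ n ≠ ∞ := ENNReal.pow_ne_top (by simp [hκ])
  refine ⟨p / 2 / max κ 1 ^ n, by simp [hp, hκ], fun E _ m₀ m₁ m' hm' h01 h10 h0 Φ hΦ h2 hδ => ?_⟩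
  have f0 : IsFiniteMeasure m₀ := ⟨h0.trans_lt hM.lt_top⟩
  have h1 : m₁ univ ≤ κ * M := (h10 univ).trans (by
    rw [Measure.smul_apply, smul_eq_mul]
    exact mul_le_mul_right h0 κ)
  have f1 : IsFiniteMeasure m₁ := ⟨h1.trans_lt (ENNReal.mul_ne_top hκ hM).lt_top⟩
  rw [lint_add hPPO _ _ inferInstance hm' hΦ] at hδ ⊢
  set Ψ : Cfg E → ℝ≥0∞ := fun S => ∫⁻ T, Φ (S ∪ T) ∂PP m' with hΨ
  have hΨm : Measurable Ψ := Measurable.lintegral_prod_right'
    (f := fun q : Cfg E × Cfg E => Φ (q.1 ∪ q.2))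
    (hΦ.comp (Measurable.cfgUnion measurable_fst measurable_snd))
  have hΨ2 : ∀ S, Ψ S ≤ 2 := fun S => (lintegral_mono fun T => h2 _).trans (by simp)
  rw [lint_PP hRJ hPPF] at hδ ⊢
  rw [← ENNReal.summable.sum_add_tsum_nat_add' (k := n), ← ENNReal.add_halves p]
  refine add_le_add ?_ ?_
  · refine le_trans ?_ ((mul_le_mul_right hδ (max κ 1 ^ n)).trans ENNReal.mul_div_le)
    refine le_trans ?_ (mul_le_mul_right (ENNReal.sum_le_tsum (Finset.range n)) _)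
    rw [Finset.mul_sum]
    refine Finset.sum_le_sum fun k hk => ?_
    rw [mul_left_comm]
    refine mul_le_mul' (ENNReal.div_le_div_right (en_anti (h01 univ)) _)
      ((rj_le hRJ hκ h10 k Ψ hΨm).trans (mul_le_mul_left ?_ _))
    exact (pow_le_pow_left' (le_max_left κ 1) k).trans
      (pow_le_pow_right' (le_max_right κ 1) (Finset.mem_range.1 hk).le)
  · rw [← ENNReal.add_halves (p / 2)]
    refine le_trans ?_ (add_le_add hn hn)
    rw [← ENNReal.tsum_add]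
    refine ENNReal.tsum_le_tsum fun k => ?_
    have h3 : ∫⁻ S, Ψ S ∂(RJ m₁ (k + n)) ≤ 2 * (κ * M) ^ (k + n) := by
      refine (lintegral_mono hΨ2).trans ?_
      rw [lintegral_const, (hRJ.2.2 E m₁ inferInstance).1]
      exact mul_le_mul_right (pow_le_pow_left' h1 _) _
    refine (mul_le_mul' (ENNReal.div_le_div_right (en_le_one _) _) h3).trans (le_of_eq ?_)
    rw [← two_mul, one_div, div_eq_mul_inv]
    ring

end Pool.Agent.P.MP_d66c6d_pr
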