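import Pool.Agent.P.MP_d66c6d_pr.U.Iface

/-! Step REL of the carpet project. -/

namespace Pool.Agent.P.MP_d66c6d_pr

open MeasureTheory ProbabilityTheory Set Metric Filter Topology
open scoped ENNReal

namespace RelA

theorem symm {c : ℂ} {ρ : ℝ} {p p' : TP} (h : Rel c ρ p p') : Rel c ρ p' p := by
  obtain ⟨h1, h2, a, b, ha, hb, h3, h4, h5, h6, h7, h8, h9, h10⟩ := h
  exact ⟨h2, h1, a, b, ha, hb, h4, h3, fun u hu => (h5 u hu).symm, fun u hu => (h6 u hu).symm,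
    h8, h7, h10, h9⟩

theorem trev_rel (hEV : S_EV) {c : ℂ} {ρ : ℝ} {p p' : TP} (h : Rel c ρ p p') :
    Rel c ρ (trev p) (trev p') := by
  obtain ⟨h1, h2, a, b, ha, hb, h3, h4, h5, h6, h7, h8, ⟨u, hu, h9⟩, ⟨u', hu', h10⟩⟩ := h
  have e := (hEV.1 p h1).2.2.2.2.2.1
  have e' := (hEV.1 p' h2).2.2.2.2.2.1
  have t1 : (trev p).1 = p.1 := rfl
  have t2 : (trev p').1 = p'.1 := rfl
  refine ⟨h1, h2, b, a, hb, ha, by rw [t1]; linarith, by rw [t2]; linarith, ?_, ?_, ?_, ?_, ?_, ?_⟩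
  · intro v hv
    rw [e, e']
    exact h6 v hv
  · intro v hv
    rw [e, e', t1, t2, sub_sub_cancel, sub_sub_cancel]
    exact h5 v hv
  · intro v hv
    rw [t1] at hv
    rw [e]
    exact h7 _ ⟨by linarith [hv.2], by linarith [hv.1]⟩
  · intro v hv
    rw [t2] at hv
    rw [e']
    exact h8 _ ⟨by linarith [hv.2], by linarith [hv.1]⟩
  · refine ⟨p.1 - u, ?_, ?_⟩
    · rw [t1]
      exact ⟨by linarith [hu.2], by linarith [hu.1]⟩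
    · rwa [e, sub_sub_cancel]
  · refine ⟨p'.1 - u', ?_, ?_⟩
    · rw [t2]
      exact ⟨by linarith [hu'.2], by linarith [hu'.1]⟩
    · rwa [e', sub_sub_cancel]

theorem start (hEV : S_EV) {c : ℂ} {ρ : ℝ} {p p' : TP} (h : Rel c ρ p p') :
    p.2 0 = p'.2 0 := by
  obtain ⟨h1, h2, a, b, ha, hb, h3, h4, h5, -⟩ := h
  rw [← (hEV.1 p h1).1, ← (hEV.1 p' h2).1]
  exact h5 0 ⟨le_rfl, ha⟩

theorem stop (hEV : S_EV) {c : ℂ} {ρ : ℝ} {p p' : TP} (h : Rel c ρ p p') :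
    p.2 1 = p'.2 1 := by
  have h0 := start hEV (trev_rel hEV h)
  rwa [(hEV.1 p h.1).2.2.2.2.2.2.2.2.1, (hEV.1 p' h.2.1).2.2.2.2.2.2.2.2.1] at h0

theorem pre (hEV : S_EV) {c : ℂ} {ρ : ℝ} {p q q' : TP} (hp : 0 < p.1) (hpq : p.2 1 = q.2 0)
    (h : Rel c ρ q q') : Rel c ρ (tcat p q) (tcat p q') := by
  have hpq' : p.2 1 = q'.2 0 := hpq.trans (start hEV h)
  obtain ⟨h1, h2, a, b, ha, hb, h3, h4, h5, h6, h7, h8, ⟨u, hu, h9⟩, ⟨u', hu', h10⟩⟩ := h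
  obtain ⟨-, -, e1, e2, -⟩ := hEV.2.2.1 p q hp h1 hpq
  obtain ⟨-, -, e1', e2', -⟩ := hEV.2.2.1 p q' hp h2 hpq'
  have t1 : (tcat p q).1 = p.1 + q.1 := rfl
  have t2 : (tcat p q').1 = p.1 + q'.1 := rfl
  have f2 : ∀ v, p.1 ≤ v → v ≤ p.1 + q.1 → ev (tcat p q) v = ev q (v - p.1) := fun v k1 k2 => by
    rw [← e2 (v - p.1) ⟨by linarith, by linarith⟩, add_sub_cancel]
  have f2' : ∀ v, p.1 ≤ v → v ≤ p.1 + q'.1 → ev (tcat p q') v = ev q' (v - p.1) :=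
    fun v k1 k2 => by rw [← e2' (v - p.1) ⟨by linarith, by linarith⟩, add_sub_cancel]
  refine ⟨by rw [t1]; linarith, by rw [t2]; linarith, p.1 + a, b, by linarith, hb,
    by rw [t1]; linarith, by rw [t2]; linarith, ?_, ?_, ?_, ?_, ?_, ?_⟩
  · intro v hv
    rcases le_total v p.1 with k | k
    · rw [e1 v ⟨hv.1, k⟩, e1' v ⟨hv.1, k⟩]
    · rw [f2 v k (by linarith [hv.2]), f2' v k (by linarith [hv.2])]
      exact h5 _ ⟨by linarith, by linarith [hv.2]⟩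
  · intro v hv
    rw [t1, t2, add_sub_assoc, add_sub_assoc, e2 _ ⟨by linarith [hv.2], by linarith [hv.1]⟩,
      e2' _ ⟨by linarith [hv.2], by linarith [hv.1]⟩]
    exact h6 v hv
  · intro v hv
    rw [t1] at hv
    rw [f2 v (by linarith [hv.1]) (by linarith [hv.2])]
    exact h7 _ ⟨by linarith [hv.1], by linarith [hv.2]⟩
  · intro v hv
    rw [t2] at hv
    rw [f2' v (by linarith [hv.1]) (by linarith [hv.2])]
    exact h8 _ ⟨by linarith [hv.1], by linarith [hv.2]⟩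
  · refine ⟨p.1 + u, ?_, ?_⟩
    · rw [t1]
      exact ⟨by linarith [hu.1], by linarith [hu.2]⟩
    · rwa [e2 u ⟨by linarith [hu.1], by linarith [hu.2]⟩]
  · refine ⟨p.1 + u', ?_, ?_⟩
    · rw [t2]
      exact ⟨by linarith [hu'.1], by linarith [hu'.2]⟩
    · rwa [e2' u' ⟨by linarith [hu'.1], by linarith [hu'.2]⟩]

theorem base_half (hEV : S_EV) {c : ℂ} {ρ : ℝ} {β ω : TP} (h1 : 0 < β.1) (h3 : 0 < ω.1)
    (hβ : β ∈ Inn c ρ) (e : β.2 1 = ω.2 0) :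
    ev (tcat β ω) 0 = β.2 0 ∧
    (∀ u ∈ Icc 0 ω.1, ev (tcat β ω) ((tcat β ω).1 - u) = ev ω (ω.1 - u)) ∧
    (∀ u ∈ Icc 0 ((tcat β ω).1 - ω.1), ev (tcat β ω) u ∈ closedBall c (9 * ρ)) ∧
    ∃ u ∈ Icc 0 ((tcat β ω).1 - ω.1), ev (tcat β ω) u ∈ ball c (3 * ρ) := by
  obtain ⟨-, -, e1, e2, -⟩ := hEV.2.2.1 β ω h1 h3 e
  obtain ⟨k0, -, k1, -⟩ := hEV.1 β h1
  have t1 : (tcat β ω).1 = β.1 + ω.1 := rfl
  obtain ⟨m1, z, m2, m3⟩ := hβ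
  rw [k1] at m1 m2
  refine ⟨by rw [e1 0 ⟨le_rfl, h1.le⟩, k0], ?_, ?_, ?_⟩
  · intro u hu
    rw [t1, add_sub_assoc, e2 _ ⟨by linarith [hu.2], by linarith [hu.1]⟩]
  · intro u hu
    rw [t1, add_sub_cancel_right] at hu
    rw [e1 u hu]
    exact m1 (mem_image_of_mem _ hu)
  · obtain ⟨u, hu, rfl⟩ := m2
    refine ⟨u, by rwa [t1, add_sub_cancel_right], ?_⟩
    rwa [e1 u hu]

theorem base (hEV : S_EV) {c : ℂ} {ρ : ℝ} {β β' ω : TP} (h1 : 0 < β.1) (h2 : 0 < β'.1)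
    (h3 : 0 < ω.1) (hβ : β ∈ Inn c ρ) (hβ' : β' ∈ Inn c ρ) (e0 : β.2 0 = β'.2 0)
    (e : β.2 1 = ω.2 0) (e' : β'.2 1 = ω.2 0) : Rel c ρ (tcat β ω) (tcat β' ω) := by
  obtain ⟨a1, a2, a3, a4⟩ := base_half hEV h1 h3 hβ e
  obtain ⟨b1, b2, b3, b4⟩ := base_half hEV h2 h3 hβ' e'
  have t1 : (tcat β ω).1 = β.1 + ω.1 := rfl
  have t2 : (tcat β' ω).1 = β'.1 + ω.1 := rfl
  refine ⟨by rw [t1]; linarith, by rw [t2]; linarith, 0, ω.1, le_rfl, h3.le,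
    by rw [t1]; linarith, by rw [t2]; linarith, ?_, ?_, a3, b3, a4, b4⟩
  · intro u hu
    rw [le_antisymm hu.2 hu.1, a1, b1, e0]
  · intro u hu
    rw [a2 u hu, b2 u hu]

/-- Real times and unit times are ordered alike. -/
theorem time_mem {t : ℝ} (ht : 0 < t) (s : unitInterval) : (s : ℝ) * t ∈ Icc 0 t :=
  ⟨mul_nonneg s.2.1 ht.le, mul_le_of_le_one_left ht.le s.2.2⟩

theorem time_le {t : ℝ} (ht : 0 < t) {s s' : unitInterval} :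
    s ≤ s' ↔ (s : ℝ) * t ≤ (s' : ℝ) * t := by
  rw [mul_le_mul_iff_left₀ ht, Subtype.coe_le_coe]

theorem adm_iff (hEV : S_EV) {c : ℂ} {ρ : ℝ} {p : TP} (hp : 0 < p.1) :
    AdmS c ρ p.2 ↔ ∀ w ∈ Icc 0 p.1, (∀ u ∈ Icc 0 w, ev p u ∈ closedBall c (9 * ρ)) →
      ev p w ∉ closedBall c (3 * ρ) := by
  obtain ⟨-, -, -, k1, k2, -⟩ := hEV.1 p hp
  constructor
  · intro h w hw hg
    obtain ⟨s, rfl, e⟩ := k2 w hw
    rw [← e]
    refine h s fun s' hs' => ?_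
    rw [← k1]
    exact hg _ ⟨(time_mem hp s').1, (time_le hp).1 hs'⟩
  · intro h s hg
    rw [← k1]
    refine h _ (time_mem hp s) fun u hu => ?_
    obtain ⟨s', rfl, e⟩ := k2 u ⟨hu.1, hu.2.trans (time_mem hp s).2⟩
    rw [← e]
    exact hg s' ((time_le hp).2 hu.2)

theorem vis_iff (hEV : S_EV) {c : ℂ} {ρ τ : ℝ} {p : TP} (hp : 0 < p.1) :
    Vis c ρ τ p ↔ ∃ w ∈ Icc 0 p.1, w ≤ τ ∧ ev p w ∈ closedBall c (5 * ρ) ∧
      ∀ u ∈ Icc w p.1, ev p u ∈ closedBall c (9 * ρ) := by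
  obtain ⟨-, -, -, k1, k2, -⟩ := hEV.1 p hp
  constructor
  · rintro ⟨s, h1, h2, h3⟩
    refine ⟨_, time_mem hp s, h1, by rwa [k1], fun u hu => ?_⟩
    obtain ⟨s', rfl, e⟩ := k2 u ⟨(time_mem hp s).1.trans hu.1, hu.2⟩
    rw [← e]
    exact h3 s' ((time_le hp).2 hu.1)
  · rintro ⟨w, hw, h1, h2, h3⟩
    obtain ⟨s, rfl, e⟩ := k2 w hw
    refine ⟨s, h1, by rwa [e], fun s' hs' => ?_⟩
    rw [← k1]
    exact h3 _ ⟨(time_le hp).1 hs', (time_mem hp s').2⟩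

theorem vis_trev_iff (hEV : S_EV) {c : ℂ} {ρ δ : ℝ} {p : TP} (hp : 0 < p.1) :
    Vis c ρ (p.1 - δ) (trev p) ↔ ∃ w ∈ Icc 0 p.1, δ ≤ w ∧ ev p w ∈ closedBall c (5 * ρ) ∧
      ∀ u ∈ Icc 0 w, ev p u ∈ closedBall c (9 * ρ) := by
  have e := (hEV.1 p hp).2.2.2.2.2.1
  have t1 : (trev p).1 = p.1 := rfl
  rw [vis_iff hEV (p := trev p) hp, t1]
  constructor
  · rintro ⟨w, hw, h1, h2, h3⟩
    refine ⟨p.1 - w, ⟨by linarith [hw.2], by linarith [hw.1]⟩, by linarith, by rwa [← e],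
      fun u hu => ?_⟩
    have := h3 (p.1 - u) ⟨by linarith [hu.2], by linarith [hu.1]⟩
    rwa [e, sub_sub_cancel] at this
  · rintro ⟨w, hw, h1, h2, h3⟩
    refine ⟨p.1 - w, ⟨by linarith [hw.2], by linarith [hw.1]⟩, by linarith,
      by rwa [e, sub_sub_cancel], fun u hu => ?_⟩
    rw [e]
    exact h3 _ ⟨by linarith [hu.2], by linarith [hu.1]⟩

theorem fast_iff (hEV : S_EV) {ρ τ : ℝ} {p : TP} (hp : 0 < p.1) :
    p ∈ fast ρ τ ↔ ∃ w ∈ Icc 0 p.1, w ≤ τ ∧ ρ / 2 ≤ dist (ev p w) (p.2 0) := by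
  obtain ⟨-, -, -, k1, k2, -⟩ := hEV.1 p hp
  constructor
  · rintro ⟨s, h1, h2⟩
    exact ⟨_, time_mem hp s, h1, by rwa [k1]⟩
  · rintro ⟨w, hw, h1, h2⟩
    obtain ⟨s, rfl, e⟩ := k2 w hw
    exact ⟨s, h1, by rwa [e]⟩

/-- An admissible path leaves the big disc before the replaced strand. -/
theorem exit (hEV : S_EV) {c : ℂ} {ρ : ℝ} {p p' : TP} (h : Rel c ρ p p')
    (hA : AdmS c ρ p.2) : ∃ v : ℝ, 0 ≤ v ∧ v ≤ p.1 ∧ v ≤ p'.1 ∧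
      (∀ u ∈ Icc 0 v, ev p u = ev p' u) ∧ ev p v ∉ closedBall c (9 * ρ) := by
  obtain ⟨h1, h2, a, b, ha, hb, h3, h4, h5, h6, h7, h8, ⟨u, hu, h9⟩, -⟩ := h
  rw [adm_iff hEV h1] at hA
  by_contra hc
  push Not at hc
  refine hA u ⟨by linarith [hu.1], by linarith [hu.2]⟩ (fun v hv => ?_) (ball_subset_closedBall h9)
  rcases le_total v a with k | k
  · exact hc v hv.1 (by linarith) (by linarith) fun w hw => h5 w ⟨hw.1, hw.2.trans k⟩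
  · exact h7 v ⟨k, hv.2.trans hu.2⟩

theorem good {e e' : ℝ → ℂ} {B : Set ℂ} {v w : ℝ} (hv : 0 ≤ v)
    (h : ∀ u ∈ Icc 0 v, e u = e' u) (hx : e v ∉ B) (hg : ∀ u ∈ Icc 0 w, e u ∈ B) :
    w ≤ v ∧ ∀ u ∈ Icc 0 w, e' u ∈ B := by
  have k : w ≤ v := by
    by_contra k
    exact hx (hg v ⟨hv, (not_le.1 k).le⟩)
  refine ⟨k, fun u hu => ?_⟩
  rw [← h u ⟨hu.1, hu.2.trans k⟩]
  exact hg u hu

theorem cutB_rel (hEV : S_EV) {c : ℂ} {ρ δ : ℝ} {p p' : TP} (h : Rel c ρ p p')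
    (hp : p ∈ cutB c ρ δ) : p' ∈ cutB c ρ δ := by
  obtain ⟨hA, hV, hN, hS⟩ := hp
  obtain ⟨v, v0, v1, v2, hv, hx⟩ := exit hEV h hA
  have hv' : ∀ u ∈ Icc 0 v, ev p' u = ev p u := fun u hu => (hv u hu).symm
  have hx' : ev p' v ∉ closedBall c (9 * ρ) := by rwa [hv' v ⟨v0, le_rfl⟩]
  have h1 := h.1
  have h2 := h.2.1
  refine ⟨?_, ?_, ?_, ?_⟩
  · rw [adm_iff hEV h1] at hA
    rw [adm_iff hEV h2]
    intro w hw hg
    obtain ⟨k1, k2⟩ := good v0 hv' hx' hg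
    rw [hv' w ⟨hw.1, k1⟩]
    exact hA w ⟨hw.1, k1.trans v1⟩ k2
  · rw [← sub_zero p.1, vis_trev_iff hEV h1] at hV
    rw [← sub_zero p'.1, vis_trev_iff hEV h2]
    obtain ⟨w, hw, m1, m2, m3⟩ := hV
    obtain ⟨k1, k2⟩ := good v0 hv hx m3
    exact ⟨w, ⟨hw.1, k1.trans v2⟩, m1, by rwa [hv' w ⟨hw.1, k1⟩], k2⟩
  · rw [vis_trev_iff hEV h1] at hN
    rw [vis_trev_iff hEV h2]
    rintro ⟨w, hw, m1, m2, m3⟩
    obtain ⟨k1, k2⟩ := good v0 hv' hx' m3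
    exact hN ⟨w, ⟨hw.1, k1.trans v1⟩, m1, by rwa [hv w ⟨hw.1, k1⟩], k2⟩
  · rwa [← start hEV h]

theorem range_sub (hEV : S_EV) {c : ℂ} {ρ : ℝ} (hρ : 0 < ρ) {p p' : TP} (h : Rel c ρ p p') :
    range p.2 \ ball c (10 * ρ) ⊆ range p'.2 \ ball c (10 * ρ) := by
  obtain ⟨h1, h2, a, b, ha, hb, h3, h4, h5, h6, h7, -⟩ := h
  rw [(hEV.1 p h1).2.2.1, (hEV.1 p' h2).2.2.1]
  rintro z ⟨⟨u, hu, rfl⟩, hz⟩
  refine ⟨?_, hz⟩
  rcases le_total u a with k | k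
  · exact ⟨u, ⟨hu.1, by linarith⟩, (h5 u ⟨hu.1, k⟩).symm⟩
  rcases le_total u (p.1 - b) with k' | k'
  · exact absurd (closedBall_subset_ball (by linarith) (h7 u ⟨k, k'⟩)) hz
  · refine ⟨p'.1 - (p.1 - u), ⟨by linarith, by linarith [hu.2]⟩, ?_⟩
    rw [← h6 _ ⟨by linarith [hu.2], by linarith⟩, sub_sub_cancel]

theorem refl_int (f : ℝ → ℝ≥0∞) (t b : ℝ) :
    ∫⁻ u in Ioo (t - b) t, f u = ∫⁻ u in Ioo 0 b, f (t - u) := by
  rw [← lintegral_indicator measurableSet_Ioo, ← lintegral_indicator measurableSet_Ioo,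
    ← lintegral_sub_left_eq_self _ t]
  refine lintegral_congr fun u => ?_
  by_cases hu : u ∈ Ioo 0 b
  · rw [indicator_of_mem hu, indicator_of_mem (show t - u ∈ Ioo (t - b) t from
      ⟨by linarith [hu.2], by linarith [hu.1]⟩)]
  · rw [indicator_of_notMem hu, indicator_of_notMem fun k : t - u ∈ Ioo (t - b) t =>
      hu ⟨by linarith [k.2], by linarith [k.1]⟩]

theorem occ_le (hEV : S_EV) {c : ℂ} {ρ : ℝ} {p p' : TP} (h : Rel c ρ p p') :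
    occ ((closedBall c (9 * ρ))ᶜ.indicator 1) p ≤
      occ ((closedBall c (9 * ρ))ᶜ.indicator 1) p' := by
  obtain ⟨h1, h2, a, b, ha, hb, h3, h4, h5, h6, h7, -⟩ := h
  set V : ℂ → ℝ≥0∞ := (closedBall c (9 * ρ))ᶜ.indicator 1 with hV
  have mV : Measurable V := measurable_one.indicator measurableSet_closedBall.compl
  rw [hEV.2.2.2 V mV p h1, hEV.2.2.2 V mV p' h2]
  have s1 : Ioo (0 : ℝ) p.1 ⊆ Ioo 0 a ∪ (Icc a (p.1 - b) ∪ Ioo (p.1 - b) p.1) := by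
    intro u hu
    rcases lt_or_ge u a with k | k
    · exact Or.inl ⟨hu.1, k⟩
    rcases le_or_gt u (p.1 - b) with k' | k'
    · exact Or.inr (Or.inl ⟨k, k'⟩)
    · exact Or.inr (Or.inr ⟨k', hu.2⟩)
  have s2 : Ioo 0 a ∪ Ioo (p'.1 - b) p'.1 ⊆ Ioo (0 : ℝ) p'.1 := by
    rintro u (hu | hu)
    · exact ⟨hu.1, by linarith [hu.2]⟩
    · exact ⟨by linarith [hu.1], hu.2⟩
  have d2 : Disjoint (Ioo 0 a) (Ioo (p'.1 - b) p'.1) :=
    disjoint_left.2 fun u k k' => by linarith [k.2, k'.1]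
  have z : ∫⁻ u in Icc a (p.1 - b), V (ev p u) = 0 := by
    rw [setLIntegral_congr_fun measurableSet_Icc (g := fun _ => 0), lintegral_zero]
    intro u hu
    exact indicator_of_notMem (notMem_compl_iff.2 (h7 u hu)) _
  calc ∫⁻ u in Ioo (0 : ℝ) p.1, V (ev p u)
      ≤ ∫⁻ u in Ioo 0 a ∪ (Icc a (p.1 - b) ∪ Ioo (p.1 - b) p.1), V (ev p u) :=
        lintegral_mono_set s1
    _ ≤ (∫⁻ u in Ioo 0 a, V (ev p u)) + ((∫⁻ u in Icc a (p.1 - b), V (ev p u)) +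
          ∫⁻ u in Ioo (p.1 - b) p.1, V (ev p u)) :=
        (lintegral_union_le _ _ _).trans (add_le_add le_rfl (lintegral_union_le _ _ _))
    _ = (∫⁻ u in Ioo 0 a, V (ev p' u)) + ∫⁻ u in Ioo (p'.1 - b) p'.1, V (ev p' u) := by
        rw [z, zero_add, refl_int (fun u => V (ev p u)), refl_int (fun u => V (ev p' u))]
        congr 1
        · refine setLIntegral_congr_fun measurableSet_Ioo fun u hu => ?_
          simp only [h5 u (Ioo_subset_Icc_self hu)]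
        · refine setLIntegral_congr_fun measurableSet_Ioo fun u hu => ?_
          simp only [h6 u (Ioo_subset_Icc_self hu)]
    _ = ∫⁻ u in Ioo 0 a ∪ Ioo (p'.1 - b) p'.1, V (ev p' u) :=
        (lintegral_union measurableSet_Ioo d2).symm
    _ ≤ _ := lintegral_mono_set s2

theorem rset_rel (hEV : S_EV) {c c₀ : ℂ} {ρ ρ₀ r₀ : ℝ} (hρ : 0 < ρ) {p p' : TP}
    (h : Rel c ρ p p') (h0 : 0 < ρ₀) (hr : r₀ ≤ 3 * ρ₀) (hb : ball c (10 * ρ) ⊆ ball c₀ r₀)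
    (hp : p ∈ rset c₀ ρ₀ r₀) : p' ∈ rset c₀ ρ₀ r₀ := by
  obtain ⟨k1, k2, k3, -⟩ := hp
  refine ⟨by rwa [← start hEV h], by rwa [← stop hEV h], fun z hz => ?_, ?_⟩
  · by_cases k : z ∈ ball c (10 * ρ)
    · exact ball_subset_closedBall (ball_subset_ball (by linarith) (hb k))
    · exact k3 (range_sub hEV hρ (symm h) ⟨hz, k⟩).1
  · obtain ⟨h1, h2, a, b, ha, hb', h3, h4, -, -, -, -, -, u, hu, h10⟩ := h
    refine ⟨ev p' u, ?_, hb (ball_subset_ball (by linarith) h10)⟩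
    rw [(hEV.1 p' h2).2.2.1]
    exact mem_image_of_mem _ ⟨by linarith [hu.1], by linarith [hu.2]⟩

theorem fast_rel (hEV : S_EV) {c c₀ : ℂ} {ρ ρ₀ r₀ τ : ℝ} (hρ : 0 < ρ) {p p' : TP}
    (h : Rel c ρ p p') (hr : r₀ ≤ 3 * ρ₀) (hb : ball c (10 * ρ) ⊆ ball c₀ r₀)
    (hs : p.2 0 ∈ An6 c₀ ρ₀) (hp : p ∈ fast ρ₀ τ) : p' ∈ fast ρ₀ τ := by
  have e := start hEV h
  obtain ⟨h1, h2, a, b, ha, hb', h3, h4, h5, -, -, h8, -⟩ := h
  rw [fast_iff hEV h1] at hp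
  rw [fast_iff hEV h2, ← e]
  obtain ⟨w, hw, k1, k2⟩ := hp
  rcases le_total w a with k | k
  · exact ⟨w, ⟨hw.1, by linarith⟩, k1, by rwa [← h5 w ⟨hw.1, k⟩]⟩
  · refine ⟨a, ⟨ha, by linarith⟩, k.trans k1, ?_⟩
    have m1 := mem_ball.1 (hb (closedBall_subset_ball (by linarith) (h8 a ⟨le_rfl, by linarith⟩)))
    have m2 := hs.1
    have m3 := dist_triangle_left (p.2 0) c₀ (ev p' a)
    linarith

theorem wt_rel (hEV : S_EV) {c c₀ : ℂ} {ρ ρ₀ r₀ : ℝ} (hρ : 0 < ρ) {p p' : TP}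
    (h : Rel c ρ p p') (hr : r₀ ≤ 3 * ρ₀) (hb : ball c (10 * ρ) ⊆ ball c₀ r₀)
    (hs : p.2 0 ∈ An6 c₀ ρ₀) : Wt ρ₀ p = Wt ρ₀ p' := by
  unfold Wt
  congr 1
  refine tsum_congr fun k => ?_
  congr 1
  by_cases m : p ∈ fast ρ₀ (ρ₀ ^ 2 / 2 ^ k)
  · rw [indicator_of_mem m, indicator_of_mem (fast_rel hEV hρ h hr hb hs m)]
    rfl
  · rw [indicator_of_notMem m, indicator_of_notMem fun m' =>
      m (fast_rel hEV hρ (symm h) hr hb (by rwa [← start hEV h]) m')]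

theorem wr_rel (hEV : S_EV) {c c₀ : ℂ} {ρ ρ₀ r₀ : ℝ} (hρ : 0 < ρ) {p p' : TP}
    (h : Rel c ρ p p') (h0 : 0 < ρ₀) (hr : r₀ ≤ 3 * ρ₀) (hb : ball c (10 * ρ) ⊆ ball c₀ r₀) :
    wr c₀ ρ₀ r₀ p = wr c₀ ρ₀ r₀ p' := by
  unfold wr
  by_cases m : p ∈ rset c₀ ρ₀ r₀
  · rw [indicator_of_mem m, indicator_of_mem (rset_rel hEV hρ h h0 hr hb m),
      wt_rel hEV hρ h hr hb m.1, wt_rel hEV hρ (trev_rel hEV h) hr hb ?_]
    rw [(hEV.1 p h.1).2.2.2.2.2.2.2.2.1]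
    exact m.2.1
  · rw [indicator_of_notMem m, indicator_of_notMem fun m' =>
      m (rset_rel hEV hρ (symm h) h0 hr hb m')]

end RelA

theorem p_REL (hEV : S_EV) :
    S_REL := by
  intro c ρ hρ
  refine ⟨fun _ _ => RelA.symm, fun p q q' hp e h => RelA.pre hEV hp e h,
    fun β β' ω h1 h2 h3 k1 k2 e0 e e' => RelA.base hEV h1 h2 h3 k1 k2 e0 e e',
    fun p p' δ h hp => RelA.cutB_rel hEV h hp, fun p p' h => ⟨RelA.start hEV h, RelA.stop hEV h,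
      (RelA.range_sub hEV hρ h).antisymm (RelA.range_sub hEV hρ (RelA.symm h)),
      (RelA.occ_le hEV h).antisymm (RelA.occ_le hEV (RelA.symm h))⟩,
    fun p p' c₀ ρ₀ r₀ h h0 hr hb => RelA.wr_rel hEV hρ h h0 hr hb⟩

end Pool.Agent.P.MP_d66c6d_pr
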