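import Pool.Agent.P.MP_d66c6d_pr.U.Iface
import Pool.Agent.P.MP_d66c6d_pr.C.Iface
import Pool.Agent.P.MP_d66c6d_pr.B.Iface

/-! Step RHO of the carpet project. -/

namespace Pool.Agent.P.MP_d66c6d_pr

open MeasureTheory ProbabilityTheory Set Metric Filter Topology
open scoped ENNReal

namespace RhoA

/-- Paths in the disc of radius ten. -/
def S : Set TP := {p | range p.2 ⊆ ball 0 10}

theorem mS : MeasurableSet S := measurableSet_rangeSub isOpen_ball

/-- Paths that leave the disc of radius one half. -/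
def E (x : ℂ) : Set Br := {γ | ¬ range γ ⊆ ball x (1 / 2)}

theorem mE (x : ℂ) : MeasurableSet (E x) := (isOpen_rangeSub isOpen_ball).measurableSet.compl

theorem gg (ν : Measure Br) (z y : ℂ) :
    GG ν (ball 0 10) 0 z y = ∫⁻ q, S.indicator 1 q ∂grM ν z y :=
  lintegral_congr fun p => wt_zero _ p

theorem short (hBM : S_BM) {ν : Measure Br} (hν : IsBridge ν) {τ : ℝ} (h1 : τ ≤ 1) (x : ℂ)
    {b : ℝ≥0∞} (hb : ∀ t ∈ Ioc 0 τ, bmM ν t x (E x) ≤ b) :
    ∫⁻ y, ∫⁻ p, (Iic τ ×ˢ E x).indicator 1 p ∂grM ν x y ≤ b := by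
  have := hν.prob
  have hm : Measurable ((Iic τ ×ˢ E x).indicator (1 : TP → ℝ≥0∞)) :=
    measurable_one.indicator (measurableSet_Iic.prod (mE x))
  simp only [lintegral_grM ν x _ hm]
  rw [lintegral_lintegral_swap]
  · calc _ ≤ ∫⁻ t in Ioi (0 : ℝ), (Iic τ).indicator (fun _ => b) t := by
          refine setLIntegral_mono' measurableSet_Ioi fun t ht => ?_
          rw [← ((hBM ν hν).1 t ht x).2 (fun γ => (Iic τ ×ˢ E x).indicator 1 (t, γ))
            (hm.comp measurable_prodMk_left)]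
          by_cases h : t ∈ Iic τ
          · rw [indicator_of_mem h]
            refine le_trans (le_of_eq ?_) (hb t ⟨ht, h⟩)
            rw [← lintegral_indicator_one (mE x)]
            refine lintegral_congr fun γ => ?_
            by_cases e : γ ∈ E x
            · rw [indicator_of_mem e, indicator_of_mem (mk_mem_prod h e)]
              rfl
            · rw [indicator_of_notMem e, indicator_of_notMem fun e' => e e'.2]
          · simp [indicator, h]
      _ ≤ b := by
          rw [lintegral_indicator measurableSet_Iic, setLIntegral_const,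
            Measure.restrict_apply measurableSet_Iic, inter_comm, Ioi_inter_Iic, Real.volume_Ioc]
          refine mul_le_of_le_one_right' ?_
          simpa using h1
  · refine Measurable.aemeasurable ?_
    exact measurable_brM ν (F := fun (q : ℂ × ℝ) γ => (Iic τ ×ˢ E x).indicator 1 (q.2, γ))
      measurable_snd measurable_const measurable_fst
      (hm.comp ((measurable_snd.comp measurable_fst).prodMk measurable_snd))

theorem long (hMARKR : S_MARKR) (hBM : S_BM) {ν : Measure Br} (hν : IsBridge ν) {τ : ℝ}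
    (h0 : 0 < τ) (x : ℂ) {K : ℝ≥0∞} (hK : ∀ z, ∫⁻ y, GG ν (ball 0 10) 0 z y ≤ K) :
    ∫⁻ y, ∫⁻ p in {p : TP | τ < p.1}, (E x).indicator 1 (hd τ p).2 * S.indicator 1 (tl τ p)
      ∂grM ν x y ≤ bmM ν τ x (E x) * K := by
  have := hν.prob
  have h1 : Measurable ((E x).indicator (1 : Br → ℝ≥0∞)) := measurable_one.indicator (mE x)
  have h2 : Measurable (S.indicator (1 : TP → ℝ≥0∞)) := measurable_one.indicator mS
  have h3 : Measurable fun z => ∫⁻ α, (E x).indicator 1 α ∂brM ν τ x z :=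
    measurable_brM ν (F := fun _ α => (E x).indicator 1 α) measurable_const measurable_const
      measurable_id (h1.comp measurable_snd)
  have h4 : Measurable fun q : ℂ × ℂ => GG ν (ball 0 10) 0 q.2 q.1 :=
    measurable_GG ν isOpen_ball measurable_zero measurable_snd measurable_fst
  have e : ∀ y, ∫⁻ p in {p : TP | τ < p.1},
      (E x).indicator 1 (hd τ p).2 * S.indicator 1 (tl τ p) ∂grM ν x y =
      ∫⁻ z, (∫⁻ α, (E x).indicator 1 α ∂brM ν τ x z) * GG ν (ball 0 10) 0 z y := fun y => by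
    rw [(hMARKR ν hν x y).2.1 τ h0 (fun q => (E x).indicator 1 q.1.2 * S.indicator 1 q.2)
      ((h1.comp (measurable_snd.comp measurable_fst)).mul (h2.comp measurable_snd))]
    refine lintegral_congr fun z => ?_
    simp only [lintegral_const_mul _ h2, ← gg]
    rw [lintegral_mul_const _ h1]
  simp only [e]
  rw [lintegral_lintegral_swap ((h3.comp measurable_snd).mul h4).aemeasurable,
    ← lintegral_indicator_one (mE x), ((hBM ν hν).1 τ h0 x).2 _ h1, ← lintegral_mul_const _ h3]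
  refine lintegral_mono fun z => ?_
  rw [lintegral_const_mul _ (f := fun y => GG ν (ball 0 10) 0 z y)
    (h4.comp (measurable_id.prodMk measurable_const))]
  exact mul_le_mul_right (hK z) _

theorem point (hEV : S_EV) {τ : ℝ} (h0 : 0 < τ) {x : ℂ} {p : TP} (hp : 0 < p.1)
    (hx : p.2 0 = x) :
    (fast 1 τ ∩ S).indicator (1 : TP → ℝ≥0∞) p ≤ (Iic τ ×ˢ E x).indicator 1 p +
      {p : TP | τ < p.1}.indicator
        (fun p => (E x).indicator 1 (hd τ p).2 * S.indicator 1 (tl τ p)) p := by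
  refine indicator_apply_le' (fun ⟨⟨s, hs, hd'⟩, hS⟩ => ?_) fun _ => zero_le
  rw [hx] at hd'
  rcases le_or_gt p.1 τ with h | h
  · refine le_add_right (le_of_eq ?_)
    rw [indicator_of_mem]
    exact ⟨h, fun e => (mem_ball.1 (e ⟨s, rfl⟩)).not_ge hd'⟩
  · refine le_add_left (le_of_eq ?_)
    obtain ⟨-, -, e1, e2, -⟩ := hEV.1 p hp
    obtain ⟨-, -, e3, e4, -⟩ := hEV.2.1 p τ h0 h
    have a1 : (hd τ p).2 ∈ E x := fun e => by
      rw [e3] at e
      exact (mem_ball.1 (e ⟨_, ⟨mul_nonneg s.2.1 hp.le, hs⟩, e2 s⟩)).not_ge hd'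
    have a2 : tl τ p ∈ S := by
      refine Subset.trans (?_ : range (tl τ p).2 ⊆ range p.2) hS
      rw [e4, e1]
      exact image_mono (Icc_subset_Icc_left h0.le)
    rw [indicator_of_mem (show p ∈ {p : TP | τ < p.1} from h), indicator_of_mem a1,
      indicator_of_mem a2]
    simp

theorem gr_le (hREV : S_REV) {ν : Measure Br} (hν : IsBridge ν) {T : Set TP}
    (hT : MeasurableSet T) (h : T ⊆ S) {b : ℝ≥0∞}
    (hb : ∀ x, ∫⁻ y, ∫⁻ p, T.indicator 1 p ∂grM ν x y ≤ b) :
    GR ν T ≤ b * volume (ball (0 : ℂ) 10) := by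
  have := hν.prob
  rw [← lintegral_indicator_one hT, lintegral_GR ν (measurable_one.indicator hT),
    ← setLIntegral_const, ← lintegral_indicator measurableSet_ball]
  refine lintegral_mono fun x => ?_
  by_cases hx : x ∈ ball (0 : ℂ) 10
  · rw [indicator_of_mem hx]
    exact hb x
  · refine le_trans (le_of_eq ?_) zero_le
    refine lintegral_eq_zero_of_ae_eq_zero (ae_of_all _ fun y => ?_)
    refine lintegral_eq_zero_of_ae_eq_zero ?_
    filter_upwards [(hREV.2 ν hν).2.2.2.2.2.1 x y] with p hp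
    exact indicator_of_notMem (fun e => hx (hp.2.1 ▸ h e ⟨0, rfl⟩)) _

theorem exp_le {c C : ℝ} (hc : 0 < c) (hC : 0 < C) (k : ℕ) {t : ℝ} (h0 : 0 < t)
    (h1 : t ≤ 1 ^ 2 / 2 ^ k) :
    ENNReal.ofReal (C * Real.exp (-c * (1 / 2) ^ 2 / t)) ≤
      ENNReal.ofReal (C * (120 / (c / 4) ^ 5)) * (32 ^ k)⁻¹ := by
  have h2 : c / 4 * 2 ^ k ≤ c * (1 / 2) ^ 2 / t := by
    rw [le_div_iff₀ h0]
    rw [le_div_iff₀ (by positivity)] at h1
    nlinarith
  have h3 := (Real.pow_div_factorial_le_exp _ (by positivity : 0 ≤ c / 4 * 2 ^ k) 5).trans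
    (Real.exp_le_exp.2 h2)
  have h4 : Real.exp (-c * (1 / 2) ^ 2 / t) ≤ 120 / (c / 4) ^ 5 * (32 ^ k)⁻¹ := by
    rw [neg_mul, neg_div, Real.exp_neg]
    refine (inv_anti₀ (by positivity) h3).trans (le_of_eq ?_)
    rw [mul_pow, ← pow_mul, mul_comm k, pow_mul]
    norm_num [Nat.factorial]
    field_simp
  refine (ENNReal.ofReal_le_ofReal (mul_le_mul_of_nonneg_left h4 hC.le)).trans (le_of_eq ?_)
  rw [← mul_assoc, ENNReal.ofReal_mul (by positivity), ENNReal.ofReal_inv_of_pos (by positivity),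
    ENNReal.ofReal_pow (by norm_num)]
  norm_num

theorem geo : ∑' k : ℕ, (2⁻¹ : ℝ≥0∞) ^ k = 2 := by
  rw [ENNReal.tsum_geometric, ENNReal.one_sub_inv_two, inv_inv]

theorem half (a : ℝ≥0∞) (h0 : a ≠ 0) (h1 : a ≠ ∞) (k : ℕ) :
    a ^ k * ((a * 2) ^ k)⁻¹ = 2⁻¹ ^ k := by
  rw [ENNReal.inv_pow, ← mul_pow, ENNReal.mul_inv (Or.inl h0) (Or.inl h1), ← mul_assoc,
    ENNReal.mul_inv_cancel h0 h1, one_mul]

/-- The dominating series. -/
noncomputable def T (p : TP) : ℝ≥0∞ :=
  ∑' k : ℕ, 16 ^ k * (fast 1 (1 ^ 2 / 2 ^ k) ∩ S).indicator 1 p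

theorem mT (hUM : S_UM) : Measurable T :=
  Measurable.tsum fun _ => (measurable_one.indicator
    (((hUM 0 1).2.2.2.2.2.2.2.2.2.1 _).measurableSet.inter mS)).const_mul _

theorem T_fin (hEV : S_EV) (hUM : S_UM) (hMARKR : S_MARKR) (hFIN : S_FIN) (hBM : S_BM)
    (hREV : S_REV) {ν : Measure Br} (hν : IsBridge ν) :
    GR ν S ≠ ∞ ∧ ∫⁻ p, T p ∂GR ν ≠ ∞ := by
  have := hν.prob
  obtain ⟨K, hK, hb⟩ := hFIN ν hν (ball 0 10) isOpen_ball isBounded_ball
  obtain ⟨c, C, hc, hC, -, hB⟩ := (hBM ν hν).2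
  have hv : volume (ball (0 : ℂ) 10) ≠ ∞ := measure_ball_ne_top
  refine ⟨ne_top_of_le_ne_top (ENNReal.mul_ne_top hK hv) (gr_le hREV hν mS Subset.rfl fun x => ?_),
    ?_⟩
  · simpa only [gg] using hb x
  set M := ENNReal.ofReal (C * (120 / (c / 4) ^ 5)) with hM
  have hm : ∀ k : ℕ, MeasurableSet (fast 1 (1 ^ 2 / 2 ^ k) ∩ S) := fun k =>
    ((hUM 0 1).2.2.2.2.2.2.2.2.2.1 _).measurableSet.inter mS
  have h1 : ∀ k : ℕ, GR ν (fast 1 (1 ^ 2 / 2 ^ k) ∩ S) ≤
      M * (32 ^ k)⁻¹ * (1 + K) * volume (ball (0 : ℂ) 10) := fun k => by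
    have h0 : (0 : ℝ) < 1 ^ 2 / 2 ^ k := by positivity
    have h2 : ∀ x, ∀ t ∈ Ioc (0 : ℝ) (1 ^ 2 / 2 ^ k), bmM ν t x (E x) ≤ M * (32 ^ k)⁻¹ :=
      fun x t ht => (hB t ht.1 _ (by norm_num) x).trans (exp_le hc hC k ht.1 ht.2)
    refine gr_le hREV hν (hm k) inter_subset_right fun x => ?_
    have h3 : Measurable ((Iic ((1 : ℝ) ^ 2 / 2 ^ k) ×ˢ E x).indicator (1 : TP → ℝ≥0∞)) :=
      measurable_one.indicator (measurableSet_Iic.prod (mE x))
    rw [mul_add, mul_one]
    refine le_trans ?_ (add_le_add (short hBM hν ?_ x (h2 x))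
      ((long hMARKR hBM hν h0 x hb).trans (mul_le_mul_left (h2 x _ ⟨h0, le_rfl⟩) K)))
    · rw [← lintegral_add_left (measurable_grM ν (x := fun _ => x) (y := fun y => y)
        measurable_const measurable_id
        (Φ := fun _ p => (Iic ((1 : ℝ) ^ 2 / 2 ^ k) ×ˢ E x).indicator 1 p)
        (h3.comp measurable_snd))]
      refine lintegral_mono fun y => ?_
      rw [← lintegral_indicator (measurableSet_lt measurable_const measurable_fst),
        ← lintegral_add_left h3]
      refine lintegral_mono_ae ?_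
      filter_upwards [(hREV.2 ν hν).2.2.2.2.2.1 x y] with p hp
      exact point hEV h0 hp.1 hp.2.1
    · rw [one_pow, div_le_one (by positivity)]
      exact one_le_pow₀ one_le_two
  unfold T
  rw [lintegral_tsum fun k => ((measurable_one.indicator (hm k)).const_mul _).aemeasurable]
  refine ne_top_of_le_ne_top
    (b := ∑' k : ℕ, M * (1 + K) * volume (ball (0 : ℂ) 10) * 2⁻¹ ^ k) ?_
    (ENNReal.tsum_le_tsum fun k => ?_)
  · rw [ENNReal.tsum_mul_left, geo]
    finiteness
  · rw [lintegral_const_mul _ (measurable_one.indicator (hm k)), lintegral_indicator_one (hm k),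
      ← half 16 (by norm_num) (by norm_num) k]
    refine (mul_le_mul_right (h1 k) _).trans (le_of_eq ?_)
    rw [show (16 * 2 : ℝ≥0∞) = 32 by norm_num]
    ring

theorem wt_le {p : TP} (hp : p ∈ S) {D : ℝ≥0∞} (h1 : 1 ≤ D) (h : T p ≤ D * D) :
    Wt 1 p ≤ 3 * D := by
  rw [show (3 : ℝ≥0∞) = 1 + 2 by norm_num, add_mul, one_mul, ← geo, ← ENNReal.tsum_mul_right]
  refine add_le_add h1 (ENNReal.tsum_le_tsum fun k => ?_)
  by_cases hk : p ∈ fast 1 (1 ^ 2 / 2 ^ k)
  · have h2 := (ENNReal.le_tsum k).trans h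
    rw [indicator_of_mem (mem_inter hk hp), Pi.one_apply, mul_one] at h2
    have h3 : 4 ^ k ≤ D := by
      by_contra h3
      refine (ENNReal.mul_lt_mul (not_le.1 h3) (not_le.1 h3)).not_ge (le_trans (le_of_eq ?_) h2)
      rw [← mul_pow]
      norm_num
    rw [indicator_of_mem hk, Pi.one_apply, mul_one]
    refine le_trans (le_of_eq ?_) (mul_le_mul_right h3 _)
    rw [← mul_pow, show (4 : ℝ≥0∞) = 2 * 2 by norm_num, ← mul_assoc,
      ENNReal.inv_mul_cancel (by norm_num) (by norm_num), one_mul]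
  · rw [indicator_of_notMem hk, mul_zero]
    exact zero_le

/-- The dominating density. -/
noncomputable def f (p : TP) : ℝ≥0∞ := 9 * (S.indicator 1 p + T p + T (trev p))

theorem wr_le (r : ℝ) (p : TP) :
    wr 0 1 r p ≤ {p : TP | (range p.2 ∩ ball 0 r).Nonempty}.indicator f p := by
  refine indicator_apply_le' (fun hp => ?_) fun _ => zero_le
  have h1 : p ∈ S := hp.2.2.1.trans (closedBall_subset_ball (by norm_num))
  have h2 : trev p ∈ S := by
    rintro _ ⟨s, rfl⟩
    exact h1 ⟨_, rfl⟩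
  rw [indicator_of_mem (show p ∈ {p : TP | (range p.2 ∩ ball 0 r).Nonempty} from hp.2.2.2), f,
    indicator_of_mem h1, Pi.one_apply]
  set R := 1 + T p + T (trev p) with hR
  have e : R ^ (1 / 2 : ℝ) * R ^ (1 / 2 : ℝ) = R := by
    rw [← ENNReal.rpow_add_of_nonneg _ _ (by norm_num) (by norm_num)]
    norm_num
  have h3 : 1 ≤ R ^ (1 / 2 : ℝ) :=
    ENNReal.one_le_rpow (le_add_right (le_add_right le_rfl)) (by norm_num)
  have h4 := wt_le h1 h3 (by rw [e]; exact le_add_right (le_add_left le_rfl))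
  have h5 := wt_le h2 h3 (by rw [e]; exact le_add_left le_rfl)
  simp only [inv_one, one_pow, ENNReal.ofReal_one, one_mul]
  refine (mul_le_mul' h4 h5).trans (le_of_eq ?_)
  rw [mul_mul_mul_comm, e]
  norm_num

theorem mH (r : ℝ) : MeasurableSet {p : TP | (range p.2 ∩ ball 0 r).Nonempty} := by
  have h : IsOpen {γ : Br | (range γ ∩ ball 0 r).Nonempty} := by
    have : {γ : Br | (range γ ∩ ball 0 r).Nonempty} =
        ⋃ s : unitInterval, (fun γ : Br => γ s) ⁻¹' ball 0 r := by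
      ext γ
      simp [Set.Nonempty]
    rw [this]
    exact isOpen_iUnion fun s => isOpen_ball.preimage (continuous_eval_const s)
  exact measurable_snd h.measurableSet

theorem gr_rev (hREV : S_REV) {ν : Measure Br} (hν : IsBridge ν) {Φ : TP → ℝ≥0∞}
    (hΦ : Measurable Φ) : ∫⁻ p, Φ (trev p) ∂GR ν = ∫⁻ p, Φ p ∂GR ν := by
  have := hν.prob
  have h1 : Measurable trev := Measurable.trev' measurable_id
  rw [lintegral_GR ν (Φ := fun p => Φ (trev p)) (hΦ.comp h1), lintegral_GR ν hΦ, lintegral_lintegral_swap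
    (f := fun x y => ∫⁻ p, Φ p ∂grM ν x y) (measurable_grM ν measurable_fst measurable_snd
      (Φ := fun _ p => Φ p) (hΦ.comp measurable_snd)).aemeasurable]
  refine lintegral_congr fun x => lintegral_congr fun y => ?_
  rw [← (hREV.2 ν hν).2.2.2.1 x y]
  exact (lintegral_map hΦ h1).symm

end RhoA

open RhoA in
theorem p_RHO (hEV : S_EV) (hUM : S_UM) (hMARKR : S_MARKR) (hSCAL : S_SCAL) (hHIT : S_HIT) (hKK : S_KK) (hFIN : S_FIN) (hBM : S_BM) (hREV : S_REV) :
    S_RHO := by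
  intro ν hν A hA
  have _ := hKK
  obtain ⟨h1, h2⟩ := T_fin hEV hUM hMARKR hFIN hBM hREV hν
  have m1 : Measurable (S.indicator (1 : TP → ℝ≥0∞)) := measurable_one.indicator mS
  have m2 := mT hUM
  have m3 : Measurable fun p => T (trev p) := m2.comp (Measurable.trev' measurable_id)
  set μ := (GR ν).withDensity f with hμ
  have h3 : μ univ ≠ ∞ := by
    rw [hμ, withDensity_apply _ MeasurableSet.univ, Measure.restrict_univ]
    unfold f
    rw [lintegral_const_mul _ ((m1.fun_add m2).fun_add m3), lintegral_add_right _ m3,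
      lintegral_add_left m1, lintegral_indicator_one mS, gr_rev hREV hν m2]
    finiteness
  have h4 : ∀ (c : ℂ) (ρ r : ℝ), 0 < ρ → rho ν A c ρ r univ ≤
      A * μ {p : TP | (range p.2 ∩ ball 0 (r / ρ)).Nonempty} := fun c ρ r hρ => by
    have e := (hSCAL ν hν ρ c (by exact_mod_cast hρ.ne')).2.2.2.2 A 0 1 (r / ρ) one_pos
    rw [mul_zero, zero_add, mul_one, Complex.norm_real, Real.norm_of_nonneg hρ.le,
      mul_div_cancel₀ _ hρ.ne'] at e
    rw [← e, Measure.map_apply (measurable_sc _ _) MeasurableSet.univ, preimage_univ, rho,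
      Measure.smul_apply, smul_eq_mul, withDensity_apply _ MeasurableSet.univ,
      Measure.restrict_univ, hμ, withDensity_apply _ (mH _), ← lintegral_indicator (mH _)]
    exact mul_le_mul_right (lintegral_mono (wr_le _)) _
  refine ⟨fun c ρ r hρ => ne_top_of_le_ne_top (ENNReal.mul_ne_top hA h3)
    ((h4 c ρ r hρ).trans (mul_le_mul_right (measure_mono (subset_univ _)) _)), fun η hη => ?_⟩
  have h5 : ∀ {a b : ℝ}, a ≤ b → {p : TP | (range p.2 ∩ ball 0 a).Nonempty} ⊆
      {p : TP | (range p.2 ∩ ball 0 b).Nonempty} := fun h p hp =>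
    hp.mono (inter_subset_inter_right _ (ball_subset_ball h))
  have h6 := tendsto_measure_iInter_atTop (μ := μ)
    (s := fun n : ℕ => {p : TP | (range p.2 ∩ ball 0 (1 / ((n : ℝ) + 1))).Nonempty})
    (fun n => (mH _).nullMeasurableSet) (fun a b h => h5 (Nat.one_div_le_one_div h))
    ⟨0, ne_top_of_le_ne_top h3 (measure_mono (subset_univ _))⟩
  have h7 : μ (⋂ n : ℕ, {p : TP | (range p.2 ∩ ball 0 (1 / ((n : ℝ) + 1))).Nonempty}) = 0 := by
    refine withDensity_absolutelyContinuous _ _ (measure_mono_null (fun p hp => ?_) (hHIT ν hν 0))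
    refine (isCompact_range p.2.continuous).isClosed.closure_subset
      (Metric.mem_closure_iff.2 fun ε hε => ?_)
    obtain ⟨n, hn⟩ := exists_nat_one_div_lt hε
    obtain ⟨z, hz, hz'⟩ := mem_iInter.1 hp n
    exact ⟨z, hz, (mem_ball'.1 hz').trans hn⟩
  rw [h7] at h6
  have h8 := ENNReal.Tendsto.const_mul h6 (Or.inr hA)
  rw [mul_zero] at h8
  obtain ⟨n, hn⟩ := (h8.eventually (ge_mem_nhds (pos_iff_ne_zero.2 hη))).exists
  refine ⟨n + 1, le_add_of_nonneg_left n.cast_nonneg, fun c ρ r hρ hr => (h4 c ρ r hρ).trans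
    (le_trans (mul_le_mul_right (measure_mono (h5 ?_)) _) hn)⟩
  rwa [div_le_iff₀ hρ, one_div_mul_eq_div]

end Pool.Agent.P.MP_d66c6d_pr
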