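import Pool.Agent.P.MP_d66c6d_pr.U.Iface2
import Pool.Agent.P.MP_d66c6d_pr.S.Surr

/-! Step RJ of the carpet project. -/

namespace Pool.Agent.P.MP_d66c6d_pr

open MeasureTheory ProbabilityTheory Set Metric Filter Topology
open scoped ENNReal

namespace RjA

theorem mem_NDK {c : ℂ} {ρ : ℝ} {K : KC} {P : Set ℂ} (hP : IsPreconnected P)
    (hd : Disjoint P ((K : Set ℂ) ∩ closedBall c (9 * ρ))) (h1 : (P ∩ closedBall c ρ).Nonempty)
    (h2 : ¬ P ⊆ closedBall c (9 * ρ)) : K ∈ NDK c ρ := by
  obtain ⟨z, hz, hzc⟩ := h1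
  obtain ⟨w, hw, hwc⟩ := not_subset.1 h2
  intro h
  have hρ : 0 ≤ ρ := dist_nonneg.trans (mem_closedBall.1 hzc)
  rw [mem_closedBall, not_le] at hwc
  have h3 := fill_conn hP hd hz hw (h hzc)
  have h4 := fill_subset_ball (c := c) (r := dist w c) (by linarith)
    (inter_subset_right.trans (closedBall_subset_ball hwc)) h3
  exact lt_irrefl _ (mem_ball.1 h4)

theorem isOpen_NDK (c : ℂ) (ρ : ℝ) : IsOpen (NDK c ρ) := by
  refine isOpen_iff_mem_nhds.2 fun K hK => ?_
  obtain ⟨z, hz, hzf⟩ := not_subset.1 hK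
  obtain ⟨w, hw, hj⟩ := exists_far (K.isCompact.isClosed.inter isClosed_closedBall) hzf c
    (9 * ρ + 1)
  have hP : IsCompact (range hj.somePath) := isCompact_range hj.somePath.continuous
  have ho : IsOpen (hitK (range hj.somePath ∩ closedBall c (9 * ρ)))ᶜ :=
    (isClosed_hitK (hP.isClosed.inter isClosed_closedBall)).isOpen_compl
  refine mem_of_superset (ho.mem_nhds ?_) fun L hL => ?_
  · rintro ⟨_, h1, ⟨t, rfl⟩, h2⟩
    exact hj.somePath_mem t ⟨h1, h2⟩
  · refine mem_NDK (isPreconnected_range hj.somePath.continuous)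
      (disjoint_left.2 fun u hu h => hL ⟨u, h.1, hu, h.2⟩) ⟨z, ⟨0, hj.somePath.source⟩, hz⟩
      fun h => ?_
    have := mem_closedBall.1 (h ⟨1, hj.somePath.target⟩)
    linarith

variable {E : Type} [MeasurableSpace E] (m : Measure E) [SFinite m]

theorem meas_ins : Measurable fun p : E × Cfg E => insert p.1 p.2 :=
  Measurable.cfgInsert measurable_fst measurable_snd

theorem lint_succ (j : ℕ) {F : Cfg E → ℝ≥0∞} (hF : Measurable F) :
    ∫⁻ T, F T ∂(RJ m (j + 1)) = ∫⁻ x, ∫⁻ T, F (insert x T) ∂(RJ m j) ∂m := by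
  rw [RJ, lintegral_map hF meas_ins]
  exact lintegral_prod _ (hF.comp meas_ins).aemeasurable

theorem mass (j : ℕ) : RJ m j univ = m univ ^ j := by
  induction j with
  | zero => simp [RJ]
  | succ j ih =>
    rw [RJ, Measure.map_apply meas_ins MeasurableSet.univ, preimage_univ, ← univ_prod_univ,
      Measure.prod_prod, ih, pow_succ']

theorem lint_sum {F : Cfg E → ℝ≥0∞} (hF : Measurable F) :
    ∫⁻ T, F T ∂Measure.sum (RJ m) =
      F ∅ + ∫⁻ x, ∫⁻ T, F (insert x T) ∂Measure.sum (RJ m) ∂m := by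
  simp only [lintegral_sum_measure]
  have hm : ∀ j, AEMeasurable (fun x => ∫⁻ T, F (insert x T) ∂(RJ m j)) m := fun j =>
    ((hF.comp meas_ins).lintegral_prod_right' (ν := RJ m j)).aemeasurable
  rw [tsum_eq_zero_add' ENNReal.summable, lintegral_tsum hm]
  congr 1
  · rw [RJ, lintegral_dirac' _ hF]
  · exact tsum_congr fun j => lint_succ m j hF

theorem tail (h : m univ ≤ 2⁻¹) (n : ℕ) {B : Set (Cfg E)} (hB : MeasurableSet B) :
    Measure.sum (RJ m) B ≤ ∑ j ∈ Finset.range n, RJ m j B + 2 * 2⁻¹ ^ n := by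
  rw [Measure.sum_apply _ hB, ← ENNReal.summable.sum_add_tsum_nat_add' (k := n)]
  refine add_le_add_right ?_ _
  calc ∑' j, RJ m (j + n) B ≤ ∑' j : ℕ, (2⁻¹ : ℝ≥0∞) ^ j * 2⁻¹ ^ n :=
        ENNReal.tsum_le_tsum fun j => by
          refine (measure_mono (subset_univ B)).trans ?_
          rw [mass, ← pow_add]
          exact pow_le_pow_left' h _
    _ = 2 * 2⁻¹ ^ n := by
        rw [ENNReal.tsum_mul_right, ENNReal.tsum_geometric, ENNReal.one_sub_inv_two, inv_inv]

theorem eq_pi [IsFiniteMeasure m] (j : ℕ) :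
    RJ m j = (Measure.pi fun _ : Fin j => m).map Cfg.rng := by
  induction j with
  | zero =>
    rw [RJ, Measure.pi_of_empty, Measure.map_dirac' measurable_rng]
    congr 1
    exact Cfg.ext (by simp)
  | succ j ih =>
    have h := (measurePreserving_piFinSuccAbove (fun _ : Fin (j + 1) => m) 0).map_eq
    have e : m.prod ((Measure.pi fun _ : Fin j => m).map Cfg.rng) =
        (m.prod (Measure.pi fun _ : Fin j => m)).map (Prod.map id Cfg.rng) := by
      rw [← Measure.map_prod_map _ _ measurable_id measurable_rng, Measure.map_id]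
    rw [RJ, ih, e, ← h, Measure.map_map (measurable_id.prodMap measurable_rng)
      (MeasurableEquiv.measurable _), Measure.map_map meas_ins
      ((measurable_id.prodMap measurable_rng).comp (MeasurableEquiv.measurable _))]
    congr 1
    funext f
    refine Cfg.ext ?_
    simp only [Function.comp, MeasurableEquiv.piFinSuccAbove_apply, Prod.map, id,
      Cfg.pts_insert, Cfg.pts_rng]
    rw [Fin.range_fin_succ]
    rfl

theorem ae_all {p : E → Prop} (hp : MeasurableSet {x | p x}) (h : ∀ᵐ x ∂m, p x) (j : ℕ) :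
    ∀ᵐ T ∂(RJ m j), ∀ x ∈ T.pts, p x := by
  have hm : MeasurableSet {T : Cfg E | ∀ x ∈ T.pts, p x} := measurableSet_allIn hp
  induction j with
  | zero =>
    rw [RJ, ae_dirac_iff hm]
    simp
  | succ j ih =>
    rw [RJ, ae_map_iff meas_ins.aemeasurable hm]
    refine (Measure.ae_prod_iff_ae_ae (meas_ins hm)).2 ?_
    filter_upwards [h] with x hx
    filter_upwards [ih] with T hT
    rintro y (rfl | hy)
    · exact hx
    · exact hT y hy

theorem map_RJ {F : Type} [MeasurableSpace F] {g : E → F} (hg : Measurable g) (j : ℕ) :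
    (RJ m j).map (Cfg.map g) = RJ (m.map g) j := by
  induction j with
  | zero =>
    rw [RJ, RJ, Measure.map_dirac' (measurable_cfgMap hg)]
    congr 1
    exact Cfg.ext (by simp)
  | succ j ih =>
    rw [RJ, RJ, ← ih, Measure.map_prod_map _ _ hg (measurable_cfgMap hg),
      Measure.map_map (measurable_cfgMap hg) meas_ins,
      Measure.map_map meas_ins (hg.prodMap (measurable_cfgMap hg))]
    congr 1
    funext p
    exact Cfg.ext (by simp [image_insert_eq])

end RjA

theorem p_RJ :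
    S_RJ := by
  refine ⟨fun c ρ => ⟨RjA.isOpen_NDK c ρ, measurableSet_allIn (RjA.isOpen_NDK c ρ).measurableSet⟩,
    fun c ρ K P hP hd h1 h2 => RjA.mem_NDK hP (hd.mono_right inter_subset_left) h1 h2,
    fun E _ m hm => ⟨RjA.mass m, fun j F hF => RjA.lint_succ m j hF, fun F hF => RjA.lint_sum m hF,
      fun h => ⟨?_, fun n B hB => RjA.tail m h n hB⟩, fun _ => RjA.eq_pi m,
      fun p hp h => RjA.ae_all m hp h, fun F _ g hg => RjA.map_RJ m hg⟩⟩
  simpa using RjA.tail m h 0 MeasurableSet.univ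

end Pool.Agent.P.MP_d66c6d_pr
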