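import Pool.Agent.P.MP_d66c6d_pr.U.Iface
import Pool.Agent.P.MP_d66c6d_pr.S.Surr

/-! Step SCAL of the carpet project. -/

namespace Pool.Agent.P.MP_d66c6d_pr

open MeasureTheory ProbabilityTheory Set Metric Filter Topology
open scoped ENNReal

namespace ScalA

theorem sc_apply (a b : ℂ) (p : TP) (s : unitInterval) : (sc a b p).2 s = a * p.2 s + b := rfl

theorem sc_fst (a b : ℂ) (p : TP) : (sc a b p).1 = ‖a‖ ^ 2 * p.1 := rfl

theorem sc_seg {a : ℂ} (ha : a ≠ 0) (b x y : ℂ) (t : ℝ) (g : Br) :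
    sc a b (t, seg x y t g) =
      (‖a‖ ^ 2 * t, seg (a * x + b) (a * y + b) (‖a‖ ^ 2 * t) (rotL (a / ‖a‖) g)) := by
  have hn : (‖a‖ : ℂ) ≠ 0 := by simpa using ha
  refine Prod.ext rfl ?_
  ext s
  simp only [sc_apply, seg_apply, rotL_apply]
  rw [Real.sqrt_mul (sq_nonneg _), Real.sqrt_sq (norm_nonneg _)]
  push_cast
  field_simp
  ring

theorem hk_sc {a : ℂ} (ha : a ≠ 0) (t : ℝ) (w : ℂ) :
    ENNReal.ofReal (‖a‖ ^ 2) * hk (‖a‖ ^ 2 * t) (a * w) = hk t w := by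
  have hn : 0 < ‖a‖ := norm_pos_iff.2 ha
  rw [hk, hk, ← ENNReal.ofReal_mul (sq_nonneg _)]
  congr 1
  have e : -‖a * w‖ ^ 2 / (2 * (‖a‖ ^ 2 * t)) = -‖w‖ ^ 2 / (2 * t) := by
    rw [norm_mul]
    by_cases ht : t = 0
    · simp [ht]
    · field_simp
  rw [e]
  by_cases ht : t = 0
  · simp [ht]
  · field_simp

theorem lint_time {r : ℝ} (hr : 0 < r) {F : ℝ → ℝ≥0∞} (hF : Measurable F) :
    ∫⁻ s in Ioi (0 : ℝ), F s = ENNReal.ofReal r * ∫⁻ t in Ioi (0 : ℝ), F (r * t) := by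
  have hm : Measurable fun t : ℝ => r * t := by fun_prop
  have h1 := Real.smul_map_volume_mul_left hr.ne'
  have hp : (fun t : ℝ => r * t) ⁻¹' Ioi 0 = Ioi 0 := by
    ext t
    simp [hr]
  calc ∫⁻ s in Ioi (0 : ℝ), F s
      = ∫⁻ s in Ioi (0 : ℝ), F s ∂(ENNReal.ofReal |r| • Measure.map (r * ·) volume) := by rw [h1]
    _ = _ := by
      rw [Measure.restrict_smul, lintegral_smul_measure, abs_of_pos hr, smul_eq_mul,
        setLIntegral_map measurableSet_Ioi hF hm, hp]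

theorem lint_aff {a : ℂ} (ha : a ≠ 0) (b : ℂ) {F : ℂ → ℝ≥0∞} (hF : Measurable F) :
    ∫⁻ x, F (a * x + b) = ENNReal.ofReal (‖a‖ ^ 2)⁻¹ * ∫⁻ x, F x := by
  rw [← lintegral_map hF (by fun_prop), vol_map_aff ha, lintegral_smul_measure, smul_eq_mul]

theorem lint_grM {ν : Measure Br} (h : IsBridge ν) {a : ℂ} (ha : a ≠ 0) (b x y : ℂ)
    {Φ : TP → ℝ≥0∞} (hΦ : Measurable Φ) :
    ∫⁻ p, Φ (sc a b p) ∂grM ν x y = ∫⁻ p, Φ p ∂grM ν (a * x + b) (a * y + b) := by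
  have := h.prob
  have hn : 0 < ‖a‖ := norm_pos_iff.2 ha
  have hm : Measurable (rotL (a / ‖a‖)) := (rotL _).continuous.measurable
  have hF : Measurable fun t : ℝ => ∫⁻ γ, Φ (t, γ) ∂brM ν t (a * x + b) (a * y + b) :=
    measurable_brM ν measurable_id measurable_const measurable_const
      (F := fun t γ => Φ (t, γ)) hΦ
  rw [lintegral_grM ν x y (Φ := fun p => Φ (sc a b p)) (hΦ.comp (measurable_sc a b)),
    lintegral_grM ν _ _ hΦ, lint_time (r := ‖a‖ ^ 2) (by positivity) hF,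
    ← lintegral_const_mul' _ _ ENNReal.ofReal_ne_top]
  refine lintegral_congr fun t => ?_
  have e : a * y + b - (a * x + b) = a * (y - x) := by ring
  rw [lintegral_brM ν t x y (F := fun γ => Φ (sc a b (t, γ))) (by fun_prop),
    lintegral_brM ν _ _ _ (F := fun γ => Φ (‖a‖ ^ 2 * t, γ)) (by fun_prop), ← mul_assoc, e,
    hk_sc ha]
  congr 1
  conv_rhs => rw [← h.map_rot (u := a / ‖a‖) (by simp [hn.ne'])]
  rw [lintegral_map (by fun_prop) hm]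
  simp only [sc_seg ha]

theorem lint_GR {ν : Measure Br} (h : IsBridge ν) {a : ℂ} (ha : a ≠ 0) (b : ℂ)
    {Φ : TP → ℝ≥0∞} (hΦ : Measurable Φ) :
    ∫⁻ p, Φ (sc a b p) ∂GR ν = ENNReal.ofReal (‖a‖⁻¹ ^ 4) * ∫⁻ p, Φ p ∂GR ν := by
  have := h.prob
  have hn : 0 < ‖a‖ := norm_pos_iff.2 ha
  have hG : Measurable fun q : ℂ × ℂ => ∫⁻ p, Φ p ∂grM ν q.1 q.2 :=
    measurable_grM ν measurable_fst measurable_snd (Φ := fun _ p => Φ p) (hΦ.comp measurable_snd)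
  rw [lintegral_GR ν (Φ := fun p => Φ (sc a b p)) (hΦ.comp (measurable_sc a b)),
    lintegral_GR ν hΦ]
  simp only [lint_grM h ha b _ _ hΦ]
  have h1 : ∀ x : ℂ, ∫⁻ y, ∫⁻ p, Φ p ∂grM ν x (a * y + b) =
      ENNReal.ofReal (‖a‖ ^ 2)⁻¹ * ∫⁻ y, ∫⁻ p, Φ p ∂grM ν x y := fun x =>
    lint_aff ha b (F := fun y => ∫⁻ p, Φ p ∂grM ν x y)
      (hG.comp (measurable_const.prodMk measurable_id))
  simp only [h1]
  rw [lintegral_const_mul' _ _ ENNReal.ofReal_ne_top,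
    lint_aff ha b (F := fun x => ∫⁻ y, ∫⁻ p, Φ p ∂grM ν x y) hG.lintegral_prod_right',
    ← mul_assoc, ← ENNReal.ofReal_mul (by positivity)]
  congr 2
  field_simp

theorem dist_sc (a b z c : ℂ) : dist (a * z + b) (a * c + b) = ‖a‖ * dist z c := by
  simp [dist_eq_norm, ← mul_sub]

theorem mem_cb {a : ℂ} (ha : a ≠ 0) (b z c : ℂ) (k ρ : ℝ) :
    a * z + b ∈ closedBall (a * c + b) (k * (‖a‖ * ρ)) ↔ z ∈ closedBall c (k * ρ) := by
  rw [mem_closedBall, mem_closedBall, dist_sc, mul_left_comm,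
    mul_le_mul_iff_right₀ (norm_pos_iff.2 ha)]

theorem mem_b {a : ℂ} (ha : a ≠ 0) (b z c : ℂ) (k ρ : ℝ) :
    a * z + b ∈ ball (a * c + b) (k * (‖a‖ * ρ)) ↔ z ∈ ball c (k * ρ) := by
  rw [mem_ball, mem_ball, dist_sc, mul_left_comm, mul_lt_mul_iff_right₀ (norm_pos_iff.2 ha)]

theorem sub_cb {a : ℂ} (ha : a ≠ 0) (b c : ℂ) (k ρ : ℝ) (p : TP) :
    range (sc a b p).2 ⊆ closedBall (a * c + b) (k * (‖a‖ * ρ)) ↔
      range p.2 ⊆ closedBall c (k * ρ) := by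
  simp only [range_subset_iff, sc_apply, mem_cb ha]

theorem hit_b {a : ℂ} (ha : a ≠ 0) (b c : ℂ) (k ρ : ℝ) (p : TP) :
    (range (sc a b p).2 ∩ ball (a * c + b) (k * (‖a‖ * ρ))).Nonempty ↔
      (range p.2 ∩ ball c (k * ρ)).Nonempty := by
  constructor
  · rintro ⟨_, ⟨s, rfl⟩, hs⟩
    exact ⟨_, ⟨s, rfl⟩, (mem_b ha b _ c k ρ).1 hs⟩
  · rintro ⟨_, ⟨s, rfl⟩, hs⟩
    exact ⟨_, ⟨s, rfl⟩, (mem_b ha b _ c k ρ).2 hs⟩

theorem pre_NDs {a : ℂ} (ha : a ≠ 0) (b c : ℂ) (ρ : ℝ) :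
    sc a b ⁻¹' NDs (a * c + b) (‖a‖ * ρ) = NDs c ρ := by
  ext p
  have e : range (sc a b p).2 ∩ closedBall (a * c + b) (9 * (‖a‖ * ρ)) =
      (fun z => a * z + b) '' (range p.2 ∩ closedBall c (9 * ρ)) := by
    ext w
    constructor
    · rintro ⟨⟨s, rfl⟩, hs⟩
      exact ⟨_, ⟨⟨s, rfl⟩, (mem_cb ha b _ c 9 ρ).1 hs⟩, rfl⟩
    · rintro ⟨_, ⟨⟨s, rfl⟩, hs⟩, rfl⟩
      exact ⟨⟨s, rfl⟩, (mem_cb ha b _ c 9 ρ).2 hs⟩
  have hb : ∀ z, a * z + b ∈ closedBall (a * c + b) (‖a‖ * ρ) ↔ z ∈ closedBall c ρ := fun z => by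
    simpa only [one_mul] using mem_cb ha b z c 1 ρ
  simp only [NDs, mem_preimage, mem_ofPred_eq, e]
  refine not_congr ⟨fun h z hz => (fill_aff ha b _ z).1 (h ((hb z).2 hz)), fun h w hw => ?_⟩
  obtain ⟨z, rfl⟩ : ∃ z, w = a * z + b := ⟨(w - b) / a, by field_simp; ring⟩
  exact (fill_aff ha b _ z).2 (h ((hb z).1 hw))

theorem mem_An6 {a : ℂ} (ha : a ≠ 0) (b z c : ℂ) (ρ : ℝ) :
    a * z + b ∈ An6 (a * c + b) (‖a‖ * ρ) ↔ z ∈ An6 c ρ := by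
  have hn : 0 < ‖a‖ := norm_pos_iff.2 ha
  simp only [An6, mem_ofPred_eq, dist_sc]
  rw [mul_left_comm, mul_left_comm (13 / 2 : ℝ), mul_lt_mul_iff_right₀ hn, mul_lt_mul_iff_right₀ hn]

theorem mem_fast {a : ℂ} (ha : a ≠ 0) (b : ℂ) (ρ : ℝ) (k : ℕ) (p : TP) :
    sc a b p ∈ fast (‖a‖ * ρ) ((‖a‖ * ρ) ^ 2 / 2 ^ k) ↔ p ∈ fast ρ (ρ ^ 2 / 2 ^ k) := by
  have hn : 0 < ‖a‖ := norm_pos_iff.2 ha
  simp only [fast, mem_ofPred_eq, sc_apply, sc_fst, dist_sc]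
  refine exists_congr fun s => ?_
  rw [mul_left_comm, mul_pow, mul_div_assoc, mul_div_assoc, mul_le_mul_iff_right₀ hn,
    mul_le_mul_iff_right₀ (by positivity)]

theorem Wt_sc {a : ℂ} (ha : a ≠ 0) (b : ℂ) (ρ : ℝ) (p : TP) :
    Wt (‖a‖ * ρ) (sc a b p) = Wt ρ p := by
  unfold Wt
  congr 2 with k
  by_cases hp : p ∈ fast ρ (ρ ^ 2 / 2 ^ k)
  · rw [indicator_of_mem hp, indicator_of_mem ((mem_fast ha b ρ k p).2 hp)]
    rfl
  · rw [indicator_of_notMem hp, indicator_of_notMem (mt (mem_fast ha b ρ k p).1 hp)]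

theorem trev_sc (a b : ℂ) (p : TP) : trev (sc a b p) = sc a b (trev p) := rfl

theorem wr_sc {a : ℂ} (ha : a ≠ 0) (b c : ℂ) (ρ r : ℝ) (p : TP) :
    wr (a * c + b) (‖a‖ * ρ) (‖a‖ * r) (sc a b p) =
      ENNReal.ofReal (‖a‖⁻¹ ^ 4) * wr c ρ r p := by
  have e : sc a b p ∈ rset (a * c + b) (‖a‖ * ρ) (‖a‖ * r) ↔ p ∈ rset c ρ r := by
    have h1 := hit_b ha b c 1 r p
    rw [one_mul, one_mul] at h1
    simp only [rset, mem_ofPred_eq, sub_cb ha, h1, sc_apply, mem_An6 ha]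
  unfold wr
  by_cases hp : p ∈ rset c ρ r
  · rw [indicator_of_mem hp, indicator_of_mem (e.2 hp), trev_sc, Wt_sc ha, Wt_sc ha, ← mul_assoc,
      ← mul_assoc, ← mul_assoc, ← ENNReal.ofReal_mul (by positivity), mul_inv, mul_pow]
  · rw [indicator_of_notMem hp, indicator_of_notMem (mt e.1 hp), mul_zero]

end ScalA

open ScalA in
theorem p_SCAL (hUM : S_UM) :
    S_SCAL := by
  intro ν h a b ha
  have hn : 0 < ‖a‖ := norm_pos_iff.2 ha
  refine ⟨fun x y => ?_, ?_, ?_, fun c ρ => ⟨?_, pre_NDs ha b c ρ⟩, fun A c ρ r _ => ?_⟩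
  · refine Measure.ext_of_lintegral _ fun Φ hΦ => ?_
    rw [lintegral_map hΦ (measurable_sc a b), lint_grM h ha b x y hΦ]
  · refine Measure.ext_of_lintegral _ fun Φ hΦ => ?_
    rw [lintegral_map hΦ (measurable_sc a b), lint_GR h ha b hΦ, lintegral_smul_measure,
      smul_eq_mul]
  · have e : sc a b ∘ lp = lp ∘ aff a b := funext fun l => sc_seg ha b l.1 l.1 l.2.1 l.2.2
    rw [LM, Measure.map_map (measurable_sc a b) measurable_lp, e,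
      ← Measure.map_map measurable_lp (cont_aff a b).measurable, h.map_aff ha]
  · ext p
    simp only [Inn, mem_preimage, mem_ofPred_eq, sub_cb ha, hit_b ha]
  · have m1 : Measurable (wr c ρ r) := ((hUM c ρ).2.2.2.2.2.2.2.2.2.2.2 r).2
    have m2 : Measurable (wr (a * c + b) (‖a‖ * ρ) (‖a‖ * r)) :=
      ((hUM _ _).2.2.2.2.2.2.2.2.2.2.2 _).2
    have hk0 : ENNReal.ofReal (‖a‖⁻¹ ^ 4) ≠ 0 := by
      rw [Ne, ENNReal.ofReal_eq_zero, not_le]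
      positivity
    refine Measure.ext_of_lintegral _ fun Φ hΦ => ?_
    rw [lintegral_map hΦ (measurable_sc a b), rho, rho, lintegral_smul_measure,
      lintegral_smul_measure,
      lintegral_withDensity_eq_lintegral_mul _ m1 (g := fun p => Φ (sc a b p))
        (hΦ.comp (measurable_sc a b)),
      lintegral_withDensity_eq_lintegral_mul _ m2 hΦ]
    congr 1
    refine (ENNReal.mul_right_inj hk0 ENNReal.ofReal_ne_top).1 ?_
    rw [← lint_GR h ha b (m2.mul hΦ), ← lintegral_const_mul' _ _ ENNReal.ofReal_ne_top]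
    refine lintegral_congr fun p => ?_
    simp only [Pi.mul_apply, wr_sc ha, mul_assoc]

end Pool.Agent.P.MP_d66c6d_pr
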