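import Pool.Agent.P.MP_d66c6d_pr.U.Iface
import Pool.Agent.P.MP_d66c6d_pr.B.Iface

/-! Step SINGLE of the carpet project. -/

namespace Pool.Agent.P.MP_d66c6d_pr

open MeasureTheory ProbabilityTheory Set Metric Filter Topology
open scoped ENNReal

namespace SingleA

/-- Paths that do not enclose the small disc and cross fewer than `n` times. -/
def AA (c : ℂ) (ρ : ℝ) (n : ℕ) : Set TP := NDs c ρ ∩ {p | ¬ Cr c ρ p.2 n 0}

/-- Paths that enter the disc of radius `3ρ`. -/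
def hit (c : ℂ) (ρ : ℝ) : Set TP := {p | (range p.2 ∩ ball c (3 * ρ)).Nonempty}

theorem meas_hit (c : ℂ) (ρ : ℝ) : MeasurableSet (hit c ρ) := by
  have h : IsOpen {γ : Br | (range γ ∩ ball c (3 * ρ)).Nonempty} := by
    have : {γ : Br | (range γ ∩ ball c (3 * ρ)).Nonempty} =
        ⋃ s : unitInterval, (fun γ : Br => γ s) ⁻¹' ball c (3 * ρ) := by
      ext γ
      simp [Set.Nonempty]
    rw [this]
    exact isOpen_iUnion fun s => isOpen_ball.preimage (continuous_eval_const s)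
  exact measurable_snd h.measurableSet

theorem meas_AA (hUM : S_UM) (c : ℂ) (ρ : ℝ) (n : ℕ) : MeasurableSet (AA c ρ n) :=
  (hUM c ρ).2.1.measurableSet.inter
    (measurable_snd ((hUM c ρ).2.2.2.2.2.2.1 n 0).measurableSet.compl)

theorem nds_mono {c : ℂ} {ρ : ℝ} {p q : TP} (h : range q.2 ⊆ range p.2) (hp : p ∈ NDs c ρ) :
    q ∈ NDs c ρ := fun hq => hp (hq.trans (fill_mono (inter_subset_inter_left _ h)))

theorem meas_pcs (p : TP) {F : TP × TP × TP → ℝ≥0∞} (hF : Measurable F) :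
    Measurable fun q : ℝ × ℝ => F (pcs q.1 q.2 p) := by
  have h : Measurable fun q : ℝ × ℝ => pcs q.1 q.2 p :=
    Measurable.pcs' measurable_fst measurable_snd measurable_const
  exact hF.comp h

theorem meas_in (t : ℝ) {f : ℝ × ℝ → ℝ≥0∞} (hf : Measurable f) :
    Measurable fun a : ℝ => ∫⁻ a' in Ioo (0 : ℝ) (t - a), f (a, a') := by
  have hs : MeasurableSet {q : ℝ × ℝ | q.2 ∈ Ioo (0 : ℝ) (t - q.1)} :=
    (measurableSet_lt measurable_const measurable_snd).inter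
      (measurableSet_lt measurable_snd (measurable_const.sub measurable_fst))
  have h := (hf.indicator hs).lintegral_prod_right' (ν := (volume : Measure ℝ))
  have e : ∀ a : ℝ, ∫⁻ a' in Ioo (0 : ℝ) (t - a), f (a, a') =
      ∫⁻ a', {q : ℝ × ℝ | q.2 ∈ Ioo (0 : ℝ) (t - q.1)}.indicator f (a, a') := fun a => by
    rw [← lintegral_indicator measurableSet_Ioo]
    rfl
  simp only [e]
  exact h

theorem cut_pt (hEV : S_EV) {T : Set (TP × TP × TP)} (hT : MeasurableSet T) (Φ : TP → ℝ≥0∞)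
    (p : TP) :
    (∫⁻ a in Ioo (0 : ℝ) p.1, ∫⁻ a' in Ioo (0 : ℝ) (p.1 - a), T.indicator 1 (pcs a a' p)) * Φ p =
      ∫⁻ a in Ioo (0 : ℝ) p.1, ∫⁻ a' in Ioo (0 : ℝ) (p.1 - a),
        T.indicator (fun q => Φ (tcat q.1 (tcat q.2.1 q.2.2))) (pcs a a' p) := by
  have h1 := meas_pcs p (F := T.indicator 1) (measurable_one.indicator hT)
  have h2 : Measurable fun a : ℝ => ∫⁻ a' in Ioo (0 : ℝ) (p.1 - a),
      T.indicator (1 : TP × TP × TP → ℝ≥0∞) (pcs a a' p) := meas_in p.1 h1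
  rw [← lintegral_mul_const _ h2]
  refine setLIntegral_congr_fun measurableSet_Ioo fun a ha => ?_
  have h3 : Measurable fun a' : ℝ => T.indicator (1 : TP × TP × TP → ℝ≥0∞) (pcs a a' p) :=
    (measurable_one.indicator hT).comp
      (Measurable.pcs' measurable_const measurable_id measurable_const :
        Measurable fun a' : ℝ => pcs a a' p)
  rw [← lintegral_mul_const _ h3]
  refine setLIntegral_congr_fun measurableSet_Ioo fun a' ha' => ?_
  have e1 := (hEV.2.1 p a ha.1 ha.2).2.2.2.2.2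
  have e2 := (hEV.2.1 (tl a p) a' ha'.1 ha'.2).2.2.2.2.2
  have e3 : tcat (pcs a a' p).1 (tcat (pcs a a' p).2.1 (pcs a a' p).2.2) = p :=
    (congrArg (tcat (hd a p)) e2).trans e1
  by_cases h : pcs a a' p ∈ T
  · rw [indicator_of_mem h, indicator_of_mem h, e3, Pi.one_apply, one_mul]
  · rw [indicator_of_notMem h, indicator_of_notMem h, zero_mul]

theorem cut_eq (hEV : S_EV) (hUM : S_UM) (hMARKR : S_MARKR) {ν : Measure Br} (hν : IsBridge ν)
    (c : ℂ) (ρ δ : ℝ) (x y : ℂ) {Φ : TP → ℝ≥0∞} (hΦ : Measurable Φ) :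
    ∫⁻ p, wcut c ρ δ p * Φ p ∂grM ν x y =
      ∫⁻ z, ∫⁻ α, ∫⁻ z', ∫⁻ β, ∫⁻ ω,
        (tri c ρ δ).indicator (fun q => Φ (tcat q.1 (tcat q.2.1 q.2.2))) (α, β, ω)
        ∂grM ν z' y ∂grM ν z z' ∂volume ∂grM ν x z := by
  have ht := ((hUM c ρ).2.2.2.2.2.1 δ).2.2.1
  have hm0 : Measurable fun q : TP × TP × TP => tcat q.1 (tcat q.2.1 q.2.2) :=
    Measurable.tcat' measurable_fst (Measurable.tcat' measurable_snd.fst measurable_snd.snd)
  have hm : Measurable fun q : TP × TP × TP => Φ (tcat q.1 (tcat q.2.1 q.2.2)) := hΦ.comp hm0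
  refine Eq.trans (lintegral_congr fun p => ?_) ((hMARKR ν hν x y).2.2 _ (hm.indicator ht))
  exact cut_pt hEV ht Φ p

/-- The statement for paths with fewer than `n` crossings. -/
def PP (ν : Measure Br) (c : ℂ) (ρ : ℝ) (H : Set TP → ℝ≥0∞) (n : ℕ) : Prop :=
  ∀ (x y : ℂ) (l : Set TP) (G : TP → ℝ≥0∞), Measurable G →
  (∀ p p', Rel c ρ p p' → G p = G p') →
  (∀ p, G p ≠ 0 → AdmS c ρ p.2 ∧ AdmS c ρ (rev p.2)) →
  ∫⁻ p in AA c ρ n, H (insert p l) * G p ∂grM ν x y ≤ H l * ∫⁻ p, G p ∂grM ν x y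

/-- The admissible last pieces. -/
def SB (c : ℂ) (ρ δ : ℝ) (z' : ℂ) : Set TP := {ω | ω ∈ cutB c ρ δ ∧ 0 < ω.1 ∧ ω.2 0 = z'}

theorem meas_SB (hUM : S_UM) (c : ℂ) (ρ δ : ℝ) (z' : ℂ) : MeasurableSet (SB c ρ δ z') :=
  ((hUM c ρ).2.2.2.2.2.1 δ).2.1.inter ((measurableSet_lt measurable_const measurable_fst).inter
    (measurableSet_eq_fun (Measurable.evalBr measurable_snd measurable_const) measurable_const))

/-- The weight of the last piece. -/
noncomputable def Gt (c : ℂ) (ρ δ : ℝ) (z' : ℂ) (G : TP → ℝ≥0∞) (α β ω : TP) : ℝ≥0∞ :=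
  (SB c ρ δ z').indicator (fun ω => G (tcat α (tcat β ω))) ω

theorem inner (hEV : S_EV) (hUM : S_UM) (hWTC : S_WTC) (hREL : S_REL) (hREV : S_REV)
    {ν : Measure Br} (hν : IsBridge ν) {c : ℂ} {ρ : ℝ} (hρ : 0 < ρ) {H : Set TP → ℝ≥0∞}
    (hH : SupH ν c ρ H) {n : ℕ} (ih : PP ν c ρ H n) (y : ℂ) (l : Set TP) {G : TP → ℝ≥0∞}
    (hG : Measurable G) (hR : ∀ p p', Rel c ρ p p' → G p = G p')
    (hA : ∀ p, G p ≠ 0 → AdmS c ρ p.2 ∧ AdmS c ρ (rev p.2)) (δ : ℝ) {z' : ℂ} {α β : TP}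
    (hα : 0 < α.1) (hαA : α ∈ cutA c ρ δ) (hβ : 0 < β.1) (e1 : α.2 1 = β.2 0)
    (e2 : β.2 1 = z') (hβI : β ∈ Inn c ρ) :
    ∫⁻ ω, (tri c ρ δ).indicator (fun q => (AA c ρ (n + 1) ∩ hit c ρ).indicator
        (fun p => H (insert p l) * G p) (tcat q.1 (tcat q.2.1 q.2.2))) (α, β, ω) ∂grM ν z' y ≤
      (NDs c ρ).indicator (fun β => H (insert β l)) β *
        ∫⁻ ω, Gt c ρ δ z' G α β ω ∂grM ν z' y := by
  have hae := (hREV.2 ν hν).2.2.2.2.2.1 z' y
  obtain ⟨rs, rp, -, rc, re, -⟩ := hREL c ρ hρ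
  have key : ∀ ω : TP, 0 < ω.1 → ω.2 0 = z' →
      (tri c ρ δ).indicator (fun q => (AA c ρ (n + 1) ∩ hit c ρ).indicator
        (fun p => H (insert p l) * G p) (tcat q.1 (tcat q.2.1 q.2.2))) (α, β, ω) ≠ 0 →
      β ∈ NDs c ρ ∧ (tri c ρ δ).indicator (fun q => (AA c ρ (n + 1) ∩ hit c ρ).indicator
        (fun p => H (insert p l) * G p) (tcat q.1 (tcat q.2.1 q.2.2))) (α, β, ω) =
        (AA c ρ n).indicator
          (fun ω => H (insert ω (insert β l)) * Gt c ρ δ z' G α β ω) ω := by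
    intro ω hω e3 hne
    have ht : (α, β, ω) ∈ tri c ρ δ := mem_of_indicator_ne_zero hne
    rw [indicator_of_mem ht] at hne ⊢
    have hp : tcat α (tcat β ω) ∈ AA c ρ (n + 1) ∩ hit c ρ := mem_of_indicator_ne_zero hne
    dsimp only at hne ⊢
    rw [indicator_of_mem hp] at hne ⊢
    have hG0 : G (tcat α (tcat β ω)) ≠ 0 := right_ne_zero_of_mul hne
    have e4 : β.2 1 = ω.2 0 := e2.trans e3.symm
    obtain ⟨-, -, -, -, r1, s1, -⟩ := hEV.2.2.1 β ω hβ hω e4
    have hq : 0 < (tcat β ω).1 := add_pos hβ hω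
    obtain ⟨-, -, -, -, r2, -, -⟩ := hEV.2.2.1 α (tcat β ω) hα hq (e1.trans s1.symm)
    have w := hWTC c ρ δ hρ α β ω hα hβ hω e1 e4 ht (hA _ hG0).2
    have hb : β ∈ NDs c ρ := nds_mono (by
      rw [r2, r1]; exact subset_union_left.trans subset_union_right) hp.1.1
    have ho : ω ∈ NDs c ρ := nds_mono (by
      rw [r2, r1]; exact subset_union_right.trans subset_union_right) hp.1.1
    have hω' : ω ∈ AA c ρ n := ⟨ho, fun h => hp.1.2 (w.2 n h)⟩
    have hS : ω ∈ SB c ρ δ z' := ⟨ht.2.2, hω, e3⟩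
    refine ⟨hb, ?_⟩
    rw [indicator_of_mem hω', Gt, indicator_of_mem hS,
      hH.loc.split _ α (tcat β ω) l (by rw [r2]), hH.loc.drop_one hαA.1,
      hH.loc.split _ ω β l (by rw [r1, union_comm])]
  by_cases hb : β ∈ NDs c ρ
  · rw [indicator_of_mem hb]
    refine le_trans ?_ (ih z' y (insert β l) (Gt c ρ δ z' G α β) ?_ ?_ ?_)
    · rw [← lintegral_indicator (meas_AA hUM c ρ n)]
      refine lintegral_mono_ae ?_
      filter_upwards [hae] with ω hω
      by_contra hlt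
      have hne := (lt_of_le_of_lt zero_le (not_le.1 hlt)).ne'
      exact hlt (key ω hω.1 hω.2.1 hne).2.le
    · exact (hG.comp (Measurable.tcat' measurable_const
        (Measurable.tcat' measurable_const measurable_id))).indicator (meas_SB hUM c ρ δ z')
    · have one : ∀ ω ω' : TP, Rel c ρ ω ω' → ω ∈ SB c ρ δ z' → ω' ∈ SB c ρ δ z' :=
        fun ω ω' h hω => ⟨rc ω ω' δ h hω.1, h.2.1, (re ω ω' h).1.symm.trans hω.2.2⟩
      intro ω ω' h
      by_cases hω : ω ∈ SB c ρ δ z'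
      · rw [Gt, Gt, indicator_of_mem hω, indicator_of_mem (one ω ω' h hω)]
        have e4 : β.2 1 = ω.2 0 := e2.trans hω.2.2.symm
        obtain ⟨-, -, -, -, -, s1, -⟩ := hEV.2.2.1 β ω hβ hω.2.1 e4
        exact hR _ _ (rp α _ _ hα (e1.trans s1.symm) (rp β ω ω' hβ e4 h))
      · rw [Gt, Gt, indicator_of_notMem hω,
          indicator_of_notMem fun h' => hω (one ω' ω (rs _ _ h) h')]
    · intro ω hne
      have hω : ω ∈ SB c ρ δ z' := mem_of_indicator_ne_zero hne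
      rw [Gt, indicator_of_mem hω] at hne
      exact ⟨hω.1.1, (hWTC c ρ δ hρ α β ω hα hβ hω.2.1 e1 (e2.trans hω.2.2.symm)
        ⟨hαA, hβI, hω.1⟩ (hA _ hne).2).1⟩
  · refine le_trans (le_of_eq ?_) zero_le
    refine (lintegral_congr_ae ?_).trans lintegral_zero
    filter_upwards [hae] with ω hω
    by_contra hne
    exact hb (key ω hω.1 hω.2.1 hne).1

theorem middle (hEV : S_EV) (hUM : S_UM) (hWTC : S_WTC) (hREL : S_REL) (hREV : S_REV)
    {ν : Measure Br} (hν : IsBridge ν) {c : ℂ} {ρ : ℝ} (hρ : 0 < ρ) {H : Set TP → ℝ≥0∞}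
    (hH : SupH ν c ρ H) {n : ℕ} (ih : PP ν c ρ H n) (y : ℂ) (l : Set TP) {G : TP → ℝ≥0∞}
    (hG : Measurable G) (hR : ∀ p p', Rel c ρ p p' → G p = G p')
    (hA : ∀ p, G p ≠ 0 → AdmS c ρ p.2 ∧ AdmS c ρ (rev p.2)) (δ : ℝ) (z z' : ℂ) {α : TP}
    (hα : 0 < α.1) (e0 : α.2 1 = z) :
    ∫⁻ β, ∫⁻ ω, (tri c ρ δ).indicator (fun q => (AA c ρ (n + 1) ∩ hit c ρ).indicator
        (fun p => H (insert p l) * G p) (tcat q.1 (tcat q.2.1 q.2.2))) (α, β, ω)
        ∂grM ν z' y ∂grM ν z z' ≤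
      ∫⁻ β, ∫⁻ ω, (tri c ρ δ).indicator (fun q => H l * G (tcat q.1 (tcat q.2.1 q.2.2)))
        (α, β, ω) ∂grM ν z' y ∂grM ν z z' := by
  have hae := (hREV.2 ν hν).2.2.2.2.2.1
  have hI := (hUM c ρ).1
  have hN := (hUM c ρ).2.1.measurableSet
  by_cases h0 : α ∈ cutA c ρ δ ∧ z' ∈ An5 c ρ ∧
      ∃ β : TP, 0 < β.1 ∧ β.2 0 = z ∧ β.2 1 = z' ∧ β ∈ Inn c ρ
  swap
  · refine le_trans (le_of_eq ?_) zero_le
    refine (lintegral_congr_ae ?_).trans lintegral_zero
    filter_upwards [hae z z'] with β hβ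
    refine (lintegral_congr_ae ?_).trans lintegral_zero
    filter_upwards [hae z' y] with ω hω
    refine indicator_of_notMem (fun ht => h0 ⟨ht.1, ?_, β, hβ.1, hβ.2.1, hβ.2.2, ht.2.1⟩) _
    exact hω.2.1 ▸ ht.2.2.2.2.2
  obtain ⟨hαA, hz', β₀, b1, b2, b3, b4⟩ := h0
  have hz : z ∈ An5 c ρ := e0 ▸ hαA.2.2.2
  obtain ⟨-, rp, rb, -, -, -⟩ := hREL c ρ hρ
  set K₀ := ∫⁻ ω, Gt c ρ δ z' G α β₀ ω ∂grM ν z' y with hK₀
  have hK : ∀ β : TP, 0 < β.1 → β.2 0 = z → β.2 1 = z' → β ∈ Inn c ρ →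
      ∫⁻ ω, Gt c ρ δ z' G α β ω ∂grM ν z' y = K₀ := by
    intro β a1 a2 a3 a4
    refine lintegral_congr fun ω => ?_
    by_cases hω : ω ∈ SB c ρ δ z'
    · rw [Gt, Gt, indicator_of_mem hω, indicator_of_mem hω]
      have e4 : β.2 1 = ω.2 0 := a3.trans hω.2.2.symm
      obtain ⟨-, -, -, -, -, s1, -⟩ := hEV.2.2.1 β ω a1 hω.2.1 e4
      exact hR _ _ (rp α _ _ hα ((e0.trans a2.symm).trans s1.symm)
        (rb β β₀ ω a1 b1 hω.2.1 a4 b4 (a2.trans b2.symm) e4 (b3.trans hω.2.2.symm)))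
    · rw [Gt, Gt, indicator_of_notMem hω, indicator_of_notMem hω]
  calc _ ≤ ∫⁻ β, (Inn c ρ ∩ NDs c ρ).indicator (fun β => H (insert β l)) β * K₀ ∂grM ν z z' := by
        refine lintegral_mono_ae ?_
        filter_upwards [hae z z'] with β hβ
        by_cases hβI : β ∈ Inn c ρ
        · rw [← hK β hβ.1 hβ.2.1 hβ.2.2 hβI, ← indicator_indicator (Inn c ρ),
            indicator_of_mem hβI]
          exact inner hEV hUM hWTC hREL hREV hν hρ hH ih y l hG hR hA δ hα hαA hβ.1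
            (e0.trans hβ.2.1.symm) hβ.2.2 hβI
        · refine le_trans (le_of_eq ?_) zero_le
          refine (lintegral_congr fun ω => ?_).trans lintegral_zero
          exact indicator_of_notMem (fun ht => hβI ht.2.1) _
    _ = (∫⁻ β in Inn c ρ ∩ NDs c ρ, H (insert β l) ∂grM ν z z') * K₀ := by
        rw [lintegral_mul_const _ ((hH.meas l).indicator (hI.inter hN)),
          lintegral_indicator (hI.inter hN)]
    _ ≤ H l * grM ν z z' (Inn c ρ) * K₀ := by
        gcongr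
        exact hH.sup l z hz z' hz'
    _ = ∫⁻ β, (Inn c ρ).indicator (fun _ => H l * K₀) β ∂grM ν z z' := by
        rw [lintegral_indicator_const hI]
        ring
    _ ≤ _ := by
        refine lintegral_mono_ae ?_
        filter_upwards [hae z z'] with β hβ
        by_cases hβI : β ∈ Inn c ρ
        · rw [indicator_of_mem hβI, ← hK β hβ.1 hβ.2.1 hβ.2.2 hβI]
          refine (lintegral_const_mul_le _ _).trans (lintegral_mono fun ω => ?_)
          by_cases hω : ω ∈ SB c ρ δ z'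
          · have ht : (α, β, ω) ∈ tri c ρ δ := ⟨hαA, hβI, hω.1⟩
            rw [Gt, indicator_of_mem hω, indicator_of_mem ht]
          · rw [Gt, indicator_of_notMem hω, mul_zero]
            exact zero_le
        · rw [indicator_of_notMem hβI]
          exact zero_le

theorem step (hEV : S_EV) (hUM : S_UM) (hMARKR : S_MARKR) (hWTA : S_WTA) (hWTB : S_WTB)
    (hWTC : S_WTC) (hREL : S_REL) (hREV : S_REV)
    {ν : Measure Br} (hν : IsBridge ν) {c : ℂ} {ρ : ℝ} (hρ : 0 < ρ) {H : Set TP → ℝ≥0∞}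
    (hH : SupH ν c ρ H) {n : ℕ} (ih : PP ν c ρ H n) : PP ν c ρ H (n + 1) := by
  intro x y l G hG hR hA
  have hae := (hREV.2 ν hν).2.2.2.2.2.1
  have hh := meas_hit c ρ
  have hS := (meas_AA hUM c ρ (n + 1)).inter hh
  set Φ : TP → ℝ≥0∞ := (AA c ρ (n + 1) ∩ hit c ρ).indicator fun p => H (insert p l) * G p
    with hΦ
  have mΦ : Measurable Φ := ((hH.meas l).mul hG).indicator hS
  have key : ∀ δ : ℝ, 0 < δ → ∫⁻ p, wcut c ρ δ p * Φ p ∂grM ν x y ≤
      ENNReal.ofReal (δ ^ 2) * (H l * ∫⁻ p in hit c ρ, G p ∂grM ν x y) := by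
    intro δ hδ
    calc _ ≤ ∫⁻ p, wcut c ρ δ p * (H l * G p) ∂grM ν x y := by
          rw [cut_eq hEV hUM hMARKR hν c ρ δ x y mΦ,
            cut_eq hEV hUM hMARKR hν c ρ δ x y (hG.const_mul (H l))]
          refine lintegral_mono fun z => lintegral_mono_ae ?_
          filter_upwards [hae x z] with α hα
          exact lintegral_mono fun z' =>
            middle hEV hUM hWTC hREL hREV hν hρ hH ih y l hG hR hA δ z z' hα.1 hα.2.2
      _ ≤ ∫⁻ p, ENNReal.ofReal (δ ^ 2) * (H l * (hit c ρ).indicator G p) ∂grM ν x y := by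
          refine lintegral_mono_ae ?_
          filter_upwards [hae x y] with p hp
          have w := hWTA c ρ hρ p hp.1 δ hδ
          by_cases hp' : p ∈ hit c ρ
          · rw [indicator_of_mem hp']
            gcongr
            exact w.1
          · rw [w.2 (disjoint_iff_inter_eq_empty.2 (not_nonempty_iff_eq_empty.1 hp')), zero_mul]
            exact zero_le
      _ = _ := by
          rw [lintegral_const_mul _ ((hG.indicator hh).const_mul _),
            lintegral_const_mul _ (hG.indicator hh), lintegral_indicator hh]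
  have hd : ∀ j : ℕ, (0 : ℝ) < 1 / ((j : ℝ) + 1) := fun j => Nat.one_div_pos_of_nat
  have h0 : ∀ j : ℕ, ENNReal.ofReal ((1 / ((j : ℝ) + 1)) ^ 2) ≠ 0 := fun j =>
    (ENNReal.ofReal_pos.2 (pow_pos (hd j) 2)).ne'
  have mw : ∀ j : ℕ, Measurable fun p => wcut c ρ (1 / ((j : ℝ) + 1)) p * Φ p := fun j =>
    ((hUM c ρ).2.2.2.2.2.1 _).2.2.2.mul mΦ
  have first : ∫⁻ p, Φ p ∂grM ν x y ≤ H l * ∫⁻ p in hit c ρ, G p ∂grM ν x y := by
    calc _ ≤ ∫⁻ p, liminf (fun j : ℕ => (ENNReal.ofReal ((1 / ((j : ℝ) + 1)) ^ 2))⁻¹ *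
            (wcut c ρ (1 / ((j : ℝ) + 1)) p * Φ p)) atTop ∂grM ν x y := by
          refine lintegral_mono_ae ?_
          filter_upwards [hae x y] with p hp
          by_cases hne : Φ p = 0
          · rw [hne]
            exact zero_le
          have hp' : p ∈ AA c ρ (n + 1) ∩ hit c ρ := mem_of_indicator_ne_zero hne
          have hG0 : G p ≠ 0 := by
            rw [hΦ, indicator_of_mem hp'] at hne
            exact right_ne_zero_of_mul hne
          obtain ⟨δ₀, hδ₀, w⟩ := hWTB c ρ hρ p hp.1 (hA p hG0).1 (hA p hG0).2 hp'.2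
          refine le_liminf_of_le (by isBoundedDefault) ?_
          filter_upwards [tendsto_one_div_add_atTop_nhds_zero_nat.eventually_lt_const hδ₀]
            with j hj
          calc Φ p = (ENNReal.ofReal ((1 / ((j : ℝ) + 1)) ^ 2))⁻¹ *
                (ENNReal.ofReal ((1 / ((j : ℝ) + 1)) ^ 2) * Φ p) := by
                rw [← mul_assoc, ENNReal.inv_mul_cancel (h0 j) ENNReal.ofReal_ne_top, one_mul]
            _ ≤ _ := by
                gcongr
                exact w _ ⟨hd j, hj⟩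
      _ ≤ _ := lintegral_liminf_le fun j => (mw j).const_mul _
      _ ≤ _ := by
          refine liminf_le_of_frequently_le' (Frequently.of_forall fun j => ?_)
          rw [lintegral_const_mul _ (mw j)]
          calc _ ≤ (ENNReal.ofReal ((1 / ((j : ℝ) + 1)) ^ 2))⁻¹ *
                (ENNReal.ofReal ((1 / ((j : ℝ) + 1)) ^ 2) *
                  (H l * ∫⁻ p in hit c ρ, G p ∂grM ν x y)) := by
                gcongr
                exact key _ (hd j)
            _ = _ := by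
                rw [← mul_assoc, ENNReal.inv_mul_cancel (h0 j) ENNReal.ofReal_ne_top, one_mul]
  have second : ∫⁻ p in AA c ρ (n + 1) \ hit c ρ, H (insert p l) * G p ∂grM ν x y ≤
      H l * ∫⁻ p in (hit c ρ)ᶜ, G p ∂grM ν x y := by
    rw [← lintegral_const_mul _ hG]
    refine le_trans (le_of_eq ?_) (lintegral_mono_set (fun p hp => hp.2 :
      AA c ρ (n + 1) \ hit c ρ ⊆ (hit c ρ)ᶜ))
    refine setLIntegral_congr_fun ((meas_AA hUM c ρ (n + 1)).diff hh) fun p hp => ?_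
    rw [hH.loc.drop_one (disjoint_iff_inter_eq_empty.2 (not_nonempty_iff_eq_empty.1 hp.2))]
  rw [hΦ, lintegral_indicator hS] at first
  rw [← lintegral_inter_add_sdiff _ (AA c ρ (n + 1)) hh, ← lintegral_add_compl G hh, mul_add]
  exact add_le_add first second

end SingleA

theorem p_SINGLE (hEV : S_EV) (hUM : S_UM) (hMARKR : S_MARKR) (hWTA : S_WTA) (hWTB : S_WTB) (hWTC : S_WTC) (hREL : S_REL) (hREV : S_REV) :
    S_SINGLE := by
  intro ν hν c ρ hρ H hH x y l G hG hR hA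
  have all : ∀ n, SingleA.PP ν c ρ H n := by
    intro n
    induction n with
    | zero =>
      intro x y l G _ _ _
      have : SingleA.AA c ρ 0 = ∅ := eq_empty_of_forall_notMem fun p hp => hp.2 trivial
      simp [this]
    | succ n ih => exact SingleA.step hEV hUM hMARKR hWTA hWTB hWTC hREL hREV hν hρ hH ih
  have hU : NDs c ρ = ⋃ n, SingleA.AA c ρ n := by
    refine Subset.antisymm (fun p hp => ?_) (iUnion_subset fun n => inter_subset_left)
    obtain ⟨k, hk⟩ := (hUM c ρ).2.2.2.2.2.2.2.1 hρ p.2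
    exact mem_iUnion.2 ⟨k, hp, hk⟩
  have hmono : Monotone (SingleA.AA c ρ) := monotone_nat_of_le_succ fun n p hp =>
    ⟨hp.1, fun h => hp.2 ((hUM c ρ).2.2.2.2.2.2.2.2.1 _ _ _ h)⟩
  rw [hU, setLIntegral_iUnion_of_directed _ hmono.directed_le]
  exact iSup_le fun n => all n x y l G hG hR hA

end Pool.Agent.P.MP_d66c6d_pr
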