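import Pool.Agent.P.MP_d66c6d_pr.U.Iface2
import Pool.Agent.P.MP_d66c6d_pr.U.Iface

/-! Step SUPH of the carpet project. -/

namespace Pool.Agent.P.MP_d66c6d_pr

open MeasureTheory ProbabilityTheory Set Metric Filter Topology
open scoped ENNReal

namespace SuphA

theorem loc {U : Set ℂ} {F : Cfg KC → ℝ≥0∞} (h : LocK U F) (Q : Measure (Cfg KC)) :
    LocK U fun l => ∫⁻ T, F (T ∪ l) ∂Q := by
  refine ⟨fun S T hT => lintegral_congr fun R => ?_,
    fun K L L' S h1 h2 h3 e => lintegral_congr fun R => ?_⟩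
  · rw [← Cfg.union_assoc, h.drop _ _ hT]
  · simp only [Cfg.union_insert]
    exact h.split K L L' _ h1 h2 h3 e

theorem drop_one {U : Set ℂ} {F : Cfg KC → ℝ≥0∞} (h : LocK U F) {K : KC}
    (hK : Disjoint (K : Set ℂ) U) (l : Cfg KC) : F (insert K l) = F l := by
  rw [← h.drop l (insert K ∅) fun L hL => by
    rw [Cfg.pts_insert, Cfg.pts_empty, insert_empty_eq, mem_singleton_iff] at hL
    rwa [hL], Cfg.union_insert, Cfg.union_empty]

end SuphA

theorem p_SUPH (hUM : S_UM) (hHART : S_HART) (hKLOW : S_KLOW) (hRJ : S_RJ) :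
    S_SUPH := by
  intro ν hν
  have := hν.gauss
  obtain ⟨C, hC, hH⟩ := hHART
  obtain ⟨κ, hκ, hK⟩ := hKLOW ν hν
  have k0 : min κ 1 ≠ 0 := (lt_min (pos_iff_ne_zero.2 hκ) one_pos).ne'
  have k1 : min κ 1 ≠ ∞ := ne_top_of_le_ne_top ENNReal.one_ne_top (min_le_right _ _)
  refine ⟨C / min κ 1, ENNReal.div_ne_top hC k0, fun c ρ r hρ hr F hF hL => ?_⟩
  set A := C / min κ 1 with hA
  set H : Cfg KC → ℝ≥0∞ := fun l => ∫⁻ T, F (T ∪ l) ∂(RS ν A c ρ r) with hHdef
  have mH : Measurable H :=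
    Measurable.lintegral_prod_left' (f := fun q : Cfg KC × Cfg KC => F (q.1 ∪ q.2)) (by fun_prop)
  have lH : LocK (ball c r) H := SuphA.loc hL _
  have lH' := lH.mono (ball_subset_ball hr)
  refine ⟨mH, lH', fun l x hx y hy => ?_⟩
  have mI := (hUM c ρ).1
  have mN := (hUM c ρ).2.1.measurableSet
  have mT : MeasurableSet {p : TP | (range p.2 ∩ ball c r).Nonempty} :=
    (by fun_prop : Measurable fun p : TP => trB p.2) (isOpen_hitK isOpen_ball).measurableSet
  have mK : Measurable fun K : KC => H (insert K l) := by fun_prop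
  have h1 : ∫⁻ p in (Inn c ρ ∩ NDs c ρ) \ {p : TP | (range p.2 ∩ ball c r).Nonempty},
      H (insert (trB p.2) l) ∂grM ν x y ≤ H l * grM ν x y (Inn c ρ ∩ NDs c ρ) := by
    rw [setLIntegral_congr_fun ((mI.inter mN).diff mT) (g := fun _ => H l) fun p hp =>
      SuphA.drop_one lH (K := trB p.2)
        (disjoint_iff_inter_eq_empty.2 (not_nonempty_iff_eq_empty.1 hp.2)) l,
      setLIntegral_const]
    exact mul_le_mul_right (measure_mono sdiff_subset) _
  have h2 : ∫⁻ K, H (insert K l) ∂rhoK ν A c ρ r ≤ H l := by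
    have e := (hRJ.2.2 KC (rhoK ν A c ρ r) inferInstance).2.2.1 (fun T => F (T ∪ l)) (by fun_prop)
    simp only [Cfg.insert_union, ← Cfg.union_insert] at e
    exact le_add_self.trans_eq e.symm
  have h3 : ∫⁻ p in (Inn c ρ ∩ NDs c ρ) ∩ {p : TP | (range p.2 ∩ ball c r).Nonempty},
      H (insert (trB p.2) l) ∂grM ν x y ≤ min κ 1 * H l := by
    refine (lintegral_mono_set fun p hp => ?_).trans ((hH ν hν c ρ r hρ hr x hx y hy
      (fun p => H (insert (trB p.2) l)) (by fun_prop) fun p p' e =>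
        lH'.congr (isPreconnected_trB _) (isPreconnected_trB _) e l).trans ?_)
    · exact ⟨hp.1.1.1, hp.2⟩
    have e : rho ν C c ρ r = min κ 1 • rho ν A c ρ r := by
      rw [rho, rho, smul_smul, hA, ENNReal.mul_div_cancel k0 k1]
    rw [e, lintegral_smul_measure, smul_eq_mul]
    refine mul_le_mul_right (le_trans (le_of_eq ?_) h2) _
    rw [rhoK, lintegral_map mK (by fun_prop)]
  rw [← lintegral_inter_add_sdiff _ _ mT, ← measure_inter_add_sdiff _ mN, mul_add, add_comm]
  refine add_le_add h1 (h3.trans ?_)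
  rw [mul_comm]
  exact mul_le_mul_right ((min_le_left _ _).trans (hK c ρ hρ x hx y hy)) _

end Pool.Agent.P.MP_d66c6d_pr
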