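import Pool.Agent.P.MP_d66c6d_pr.U.Iface3
import Pool.Agent.P.MP_d66c6d_pr.U.Iface
import Pool.Agent.P.MP_d66c6d_pr.U.Iface2
import Pool.Agent.P.MP_d66c6d_pr.U.Suph

/-! Step SUPT of the carpet project. -/

namespace Pool.Agent.P.MP_d66c6d_pr

open MeasureTheory ProbabilityTheory Set Metric Filter Topology
open scoped ENNReal NNReal

namespace SuptA

theorem arith {t g k h e I : ℝ≥0∞} (ht : t ≤ 1) (hg : t * g ≤ k) (he : k * 3 ≤ e)
    (hI : I ≤ k * h + h * g) : (1 + t) * I ≤ h * (g + e) :=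
  calc (1 + t) * I ≤ (1 + t) * (k * h + h * g) := by gcongr
    _ = h * (g + (k + t * k + t * g)) := by ring
    _ ≤ h * (g + (k + 1 * k + k)) := by gcongr
    _ = h * (g + k * 3) := by ring
    _ ≤ _ := by gcongr

end SuptA

theorem p_SUPT (hUM : S_UM) (hHART : S_HART) (hKLOW : S_KLOW) (hRHO : S_RHO) (hRJ : S_RJ) :
    S_SUPT := by
  intro ν hν
  have := hν.gauss
  obtain ⟨C, hC, hH⟩ := hHART
  obtain ⟨κ, hκ, hK⟩ := hKLOW ν hν
  obtain ⟨k, k2, k3⟩ := ENNReal.exists_nnreal_pos_mul_lt (a := 3) (by simp) hκ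
  have k0 : (k : ℝ≥0∞) ≠ 0 := by exact_mod_cast k2.ne'
  have k1 : (k : ℝ≥0∞) ≠ ∞ := ENNReal.coe_ne_top
  refine ⟨C / k, ENNReal.div_ne_top hC k0, fun c ρ hρ => ?_⟩
  obtain ⟨t, t0, t1⟩ := ENNReal.exists_nnreal_pos_mul_lt ((hRHO ν hν C hC).1 c ρ (3 * ρ) hρ) k0
  refine ⟨1 + (min t 1 : ℝ≥0), lt_add_of_pos_right _ (NNReal.coe_pos.2 (lt_min t0 one_pos)),
    fun r hr F hF hL H hHdef => ?_⟩
  set A := C / k with hA
  have mH : Measurable H := hHdef ▸
    Measurable.lintegral_prod_left' (f := fun q : Cfg KC × Cfg KC => F (q.1 ∪ q.2)) (by fun_prop)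
  have lH : LocK (ball c r) H := hHdef ▸ SuphA.loc hL _
  have lH' := lH.mono (ball_subset_ball hr)
  have e := fun l =>
    (hRJ.2.2 KC (rhoK ν A c ρ r) inferInstance).2.2.1 (fun T => F (T ∪ l)) (by fun_prop)
  simp only [Cfg.insert_union, ← Cfg.union_insert, Cfg.empty_union] at e
  refine ⟨mH, lH', fun l => hHdef ▸ le_self_add.trans_eq (e l).symm, fun l x hx y hy => ?_⟩
  have mI := (hUM c ρ).1
  have mN := (hUM c ρ).2.1.measurableSet
  have mT : MeasurableSet {p : TP | (range p.2 ∩ ball c r).Nonempty} :=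
    (by fun_prop : Measurable fun p : TP => trB p.2) (isOpen_hitK isOpen_ball).measurableSet
  have mK : Measurable fun K : KC => H (insert K l) := by fun_prop
  have h1 : ∫⁻ p in (Inn c ρ ∩ NDs c ρ) \ {p : TP | (range p.2 ∩ ball c r).Nonempty},
      H (insert (trB p.2) l) ∂grM ν x y ≤ H l * grM ν x y (Inn c ρ ∩ NDs c ρ) := by
    rw [setLIntegral_congr_fun ((mI.inter mN).diff mT) (g := fun _ => H l) fun p hp =>
      SuphA.drop_one lH (K := trB p.2)
        (disjoint_iff_inter_eq_empty.2 (not_nonempty_iff_eq_empty.1 hp.2)) l,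
      setLIntegral_const]
    exact mul_le_mul_right (measure_mono sdiff_subset) _
  have h2 : ∫⁻ K, H (insert K l) ∂rhoK ν A c ρ r ≤ H l :=
    hHdef ▸ le_add_self.trans_eq (e l).symm
  have h3 : ∫⁻ p in (Inn c ρ ∩ NDs c ρ) ∩ {p : TP | (range p.2 ∩ ball c r).Nonempty},
      H (insert (trB p.2) l) ∂grM ν x y ≤ k * H l := by
    refine (lintegral_mono_set fun p hp => ?_).trans ((hH ν hν c ρ r hρ hr x hx y hy
      (fun p => H (insert (trB p.2) l)) (by fun_prop) fun p p' e =>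
        lH'.congr (isPreconnected_trB _) (isPreconnected_trB _) e l).trans ?_)
    · exact ⟨hp.1.1.1, hp.2⟩
    have e : rho ν C c ρ r = (k : ℝ≥0∞) • rho ν A c ρ r := by
      rw [rho, rho, smul_smul, hA, ENNReal.mul_div_cancel k0 k1]
    rw [e, lintegral_smul_measure, smul_eq_mul]
    refine mul_le_mul_right (le_trans (le_of_eq ?_) h2) _
    rw [rhoK, lintegral_map mK (by fun_prop)]
  have h4 : grM ν x y (Inn c ρ) ≤ rho ν C c ρ (3 * ρ) univ := by
    simpa only [lintegral_one, Measure.restrict_apply_univ, Inn] using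
      hH ν hν c ρ (3 * ρ) hρ le_rfl x hx y hy (fun _ => 1) measurable_const fun _ _ _ => rfl
  rw [← lintegral_inter_add_sdiff _ _ mT, ← measure_inter_add_sdiff _ mN,
    ENNReal.ofReal_add zero_le_one (NNReal.coe_nonneg _), ENNReal.ofReal_one,
    ENNReal.ofReal_coe_nnreal]
  refine SuptA.arith (ENNReal.coe_le_one_iff.2 (min_le_right _ _)) (le_trans ?_ t1.le)
    (k3.le.trans (hK c ρ hρ x hx y hy)) (add_le_add h3 h1)
  exact mul_le_mul' (ENNReal.coe_le_coe.2 (min_le_left _ _))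
    ((measure_mono inter_subset_left).trans h4)

end Pool.Agent.P.MP_d66c6d_pr
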