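import Pool.Agent.P.MP_d66c6d_pr.U.Iface
import Pool.Agent.P.MP_d66c6d_pr.T.Iface
import Pool.Agent.P.MP_d66c6d_pr.S.Surr

/-! Step UM of the carpet project. -/

namespace Pool.Agent.P.MP_d66c6d_pr

open MeasureTheory ProbabilityTheory Set Metric Filter Topology
open scoped ENNReal

namespace UmA

variable {c : ℂ} {ρ : ℝ}

theorem clEx {X : Type*} [TopologicalSpace X] {P : unitInterval → X → Prop}
    (h : IsClosed {q : unitInterval × X | P q.1 q.2}) : IsClosed {x | ∃ s, P s x} := by
  have := isClosedMap_snd_of_compactSpace _ h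
  rwa [show Prod.snd '' {q : unitInterval × X | P q.1 q.2} = {x | ∃ s, P s x} by
    ext x; simp] at this

theorem cl_sub {B : Set ℂ} (hB : IsClosed B) : IsClosed {p : TP | range p.2 ⊆ B} := by
  simp only [range_subset_iff, ofPred_forall]
  exact isClosed_iInter fun s => hB.preimage (by fun_prop)

theorem op_hit {U : Set ℂ} (hU : IsOpen U) : IsOpen {p : TP | (range p.2 ∩ U).Nonempty} := by
  have := (cl_sub hU.isClosed_compl).isOpen_compl
  simpa only [compl_ofPred, subset_compl_iff_disjoint_right, not_disjoint_iff_nonempty_inter]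

theorem cl_hit {B : Set ℂ} (hB : IsClosed B) : IsClosed {p : TP | (range p.2 ∩ B).Nonempty} := by
  have := clEx (P := fun s (p : TP) => p.2 s ∈ B) (hB.preimage (by fun_prop))
  simpa [Set.Nonempty]

theorem cl_vis {τ : TP → ℝ} (hτ : Continuous τ) : IsClosed {p : TP | Vis c ρ (τ p) p} := by
  refine clEx (IsClosed.and (isClosed_le (by fun_prop) (by fun_prop))
    (IsClosed.and (isClosed_closedBall.preimage (f := fun q : unitInterval × TP => q.2.2 q.1)
      (by fun_prop)) ?_))
  have : IsClosed (⋂ s', {q : unitInterval × TP | q.2.2 (max q.1 s') ∈ closedBall c (9 * ρ)}) :=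
    isClosed_iInter fun s => isClosed_closedBall.preimage (by fun_prop)
  rwa [← ofPred_forall, show {q : unitInterval × TP | ∀ s', q.2.2 (max q.1 s') ∈ _} =
    {q | ∀ s', q.1 ≤ s' → q.2.2 s' ∈ closedBall c (9 * ρ)} from
    Set.ext fun q => ⟨fun h s' hs => max_eq_right hs ▸ h s', fun h s' => h _ (le_max_left _ _)⟩]
    at this

theorem op_adm : IsOpen {γ : Br | AdmS c ρ γ} := by
  have h1 : IsClosed (⋂ s', {q : unitInterval × Br | q.2 (min q.1 s') ∈ closedBall c (9 * ρ)}) :=
    isClosed_iInter fun s => isClosed_closedBall.preimage (by fun_prop)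
  rw [← ofPred_forall, show {q : unitInterval × Br | ∀ s', q.2 (min q.1 s') ∈ _} =
    {q | ∀ s', s' ≤ q.1 → q.2 s' ∈ closedBall c (9 * ρ)} from
    Set.ext fun q => ⟨fun h s' hs => min_eq_right hs ▸ h s', fun h s' => h _ (min_le_left _ _)⟩]
    at h1
  have := (clEx (P := fun s (γ : Br) => (∀ s', s' ≤ s → γ s' ∈ closedBall c (9 * ρ)) ∧
    γ s ∈ closedBall c (3 * ρ))
    (h1.inter (isClosed_closedBall.preimage (by fun_prop)))).isOpen_compl
  simpa only [compl_ofPred, not_exists, not_and]

theorem op_nds : IsOpen (NDs c ρ) := by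
  refine isOpen_iff_mem_nhds.2 fun p hp => ?_
  obtain ⟨z, h1, h2⟩ := not_subset.1 hp
  obtain ⟨w, hw, hj⟩ := exists_far
    ((isCompact_range p.2.continuous).isClosed.inter isClosed_closedBall) h2 c (|9 * ρ| + 1)
  have hP := hj.somePath.continuous
  refine mem_of_superset ((cl_hit ((isCompact_range hP).isClosed.inter
    (isClosed_closedBall (x := c) (ε := 9 * ρ)))).isOpen_compl.mem_nhds ?_) fun q hq h => ?_
  · rintro ⟨_, h3, ⟨t, rfl⟩, h4⟩
    exact hj.somePath_mem t ⟨h3, h4⟩
  · refine hw.not_gt (fill_subset_ball (by positivity) (inter_subset_right.trans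
      (closedBall_subset_ball ((le_abs_self _).trans_lt (lt_add_one _))))
      (fill_conn (isPreconnected_range hP) ?_ ⟨0, hj.somePath.source⟩ ⟨1, hj.somePath.target⟩ (h h1)))
    exact disjoint_left.2 fun x h3 h4 => hq ⟨x, h4.1, h3, h4.2⟩

theorem meas_Ioo {α : Type*} [MeasurableSpace α] {f : α × ℝ → ℝ≥0∞} (hf : Measurable f)
    {t : α → ℝ} (ht : Measurable t) : Measurable fun x => ∫⁻ a in Ioo 0 (t x), f (x, a) := by
  simp only [← lintegral_indicator measurableSet_Ioo]
  exact Measurable.lintegral_prod_right' (f := {q : α × ℝ | 0 < q.2 ∧ q.2 < t q.1}.indicator f)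
    (hf.indicator ((measurableSet_lt measurable_const measurable_snd).inter
      (measurableSet_lt measurable_snd (ht.comp measurable_fst))))

theorem op_cr (k : ℕ) : ∀ u, IsOpen {γ : Br | Cr c ρ γ k u} := by
  induction k with
  | zero => exact fun _ => isOpen_univ
  | succ k ih =>
    intro u
    simp only [Cr, ofPred_exists, ofPred_and]
    exact isOpen_iUnion fun s => isOpen_const.inter ((isOpen_ball.preimage (by fun_prop)).inter
      (isOpen_iUnion fun s' => isOpen_const.inter
        ((isClosed_closedBall.isOpen_compl.preimage (by fun_prop)).inter (ih s'))))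

theorem fin_cr (hρ : 0 < ρ) (γ : Br) : ∃ k, ¬ Cr c ρ γ k 0 := by
  obtain ⟨η, h0, h⟩ := Metric.uniformContinuous_iff.1
    (CompactSpace.uniformContinuous_of_continuous γ.continuous) (6 * ρ) (by positivity)
  have key : ∀ (k : ℕ) (u : unitInterval), Cr c ρ γ k u → (u : ℝ) + k * η ≤ 1 := fun k => by
    induction k with
    | zero => exact fun u _ => by simpa using u.2.2
    | succ k ih =>
      rintro u ⟨s, h1, h2, s', h3, h4, h5⟩
      have h6 := ih s' h5
      have h7 : η ≤ dist s' s := not_lt.1 fun e => h4 (by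
        have := dist_triangle (γ s') (γ s) c
        have := h e
        rw [mem_ball] at h2
        rw [mem_closedBall]
        linarith)
      have h1 : (u : ℝ) ≤ s := h1
      have h3 : (s : ℝ) ≤ s' := h3
      rw [Subtype.dist_eq, Real.dist_eq, abs_of_nonneg (sub_nonneg.2 h3)] at h7
      push_cast
      linarith
  obtain ⟨k, hk⟩ := exists_nat_gt (1 / η)
  exact ⟨k, fun e => ((div_lt_iff₀ h0).1 hk).not_ge (by simpa using key k 0 e)⟩

theorem mono_cr (γ : Br) (k : ℕ) : ∀ u, Cr c ρ γ (k + 1) u → Cr c ρ γ k u := by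
  induction k with
  | zero => exact fun _ _ => trivial
  | succ k ih => exact fun u ⟨s, h1, h2, s', h3, h4, h5⟩ => ⟨s, h1, h2, s', h3, h4, ih s' h5⟩

end UmA

open UmA in
theorem p_UM (hFILL : S_FILL) :
    S_UM := by
  intro c ρ
  have h1 : MeasurableSet (Inn c ρ) :=
    (cl_sub isClosed_closedBall).measurableSet.inter (op_hit isOpen_ball).measurableSet
  have m : Measurable fun z => dist z c := by fun_prop
  have h5 : MeasurableSet (An5 c ρ) := m measurableSet_Icc
  have h6 : MeasurableSet (An6 c ρ) := m measurableSet_Ioo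
  have e : ∀ s : unitInterval, Measurable fun p : TP => p.2 s := fun s => by fun_prop
  have t : Measurable trev := Measurable.trev' measurable_id
  have f : ∀ τ, IsClosed (fast ρ τ) := fun τ => clEx (IsClosed.and
    (isClosed_le (by fun_prop) continuous_const) (isClosed_le continuous_const (by fun_prop)))
  have w : Measurable (Wt ρ) := Measurable.const_add (Measurable.tsum fun k =>
    (measurable_one.indicator (f _).measurableSet).const_mul _) _
  refine ⟨h1, op_nds, h5, h6, op_adm.measurableSet, fun δ => ?_, op_cr, fin_cr, mono_cr, f, w,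
    fun r => ?_⟩
  · have v1 := (cl_vis (c := c) (ρ := ρ) continuous_fst).measurableSet
    have v2 := (cl_vis (c := c) (ρ := ρ) (continuous_fst.sub
      (continuous_const (y := δ)))).measurableSet.compl
    have a : MeasurableSet (cutA c ρ δ) := by
      have := (cl_sub (isOpen_ball (x := c) (ε := 3 * ρ)).isClosed_compl).measurableSet
      simp only [subset_compl_iff_disjoint_right] at this
      exact this.inter (v1.inter (v2.inter (e 1 h5)))
    have b : MeasurableSet (cutB c ρ δ) :=
      (measurable_snd op_adm.measurableSet).inter ((t v1).inter ((t v2).inter (e 0 h5)))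
    have d : MeasurableSet (tri c ρ δ) := (measurable_fst a).inter
      ((measurable_snd.fst h1).inter (measurable_snd.snd b))
    refine ⟨a, b, d, meas_Ioo (f := fun q : TP × ℝ => ∫⁻ a' in Ioo 0 (q.1.1 - q.2),
      (tri c ρ δ).indicator 1 (pcs q.2 a' q.1)) ?_ measurable_fst⟩
    exact meas_Ioo (f := fun q : (TP × ℝ) × ℝ => (tri c ρ δ).indicator 1 (pcs q.1.2 q.2 q.1.1))
      ((measurable_one.indicator d).comp (by fun_prop)) (by fun_prop)
  · have a : MeasurableSet (rset c ρ r) := (e 0 h6).inter ((e 1 h6).inter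
      ((cl_sub isClosed_closedBall).measurableSet.inter (op_hit isOpen_ball).measurableSet))
    exact ⟨a, ((w.mul (w.comp t)).const_mul _).indicator a⟩

end Pool.Agent.P.MP_d66c6d_pr
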