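import Pool.Agent.P.MP_d66c6d_pr.U.Iface

/-! Step WTA of the carpet project. -/

namespace Pool.Agent.P.MP_d66c6d_pr

open MeasureTheory ProbabilityTheory Set Metric Filter Topology
open scoped ENNReal

namespace WtaA

variable {c : ℂ} {ρ δ τ a a' : ℝ} {p : TP}

theorem vis_iff (hEV : S_EV) (hp : 0 < p.1) : Vis c ρ τ p ↔ ∃ u ∈ Icc 0 p.1, u ≤ τ ∧
    ev p u ∈ closedBall c (5 * ρ) ∧ ∀ u' ∈ Icc u p.1, ev p u' ∈ closedBall c (9 * ρ) := by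
  obtain ⟨-, -, -, h1, h2, -⟩ := hEV.1 p hp
  have hm : ∀ s : unitInterval, (s : ℝ) * p.1 ∈ Icc 0 p.1 := fun s =>
    ⟨mul_nonneg s.2.1 hp.le, mul_le_of_le_one_left hp.le s.2.2⟩
  constructor
  · rintro ⟨s, a1, a2, a3⟩
    refine ⟨_, hm s, a1, (h1 s).symm ▸ a2, fun u hu => ?_⟩
    obtain ⟨s', e, e'⟩ := h2 u ⟨(hm s).1.trans hu.1, hu.2⟩
    exact e' ▸ a3 s' (Subtype.coe_le_coe.1
      (le_of_mul_le_mul_right (e.symm ▸ hu.1 : (s : ℝ) * p.1 ≤ s' * p.1) hp))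
  · rintro ⟨u, hu, a1, a2, a3⟩
    obtain ⟨s, rfl, e'⟩ := h2 u hu
    exact ⟨s, a1, e'.symm ▸ a2, fun s' hs => h1 s' ▸ a3 _
      ⟨mul_le_mul_of_nonneg_right hs hp.le, (hm s').2⟩⟩

/-- admissible cut times in real time -/
structure Ok (c : ℂ) (ρ δ : ℝ) (p : TP) (a b : ℝ) : Prop where
  a1 : ∀ u ∈ Icc 0 a, ev p u ∉ ball c (3 * ρ)
  a2 : ∃ u ∈ Icc 0 a, ev p u ∈ closedBall c (5 * ρ) ∧ ∀ v ∈ Icc u a, ev p v ∈ closedBall c (9 * ρ)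
  a3 : ∀ u ∈ Icc 0 a, u ≤ a - δ → ev p u ∈ closedBall c (5 * ρ) →
    ¬ ∀ v ∈ Icc u a, ev p v ∈ closedBall c (9 * ρ)
  m1 : ∀ u ∈ Icc a b, ev p u ∈ closedBall c (9 * ρ)
  m2 : ∃ u ∈ Icc a b, ev p u ∈ ball c (3 * ρ)
  b2 : ∃ w ∈ Icc b p.1, ev p w ∈ closedBall c (5 * ρ) ∧
    ∀ v ∈ Icc b w, ev p v ∈ closedBall c (9 * ρ)
  b3 : ∀ w ∈ Icc b p.1, b + δ ≤ w → ev p w ∈ closedBall c (5 * ρ) →
    ¬ ∀ v ∈ Icc b w, ev p v ∈ closedBall c (9 * ρ)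

theorem ok (hEV : S_EV) (ha : a ∈ Ioo 0 p.1) (ha' : a' ∈ Ioo 0 (p.1 - a))
    (h : pcs a a' p ∈ tri c ρ δ) : Ok c ρ δ p a (a + a') := by
  obtain ⟨⟨h1, h2, h3, -⟩, ⟨h4, h5⟩, -, h6, h7, -⟩ := h
  obtain ⟨e1, e2, e3, -⟩ := hEV.2.1 p a ha.1 ha.2
  obtain ⟨-, e5, e6, -⟩ := hEV.2.1 (tl a p) a' ha'.1 ha'.2
  have h0 : 0 < (tl a' (tl a p)).1 := sub_pos.2 ha'.2
  have e7 : ∀ w ∈ Icc (a + a') p.1, ev (trev (tl a' (tl a p))) (p.1 - w) = ev p w := fun w hw => by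
    have q1 := hw.1
    have q2 := hw.2
    have q3 := ha'.1
    rw [(hEV.1 _ h0).2.2.2.2.2.1, e5 _ ⟨by simp [tl]; linarith, by simp [tl]; linarith⟩,
      e2 _ ⟨by simp [tl]; linarith, by simp [tl]; linarith⟩]
    congr 1
    simp [tl]
    ring
  simp only [pcs] at h1 h2 h3 h4 h5 h6 h7
  rw [vis_iff hEV ha.1] at h2 h3
  rw [vis_iff (p := trev (tl a' (tl a p))) hEV h0] at h6 h7
  rw [e3] at h1
  rw [e6] at h4 h5
  have t1 : (hd a p).1 = a := rfl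
  have t2 : (trev (tl a' (tl a p))).1 = p.1 - a - a' := rfl
  have t3 : (tl a' (tl a p)).1 = p.1 - a - a' := rfl
  rw [t1] at h2 h3
  rw [t2, t3] at h6 h7
  refine ⟨fun u hu => disjoint_left.1 h1 ⟨u, hu, rfl⟩, ?_, fun u hu q1 q2 q3 => h3 ⟨u, hu, q1,
    (e1 u hu).symm ▸ q2, fun v hv => (e1 v ⟨hu.1.trans hv.1, hv.2⟩).symm ▸ q3 v hv⟩,
    fun u hu => h4 ⟨u - a, ⟨by linarith [hu.1], by linarith [hu.2]⟩, ?_⟩, ?_, ?_,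
    fun w hw q1 q2 q3 => h7 ⟨p.1 - w, ⟨by linarith [hw.2], by linarith [hw.1]⟩, by linarith,
      (e7 w hw).symm ▸ q2, fun v hv => ?_⟩⟩
  · obtain ⟨u, hu, -, q2, q3⟩ := h2
    exact ⟨u, hu, e1 u hu ▸ q2, fun v hv => e1 v ⟨hu.1.trans hv.1, hv.2⟩ ▸ q3 v hv⟩
  · rw [e2 _ ⟨by linarith [hu.1], by linarith [hu.2, ha'.2]⟩, add_sub_cancel]
  · obtain ⟨_, ⟨u, hu, rfl⟩, q⟩ := h5
    exact ⟨a + u, ⟨by linarith [hu.1], by linarith [hu.2]⟩,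
      e2 u ⟨hu.1, hu.2.trans ha'.2.le⟩ ▸ q⟩
  · obtain ⟨u, hu, -, q2, q3⟩ := h6
    have hw : p.1 - u ∈ Icc (a + a') p.1 := ⟨by linarith [hu.2], by linarith [hu.1]⟩
    refine ⟨_, hw, by rwa [← e7 _ hw, sub_sub_cancel], fun v hv => ?_⟩
    rw [← e7 v ⟨hv.1, hv.2.trans hw.2⟩]
    exact q3 _ ⟨by linarith [hv.2], by linarith [hv.1]⟩
  · have hv' : p.1 - v ∈ Icc (a + a') w := ⟨by linarith [hv.2], by linarith [hv.1]⟩
    have := q3 _ hv'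
    rwa [← e7 _ ⟨hv'.1, hv'.2.trans hw.2⟩, sub_sub_cancel] at this

theorem Ok.left {a₁ a₂ b₁ b₂ : ℝ} (h1 : Ok c ρ δ p a₁ b₁) (h2 : Ok c ρ δ p a₂ b₂) (hδ : 0 < δ) :
    a₂ - a₁ ≤ δ := by
  by_contra! h
  obtain ⟨u, hu, q1, q2⟩ := h1.a2
  obtain ⟨v, hv, q3⟩ := h1.m2
  have h3 : a₂ < v := not_le.1 fun h4 => h2.a1 v ⟨hu.1.trans (hu.2.trans hv.1), h4⟩ q3
  refine h2.a3 u ⟨hu.1, by linarith [hu.2]⟩ (by linarith [hu.2]) q1 fun w hw => ?_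
  rcases le_total w a₁ with h5 | h5
  · exact q2 w ⟨hw.1, h5⟩
  · exact h1.m1 w ⟨h5, by linarith [hw.2, hv.2]⟩

theorem Ok.right {b₁ b₂ : ℝ} (h1 : Ok c ρ δ p a b₁) (h2 : Ok c ρ δ p a b₂) (hδ : 0 < δ) :
    b₂ - b₁ ≤ δ := by
  by_contra! h
  obtain ⟨w, hw, q1, q2⟩ := h2.b2
  obtain ⟨v, hv, -⟩ := h1.m2
  refine h1.b3 w ⟨by linarith [hw.1], hw.2⟩ (by linarith [hw.1]) q1 fun u hu => ?_
  rcases le_total u b₂ with h5 | h5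
  · exact h2.m1 u ⟨by linarith [hu.1, hv.1, hv.2], h5⟩
  · exact q2 u ⟨h5, hu.2⟩

theorem bound {f : ℝ → ℝ≥0∞} {M : ℝ≥0∞} {x y : ℝ} (h1 : ∀ u ∈ Ioo x y, f u ≤ M)
    (h2 : ∀ u ∈ Ioo x y, ∀ v ∈ Ioo x y, f u ≠ 0 → f v ≠ 0 → v - u ≤ δ) :
    ∫⁻ u in Ioo x y, f u ≤ M * ENNReal.ofReal δ := by
  refine (setLIntegral_mono' (g := {u ∈ Ioo x y | f u ≠ 0}.indicator fun _ => M) measurableSet_Ioo
    fun u hu => ?_).trans ((lintegral_indicator_const_le _ _).trans (mul_le_mul_right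
      ((Measure.restrict_apply_le _ _).trans ((Real.volume_le_diam _).trans
        (ediam_le fun u hu v hv => ?_))) _))
  · by_cases h : f u = 0
    · simp [h]
    · rw [indicator_of_mem (show u ∈ {u ∈ Ioo x y | f u ≠ 0} from ⟨hu, h⟩)]
      exact h1 u hu
  · rw [edist_dist, Real.dist_eq]
    exact ENNReal.ofReal_le_ofReal (abs_sub_le_iff.2
      ⟨h2 v hv.1 u hu.1 hv.2 hu.2, h2 u hu.1 v hv.1 hu.2 hv.2⟩)

theorem ex_ok (hEV : S_EV) (ha : a ∈ Ioo 0 p.1)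
    (h : ∫⁻ a' in Ioo (0 : ℝ) (p.1 - a), (tri c ρ δ).indicator 1 (pcs a a' p) ≠ 0) :
    ∃ b < p.1, Ok c ρ δ p a b := by
  by_contra! h'
  refine h ((setLIntegral_congr_fun measurableSet_Ioo fun a' ha' => ?_).trans lintegral_zero)
  exact indicator_of_notMem (fun h1 => h' _ (by linarith [ha'.2]) (ok hEV ha ha' h1)) _

end WtaA

open WtaA in
theorem p_WTA (hEV : S_EV) :
    S_WTA := by
  intro c ρ _ p hp δ hδ
  constructor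
  · rw [sq, ENNReal.ofReal_mul hδ.le]
    refine bound (fun a ha => ?_) fun u hu v hv h1 h2 => ?_
    · refine (bound (M := 1) (fun u _ => ?_) fun u hu v hv h1 h2 => ?_).trans (one_mul _).le
      · exact indicator_apply_le' (fun _ => le_rfl) fun _ => zero_le
      have := (ok hEV ha hu (mem_of_indicator_ne_zero h1)).right
        (ok hEV ha hv (mem_of_indicator_ne_zero h2)) hδ
      linarith
    · obtain ⟨_, -, q1⟩ := ex_ok hEV hu h1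
      obtain ⟨_, -, q2⟩ := ex_ok hEV hv h2
      exact q1.left q2 hδ
  · intro h
    refine (setLIntegral_congr_fun measurableSet_Ioo fun a ha => ?_).trans lintegral_zero
    by_contra h1
    obtain ⟨b, hb, q⟩ := ex_ok hEV ha h1
    obtain ⟨u, hu, q1⟩ := q.m2
    rw [(hEV.1 p hp).2.2.1] at h
    exact disjoint_left.1 h ⟨u, ⟨ha.1.le.trans hu.1, hu.2.trans hb.le⟩, rfl⟩ q1

end Pool.Agent.P.MP_d66c6d_pr
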