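import Pool.Agent.P.MP_d66c6d_pr.U.Iface

/-! Step WTB of the carpet project. -/

namespace Pool.Agent.P.MP_d66c6d_pr

open MeasureTheory ProbabilityTheory Set Metric Filter Topology
open scoped ENNReal

namespace WtbA

variable {c : ℂ} {ρ τ : ℝ} {q : TP}

theorem mem_Icc_mul (hq : 0 < q.1) (s : unitInterval) : (s : ℝ) * q.1 ∈ Icc 0 q.1 :=
  ⟨mul_nonneg s.2.1 hq.le, mul_le_of_le_one_left hq.le s.2.2⟩

theorem vis (hEV : S_EV) (hq : 0 < q.1) : Vis c ρ τ q ↔ ∃ u ∈ Icc 0 q.1, u ≤ τ ∧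
    ev q u ∈ closedBall c (5 * ρ) ∧ ∀ v ∈ Icc u q.1, ev q v ∈ closedBall c (9 * ρ) := by
  obtain ⟨-, -, -, h1, h2, -⟩ := hEV.1 q hq
  constructor
  · rintro ⟨s, a1, a2, a3⟩
    refine ⟨_, mem_Icc_mul hq s, a1, (h1 s).symm ▸ a2, fun v hv => ?_⟩
    obtain ⟨s', rfl, e⟩ := h2 v ⟨(mem_Icc_mul hq s).1.trans hv.1, hv.2⟩
    exact e ▸ a3 s' (Subtype.coe_le_coe.1 (le_of_mul_le_mul_right hv.1 hq))
  · rintro ⟨u, hu, a1, a2, a3⟩
    obtain ⟨s, rfl, e⟩ := h2 u hu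
    exact ⟨s, a1, e ▸ a2, fun s' hs => h1 s' ▸
      a3 _ ⟨mul_le_mul_of_nonneg_right hs hq.le, (mem_Icc_mul hq s').2⟩⟩

theorem adm (hEV : S_EV) (hq : 0 < q.1) : AdmS c ρ q.2 ↔ ∀ u ∈ Icc 0 q.1,
    (∀ v ∈ Icc 0 u, ev q v ∈ closedBall c (9 * ρ)) → ev q u ∉ closedBall c (3 * ρ) := by
  obtain ⟨-, -, -, h1, h2, -⟩ := hEV.1 q hq
  constructor
  · intro h u hu a
    obtain ⟨s, rfl, e⟩ := h2 u hu
    exact e ▸ h s fun s' hs => h1 s' ▸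
      a _ ⟨(mem_Icc_mul hq s').1, mul_le_mul_of_nonneg_right hs hq.le⟩
  · intro h s a
    refine h1 s ▸ h _ (mem_Icc_mul hq s) fun v hv => ?_
    obtain ⟨s', rfl, e⟩ := h2 v ⟨hv.1, hv.2.trans (mem_Icc_mul hq s).2⟩
    exact e ▸ a s' (Subtype.coe_le_coe.1 (le_of_mul_le_mul_right hv.2 hq))

theorem side (hEV : S_EV) (hρ : 0 < ρ) {e : ℝ → ℂ} (he : Continuous e) (h0 : 0 ≤ τ)
    (h3 : e τ ∈ closedBall c (3 * ρ)) (h9 : ¬ ∀ v ∈ Icc 0 τ, e v ∈ closedBall c (9 * ρ)) :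
    ∃ s > 0, ∃ δ₀ > 0, s + δ₀ ≤ τ ∧ ∀ δ ∈ Ioo 0 δ₀, ∀ a ∈ Ioo s (s + δ),
      (∀ v ∈ Icc a τ, e v ∈ closedBall c (9 * ρ)) ∧ ∀ q : TP, q.1 = a →
        (∀ u ∈ Icc 0 a, ev q u = e u) → AdmS c ρ (trev q).2 ∧ Vis c ρ q.1 q ∧
          ¬ Vis c ρ (q.1 - δ) q ∧ q.2 1 ∈ An5 c ρ := by
  simp only [mem_closedBall] at h3 h9 ⊢
  have hd : Continuous fun u => dist (e u) c := by fun_prop
  let S : Set ℝ := Icc 0 τ ∩ ({u | dist (e u) c ≤ 5 * ρ} ∩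
    ⋂ v ∈ Iic τ, {u | dist (e (max u v)) c ≤ 9 * ρ})
  have mS : ∀ u, u ∈ S ↔ u ∈ Icc 0 τ ∧ dist (e u) c ≤ 5 * ρ ∧
      ∀ v ∈ Icc u τ, dist (e v) c ≤ 9 * ρ := fun u => by
    simp only [S, mem_inter_iff, mem_iInter, mem_ofPred_eq]
    exact and_congr_right fun hu => and_congr_right fun _ =>
      ⟨fun h v hv => max_eq_right hv.1 ▸ h v hv.2,
        fun h v hv => h _ ⟨le_max_left _ _, max_le hu.2 hv⟩⟩
  have cS : IsCompact S := isCompact_Icc.inter_right ((isClosed_le hd continuous_const).inter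
    (isClosed_biInter fun v _ => isClosed_le (by fun_prop) continuous_const))
  obtain ⟨s, hs, hl⟩ := cS.exists_isLeast ⟨τ, (mS τ).2 ⟨⟨h0, le_rfl⟩, by linarith,
    fun v hv => by rw [hv.2.antisymm hv.1]; linarith⟩⟩
  obtain ⟨s1, s2, s3⟩ := (mS s).1 hs
  have s0 : 0 < s := s1.1.lt_of_ne fun h => h9 (h ▸ s3)
  have key : ∀ u a, 0 ≤ u → s ≤ a → u ≤ a → a ≤ τ → dist (e u) c ≤ 5 * ρ →
      (∀ v ∈ Icc u a, dist (e v) c ≤ 9 * ρ) → s ≤ u := fun u a a1 a2 a3 a4 a5 a6 =>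
    hl ((mS u).2 ⟨⟨a1, a3.trans a4⟩, a5, fun v hv => (le_total v a).elim
      (fun h => a6 v ⟨hv.1, h⟩) fun h => s3 v ⟨a2.trans h, hv.2⟩⟩)
  have s5 : dist (e s) c = 5 * ρ := s2.eq_of_not_lt fun h => by
    obtain ⟨ε, e0, e1⟩ := Metric.isOpen_iff.1 (isOpen_lt hd continuous_const) s h
    have e2 : ∀ v ∈ Icc (max 0 (s - ε / 2)) s, dist (e v) c < 5 * ρ := fun v hv => e1 (by
      have := (le_max_right _ _).trans hv.1
      rw [Real.ball_eq_Ioo]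
      constructor <;> linarith [hv.2])
    have e3 : max 0 (s - ε / 2) < s := max_lt s0 (by linarith)
    exact e3.not_ge (key _ s (le_max_left _ _) le_rfl e3.le s1.2 (e2 _ ⟨le_rfl, e3.le⟩).le
      fun v hv => by linarith [e2 v hv])
  obtain ⟨δ₀, d0, d1⟩ := Metric.continuous_iff.1 hd s (ρ / 2) (half_pos hρ)
  have d2 : ∀ u, s ≤ u → u < s + δ₀ → e u ∈ An5 c ρ := fun u a1 a2 => by
    have := d1 u (by rw [Real.dist_eq, abs_lt]; constructor <;> linarith)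
    rw [s5, Real.dist_eq, abs_lt] at this
    constructor <;> linarith [this.1, this.2]
  have d3 : s + δ₀ ≤ τ := not_lt.1 fun h => by linarith [(d2 τ s1.2 h).1]
  refine ⟨s, s0, δ₀, d0, d3, fun δ hδ a ha => ⟨fun v hv => s3 v ⟨ha.1.le.trans hv.1, hv.2⟩, ?_⟩⟩
  rintro q rfl hq
  have q0 : 0 < q.1 := s0.trans ha.1
  have q1 : q.1 < s + δ₀ := by linarith [ha.2, hδ.2]
  have q2 := q1.le.trans d3
  obtain ⟨-, b1, -, -, -, b2, -⟩ := hEV.1 q q0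
  refine ⟨(adm hEV (q := trev q) q0).2 fun u hu a b => ?_, (vis hEV q0).2 ⟨s, ⟨s0.le, ha.1.le⟩,
    ha.1.le, ?_, fun v hv => ?_⟩, fun h => ?_, ?_⟩
  · have hu' : q.1 - u ∈ Icc 0 q.1 := ⟨sub_nonneg.2 hu.2, sub_le_self _ hu.1⟩
    rw [b2, hq _ hu', mem_closedBall] at b
    have := key _ _ hu'.1 ha.1.le hu'.2 q2 (by linarith) fun v hv => by
      have := a (q.1 - v) ⟨sub_nonneg.2 hv.2, by linarith [hv.1]⟩
      rwa [b2, sub_sub_cancel, hq v ⟨hu'.1.trans hv.1, hv.2⟩] at this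
    linarith [(d2 _ this (hu'.2.trans_lt q1)).1]
  · rwa [hq s ⟨s0.le, ha.1.le⟩]
  · rw [hq v ⟨s0.le.trans hv.1, hv.2⟩]
    exact s3 v ⟨hv.1, hv.2.trans q2⟩
  · obtain ⟨u, hu, a1, a2, a3⟩ := (vis hEV q0).1 h
    rw [hq u hu] at a2
    have := key u _ hu.1 ha.1.le hu.2 q2 a2 fun v hv => by
      have := a3 v hv
      rwa [hq v ⟨hu.1.trans hv.1, hv.2⟩] at this
    linarith [ha.2]
  · rw [← b1, hq _ ⟨q0.le, le_rfl⟩]
    exact d2 _ ha.1.le q1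

end WtbA

open WtbA

theorem p_WTB (hEV : S_EV) :
    S_WTB := by
  intro c ρ hρ p hp h1 h2 h3
  obtain ⟨-, -, b1, -, -, b2, -⟩ := hEV.1 p hp
  let A : Set ℝ := Icc 0 p.1 ∩ ev p ⁻¹' ball c (3 * ρ)
  have A0 : A.Nonempty := by
    obtain ⟨z, z1, z2⟩ := h3
    rw [b1] at z1
    obtain ⟨u, hu, rfl⟩ := z1
    exact ⟨u, hu, z2⟩
  have A1 : BddBelow A := bddBelow_Icc.mono inter_subset_left
  obtain ⟨t1, t2⟩ : sInf A ∈ Icc 0 p.1 ∩ ev p ⁻¹' closedBall c (3 * ρ) :=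
    closure_minimal (inter_subset_inter_right _ (preimage_mono ball_subset_closedBall))
      (isClosed_Icc.inter (isClosed_closedBall.preimage (continuous_ev p))) (csInf_mem_closure A0 A1)
  have t3 : p.1 - sInf A ∈ Icc 0 p.1 := ⟨sub_nonneg.2 t1.2, sub_le_self _ t1.1⟩
  have t4 : ev (trev p) (p.1 - sInf A) ∈ closedBall c (3 * ρ) := by rwa [b2, sub_sub_cancel]
  obtain ⟨s, s0, δ₀, d0, d1, H⟩ := side hEV hρ (continuous_ev p) t1.1 t2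
    fun h => (adm hEV hp).1 h1 _ t1 h t2
  obtain ⟨s', s0', δ₁, d0', d1', H'⟩ := side hEV hρ (continuous_ev (trev p)) t3.1 t4
    fun h => (adm hEV (q := trev p) hp).1 h2 _ t3 h t4
  refine ⟨min δ₀ δ₁, lt_min d0 d0', fun δ hδ => ?_⟩
  have e0 := hδ.2.trans_le (min_le_left _ _)
  have e1 := hδ.2.trans_le (min_le_right _ _)
  have key : ∀ a ∈ Ioo s (s + δ), ∀ a' ∈ Ioo (p.1 - a - s' - δ) (p.1 - a - s'),
      pcs a a' p ∈ tri c ρ δ := fun a ha a' ha' => by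
    have a0 := s0.trans ha.1
    have a1 : a < sInf A := by linarith [ha.2]
    have a2 : sInf A < a + a' := by linarith [ha'.1]
    have a3 : 0 < a' := by linarith
    have a4 : a' < (tl a p).1 := by change a' < p.1 - a; linarith [ha'.2]
    obtain ⟨c1, c2, c3, -⟩ := hEV.2.1 p a a0 (a1.trans_le t1.2)
    obtain ⟨-, f2, f3, -⟩ := hEV.2.1 (tl a p) a' a3 a4
    obtain ⟨g1, g2⟩ := H δ ⟨hδ.1, e0⟩ a ha
    obtain ⟨g3, g4⟩ := H' δ ⟨hδ.1, e1⟩ (p.1 - a - a') ⟨by linarith [ha'.2], by linarith [ha'.1]⟩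
    obtain ⟨-, -, -, -, -, k1, k2, -, -, k3⟩ := hEV.1 (tl a' (tl a p)) (sub_pos.2 a4)
    have g5 := g4 (trev (tl a' (tl a p))) rfl fun u hu => by
      change u ∈ Icc 0 (p.1 - a - a') at hu
      have e : (tl a' (tl a p)).1 = p.1 - a - a' := rfl
      rw [k1, b2, e, f2 (p.1 - a - a' - u) ⟨sub_nonneg.2 hu.2, sub_le_self _ hu.1⟩,
        c2 _ ⟨by linarith [hu.2], by linarith [hu.1]⟩]
      congr 1
      ring
    rw [k2, k3] at g5
    have a5 : a' < p.1 - a := a4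
    refine ⟨⟨?_, (g2 _ rfl c1).2⟩, ⟨?_, ?_⟩, g5⟩
    · change Disjoint (range (hd a p).2) _
      rw [c3, disjoint_left]
      rintro _ ⟨u, hu, rfl⟩ h
      exact (hu.2.trans_lt a1).not_ge (csInf_le A1 ⟨⟨hu.1, hu.2.trans (a1.le.trans t1.2)⟩, h⟩)
    · change range (hd a' (tl a p)).2 ⊆ _
      rw [f3]
      rintro _ ⟨u, hu, rfl⟩
      rw [c2 u ⟨hu.1, hu.2.trans a5.le⟩]
      rcases le_total (a + u) (sInf A) with h | h
      · exact g1 _ ⟨le_add_of_nonneg_right hu.1, h⟩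
      · have := g3 (p.1 - (a + u)) ⟨by linarith [hu.2], by linarith⟩
        rwa [b2, sub_sub_cancel] at this
    · change (range (hd a' (tl a p)).2 ∩ _).Nonempty
      obtain ⟨u, hu, h⟩ := exists_lt_of_csInf_lt A0 a2
      have := csInf_le A1 hu
      refine ⟨_, ?_, hu.2⟩
      rw [f3]
      exact ⟨u - a, ⟨by linarith, by linarith⟩, by
        rw [c2 _ ⟨by linarith, by linarith⟩, add_sub_cancel]⟩
  calc ENNReal.ofReal (δ ^ 2) = ∫⁻ _ in Ioo s (s + δ), ENNReal.ofReal δ := by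
        simp [sq, ENNReal.ofReal_mul hδ.1.le]
    _ ≤ ∫⁻ a in Ioo s (s + δ), ∫⁻ a' in Ioo 0 (p.1 - a),
          (tri c ρ δ).indicator 1 (pcs a a' p) := by
        refine setLIntegral_mono' measurableSet_Ioo fun a ha => ?_
        calc ENNReal.ofReal δ = ∫⁻ _ in Ioo (p.1 - a - s' - δ) (p.1 - a - s'), 1 := by simp
          _ ≤ ∫⁻ a' in Ioo (p.1 - a - s' - δ) (p.1 - a - s'),
              (tri c ρ δ).indicator 1 (pcs a a' p) :=
            setLIntegral_mono' measurableSet_Ioo fun a' ha' => by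
              rw [indicator_of_mem (key a ha a' ha')]; rfl
          _ ≤ _ := lintegral_mono_set (Ioo_subset_Ioo (by linarith [ha.2]) (by linarith))
    _ ≤ _ := lintegral_mono_set (Ioo_subset_Ioo s0.le (by linarith [t1.2]))

end Pool.Agent.P.MP_d66c6d_pr
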