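import Pool.Agent.P.MP_d66c6d_pr.U.Iface

/-! Step WTC of the carpet project. -/

namespace Pool.Agent.P.MP_d66c6d_pr

open MeasureTheory ProbabilityTheory Set Metric Filter Topology
open scoped ENNReal

namespace WtcA

theorem rev_apply (γ : Br) (s : unitInterval) : rev γ s = γ (unitInterval.symm s) := by
  rw [rev, sub_apply]
  congr 1
  rw [← projIcc_val zero_le_one (unitInterval.symm s), unitInterval.coe_symm_eq]
  congr 1
  ring

theorem admS_rev {c : ℂ} {ρ : ℝ} {γ : Br} : AdmS c ρ (rev γ) ↔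
    ∀ s : unitInterval, (∀ s', s ≤ s' → γ s' ∈ closedBall c (9 * ρ)) →
      γ s ∉ closedBall c (3 * ρ) := by
  constructor
  · intro h s hs
    have := h (unitInterval.symm s) fun s' hs' => by
      rw [rev_apply]
      exact hs _ (unitInterval.le_symm_comm.1 hs')
    rwa [rev_apply, unitInterval.symm_symm] at this
  · intro h s hs
    rw [rev_apply]
    refine h _ fun s' hs' => ?_
    have := hs (unitInterval.symm s') (unitInterval.symm_le_comm.1 hs')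
    rwa [rev_apply, unitInterval.symm_symm] at this

/-- `ω` is a final part of `γ` -/
structure Tail (γ ω : Br) (φ : unitInterval → unitInterval) : Prop where
  mono : Monotone φ
  eq : ∀ s, γ (φ s) = ω s
  sur : ∀ s s', φ s ≤ s' → ∃ s'', s ≤ s'' ∧ φ s'' = s'

theorem Tail.comp {γ η ω : Br} {φ ψ : unitInterval → unitInterval} (h : Tail γ η φ)
    (h' : Tail η ω ψ) : Tail γ ω (φ ∘ ψ) where
  mono := h.mono.comp h'.mono
  eq s := (h.eq _).trans (h'.eq s)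
  sur s s' hs := by
    obtain ⟨a, ha, rfl⟩ := h.sur _ _ hs
    obtain ⟨b, hb, rfl⟩ := h'.sur _ _ ha
    exact ⟨b, hb, rfl⟩

theorem Tail.cr {c : ℂ} {ρ : ℝ} {γ ω : Br} {φ : unitInterval → unitInterval} (h : Tail γ ω φ)
    (k : ℕ) : ∀ u, Cr c ρ ω k u → Cr c ρ γ k (φ u) := by
  induction k with
  | zero => exact fun _ _ => trivial
  | succ k ih =>
    rintro u ⟨s, h1, h2, s', h3, h4, h5⟩
    exact ⟨φ s, h.mono h1, h.eq s ▸ h2, φ s', h.mono h3, h.eq s' ▸ h4, ih _ h5⟩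

theorem Tail.main {c : ℂ} {ρ : ℝ} {γ ω : Br} {φ : unitInterval → unitInterval} (h : Tail γ ω φ)
    {s₀ : unitInterval} (h0 : s₀ ≤ φ 0) (h1 : γ s₀ ∈ ball c (3 * ρ)) (hω : AdmS c ρ ω)
    (hγ : AdmS c ρ (rev γ)) :
    AdmS c ρ (rev ω) ∧ ∀ k, Cr c ρ ω k 0 → Cr c ρ γ (k + 1) 0 := by
  rw [admS_rev] at hγ ⊢
  refine ⟨fun s hs => ?_, fun k hk => ?_⟩
  · rw [← h.eq]
    refine hγ _ fun s' hs' => ?_
    obtain ⟨a, ha, rfl⟩ := h.sur _ _ hs'
    rw [h.eq]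
    exact hs a ha
  · cases k with
    | zero =>
      have := mt (hγ s₀) (not_not.2 (ball_subset_closedBall h1))
      simp only [not_forall] at this
      obtain ⟨s', h2, h3⟩ := this
      exact ⟨s₀, unitInterval.nonneg', h1, s', h2, h3, trivial⟩
    | succ k =>
      obtain ⟨s, -, h2, h3⟩ := hk
      have := mt (hω s) (not_not.2 (ball_subset_closedBall h2))
      simp only [not_forall] at this
      obtain ⟨s', h4, h5⟩ := this
      exact ⟨s₀, unitInterval.nonneg', h1, φ s', h0.trans (h.mono unitInterval.nonneg'),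
        h.eq s' ▸ h5, h.cr (k + 1) s' ⟨s, h4, h2, h3⟩⟩

theorem tail_tcat (hEV : S_EV) (p q : TP) (hp : 0 < p.1) (hq : 0 < q.1) (e : p.2 1 = q.2 0) :
    ∃ φ, Tail (tcat p q).2 q.2 φ ∧ ∀ s, ∃ s₀ ≤ φ 0, (tcat p q).2 s₀ = p.2 s := by
  obtain ⟨h1, -, h3, -⟩ := hEV
  obtain ⟨-, -, h4, h5, -⟩ := h3 p q hp hq e
  have hT : 0 < p.1 + q.1 := add_pos hp hq
  have h6 : ∀ s : unitInterval, ev (tcat p q) ((s : ℝ) * (p.1 + q.1)) = (tcat p q).2 s :=
    (h1 (tcat p q) hT).2.2.2.1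
  have hm : ∀ (s : unitInterval) (x : ℝ), 0 < x → (s : ℝ) * x ∈ Icc 0 x := fun s x hx =>
    ⟨mul_nonneg s.2.1 hx.le, mul_le_of_le_one_left hx.le s.2.2⟩
  let φ : unitInterval → unitInterval := fun s => ⟨(p.1 + s * q.1) / (p.1 + q.1),
    div_nonneg (add_nonneg hp.le (hm s _ hq).1) hT.le,
    (div_le_one hT).2 (by linarith [(hm s _ hq).2])⟩
  have hφ : ∀ s, (φ s : ℝ) * (p.1 + q.1) = p.1 + s * q.1 := fun s => div_mul_cancel₀ _ hT.ne'
  refine ⟨φ, ⟨fun s s' hs => ?_, fun s => ?_, fun s s' hs => ?_⟩, fun s => ?_⟩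
  · have hs' : (s : ℝ) ≤ s' := hs
    show (p.1 + s * q.1) / (p.1 + q.1) ≤ (p.1 + s' * q.1) / (p.1 + q.1)
    gcongr
  · rw [← h6, hφ, h5 _ (hm s _ hq), (h1 q hq).2.2.2.1]
  · have hs' : p.1 + s * q.1 ≤ s' * (p.1 + q.1) := (div_le_iff₀ hT).1 hs
    have h7 : (s : ℝ) ≤ (s' * (p.1 + q.1) - p.1) / q.1 := (le_div_iff₀ hq).2 (by linarith)
    refine ⟨⟨(s' * (p.1 + q.1) - p.1) / q.1, s.2.1.trans h7,
      (div_le_one hq).2 (by linarith [(hm s' _ hT).2])⟩, h7, Subtype.ext ?_⟩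
    show (p.1 + (s' * (p.1 + q.1) - p.1) / q.1 * q.1) / (p.1 + q.1) = s'
    field_simp
    ring
  · refine ⟨⟨s * p.1 / (p.1 + q.1), div_nonneg (hm s _ hp).1 hT.le,
      (div_le_one hT).2 (by linarith [(hm s _ hp).2])⟩, ?_, ?_⟩
    · show s * p.1 / (p.1 + q.1) ≤ (p.1 + ((0 : unitInterval) : ℝ) * q.1) / (p.1 + q.1)
      gcongr
      simpa using (hm s _ hp).2
    · rw [← h6]
      show ev (tcat p q) (s * p.1 / (p.1 + q.1) * (p.1 + q.1)) = _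
      rw [div_mul_cancel₀ _ hT.ne', h4 _ (hm s _ hp), (h1 p hp).2.2.2.1]

end WtcA

open WtcA in
theorem p_WTC (hEV : S_EV) (hUM : S_UM) :
    S_WTC := by
  intro c ρ δ _ α β ω hα hβ hω e1 e2 ht hr
  have _ := hUM
  obtain ⟨ψ, hψ, hh⟩ := tail_tcat hEV β ω hβ hω e2
  have e3 : α.2 1 = (tcat β ω).2 0 := e1.trans (hEV.2.2.1 β ω hβ hω e2).2.2.2.2.2.1.symm
  obtain ⟨φ, hφ, -⟩ := tail_tcat hEV α (tcat β ω) hα (add_pos hβ hω) e3
  obtain ⟨_, ⟨s, rfl⟩, hs⟩ := ht.2.1.2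
  obtain ⟨s₀, h0, h1⟩ := hh s
  exact (hφ.comp hψ).main (s₀ := φ s₀) (hφ.mono h0) (by rw [hφ.eq, h1]; exact hs) ht.2.2.1 hr

end Pool.Agent.P.MP_d66c6d_pr
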